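import Pool.Agent.Lib.MP_d431d3_nt.Cone

/-! One-step affinity losses and the translation deficiency. -/

namespace Pool.Agent.MP_d431d3_nt

open Real Finset MeasureTheory

lemma le_of_sq {a b : ℝ} (hb : 0 ≤ b) (h : a ^ 2 ≤ b ^ 2) : a ≤ b :=
  (abs_le_of_sq_le_sq' h hb).2

lemma hell_alg {A0 A1 B0 B1 l : ℝ} (hA0 : 0 ≤ A0) (hA1 : 0 ≤ A1) (hB0 : 0 ≤ B0) (hB1 : 0 ≤ B1)
    (hS : 0 < (A0 + A1) * (B0 + B1)) (hl1 : l ≤ 1)
    (h : l * ((A0 + A1) * (B0 + B1)) ^ 2 ≤ (A0 * B1 - A1 * B0) ^ 2) :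
    √(A0 * B0) + √(A1 * B1) ≤ √((A0 + A1) * (B0 + B1)) * (1 - l / 2) := by
  obtain ⟨a0, ha0, rfl⟩ : ∃ a, 0 ≤ a ∧ A0 = a ^ 2 := ⟨√A0, sqrt_nonneg _, (sq_sqrt hA0).symm⟩
  obtain ⟨a1, ha1, rfl⟩ : ∃ a, 0 ≤ a ∧ A1 = a ^ 2 := ⟨√A1, sqrt_nonneg _, (sq_sqrt hA1).symm⟩
  obtain ⟨b0, hb0, rfl⟩ : ∃ a, 0 ≤ a ∧ B0 = a ^ 2 := ⟨√B0, sqrt_nonneg _, (sq_sqrt hB0).symm⟩
  obtain ⟨b1, hb1, rfl⟩ : ∃ a, 0 ≤ a ∧ B1 = a ^ 2 := ⟨√B1, sqrt_nonneg _, (sq_sqrt hB1).symm⟩
  rw [← mul_pow, ← mul_pow, sqrt_sq (by positivity), sqrt_sq (by positivity)]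
  set S := (a0 ^ 2 + a1 ^ 2) * (b0 ^ 2 + b1 ^ 2) with hSdef
  have e1 : (a0 * b0 + a1 * b1) ^ 2 = S - (a0 * b1 - a1 * b0) ^ 2 := by rw [hSdef]; ring
  have e2 : (a0 * b1 + a1 * b0) ^ 2 ≤ S := by rw [hSdef]; nlinarith [sq_nonneg (a0 * b0 - a1 * b1)]
  have e3 : (a0 ^ 2 * b1 ^ 2 - a1 ^ 2 * b0 ^ 2) ^ 2 ≤ (a0 * b1 - a1 * b0) ^ 2 * S := by
    calc _ = (a0 * b1 - a1 * b0) ^ 2 * (a0 * b1 + a1 * b0) ^ 2 := by ring
      _ ≤ _ := by gcongr
  have e4 : l * S ≤ (a0 * b1 - a1 * b0) ^ 2 := by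
    refine le_of_mul_le_mul_right ?_ hS
    nlinarith
  refine le_of_sq (mul_nonneg (sqrt_nonneg _) (by linarith)) ?_
  rw [mul_pow, sq_sqrt hS.le, e1]
  nlinarith [mul_nonneg hS.le (sq_nonneg l)]

lemma amgm_alg {A0 A B0 B : ℝ} (hA0 : 0 ≤ A0) (hB0 : 0 ≤ B0) (hA : 0 < A) (hB : 0 < B) :
    √(A0 * B0) ≤ √(A * B) * ((A0 / A + B0 / B) / 2) := by
  refine le_of_sq (by positivity) ?_
  rw [mul_pow, sq_sqrt (by positivity), sq_sqrt (by positivity)]
  have : A0 * B0 = A * B * (A0 / A * (B0 / B)) := by field_simp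
  rw [this]
  gcongr
  nlinarith [sq_nonneg (A0 / A - B0 / B)]

lemma q_two (j : ℕ) (u : ℝ) :
    q (j + 1) (2 * u) = (q j u * ph u + q j (u + 1 / 2) * ph (u + 1 / 2)) / 2 := by
  rw [q_succ]; simp only [T]; rw [show 2 * u / 2 = u by ring]

lemma cross_lower (j : ℕ) {u v : ℝ} (h : |sin (π * v)| ≤ |sin (π * u)|) :
    4 * mm j ^ 2 * (sin (π * u) ^ 2 - sin (π * v) ^ 2) ≤
      q j u * ph u * (q j (v + 1 / 2) * ph (v + 1 / 2))
        - q j (u + 1 / 2) * ph (u + 1 / 2) * (q j v * ph v) := by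
  have su := sin_sq_add_cos_sq (π * u)
  have sv := sin_sq_add_cos_sq (π * v)
  rw [← sq_abs (sin _), ← sq_abs (cos _)] at su sv
  have hc : |cos (π * u)| ≤ |cos (π * v)| := by
    refine le_of_sq (abs_nonneg _) ?_
    nlinarith [abs_nonneg (sin (π * v))]
  have h1 : q j v ≤ q j u := q_mono_sin j h
  have h2 : q j (u + 1 / 2) ≤ q j (v + 1 / 2) := by
    refine q_mono_sin j ?_
    have a := ph_half u
    have b := ph_half v
    rw [ph_eq] at a b
    linarith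
  rw [ph_half, ph_half, ph_eq, ph_eq, ← sq_abs (sin (π * u)), ← sq_abs (sin (π * v))]
  set s := |sin (π * u)|
  set c := |cos (π * u)|
  set s' := |sin (π * v)|
  set c' := |cos (π * v)|
  have hs : 0 ≤ s := abs_nonneg _
  have hc0 : 0 ≤ c := abs_nonneg _
  have hs' : 0 ≤ s' := abs_nonneg _
  have hc' : 0 ≤ c' := abs_nonneg _
  have d0 : 0 ≤ s * c' - c * s' := by nlinarith [mul_le_mul h hc hc0 hs]
  have d1 : s ^ 2 - s' ^ 2 ≤ s * c' - c * s' := by
    have e : s ^ 2 - s' ^ 2 = (s * c' - c * s') * (s * c' + c * s') := by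
      have : s ^ 2 - s' ^ 2 = s ^ 2 * (s' ^ 2 + c' ^ 2) - s' ^ 2 * (s ^ 2 + c ^ 2) := by
        rw [su, sv]; ring
      rw [this]; ring
    have e2 : s * c' + c * s' ≤ 1 := by nlinarith [sq_nonneg (s - c'), sq_nonneg (c - s')]
    rw [e]; nlinarith
  have m1 := mm_le_q j v
  have m2 := mm_le_q j (u + 1 / 2)
  have m0 := mm_pos j
  have m3 : mm j ^ 2 ≤ q j v * q j (u + 1 / 2) := by
    rw [sq]; exact mul_le_mul m1 m2 m0.le (by linarith)
  have m4 : q j v * q j (u + 1 / 2) ≤ q j u * q j (v + 1 / 2) :=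
    mul_le_mul h1 h2 (by linarith) (by linarith)
  calc 4 * mm j ^ 2 * (s ^ 2 - s' ^ 2) ≤ 4 * mm j ^ 2 * (s * c' - c * s') := by gcongr
    _ ≤ 4 * (q j v * q j (u + 1 / 2)) * (s * c' - c * s') := by gcongr
    _ = 4 * (q j v * q j (u + 1 / 2)) * (s * c') - 4 * (q j v * q j (u + 1 / 2)) * (c * s') := by
      ring
    _ ≤ 4 * (q j u * q j (v + 1 / 2)) * (s * c') - 4 * (q j v * q j (u + 1 / 2)) * (c * s') := by
      gcongr
    _ = _ := by ring

/-- Loss when the two points have different distances to the integers. -/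
lemma step_loss (j : ℕ) (u v : ℝ) :
    (√(q j u * ph u * (q j v * ph v)) +
      √(q j (u + 1 / 2) * ph (u + 1 / 2) * (q j (v + 1 / 2) * ph (v + 1 / 2)))) / 2 ≤
      √(q (j + 1) (2 * u) * q (j + 1) (2 * v)) *
        (1 - sin (π * (u - v)) ^ 2 * sin (π * (u + v)) ^ 2 / 32) := by
  have el : sin (π * (u - v)) ^ 2 * sin (π * (u + v)) ^ 2
      = (sin (π * u) ^ 2 - sin (π * v) ^ 2) ^ 2 := by
    rw [mul_sub, mul_add, sin_sub, sin_add, ← mul_pow]
    congr 1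
    have su := sin_sq_add_cos_sq (π * u)
    have sv := sin_sq_add_cos_sq (π * v)
    have : sin (π * u) ^ 2 - sin (π * v) ^ 2 = sin (π * u) ^ 2 * (sin (π * v) ^ 2 + cos (π * v) ^ 2)
        - sin (π * v) ^ 2 * (sin (π * u) ^ 2 + cos (π * u) ^ 2) := by rw [su, sv]; ring
    rw [this]; ring
  set l := sin (π * (u - v)) ^ 2 * sin (π * (u + v)) ^ 2 with hl
  have hl1 : l ≤ 1 := by
    have a := sin_sq_le_one (π * (u - v))
    have b := sin_sq_le_one (π * (u + v))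
    rw [hl]; nlinarith [sq_nonneg (sin (π * (u - v)))]
  have hl0 : 0 ≤ l := by positivity
  set A0 := q j u * ph u with hA0
  set A1 := q j (u + 1 / 2) * ph (u + 1 / 2) with hA1
  set B0 := q j v * ph v with hB0
  set B1 := q j (v + 1 / 2) * ph (v + 1 / 2) with hB1
  have eA : A0 + A1 = 2 * q (j + 1) (2 * u) := by rw [q_two]; ring
  have eB : B0 + B1 = 2 * q (j + 1) (2 * v) := by rw [q_two]; ring
  have pu := q_pos (j + 1) (2 * u)
  have pv := q_pos (j + 1) (2 * v)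
  have m0 := mm_pos j
  have hS : (A0 + A1) * (B0 + B1) ≤ 16 * mm j ^ 2 := by
    rw [eA, eB]
    have a := (q_le_mm (j + 1) (2 * u)).trans (mm_two_le j)
    have b := (q_le_mm (j + 1) (2 * v)).trans (mm_two_le j)
    nlinarith [mul_le_mul a b pv.le (by positivity)]
  have hS0 : 0 < (A0 + A1) * (B0 + B1) := by rw [eA, eB]; positivity
  have hD : (4 * mm j ^ 2) ^ 2 * l ≤ (A0 * B1 - A1 * B0) ^ 2 := by
    rw [el, ← mul_pow]
    rcases le_total |sin (π * v)| |sin (π * u)| with h | h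
    · have h1 := cross_lower j h
      have h2 : 0 ≤ sin (π * u) ^ 2 - sin (π * v) ^ 2 := by
        have := sq_le_sq.2 h; linarith
      exact pow_le_pow_left₀ (by positivity) h1 2
    · have h1 := cross_lower j h
      have h2 : 0 ≤ sin (π * v) ^ 2 - sin (π * u) ^ 2 := by
        have := sq_le_sq.2 h; linarith
      have := pow_le_pow_left₀ (by positivity) h1 2
      nlinarith
  have key := hell_alg (A0 := A0) (A1 := A1) (B0 := B0) (B1 := B1) (l := l / 16)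
    (mul_nonneg (q_pos _ _).le (ph_nonneg _)) (mul_nonneg (q_pos _ _).le (ph_nonneg _))
    (mul_nonneg (q_pos _ _).le (ph_nonneg _)) (mul_nonneg (q_pos _ _).le (ph_nonneg _)) hS0
    (by linarith) (by
      refine le_trans ?_ hD
      have := pow_le_pow_left₀ hS0.le hS 2
      nlinarith)
  rw [eA, eB, show 2 * q (j + 1) (2 * u) * (2 * q (j + 1) (2 * v))
    = 2 ^ 2 * (q (j + 1) (2 * u) * q (j + 1) (2 * v)) by ring, sqrt_mul (by norm_num : (0 : ℝ) ≤ 2 ^ 2),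
    sqrt_sq (by norm_num)] at key
  linarith

/-- Propagation of a loss through one level. -/
lemma step_prop (j : ℕ) (u v : ℝ) {h0 h1 : ℝ} (a0 : 0 ≤ h0) (b0 : h0 ≤ 1) (a1 : 0 ≤ h1)
    (b1 : h1 ≤ 1) :
    (√(q j u * ph u * (q j v * ph v)) * (1 - h0) +
      √(q j (u + 1 / 2) * ph (u + 1 / 2) * (q j (v + 1 / 2) * ph (v + 1 / 2))) * (1 - h1)) / 2 ≤
      √(q (j + 1) (2 * u) * q (j + 1) (2 * v)) *
        (1 - (|sin (π * u)| * h0 + |cos (π * u)| * h1) / 4) := by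
  set A0 := q j u * ph u with hA0
  set A1 := q j (u + 1 / 2) * ph (u + 1 / 2) with hA1
  set B0 := q j v * ph v with hB0
  set B1 := q j (v + 1 / 2) * ph (v + 1 / 2) with hB1
  set A := q (j + 1) (2 * u) with hA
  set B := q (j + 1) (2 * v) with hB
  have eA : A0 + A1 = 2 * A := by rw [hA, q_two]; ring
  have eB : B0 + B1 = 2 * B := by rw [hB, q_two]; ring
  have pu : 0 < A := q_pos (j + 1) (2 * u)
  have pv : 0 < B := q_pos (j + 1) (2 * v)
  have n0 : 0 ≤ A0 := mul_nonneg (q_pos _ _).le (ph_nonneg _)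
  have n1 : 0 ≤ A1 := mul_nonneg (q_pos _ _).le (ph_nonneg _)
  have n2 : 0 ≤ B0 := mul_nonneg (q_pos _ _).le (ph_nonneg _)
  have n3 : 0 ≤ B1 := mul_nonneg (q_pos _ _).le (ph_nonneg _)
  have k0 := amgm_alg n0 n2 pu pv
  have k1 := amgm_alg n1 n3 pu pv
  have hAle : A ≤ 2 * mm j := (q_le_mm (j + 1) (2 * u)).trans (mm_two_le j)
  have w0 : |sin (π * u)| ≤ A0 / A := by
    rw [le_div_iff₀ pu, hA0, ph_eq]
    have := mm_le_q j u
    have := abs_nonneg (sin (π * u))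
    nlinarith
  have w1 : |cos (π * u)| ≤ A1 / A := by
    rw [le_div_iff₀ pu, hA1, ph_half]
    have := mm_le_q j (u + 1 / 2)
    have := abs_nonneg (cos (π * u))
    nlinarith
  have sA : A0 / A + A1 / A = 2 := by rw [← add_div, eA]; field_simp
  have sB : B0 / B + B1 / B = 2 := by rw [← add_div, eB]; field_simp
  have z0 : 0 ≤ B0 / B := by positivity
  have z1 : 0 ≤ B1 / B := by positivity
  have hG : 0 ≤ √(A * B) := sqrt_nonneg _
  set G := √(A * B)
  calc _ ≤ (G * ((A0 / A + B0 / B) / 2) * (1 - h0) + G * ((A1 / A + B1 / B) / 2) * (1 - h1)) / 2 := by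
        gcongr
    _ = G * ((((A0 / A + B0 / B) / 2) * (1 - h0) + ((A1 / A + B1 / B) / 2) * (1 - h1)) / 2) := by
        ring
    _ ≤ _ := by
        gcongr
        nlinarith [mul_le_mul_of_nonneg_right w0 a0, mul_le_mul_of_nonneg_right w1 a1,
          mul_nonneg z0 a0, mul_nonneg z1 a1]

/-- The translated affinity integrand. -/
noncomputable def Af (L : ℕ) (σ x : ℝ) : ℝ := √(P L x * P L (x + σ))

noncomputable def Gt (j : ℕ) (τ y : ℝ) : ℝ := √(q j y * q j (y + τ))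

@[fun_prop] lemma continuous_Af (L : ℕ) (σ : ℝ) : Continuous (Af L σ) := by
  unfold Af; fun_prop

lemma Af_per (L : ℕ) (σ : ℝ) : Per (Af L σ) := fun x => by
  unfold Af
  rw [P_per L x, show x + 1 + σ = x + σ + 1 by ring, P_per L]

lemma Af_nonneg (L : ℕ) (σ x : ℝ) : 0 ≤ Af L σ x := sqrt_nonneg _

lemma Af_add (L M : ℕ) (σ x : ℝ) : Af (L + M) σ x = Af L σ x * Af M (2 ^ L * σ) (2 ^ L * x) := by
  unfold Af
  rw [P_add, P_add, ← sqrt_mul (mul_nonneg (P_nonneg _ _) (P_nonneg _ _)), mul_add]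
  congr 1; ring

lemma Af_one (σ x : ℝ) : Af 1 σ x = √(ph x * ph (x + σ)) := by simp [Af, P]

lemma Gt_mul (j : ℕ) (τ z : ℝ) :
    Gt j τ z * Af 1 τ z = √(q j z * ph z * (q j (z + τ) * ph (z + τ))) := by
  rw [Af_one, Gt, ← sqrt_mul (mul_nonneg (q_pos _ _).le (q_pos _ _).le)]
  congr 1; ring

lemma TT_Af_succ (L : ℕ) (σ y : ℝ) :
    TT (L + 1) (Af (L + 1) σ) y = T (fun z => TT L (Af L σ) z * Af 1 (2 ^ L * σ) z) y := by
  rw [← TT_step L _ (Af_per 1 _)]
  congr 1; funext x; exact Af_add L 1 σ x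

lemma trans_step1 (j : ℕ) (τ : ℝ) {c : ℝ} (hc : 0 ≤ c) {U : ℝ → ℝ} (hU : ∀ z, U z ≤ c * Gt j τ z)
    (y : ℝ) : T (fun z => U z * Af 1 τ z) y ≤
      c * Gt (j + 1) (2 * τ) y * (1 - sin (π * τ) ^ 2 / 32 * sin (π * (y + τ)) ^ 2) := by
  refine (T_mono (g := fun z => c * (Gt j τ z * Af 1 τ z)) (fun z => ?_) y).trans ?_
  · rw [← mul_assoc]; exact mul_le_mul_of_nonneg_right (hU z) (Af_nonneg _ _ _)
  · have h := step_loss j (y / 2) (y / 2 + τ)
    rw [show 2 * (y / 2) = y by ring, show 2 * (y / 2 + τ) = y + 2 * τ by ring,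
      show π * (y / 2 - (y / 2 + τ)) = -(π * τ) by ring, sin_neg, neg_sq,
      show y / 2 + (y / 2 + τ) = y + τ by ring,
      show y / 2 + τ + 1 / 2 = y / 2 + 1 / 2 + τ by ring] at h
    simp only [T, Gt_mul]
    have := mul_le_mul_of_nonneg_left h hc
    unfold Gt
    linarith

lemma trans_step2 (j : ℕ) (τ : ℝ) {c : ℝ} (hc : 0 ≤ c) {U h : ℝ → ℝ} (h0 : ∀ z, 0 ≤ h z)
    (h1 : ∀ z, h z ≤ 1) (hU : ∀ z, U z ≤ c * Gt j τ z * (1 - h z))
    (y : ℝ) : T (fun z => U z * Af 1 τ z) y ≤ c * Gt (j + 1) (2 * τ) y *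
      (1 - (|sin (π * (y / 2))| * h (y / 2) + |cos (π * (y / 2))| * h (y / 2 + 1 / 2)) / 4) := by
  refine (T_mono (g := fun z => c * (Gt j τ z * Af 1 τ z * (1 - h z))) (fun z => ?_) y).trans ?_
  · have := mul_le_mul_of_nonneg_right (hU z) (Af_nonneg 1 τ z)
    linarith
  · have h := step_prop j (y / 2) (y / 2 + τ) (h0 (y / 2)) (h1 _) (h0 (y / 2 + 1 / 2)) (h1 _)
    rw [show 2 * (y / 2) = y by ring, show 2 * (y / 2 + τ) = y + 2 * τ by ring,
      show y / 2 + τ + 1 / 2 = y / 2 + 1 / 2 + τ by ring] at h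
    simp only [T, Gt_mul]
    have := mul_le_mul_of_nonneg_left h hc
    unfold Gt
    linarith

/-- The loss factor of one block of three levels. -/
noncomputable def lf (σ : ℝ) : ℝ := 1 - sin (π * σ) ^ 2 / 1024

lemma lf_nonneg (σ : ℝ) : 0 ≤ lf σ := by
  unfold lf; have := sin_sq_le_one (π * σ); linarith

lemma lf_le (σ : ℝ) : lf σ ≤ 1 := by
  unfold lf; have := sq_nonneg (sin (π * σ)); linarith

lemma lf_per : Per lf := fun x => by
  unfold lf; rw [mul_add, mul_one, sin_add_pi, neg_sq]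

noncomputable def Psi (l : ℕ) (σ : ℝ) : ℝ := ∏ i ∈ range l, lf (8 ^ i * σ)

lemma Psi_nonneg (l : ℕ) (σ : ℝ) : 0 ≤ Psi l σ := prod_nonneg fun _ _ => lf_nonneg _

lemma TT_Af_le (l : ℕ) (σ y : ℝ) :
    TT (3 * l) (Af (3 * l) σ) y ≤ Psi l σ * Gt (3 * l) (2 ^ (3 * l) * σ) y := by
  induction l generalizing y with
  | zero => simp [Psi, Gt, Af, q_zero]
  | succ l ih =>
    set j := 3 * l with hj
    set τ := 2 ^ j * σ with hτ
    set c := Psi l σ
    have hc : 0 ≤ c := Psi_nonneg l σ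
    set a := sin (π * τ) ^ 2 / 32 with ha
    have a0 : 0 ≤ a := by positivity
    have a1 : a ≤ 1 := by have := sin_sq_le_one (π * τ); linarith
    have s1 : ∀ z, TT (j + 1) (Af (j + 1) σ) z ≤
        c * Gt (j + 1) (2 * τ) z * (1 - a * sin (π * (z + τ)) ^ 2) := fun z => by
      rw [TT_Af_succ]; exact trans_step1 j τ hc ih z
    have s2 : ∀ z, TT (j + 2) (Af (j + 2) σ) z ≤
        c * Gt (j + 2) (2 * (2 * τ)) z * (1 - a / 8 * |sin (π * z)|) := fun z => by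
      rw [TT_Af_succ, show 2 ^ (j + 1) * σ = 2 * τ by rw [hτ]; ring]
      refine (trans_step2 (j + 1) (2 * τ) hc (h := fun z => a * sin (π * (z + τ)) ^ 2)
        (fun z => by positivity) (fun z => by
          have := sin_sq_le_one (π * (z + τ)); nlinarith) s1 z).trans ?_
      have hG : 0 ≤ c * Gt (j + 1 + 1) (2 * (2 * τ)) z := mul_nonneg hc (sqrt_nonneg _)
      gcongr
      have e1 : sin (π * (z / 2 + 1 / 2 + τ)) = cos (π * (z / 2 + τ)) := by
        rw [show π * (z / 2 + 1 / 2 + τ) = π * (z / 2 + τ) + π / 2 by ring, sin_add_pi_div_two]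
      have e2 : |sin (π * z)| = 2 * (|sin (π * (z / 2))| * |cos (π * (z / 2))|) := by
        rw [show π * z = 2 * (π * (z / 2)) by ring, sin_two_mul, abs_mul, abs_mul]
        norm_num; ring
      rw [e1, e2]
      have e3 := sin_sq_add_cos_sq (π * (z / 2 + τ))
      have e4 := abs_sin_le_one (π * (z / 2))
      have e5 := abs_cos_le_one (π * (z / 2))
      set s := |sin (π * (z / 2))|
      set k := |cos (π * (z / 2))|
      have hs : 0 ≤ s := abs_nonneg _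
      have hk : 0 ≤ k := abs_nonneg _
      set x := sin (π * (z / 2 + τ)) ^ 2
      set w := cos (π * (z / 2 + τ)) ^ 2
      have hx : 0 ≤ x := by positivity
      have hw : 0 ≤ w := by positivity
      have f1 : s * k * x ≤ s * x := by gcongr; exact mul_le_of_le_one_right hs e5
      have f2 : s * k * w ≤ k * w := by gcongr; exact mul_le_of_le_one_left hk e4
      have f3 : s * k ≤ s * x + k * w := by
        have : s * k = s * k * x + s * k * w := by rw [← mul_add, e3, mul_one]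
        linarith
      nlinarith [mul_le_mul_of_nonneg_left f3 a0]
    have s3 : TT (j + 3) (Af (j + 3) σ) y ≤
        c * Gt (j + 3) (2 * (2 * (2 * τ))) y * (1 - a / 32) := by
      rw [TT_Af_succ, show 2 ^ (j + 2) * σ = 2 * (2 * τ) by rw [hτ]; ring]
      refine (trans_step2 (j + 2) (2 * (2 * τ)) hc (h := fun z => a / 8 * |sin (π * z)|)
        (fun z => by positivity) (fun z => by
          have := abs_sin_le_one (π * z); nlinarith) s2 y).trans (le_of_eq ?_)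
      congr 2
      have e1 : sin (π * (y / 2 + 1 / 2)) = cos (π * (y / 2)) := by
        rw [show π * (y / 2 + 1 / 2) = π * (y / 2) + π / 2 by ring, sin_add_pi_div_two]
      rw [e1]
      have e3 := sin_sq_add_cos_sq (π * (y / 2))
      rw [← sq_abs (sin _), ← sq_abs (cos _)] at e3
      linear_combination a / 32 * e3
    rw [show 3 * (l + 1) = j + 3 by omega, show 2 ^ (j + 3) * σ = 2 * (2 * (2 * τ)) by rw [hτ]; ring]
    refine s3.trans (le_of_eq ?_)
    have e8 : (8 : ℝ) ^ l * σ = τ := by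
      rw [hτ, hj, pow_mul]; norm_num
    rw [Psi, prod_range_succ, e8, lf]
    show c * _ * _ = c * _ * _
    rw [ha]; ring

/-- Translation deficiency. -/
theorem trans_def {l L : ℕ} (h : 3 * l ≤ L) (σ : ℝ) :
    Ex (Af L σ) ≤ 2 * rho ^ L * Psi l σ := by
  obtain ⟨M, rfl⟩ := Nat.exists_eq_add_of_le h
  have e : Af (3 * l + M) σ = fun x => Af (3 * l) σ x * Af M (2 ^ (3 * l) * σ) (2 ^ (3 * l) * x) :=
    funext (Af_add _ _ σ)
  rw [e, Ex_mul_dil _ (by fun_prop) (by fun_prop) (Af_per _ _)]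
  set τ := 2 ^ (3 * l) * σ
  have hc := Psi_nonneg l σ
  have hq : Per (fun y => q (3 * l) y * P M y) := fun y => by
    simp only; rw [q_per, P_per]
  calc _ ≤ Ex (fun y => Psi l σ / 2 * (q (3 * l) y * P M y)
        + Psi l σ / 2 * (q (3 * l) (y + τ) * P M (y + τ))) := by
        refine Ex_mono ((TT_cont _ (by fun_prop)).mul (by fun_prop)) (by fun_prop) fun y => ?_
        refine (mul_le_mul_of_nonneg_right (TT_Af_le l σ y) (Af_nonneg _ _ _)).trans ?_
        rw [mul_assoc, ← mul_add, show Psi l σ / 2 = Psi l σ * (1 / 2) by ring, mul_assoc]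
        refine mul_le_mul_of_nonneg_left ?_ hc
        unfold Gt Af
        rw [← sqrt_mul (mul_nonneg (q_pos _ _).le (q_pos _ _).le)]
        have n1 := mul_nonneg (q_pos (3 * l) y).le (P_nonneg M y)
        have n2 := mul_nonneg (q_pos (3 * l) (y + τ)).le (P_nonneg M (y + τ))
        refine sqrt_le_iff.2 ⟨by positivity, ?_⟩
        nlinarith [sq_nonneg (q (3 * l) y * P M y - q (3 * l) (y + τ) * P M (y + τ))]
    _ = Psi l σ * sinInt (3 * l + M) := by
        rw [Ex_add (by fun_prop) (by fun_prop), Ex_smul, Ex_smul, Ex_shift hq τ, Ex_qP]; ring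
    _ ≤ _ := by
        rw [mul_comm]; gcongr; exact sinInt_le _

end Pool.Agent.MP_d431d3_nt
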