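import Pool.Agent.Lib.MP_d431d3_nt.Defs

/-! Basic objects: the sine product, the averaging operator `T`, integrals over one period. -/

namespace Pool.Agent.MP_d431d3_nt

open Real Finset MeasureTheory

noncomputable def ph (x : ℝ) : ℝ := |2 * sin (π * x)|

noncomputable def P (L : ℕ) (x : ℝ) : ℝ := ∏ j ∈ range L, ph (2 ^ j * x)

abbrev Per {E : Type*} (f : ℝ → E) : Prop := Function.Periodic f 1

lemma Per.int {E : Type*} {f : ℝ → E} (h : Per f) (n : ℤ) (x : ℝ) : f (x + n) = f x := by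
  simpa using h.int_mul n x

lemma Per.nat {E : Type*} {f : ℝ → E} (h : Per f) (n : ℕ) (x : ℝ) : f (x + n) = f x := by
  simpa using h.nat_mul n x

lemma Per.dil {E : Type*} {f : ℝ → E} (h : Per f) (a : ℕ) : Per (fun x => f (a * x)) := by
  intro x
  simp only [mul_add, mul_one]
  exact h.nat a _

lemma Per.dil2 {E : Type*} {f : ℝ → E} (h : Per f) (n : ℕ) : Per (fun x => f (2 ^ n * x)) := by
  have := h.dil (2 ^ n)
  simpa using this

lemma Per.dil' {E : Type*} {f : ℝ → E} (h : Per f) (a : ℕ) (x : ℝ) :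
    f (a * (x + 1)) = f (a * x) := h.dil a x

lemma Per.dil2' {E : Type*} {f : ℝ → E} (h : Per f) (n : ℕ) (x : ℝ) :
    f (2 ^ n * (x + 1)) = f (2 ^ n * x) := h.dil2 n x

lemma Per.shift {E : Type*} {f : ℝ → E} (h : Per f) (s : ℝ) : Per (fun x => f (x + s)) := by
  intro x
  simp only
  rw [show x + 1 + s = x + s + 1 by ring]
  exact h _

lemma ph_nonneg (x : ℝ) : 0 ≤ ph x := abs_nonneg _

lemma ph_eq (x : ℝ) : ph x = 2 * |sin (π * x)| := by
  unfold ph; rw [abs_mul]; norm_num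

lemma ph_le (x : ℝ) : ph x ≤ 2 := by
  rw [ph_eq]; have := abs_sin_le_one (π * x); linarith

lemma ph_per : Per ph := by
  intro x
  unfold ph
  rw [mul_add, mul_one, sin_add_pi]
  simp

lemma ph_half (x : ℝ) : ph (x + 1 / 2) = 2 * |cos (π * x)| := by
  rw [ph_eq, mul_add, show π * (1 / 2) = π / 2 by ring, sin_add_pi_div_two]

lemma ph_double (x : ℝ) : ph (2 * x) = ph x * ph (x + 1 / 2) := by
  rw [ph_half, ph_eq, ph_eq, show π * (2 * x) = 2 * (π * x) by ring, sin_two_mul, abs_mul, abs_mul]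
  norm_num; ring

lemma ph_ge_double (x : ℝ) : ph (2 * x) / 2 ≤ ph x := by
  rw [ph_double]
  have := ph_le (x + 1 / 2)
  have := ph_nonneg x
  nlinarith

lemma ph_sq_add (x : ℝ) : ph x ^ 2 + ph (x + 1 / 2) ^ 2 = 4 := by
  rw [ph_half, ph_eq, mul_pow, mul_pow, sq_abs, sq_abs]
  nlinarith [sin_sq_add_cos_sq (π * x)]

@[fun_prop] lemma continuous_ph : Continuous ph := by
  unfold ph; fun_prop

lemma ph_lip (x y : ℝ) : |ph x - ph y| ≤ 2 * π * |x - y| := by
  rw [ph_eq, ph_eq, ← mul_sub, abs_mul]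
  have h1 := abs_abs_sub_abs_le_abs_sub (sin (π * x)) (sin (π * y))
  have h2 := abs_sin_sub_sin_le (π * x) (π * y)
  rw [← mul_sub, abs_mul, abs_of_pos pi_pos] at h2
  norm_num
  linarith

@[simp] lemma P_zero (x : ℝ) : P 0 x = 1 := by simp [P]

lemma P_succ (L : ℕ) (x : ℝ) : P (L + 1) x = P L x * ph (2 ^ L * x) := by
  simp [P, prod_range_succ]

lemma P_add (L M : ℕ) (x : ℝ) : P (L + M) x = P L x * P M (2 ^ L * x) := by
  induction M with
  | zero => simp
  | succ M ih =>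
    rw [← add_assoc, P_succ, P_succ, ih, pow_add]
    ring_nf

lemma P_nonneg (L : ℕ) (x : ℝ) : 0 ≤ P L x := prod_nonneg fun _ _ => ph_nonneg _

lemma P_le (L : ℕ) (x : ℝ) : P L x ≤ 2 ^ L := by
  induction L with
  | zero => simp
  | succ L ih =>
    rw [P_succ, pow_succ]
    exact mul_le_mul ih (ph_le _) (ph_nonneg _) (by positivity)

lemma P_per (L : ℕ) : Per (P L) := by
  intro x
  unfold P
  refine prod_congr rfl fun j _ => ?_
  exact ph_per.dil2 j x

@[fun_prop] lemma continuous_P (L : ℕ) : Continuous (P L) := by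
  unfold P; fun_prop

lemma P_lip (L : ℕ) (x y : ℝ) : |P L x - P L y| ≤ π * 4 ^ L * |x - y| := by
  induction L with
  | zero => simp; positivity
  | succ L ih =>
    rw [P_succ, P_succ]
    have h1 := ph_lip (2 ^ L * x) (2 ^ L * y)
    rw [← mul_sub, abs_mul, abs_of_pos (by positivity : (0 : ℝ) < 2 ^ L)] at h1
    have h2 : P L x * ph (2 ^ L * x) - P L y * ph (2 ^ L * y)
        = (P L x - P L y) * ph (2 ^ L * x) + P L y * (ph (2 ^ L * x) - ph (2 ^ L * y)) := by ring
    rw [h2]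
    refine (abs_add_le _ _).trans ?_
    rw [abs_mul, abs_mul, abs_of_nonneg (ph_nonneg _), abs_of_nonneg (P_nonneg _ _)]
    have h3 : |P L x - P L y| * ph (2 ^ L * x) ≤ π * 4 ^ L * |x - y| * 2 :=
      mul_le_mul ih (ph_le _) (ph_nonneg _) (by positivity)
    have h4 : P L y * |ph (2 ^ L * x) - ph (2 ^ L * y)| ≤ 2 ^ L * (2 * π * (2 ^ L * |x - y|)) :=
      mul_le_mul (P_le _ _) h1 (abs_nonneg _) (by positivity)
    have h5 : (4 : ℝ) ^ L = 2 ^ L * 2 ^ L := by rw [← mul_pow]; norm_num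
    rw [pow_succ]
    rw [h5] at h3 ⊢
    nlinarith

/-- Average over the two preimages under doubling. -/
noncomputable def T (f : ℝ → ℝ) (y : ℝ) : ℝ := (f (y / 2) + f (y / 2 + 1 / 2)) / 2

lemma T_mono {f g : ℝ → ℝ} (h : ∀ x, f x ≤ g x) (y : ℝ) : T f y ≤ T g y := by
  unfold T; linarith [h (y / 2), h (y / 2 + 1 / 2)]

lemma T_per {f : ℝ → ℝ} (h : Per f) : Per (T f) := by
  intro y
  unfold T
  rw [show (y + 1) / 2 = y / 2 + 1 / 2 by ring, show y / 2 + 1 / 2 + 1 / 2 = y / 2 + 1 by ring, h]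
  ring

lemma T_cont {f : ℝ → ℝ} (h : Continuous f) : Continuous (T f) := by
  unfold T; fun_prop

/-- `n`-fold average. -/
noncomputable def TT : ℕ → (ℝ → ℝ) → ℝ → ℝ
  | 0, f => f
  | n + 1, f => T (TT n f)

@[simp] lemma TT_zero (f : ℝ → ℝ) : TT 0 f = f := rfl

lemma TT_succ (n : ℕ) (f : ℝ → ℝ) : TT (n + 1) f = T (TT n f) := rfl

lemma TT_add (m n : ℕ) (f : ℝ → ℝ) : TT (m + n) f = TT n (TT m f) := by
  induction n with
  | zero => rfl
  | succ n ih => rw [← add_assoc, TT_succ, ih, TT_succ]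

lemma TT_mono (n : ℕ) {f g : ℝ → ℝ} (h : ∀ x, f x ≤ g x) (y : ℝ) : TT n f y ≤ TT n g y := by
  induction n generalizing y with
  | zero => exact h y
  | succ n ih => exact T_mono ih y

lemma TT_per (n : ℕ) {f : ℝ → ℝ} (h : Per f) : Per (TT n f) := by
  induction n with
  | zero => exact h
  | succ n ih => exact T_per ih

lemma TT_cont (n : ℕ) {f : ℝ → ℝ} (h : Continuous f) : Continuous (TT n f) := by
  induction n with
  | zero => exact h
  | succ n ih => exact T_cont ih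

lemma TT_lin (n : ℕ) (a b : ℝ) (f g : ℝ → ℝ) (y : ℝ) :
    TT n (fun x => a * f x + b * g x) y = a * TT n f y + b * TT n g y := by
  induction n generalizing y with
  | zero => rfl
  | succ n ih => simp only [TT_succ, T, ih]; ring

lemma TT_add' (n : ℕ) (f g : ℝ → ℝ) (y : ℝ) :
    TT n (fun x => f x + g x) y = TT n f y + TT n g y := by
  simpa using TT_lin n 1 1 f g y

lemma TT_smul (n : ℕ) (a : ℝ) (f : ℝ → ℝ) (y : ℝ) :
    TT n (fun x => a * f x) y = a * TT n f y := by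
  simpa using TT_lin n a 0 f f y

lemma TT_const (n : ℕ) (a : ℝ) (y : ℝ) : TT n (fun _ => a) y = a := by
  induction n generalizing y with
  | zero => rfl
  | succ n ih => simp only [TT_succ, T, ih]; ring

lemma TT_nonneg (n : ℕ) {f : ℝ → ℝ} (h : ∀ x, 0 ≤ f x) (y : ℝ) : 0 ≤ TT n f y := by
  have := TT_mono n (f := fun _ => 0) h y
  rwa [TT_const] at this

lemma TT_shift (n : ℕ) (f : ℝ → ℝ) (s y : ℝ) :
    TT n (fun x => f (x + s)) y = TT n f (y + 2 ^ n * s) := by
  induction n generalizing y with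
  | zero => simp
  | succ n ih =>
    simp only [TT_succ, T, ih]
    congr 2 <;> (congr 1; ring)

lemma TT_mul (n : ℕ) (F : ℝ → ℝ) {f : ℝ → ℝ} (h : Per f) (y : ℝ) :
    TT n (fun x => F x * f (2 ^ n * x)) y = TT n F y * f y := by
  induction n generalizing f y with
  | zero => simp
  | succ n ih =>
    have h2 : Per (fun x => f (2 * x)) := by simpa using h.dil 2
    have e : (fun x => F x * f (2 ^ (n + 1) * x)) = fun x => F x * (fun z => f (2 * z)) (2 ^ n * x) := by
      funext x; simp only; congr 2; ring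
    rw [e]
    simp only [TT_succ, T, ih h2]
    rw [show 2 * (y / 2) = y by ring, show 2 * (y / 2 + 1 / 2) = y + 1 by ring, h]
    ring

/-- One more level. -/
lemma TT_step (n : ℕ) (F : ℝ → ℝ) {f : ℝ → ℝ} (h : Per f) (y : ℝ) :
    TT (n + 1) (fun x => F x * f (2 ^ n * x)) y = T (fun z => TT n F z * f z) y := by
  rw [TT_succ]
  congr 1
  funext z
  exact TT_mul n F h z

/-- A block of levels. -/
lemma TT_block (n k : ℕ) (F : ℝ → ℝ) {f : ℝ → ℝ} (h : Per f) (y : ℝ) :
    TT (n + k) (fun x => F x * f (2 ^ n * x)) y = TT k (fun z => TT n F z * f z) y := by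
  rw [TT_add]
  congr 1
  funext z
  exact TT_mul n F h z

lemma TT_step' (n : ℕ) (F : ℝ → ℝ) {G : ℝ → ℝ} (f : ℝ → ℝ) (h : Per f)
    (e : ∀ x, G x = F x * f (2 ^ n * x)) (y : ℝ) :
    TT (n + 1) G y = T (fun z => TT n F z * f z) y := by
  rw [← TT_step n F h, show G = _ from funext e]

lemma TT_block' (n k : ℕ) (F : ℝ → ℝ) {G : ℝ → ℝ} (f : ℝ → ℝ) (h : Per f)
    (e : ∀ x, G x = F x * f (2 ^ n * x)) (y : ℝ) :
    TT (n + k) G y = TT k (fun z => TT n F z * f z) y := by
  rw [← TT_block n k F h, show G = _ from funext e]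

lemma T_dil {f : ℝ → ℝ} (h : Per f) {a : ℕ} (ha : Odd a) (y : ℝ) :
    T (fun x => f (a * x)) y = T f (a * y) := by
  obtain ⟨k, rfl⟩ := ha
  unfold T
  have : f (((2 * k + 1 : ℕ) : ℝ) * (y / 2 + 1 / 2))
      = f (((2 * k + 1 : ℕ) : ℝ) * y / 2 + 1 / 2) := by
    rw [← h.nat k (((2 * k + 1 : ℕ) : ℝ) * y / 2 + 1 / 2)]; congr 1; push_cast; ring
  simp only [this]
  congr 3; ring

lemma TT_dil (n : ℕ) {f : ℝ → ℝ} (h : Per f) {a : ℕ} (ha : Odd a) (y : ℝ) :
    TT n (fun x => f (a * x)) y = TT n f (a * y) := by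
  induction n generalizing y with
  | zero => rfl
  | succ n ih =>
    rw [TT_succ, TT_succ, ← T_dil (TT_per n h) ha]
    congr 1; funext z; exact ih z

/-- Integral over one period. -/
noncomputable abbrev Ex {E : Type*} [NormedAddCommGroup E] [NormedSpace ℝ E] (f : ℝ → E) : E :=
  ∫ x in (0 : ℝ)..1, f x

lemma Ex_T {f : ℝ → ℝ} (hf : Continuous f) : Ex (T f) = Ex f := by
  have h1 : ∫ y in (0 : ℝ)..1, f (y / 2) = 2 * ∫ x in (0 : ℝ)..(1 / 2), f x := by
    rw [intervalIntegral.integral_comp_div (f := f) (by norm_num : (2 : ℝ) ≠ 0)]; simp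
  have h2 : ∫ y in (0 : ℝ)..1, f (y / 2 + 1 / 2) = 2 * ∫ x in (1 / 2 : ℝ)..1, f x := by
    rw [intervalIntegral.integral_comp_div_add (f := f) (by norm_num : (2 : ℝ) ≠ 0)]
    norm_num
  have h3 := intervalIntegral.integral_add_adjacent_intervals (μ := volume) (f := f) (a := 0)
    (b := 1 / 2) (c := 1) (hf.intervalIntegrable _ _) (hf.intervalIntegrable _ _)
  unfold Ex T
  rw [intervalIntegral.integral_div, intervalIntegral.integral_add, h1, h2]
  · linarith
  · exact Continuous.intervalIntegrable (by fun_prop) _ _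
  · exact Continuous.intervalIntegrable (by fun_prop) _ _

lemma Ex_TT (n : ℕ) {f : ℝ → ℝ} (hf : Continuous f) : Ex (TT n f) = Ex f := by
  induction n with
  | zero => rfl
  | succ n ih => rw [TT_succ, Ex_T (TT_cont n hf), ih]

lemma Ex_mul_dil (n : ℕ) {F H : ℝ → ℝ} (hF : Continuous F) (hH : Continuous H) (hp : Per H) :
    Ex (fun x => F x * H (2 ^ n * x)) = Ex (fun y => TT n F y * H y) := by
  rw [← Ex_TT n (by fun_prop)]
  congr 1; funext y; exact TT_mul n F hp y

lemma Ex_mono {f g : ℝ → ℝ} (hf : Continuous f) (hg : Continuous g) (h : ∀ x, f x ≤ g x) :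
    Ex f ≤ Ex g :=
  intervalIntegral.integral_mono_on zero_le_one (hf.intervalIntegrable _ _)
    (hg.intervalIntegrable _ _) fun x _ => h x

lemma Ex_nonneg {f : ℝ → ℝ} (h : ∀ x, 0 ≤ f x) : 0 ≤ Ex f :=
  intervalIntegral.integral_nonneg zero_le_one fun x _ => h x

lemma Ex_shift {E : Type*} [NormedAddCommGroup E] [NormedSpace ℝ E] {f : ℝ → E} (h : Per f)
    (s : ℝ) : Ex (fun x => f (x + s)) = Ex f := by
  unfold Ex
  rw [intervalIntegral.integral_comp_add_right]
  have := h.intervalIntegral_add_eq s 0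
  simpa [add_comm] using this

lemma Ex_dil {E : Type*} [NormedAddCommGroup E] [NormedSpace ℝ E] {f : ℝ → E} (h : Per f)
    (hi : ∀ a b, IntervalIntegrable f volume a b) {a : ℕ} (ha : a ≠ 0) :
    Ex (fun x => f (a * x)) = Ex f := by
  have ha' : (a : ℝ) ≠ 0 := by exact_mod_cast ha
  unfold Ex
  rw [intervalIntegral.integral_comp_mul_left (f := f) ha']
  have := h.intervalIntegral_add_zsmul_eq (a : ℤ) 0 hi
  simp only [zero_add, zsmul_eq_mul, mul_one, Int.cast_natCast, natCast_zsmul] at this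
  simp only [mul_zero, mul_one, this]
  rw [← Nat.cast_smul_eq_nsmul ℝ, smul_smul, inv_mul_cancel₀ ha', one_smul]

lemma Ex_dil_c {E : Type*} [NormedAddCommGroup E] [NormedSpace ℝ E] {f : ℝ → E} (h : Per f)
    (hc : Continuous f) {a : ℕ} (ha : a ≠ 0) : Ex (fun x => f (a * x)) = Ex f :=
  Ex_dil h (fun _ _ => hc.intervalIntegrable _ _) ha

lemma Ex_const (c : ℝ) : Ex (fun _ => c) = c := by simp [Ex]

lemma Ex_smul (c : ℝ) (f : ℝ → ℝ) : Ex (fun x => c * f x) = c * Ex f :=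
  intervalIntegral.integral_const_mul _ _

lemma Ex_add {f g : ℝ → ℝ} (hf : Continuous f) (hg : Continuous g) :
    Ex (fun x => f x + g x) = Ex f + Ex g :=
  intervalIntegral.integral_add (hf.intervalIntegrable _ _) (hg.intervalIntegrable _ _)

/-- Cauchy-Schwarz. -/
lemma Ex_cs {f g : ℝ → ℝ} (hf : Continuous f) (hg : Continuous g) {A B : ℝ}
    (hA : Ex (fun x => f x ^ 2) ≤ A) (hB : Ex (fun x => g x ^ 2) ≤ B) (hA0 : 0 < A) (hB0 : 0 < B) :
    Ex (fun x => f x * g x) ≤ √A * √B := by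
  have sA : 0 < √A := sqrt_pos.2 hA0
  have sB : 0 < √B := sqrt_pos.2 hB0
  have h1 : ∀ x, f x * g x ≤ (√B / √A / 2) * f x ^ 2 + (√A / √B / 2) * g x ^ 2 := by
    intro x
    have : (√B / √A / 2) * f x ^ 2 + (√A / √B / 2) * g x ^ 2 - f x * g x
        = (√B * f x - √A * g x) ^ 2 / (2 * √A * √B) := by
      field_simp; ring
    have h2 : 0 ≤ (√B * f x - √A * g x) ^ 2 / (2 * √A * √B) := by positivity
    linarith
  refine (Ex_mono (by fun_prop) (by fun_prop) h1).trans ?_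
  rw [Ex_add (by fun_prop) (by fun_prop), Ex_smul, Ex_smul]
  have e1 : √B / √A / 2 * A = √A * √B / 2 := by
    nth_rw 2 [← mul_self_sqrt hA0.le]; field_simp
  have e2 : √A / √B / 2 * B = √A * √B / 2 := by
    nth_rw 2 [← mul_self_sqrt hB0.le]; field_simp
  have h3 : √B / √A / 2 * Ex (fun x => f x ^ 2) ≤ √B / √A / 2 * A := by gcongr
  have h4 : √A / √B / 2 * Ex (fun x => g x ^ 2) ≤ √A / √B / 2 * B := by gcongr
  linarith

lemma sinInt_eq (L : ℕ) : sinInt L = Ex (P L) := rfl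

end Pool.Agent.MP_d431d3_nt
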