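import Pool.Agent.Lib.MP_d431d3_nt.Basic

/-! The conditional averages `q j` of the sine product: monotonicity and Harnack bounds. -/

namespace Pool.Agent.MP_d431d3_nt

open Real Finset MeasureTheory Set

noncomputable def q (j : ℕ) : ℝ → ℝ := TT j (P j)

lemma q_zero (y : ℝ) : q 0 y = 1 := by simp [q]

lemma q_succ (j : ℕ) (y : ℝ) : q (j + 1) y = T (fun z => q j z * ph z) y := by
  unfold q
  rw [← TT_step j (P j) ph_per]
  congr 1; funext x; exact P_succ j x

lemma q_per (j : ℕ) : Per (q j) := TT_per j (P_per j)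

@[fun_prop] lemma continuous_q (j : ℕ) : Continuous (q j) := TT_cont j (continuous_P j)

lemma q_add (m n : ℕ) (y : ℝ) : q (m + n) y = TT n (fun z => q m z * P n z) y := by
  unfold q
  rw [← TT_block m n (P m) (P_per n)]
  congr 1; funext x; exact P_add m n x

noncomputable def Q0 : ℕ → ℝ → ℝ
  | 0, _ => 1
  | j + 1, y => sin (π * y / 2) * Q0 j (y / 2) + cos (π * y / 2) * Q0 j ((1 - y) / 2)

noncomputable def Q1 : ℕ → ℝ → ℝ
  | 0, _ => 0
  | j + 1, y => π / 2 * cos (π * y / 2) * Q0 j (y / 2) + sin (π * y / 2) * Q1 j (y / 2) / 2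
      - π / 2 * sin (π * y / 2) * Q0 j ((1 - y) / 2) - cos (π * y / 2) * Q1 j ((1 - y) / 2) / 2

noncomputable def Q2 : ℕ → ℝ → ℝ
  | 0, _ => 0
  | j + 1, y => -(π ^ 2 / 4) * (sin (π * y / 2) * Q0 j (y / 2) + cos (π * y / 2) * Q0 j ((1 - y) / 2))
      + π / 2 * (cos (π * y / 2) * Q1 j (y / 2) + sin (π * y / 2) * Q1 j ((1 - y) / 2))
      + (sin (π * y / 2) * Q2 j (y / 2) + cos (π * y / 2) * Q2 j ((1 - y) / 2)) / 4

lemma Q_deriv (j : ℕ) : (∀ y, HasDerivAt (Q0 j) (Q1 j y) y) ∧ ∀ y, HasDerivAt (Q1 j) (Q2 j y) y := by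
  induction j with
  | zero => exact ⟨fun y => hasDerivAt_const y 1, fun y => hasDerivAt_const y 0⟩
  | succ j ih =>
    obtain ⟨h0, h1⟩ := ih
    have hl : ∀ y : ℝ, HasDerivAt (fun y : ℝ => π * y / 2) (π / 2) y := fun y => by
      simpa using ((hasDerivAt_id y).const_mul π).div_const 2
    have ha : ∀ y : ℝ, HasDerivAt (fun y : ℝ => y / 2) (1 / 2) y := fun y =>
      (hasDerivAt_id y).div_const 2
    have hb : ∀ y : ℝ, HasDerivAt (fun y : ℝ => (1 - y) / 2) (-1 / 2) y := fun y => by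
      simpa using ((hasDerivAt_id y).const_sub 1).div_const 2
    have hs : ∀ y : ℝ, HasDerivAt (fun y : ℝ => sin (π * y / 2)) (cos (π * y / 2) * (π / 2)) y :=
      fun y => (hl y).sin
    have hc : ∀ y : ℝ, HasDerivAt (fun y : ℝ => cos (π * y / 2)) (-sin (π * y / 2) * (π / 2)) y :=
      fun y => (hl y).cos
    have a0 : ∀ y : ℝ, HasDerivAt (fun y : ℝ => Q0 j (y / 2)) (Q1 j (y / 2) * (1 / 2)) y :=
      fun y => (h0 _).comp y (ha y)
    have b0 : ∀ y : ℝ, HasDerivAt (fun y : ℝ => Q0 j ((1 - y) / 2))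
        (Q1 j ((1 - y) / 2) * (-1 / 2)) y := fun y => (h0 _).comp y (hb y)
    have a1 : ∀ y : ℝ, HasDerivAt (fun y : ℝ => Q1 j (y / 2)) (Q2 j (y / 2) * (1 / 2)) y :=
      fun y => (h1 _).comp y (ha y)
    have b1 : ∀ y : ℝ, HasDerivAt (fun y : ℝ => Q1 j ((1 - y) / 2))
        (Q2 j ((1 - y) / 2) * (-1 / 2)) y := fun y => (h1 _).comp y (hb y)
    refine ⟨fun y => ?_, fun y => ?_⟩
    · have := ((hs y).mul (a0 y)).add ((hc y).mul (b0 y))
      exact this.congr_deriv (by simp only [Q1]; ring)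
    · have := ((((((hc y).const_mul (π / 2)).mul (a0 y)).add (((hs y).mul (a1 y)).div_const 2)).sub
        (((hs y).const_mul (π / 2)).mul (b0 y))).sub (((hc y).mul (b1 y)).div_const 2))
      exact this.congr_deriv (by simp only [Q2]; ring)

lemma Q0_symm (j : ℕ) (y : ℝ) : Q0 j (1 - y) = Q0 j y := by
  cases j with
  | zero => rfl
  | succ j =>
    simp only [Q0]
    rw [show π * (1 - y) / 2 = π / 2 - π * y / 2 by ring, sin_pi_div_two_sub, cos_pi_div_two_sub,
      show (1 - (1 - y)) / 2 = y / 2 by ring]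
    ring

lemma Q1_half (j : ℕ) : Q1 j (1 / 2) = 0 := by
  cases j with
  | zero => rfl
  | succ j =>
    simp only [Q1]
    rw [show π * (1 / 2) / 2 = π / 4 by ring, sin_pi_div_four, cos_pi_div_four,
      show ((1 : ℝ) - 1 / 2) / 2 = 1 / 2 / 2 by ring]
    ring

lemma Q0_succ_zero (j : ℕ) : Q0 (j + 1) 0 = Q0 j (1 / 2) := by simp [Q0]

structure Inv (j : ℕ) : Prop where
  pos : 0 < Q0 j 0
  conc : ∀ y ∈ Icc (0 : ℝ) 1, Q2 j y ≤ 0
  slope : Q1 j 0 ≤ π / 2 * Q0 j 0

lemma Inv.anti {j : ℕ} (h : Inv j) : AntitoneOn (Q1 j) (Icc 0 1) := by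
  refine antitoneOn_of_deriv_nonpos (convex_Icc 0 1) ?_ ?_ ?_
  · exact fun y _ => ((Q_deriv j).2 y).continuousAt.continuousWithinAt
  · exact fun y _ => ((Q_deriv j).2 y).differentiableAt.differentiableWithinAt
  · intro y hy
    rw [((Q_deriv j).2 y).deriv]
    exact h.conc y (interior_subset hy)

lemma Inv.mono {j : ℕ} (h : Inv j) : MonotoneOn (Q0 j) (Icc 0 (1 / 2)) := by
  refine monotoneOn_of_deriv_nonneg (convex_Icc _ _) ?_ ?_ ?_
  · exact fun y _ => ((Q_deriv j).1 y).continuousAt.continuousWithinAt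
  · exact fun y _ => ((Q_deriv j).1 y).differentiableAt.differentiableWithinAt
  · intro y hy
    rw [((Q_deriv j).1 y).deriv]
    have hy' := interior_subset hy
    rw [← Q1_half j]
    exact h.anti ⟨hy'.1, by linarith [hy'.2]⟩ ⟨by norm_num, by norm_num⟩ hy'.2

lemma Inv.bounds {j : ℕ} (h : Inv j) {y : ℝ} (hy : y ∈ Icc (0 : ℝ) 1) :
    Q0 j 0 ≤ Q0 j y ∧ Q0 j y ≤ Q0 j (1 / 2) := by
  rcases le_total y (1 / 2) with h1 | h1
  · exact ⟨h.mono ⟨le_rfl, by norm_num⟩ ⟨hy.1, h1⟩ hy.1,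
      h.mono ⟨hy.1, h1⟩ ⟨by norm_num, le_rfl⟩ h1⟩
  · rw [← Q0_symm j y]
    have h2 : 1 - y ∈ Icc (0 : ℝ) (1 / 2) := ⟨by linarith [hy.2], by linarith⟩
    exact ⟨h.mono ⟨le_rfl, by norm_num⟩ h2 h2.1, h.mono h2 ⟨by norm_num, le_rfl⟩ h2.2⟩

lemma inv_all (j : ℕ) : Inv j := by
  induction j with
  | zero => exact ⟨by simp [Q0], fun y _ => by simp [Q2], by simp [Q0, Q1]; positivity⟩
  | succ j h =>
    have hb := (h.bounds (y := 1 / 2) ⟨by norm_num, by norm_num⟩).1
    refine ⟨?_, fun y hy => ?_, ?_⟩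
    · rw [Q0_succ_zero]; linarith [h.pos]
    · have ha : y / 2 ∈ Icc (0 : ℝ) 1 := ⟨by linarith [hy.1], by linarith [hy.2]⟩
      have hb : (1 - y) / 2 ∈ Icc (0 : ℝ) 1 := ⟨by linarith [hy.2], by linarith [hy.1]⟩
      have z : (0 : ℝ) ∈ Icc (0 : ℝ) 1 := ⟨le_rfl, by norm_num⟩
      have hs : 0 ≤ sin (π * y / 2) :=
        sin_nonneg_of_nonneg_of_le_pi (by have := hy.1; positivity) (by nlinarith [hy.2, pi_pos])
      have hc : 0 ≤ cos (π * y / 2) :=
        cos_nonneg_of_mem_Icc ⟨by nlinarith [hy.1, pi_pos], by nlinarith [hy.2, pi_pos]⟩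
      have e1 := (h.anti z ha ha.1).trans h.slope
      have e2 := (h.anti z hb hb.1).trans h.slope
      have e3 := (h.bounds ha).1
      have e4 := (h.bounds hb).1
      have e5 := h.conc _ ha
      have e6 := h.conc _ hb
      simp only [Q2]
      set s := sin (π * y / 2)
      set c := cos (π * y / 2)
      have f1 : c * Q1 j (y / 2) ≤ c * (π / 2 * Q0 j 0) := by gcongr
      have f2 : s * Q1 j ((1 - y) / 2) ≤ s * (π / 2 * Q0 j 0) := by gcongr
      have f3 : s * Q0 j 0 ≤ s * Q0 j (y / 2) := by gcongr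
      have f4 : c * Q0 j 0 ≤ c * Q0 j ((1 - y) / 2) := by gcongr
      have f5 : s * Q2 j (y / 2) ≤ 0 := mul_nonpos_of_nonneg_of_nonpos hs e5
      have f6 : c * Q2 j ((1 - y) / 2) ≤ 0 := mul_nonpos_of_nonneg_of_nonpos hc e6
      have g1 : π / 2 * (c * Q1 j (y / 2) + s * Q1 j ((1 - y) / 2))
          ≤ π / 2 * (c * (π / 2 * Q0 j 0) + s * (π / 2 * Q0 j 0)) := by
        gcongr
      have g2 : π ^ 2 / 4 * (s * Q0 j 0 + c * Q0 j 0)
          ≤ π ^ 2 / 4 * (s * Q0 j (y / 2) + c * Q0 j ((1 - y) / 2)) := by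
        gcongr
      nlinarith
    · rw [Q0_succ_zero]
      simp only [Q1, mul_zero, zero_div, cos_zero, sin_zero, sub_zero, Q1_half]
      nlinarith [pi_pos]

lemma q_eq (j : ℕ) {y : ℝ} (hy : y ∈ Icc (0 : ℝ) 1) : q j y = Q0 j y := by
  induction j generalizing y with
  | zero => exact q_zero y
  | succ j ih =>
    have hs : 0 ≤ sin (π * y / 2) :=
      sin_nonneg_of_nonneg_of_le_pi (by have := hy.1; positivity) (by nlinarith [hy.2, pi_pos])
    have hc : 0 ≤ cos (π * y / 2) :=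
      cos_nonneg_of_mem_Icc ⟨by nlinarith [hy.1, pi_pos], by nlinarith [hy.2, pi_pos]⟩
    rw [q_succ]
    simp only [T, Q0]
    rw [ih ⟨by linarith [hy.1], by linarith [hy.2]⟩, ih ⟨by linarith [hy.1], by linarith [hy.2]⟩,
      ph_half, ph_eq, ← Q0_symm j (y / 2 + 1 / 2), show 1 - (y / 2 + 1 / 2) = (1 - y) / 2 by ring,
      show π * (y / 2) = π * y / 2 by ring, abs_of_nonneg hs, abs_of_nonneg hc]
    ring

/-- The minimum of `q j`. -/
noncomputable def mm (j : ℕ) : ℝ := Q0 j 0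

lemma mm_pos (j : ℕ) : 0 < mm j := (inv_all j).pos

lemma q_bounds (j : ℕ) (y : ℝ) : mm j ≤ q j y ∧ q j y ≤ mm (j + 1) := by
  have h1 : q j y = q j (Int.fract y) := by
    rw [← (q_per j).int ⌊y⌋ (Int.fract y), Int.fract_add_floor]
  have h2 : Int.fract y ∈ Icc (0 : ℝ) 1 := ⟨Int.fract_nonneg y, (Int.fract_lt_one y).le⟩
  rw [h1, q_eq j h2]
  unfold mm
  rw [Q0_succ_zero]
  exact (inv_all j).bounds h2

lemma mm_le_q (j : ℕ) (y : ℝ) : mm j ≤ q j y := (q_bounds j y).1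

lemma q_le_mm (j : ℕ) (y : ℝ) : q j y ≤ mm (j + 1) := (q_bounds j y).2

lemma q_pos (j : ℕ) (y : ℝ) : 0 < q j y := (mm_pos j).trans_le (mm_le_q j y)

lemma mm_mono (j : ℕ) : mm j ≤ mm (j + 1) := (mm_le_q j 0).trans (q_le_mm j 0)

lemma q_le_succ (j : ℕ) (y z : ℝ) : q j y ≤ q (j + 1) z := (q_le_mm j y).trans (mm_le_q _ z)

lemma mm_succ_le (j : ℕ) : mm (j + 1) ≤ √2 * mm j := by
  cases j with
  | zero =>
    simp [mm, Q0]
  | succ j =>
    unfold mm
    rw [Q0_succ_zero, Q0_succ_zero]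
    have h := ((inv_all j).bounds (y := 1 / 2 / 2) ⟨by norm_num, by norm_num⟩).2
    simp only [Q0]
    rw [show π * (1 / 2) / 2 = π / 4 by ring, sin_pi_div_four, cos_pi_div_four,
      show ((1 : ℝ) - 1 / 2) / 2 = 1 / 2 / 2 by ring]
    have : (0 : ℝ) ≤ √2 := sqrt_nonneg _
    nlinarith

lemma mm_two_le (j : ℕ) : mm (j + 2) ≤ 2 * mm j := by
  have h1 := mm_succ_le (j + 1)
  have h2 := mm_succ_le j
  have h3 : √2 * √2 = (2 : ℝ) := mul_self_sqrt (by norm_num)
  calc mm (j + 2) ≤ √2 * (√2 * mm j) := h1.trans (by gcongr)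
    _ = _ := by rw [← mul_assoc, h3]

lemma sqrt2_le : √2 ≤ (3 / 2 : ℝ) := by
  rw [sqrt_le_left (by norm_num)]; norm_num

lemma q_harnack (j : ℕ) (y z : ℝ) : q j y ≤ √2 * q j z := by
  refine (q_le_mm j y).trans ((mm_succ_le j).trans ?_)
  gcongr; exact mm_le_q j z

lemma q_reduce (j : ℕ) (u : ℝ) :
    ∃ u' ∈ Icc (0 : ℝ) (1 / 2), q j u = Q0 j u' ∧ |sin (π * u)| = sin (π * u') := by
  have h1 : q j u = q j (Int.fract u) := by
    rw [← (q_per j).int ⌊u⌋ (Int.fract u), Int.fract_add_floor]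
  have h2 : Int.fract u ∈ Icc (0 : ℝ) 1 := ⟨Int.fract_nonneg u, (Int.fract_lt_one u).le⟩
  have h3 : ph u = ph (Int.fract u) := by
    rw [← ph_per.int ⌊u⌋ (Int.fract u), Int.fract_add_floor]
  rw [ph_eq, ph_eq] at h3
  have hs : 0 ≤ sin (π * Int.fract u) :=
    sin_nonneg_of_nonneg_of_le_pi (by have := h2.1; positivity) (by nlinarith [h2.2, pi_pos])
  rw [abs_of_nonneg hs] at h3
  rcases le_total (Int.fract u) (1 / 2) with h | h
  · exact ⟨_, ⟨h2.1, h⟩, by rw [h1, q_eq j h2], by linarith⟩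
  · refine ⟨1 - Int.fract u, ⟨by linarith [h2.2], by linarith⟩, by rw [h1, q_eq j h2, Q0_symm], ?_⟩
    rw [mul_sub, mul_one, sin_pi_sub]; linarith

lemma q_mono_sin (j : ℕ) {u v : ℝ} (h : |sin (π * u)| ≤ |sin (π * v)|) : q j u ≤ q j v := by
  obtain ⟨u', hu, e1, e2⟩ := q_reduce j u
  obtain ⟨v', hv, f1, f2⟩ := q_reduce j v
  rw [e1, f1]
  rw [e2, f2] at h
  refine (inv_all j).mono hu hv ?_
  have hu' : π * u' ∈ Icc (-(π / 2)) (π / 2) :=
    ⟨by nlinarith [hu.1, pi_pos], by nlinarith [hu.2, pi_pos]⟩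
  have hv' : π * v' ∈ Icc (-(π / 2)) (π / 2) :=
    ⟨by nlinarith [hv.1, pi_pos], by nlinarith [hv.2, pi_pos]⟩
  have := (strictMonoOn_sin.le_iff_le hu' hv').1 h
  exact le_of_mul_le_mul_left this pi_pos

lemma Ex_q (L : ℕ) : Ex (q L) = sinInt L := Ex_TT L (continuous_P L)

lemma sinInt_bounds (L : ℕ) : mm L ≤ sinInt L ∧ sinInt L ≤ mm (L + 1) := by
  rw [← Ex_q]
  constructor
  · rw [← Ex_const (mm L)]; exact Ex_mono continuous_const (by fun_prop) (mm_le_q L)
  · rw [← Ex_const (mm (L + 1))]; exact Ex_mono (by fun_prop) continuous_const (q_le_mm L)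

lemma sinInt_pos (L : ℕ) : 0 < sinInt L := (mm_pos L).trans_le (sinInt_bounds L).1

lemma Ex_qP (L M : ℕ) : Ex (fun y => q L y * P M y) = sinInt (L + M) := by
  rw [sinInt_eq]
  have : P (L + M) = fun x => P L x * P M (2 ^ L * x) := funext (P_add L M)
  rw [this, Ex_mul_dil L (by fun_prop) (by fun_prop) (P_per M)]
  rfl

lemma sinInt_add (L M : ℕ) : sinInt L * sinInt M ≤ √2 * sinInt (L + M) ∧
    sinInt (L + M) ≤ √2 * (sinInt L * sinInt M) := by
  have h1 : mm L * sinInt M ≤ sinInt (L + M) := by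
    rw [← Ex_qP, sinInt_eq, ← Ex_smul]
    exact Ex_mono (by fun_prop) (by fun_prop) fun x => by
      gcongr; exacts [P_nonneg _ _, mm_le_q _ _]
  have h2 : sinInt (L + M) ≤ mm (L + 1) * sinInt M := by
    rw [← Ex_qP, sinInt_eq, ← Ex_smul]
    exact Ex_mono (by fun_prop) (by fun_prop) fun x => by
      gcongr; exacts [P_nonneg _ _, q_le_mm _ _]
  have h3 := mm_succ_le L
  have h4 := sinInt_bounds L
  have h5 := sinInt_pos M
  have h6 : (0 : ℝ) ≤ √2 := sqrt_nonneg _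
  constructor
  · calc sinInt L * sinInt M ≤ √2 * mm L * sinInt M := by gcongr; linarith [h4.2]
      _ = √2 * (mm L * sinInt M) := by ring
      _ ≤ _ := by gcongr
  · calc sinInt (L + M) ≤ √2 * mm L * sinInt M := h2.trans (by gcongr)
      _ ≤ √2 * sinInt L * sinInt M := by gcongr; exact h4.1
      _ = _ := by ring

lemma exists_rho : ∃ ρ : ℝ, 0 < ρ ∧ ∀ L : ℕ, ρ ^ L ≤ √2 * sinInt L ∧ sinInt L ≤ √2 * ρ ^ L := by
  have s2 : (0 : ℝ) < √2 := by positivity
  set a : ℕ → ℝ := fun L => log (√2 * sinInt L) with ha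
  set b : ℕ → ℝ := fun L => log (sinInt L / √2) with hb
  have e0 : sinInt 0 = 1 := by simp [sinInt]
  have s1 : (1 : ℝ) ≤ √2 := by rw [one_le_sqrt]; norm_num
  have hab : ∀ L, b L ≤ a L := fun L => by
    have := sinInt_pos L
    refine log_le_log (by positivity) ?_
    rw [div_le_iff₀ s2]
    have : 1 ≤ √2 * √2 := by nlinarith
    nlinarith
  have asub : ∀ L M, a (L + M) ≤ a L + a M := fun L M => by
    have h1 := sinInt_pos L
    have h2 := sinInt_pos M
    have h3 := sinInt_pos (L + M)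
    simp only [ha]
    rw [← log_mul (by positivity) (by positivity)]
    refine log_le_log (by positivity) ?_
    calc √2 * sinInt (L + M) ≤ √2 * (√2 * (sinInt L * sinInt M)) := by
          gcongr; exact (sinInt_add L M).2
      _ = _ := by ring
  have bsup : ∀ L M, b L + b M ≤ b (L + M) := fun L M => by
    have h1 := sinInt_pos L
    have h2 := sinInt_pos M
    have h3 := sinInt_pos (L + M)
    simp only [hb]
    rw [← log_mul (by positivity) (by positivity)]
    refine log_le_log (by positivity) ?_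
    calc sinInt L / √2 * (sinInt M / √2) = sinInt L * sinInt M / (√2 * √2) := by ring
      _ ≤ √2 * sinInt (L + M) / (√2 * √2) :=
        div_le_div_of_nonneg_right (sinInt_add L M).1 (by positivity)
      _ = _ := by field_simp
  have amul : ∀ L k, a ((k + 1) * L) ≤ (k + 1 : ℕ) * a L := fun L k => by
    induction k with
    | zero => simp
    | succ k ih =>
      have := asub ((k + 1) * L) L
      rw [show (k + 1 + 1) * L = (k + 1) * L + L by ring]
      push_cast at *; linarith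
  have bmul : ∀ L k, (k + 1 : ℕ) * b L ≤ b ((k + 1) * L) := fun L k => by
    induction k with
    | zero => simp
    | succ k ih =>
      have := bsup ((k + 1) * L) L
      rw [show (k + 1 + 1) * L = (k + 1) * L + L by ring]
      push_cast at *; linarith
  have key : ∀ L M : ℕ, b (L + 1) / (L + 1 : ℕ) ≤ a (M + 1) / (M + 1 : ℕ) := fun L M => by
    have h1 := bmul (L + 1) M
    have h2 := amul (M + 1) L
    have h3 := hab ((M + 1) * (L + 1))
    rw [mul_comm (L + 1)] at h2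
    rw [div_le_div_iff₀ (by positivity) (by positivity)]
    linarith
  have hbdd : BddAbove (Set.range fun L : ℕ => b (L + 1) / (L + 1 : ℕ)) :=
    ⟨_, by rintro _ ⟨L, rfl⟩; exact key L 0⟩
  set k := ⨆ L : ℕ, b (L + 1) / (L + 1 : ℕ) with hk
  refine ⟨exp k, exp_pos k, fun L => ?_⟩
  cases L with
  | zero => simp [e0, s1]
  | succ L =>
    have h1 : b (L + 1) / (L + 1 : ℕ) ≤ k := le_ciSup hbdd L
    have h2 : k ≤ a (L + 1) / (L + 1 : ℕ) := ciSup_le fun M => key M L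
    rw [div_le_iff₀ (by positivity)] at h1
    rw [le_div_iff₀ (by positivity)] at h2
    have h3 := sinInt_pos (L + 1)
    rw [← exp_nat_mul, mul_comm _ k]
    constructor
    · rw [← le_log_iff_exp_le (by positivity)]; exact h2
    · have : sinInt (L + 1) / √2 ≤ exp (k * (L + 1 : ℕ)) := by
        rw [← log_le_iff_le_exp (by positivity)]; exact h1
      rw [div_le_iff₀ s2] at this
      linarith

noncomputable def rho : ℝ := exists_rho.choose

lemma rho_pos : 0 < rho := exists_rho.choose_spec.1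

lemma rho_le_sinInt (L : ℕ) : rho ^ L ≤ √2 * sinInt L := (exists_rho.choose_spec.2 L).1

lemma sinInt_le_rho (L : ℕ) : sinInt L ≤ √2 * rho ^ L := (exists_rho.choose_spec.2 L).2

lemma sinInt_le (L : ℕ) : sinInt L ≤ 2 * rho ^ L := by
  have := sinInt_le_rho L
  have h2 := sqrt2_le
  have h3 := pow_pos rho_pos L
  nlinarith

lemma le_sinInt (L : ℕ) : rho ^ L / 2 ≤ sinInt L := by
  have := rho_le_sinInt L
  have h2 := sqrt2_le
  have h3 := sinInt_pos L
  nlinarith

lemma mm_succ_le_rho (L : ℕ) : mm (L + 1) ≤ 2 * rho ^ L := by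
  have h1 := mm_succ_le L
  have h2 := (sinInt_bounds L).1
  have h3 := sinInt_le_rho L
  have h4 : √2 * √2 = (2 : ℝ) := mul_self_sqrt (by norm_num)
  calc mm (L + 1) ≤ √2 * (√2 * rho ^ L) := h1.trans (by gcongr; linarith)
    _ = _ := by rw [← mul_assoc, h4]

lemma rho_le_mm (L : ℕ) : rho ^ L / 2 ≤ mm L := by
  have h1 := mm_succ_le L
  have h2 := (sinInt_bounds L).2
  have h3 := rho_le_sinInt L
  have h4 : √2 * √2 = (2 : ℝ) := mul_self_sqrt (by norm_num)
  have : rho ^ L ≤ √2 * (√2 * mm L) := h3.trans (by gcongr; linarith)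
  rw [← mul_assoc, h4] at this
  linarith

lemma q_le_rho (L : ℕ) (y : ℝ) : q L y ≤ 2 * rho ^ L := (q_le_mm L y).trans (mm_succ_le_rho L)

lemma rho_le_q (L : ℕ) (y : ℝ) : rho ^ L / 2 ≤ q L y := (rho_le_mm L).trans (mm_le_q L y)

lemma le_one_of_pow_bdd {x C : ℝ} (h : ∀ n : ℕ, x ^ n ≤ C) : x ≤ 1 := by
  by_contra hx
  push Not at hx
  obtain ⟨n, hn⟩ := pow_unbounded_of_one_lt C hx
  exact absurd (h n) (not_le.2 hn)

lemma mm_three : (46 / 25 : ℝ) ≤ mm 3 := by
  have h1 : mm 3 = √2 * (sin (π / 8) + cos (π / 8)) := by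
    unfold mm
    rw [Q0_succ_zero]
    simp only [Q0]
    rw [show π * (1 / 2) / 2 = π / 4 by ring, sin_pi_div_four, cos_pi_div_four,
      show ((1 : ℝ) - 1 / 2) / 2 = 1 / 2 / 2 by ring, show π * (1 / 2 / 2) / 2 = π / 8 by ring]
    ring
  have h2 : (sin (π / 8) + cos (π / 8)) ^ 2 = 1 + √2 / 2 := by
    rw [← sin_pi_div_four, show π / 4 = 2 * (π / 8) by ring, sin_two_mul]
    nlinarith [sin_sq_add_cos_sq (π / 8)]
  have h3 : √2 * √2 = (2 : ℝ) := mul_self_sqrt (by norm_num)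
  have h4 : (7 / 5 : ℝ) ≤ √2 := by rw [le_sqrt (by norm_num) (by norm_num)]; norm_num
  have h5 : mm 3 ^ 2 = 2 + √2 := by rw [h1, mul_pow, h2]; nlinarith
  have := mm_pos 3
  nlinarith

lemma rho_cube : (46 / 25 : ℝ) ≤ rho ^ 3 := by
  have h1 : ∀ L, mm L * mm 3 ≤ mm (L + 3) := fun L => by
    have e : mm (L + 3) = q (L + 3) 0 := by rw [q_eq _ ⟨le_rfl, zero_le_one⟩]; rfl
    rw [e, q_add]
    refine le_trans ?_ (TT_mono 3 (f := fun z => mm L * P 3 z) (fun z => by
      gcongr; exacts [P_nonneg _ _, mm_le_q _ _]) 0)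
    rw [TT_smul]
    have := mm_pos L
    gcongr
    exact mm_le_q 3 0
  have h2 : ∀ n : ℕ, (46 / 25 : ℝ) ^ n ≤ mm (3 * n) := fun n => by
    induction n with
    | zero => simp [mm, Q0]
    | succ n ih =>
      rw [pow_succ, mul_add, mul_one]
      refine le_trans ?_ (h1 _)
      exact mul_le_mul ih mm_three (by norm_num) (mm_pos _).le
  have h3 := pow_pos rho_pos 3
  have h4 : 46 / 25 / rho ^ 3 ≤ 1 := by
    refine le_one_of_pow_bdd (C := 2) fun n => ?_
    rw [div_pow, div_le_iff₀ (by positivity), ← pow_mul]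
    exact (h2 n).trans ((mm_mono _).trans (mm_succ_le_rho _))
  rwa [div_le_one h3] at h4

lemma rho_ge : (6 / 5 : ℝ) ≤ rho := by
  by_contra h
  push Not at h
  have := pow_lt_pow_left₀ h rho_pos.le (n := 3) (by norm_num)
  have := rho_cube
  norm_num at *
  linarith

lemma one_le_rho : 1 ≤ rho := by linarith [rho_ge]

lemma rho_le_two : rho ≤ 2 := by
  have h4 : rho / 2 ≤ 1 := by
    refine le_one_of_pow_bdd (C := 2) fun n => ?_
    rw [div_pow, div_le_iff₀ (by positivity)]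
    have h1 := le_sinInt n
    have h2 : sinInt n ≤ 2 ^ n := by
      rw [sinInt_eq, ← Ex_const (2 ^ n)]
      exact Ex_mono (by fun_prop) continuous_const (P_le n)
    linarith
  linarith

end Pool.Agent.MP_d431d3_nt
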