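import Pool.Agent.Lib.MP_d431d3_nt.Dil

/-! Counting well-spaced points with weights, Farey sums, and divisor function bounds. -/

namespace Pool.Agent.MP_d431d3_nt

open Real Finset

lemma sum_le_inj {α β : Type*} [DecidableEq β] {S : Finset α} {U : Finset β} (i : α → β)
    {F : α → ℝ} {G : β → ℝ} (hm : ∀ x ∈ S, i x ∈ U) (hi : Set.InjOn i S)
    (hF : ∀ x ∈ S, F x ≤ G (i x)) (hG : ∀ y ∈ U, 0 ≤ G y) : ∑ x ∈ S, F x ≤ ∑ y ∈ U, G y := by
  calc ∑ x ∈ S, F x ≤ ∑ x ∈ S, G (i x) := sum_le_sum hF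
    _ = ∑ y ∈ S.image i, G y := (sum_image hi).symm
    _ ≤ _ := sum_le_sum_of_subset_of_nonneg (fun y hy => by
        obtain ⟨x, hx, rfl⟩ := mem_image.1 hy; exact hm x hx) fun y hy _ => hG y hy

lemma count_sep {ι : Type*} {f : ℝ → ℝ} (hp : Per f) (h0 : ∀ x, 0 ≤ f x) (h1 : ∀ x, f x ≤ 1)
    {θ : ℝ} (hθ : 0 ≤ θ) (h2 : ∀ x, 1 / 8 ≤ x → x ≤ 7 / 8 → f x ≤ θ) (l : ℕ) (S : Finset ι)
    (x : ι → ℝ) (hx : ∀ i ∈ S, 0 ≤ x i ∧ x i < 1)
    (hs : ∀ i ∈ S, ∀ j ∈ S, i ≠ j → 1 / 8 ^ l ≤ |x i - x j|) :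
    ∑ i ∈ S, ∏ k ∈ range l, f (8 ^ k * x i) ≤ (2 + 6 * θ) ^ l := by
  classical
  induction l generalizing S x with
  | zero =>
    simp only [range_zero, prod_empty, sum_const, nsmul_eq_mul, mul_one, pow_zero]
    have : S.card ≤ 1 := card_le_one.2 fun i hi j hj => by
      by_contra h
      have a := hs i hi j hj h
      have b := hx i hi
      have c := hx j hj
      simp only [pow_zero, div_one] at a
      rcases le_abs.1 a with a | a <;> linarith [b.1, b.2, c.1, c.2]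
    exact_mod_cast this
  | succ l ih =>
    have hm : ∀ i ∈ S, ⌊8 * x i⌋₊ ∈ range 8 := fun i hi => by
      have := hx i hi
      rw [mem_range, Nat.floor_lt (by linarith)]
      push_cast; linarith
    rw [← sum_fiberwise_of_maps_to hm]
    have key : ∀ d ∈ range 8, ∑ i ∈ S with ⌊8 * x i⌋₊ = d, ∏ k ∈ range (l + 1), f (8 ^ k * x i) ≤
        (if d = 0 ∨ d = 7 then 1 else θ) * (2 + 6 * θ) ^ l := fun d hd => by
      have hfl : ∀ i ∈ S.filter (fun i => ⌊8 * x i⌋₊ = d), (d : ℝ) ≤ 8 * x i ∧ 8 * x i < d + 1 :=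
        fun i hi => by
          obtain ⟨h3, h4⟩ := mem_filter.1 hi
          have := hx i h3
          rw [← h4]
          exact ⟨Nat.floor_le (by linarith), Nat.lt_floor_add_one _⟩
      have := ih (S.filter fun i => ⌊8 * x i⌋₊ = d) (fun i => 8 * x i - d)
        (fun i hi => by have := hfl i hi; constructor <;> linarith)
        (fun i hi j hj hij => by
          have := hs i (mem_filter.1 hi).1 j (mem_filter.1 hj).1 hij
          rw [show 8 * x i - d - (8 * x j - d) = 8 * (x i - x j) by ring, abs_mul]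
          rw [pow_succ, div_le_iff₀ (by positivity)] at this
          rw [div_le_iff₀ (by positivity)]
          norm_num; linarith)
      have w0 : 0 ≤ (if d = 0 ∨ d = 7 then 1 else θ) := by split_ifs <;> positivity
      refine le_trans ?_ (mul_le_mul_of_nonneg_left this w0)
      rw [mul_sum]
      refine sum_le_sum fun i hi => ?_
      rw [prod_range_succ', mul_comm]
      have e : ∀ k, f (8 ^ (k + 1) * x i) = f (8 ^ k * (8 * x i - d)) := fun k => by
        rw [← hp.nat (8 ^ k * d) (8 ^ k * (8 * x i - d))]; congr 1; push_cast; ring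
      simp only [e, pow_zero, one_mul]
      refine mul_le_mul_of_nonneg_right ?_ (prod_nonneg fun _ _ => h0 _)
      split_ifs with h
      · exact h1 _
      · have := hfl i hi
        have hd' := mem_range.1 hd
        have a : (1 : ℝ) ≤ d := by exact_mod_cast (by omega : 1 ≤ d)
        have b : (d : ℝ) ≤ 6 := by exact_mod_cast (by omega : d ≤ 6)
        exact h2 _ (by linarith) (by linarith)
    refine (sum_le_sum key).trans (le_of_eq ?_)
    rw [← sum_mul]
    simp [sum_range_succ]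
    ring

/-- The contraction on the six middle octal digits. -/
noncomputable def th0 : ℝ := 1 - 1 / 16384

lemma lf_mid (x : ℝ) (h1 : 1 / 8 ≤ x) (h2 : x ≤ 7 / 8) : lf x ≤ th0 := by
  have key : ∀ y : ℝ, 1 / 8 ≤ y → y ≤ 1 / 2 → 1 / 4 ≤ sin (π * y) := fun y a b => by
    have := mul_le_sin (x := π * y) (by positivity) (by nlinarith [pi_pos])
    rw [show 2 / π * (π * y) = 2 * y by field_simp] at this
    linarith
  have : 1 / 4 ≤ sin (π * x) := by
    rcases le_total x (1 / 2) with h | h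
    · exact key x h1 h
    · have := key (1 - x) (by linarith) (by linarith)
      rwa [mul_sub, mul_one, sin_pi_sub] at this
  unfold lf th0
  nlinarith

lemma th0_pos : 0 < th0 := by unfold th0; norm_num

lemma Psi_per (l : ℕ) : Per (Psi l) := fun x => by
  unfold Psi
  refine prod_congr rfl fun j _ => ?_
  have := lf_per.dil' (8 ^ j) x
  simpa using this

lemma sum_Psi_grid (l : ℕ) :
    ∑ j ∈ range (8 ^ l), Psi l (j / 8 ^ l) ≤ (2 + 6 * th0) ^ l := by
  refine count_sep lf_per lf_nonneg lf_le th0_pos.le lf_mid l _ (fun j : ℕ => (j : ℝ) / 8 ^ l)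
    (fun i hi => ⟨by positivity, ?_⟩) (fun i _ j _ hij => ?_)
  · rw [div_lt_one (by positivity)]; exact_mod_cast mem_range.1 hi
  · rw [← sub_div, abs_div, abs_of_pos (by positivity : (0 : ℝ) < 8 ^ l)]
    gcongr
    have : (1 : ℤ) ≤ |(i : ℤ) - j| := Int.one_le_abs (sub_ne_zero.2 (by exact_mod_cast hij))
    exact_mod_cast this

lemma prod_le_sum_pow {r : ℕ} (hr : 0 < r) {y : ℕ → ℝ} (h : ∀ b, 0 ≤ y b) :
    ∏ b ∈ range r, y b ≤ ∑ b ∈ range r, y b ^ r := by
  obtain ⟨b0, hb0, hm⟩ := exists_max_image (range r) y ⟨0, mem_range.2 hr⟩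
  calc ∏ b ∈ range r, y b ≤ ∏ _b ∈ range r, y b0 := prod_le_prod (fun b _ => h b) hm
    _ = y b0 ^ r := by simp
    _ ≤ _ := single_le_sum (f := fun b => y b ^ r) (fun b _ => pow_nonneg (h b) r) hb0

lemma Psi_mul (r l : ℕ) (σ : ℝ) : Psi (r * l) σ = ∏ b ∈ range r, Psi l (8 ^ (b * l) * σ) := by
  induction r with
  | zero => simp [Psi]
  | succ r ih =>
    rw [prod_range_succ, ← ih, add_mul, one_mul]
    unfold Psi
    rw [prod_range_add]
    congr 1
    refine prod_congr rfl fun j _ => ?_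
    congr 1; ring

lemma farey_sep {N e j e' j' i : ℕ} (hN : Nat.Coprime N e) (hN' : Nat.Coprime N e') (hj : j < e)
    (hj' : j' < e') (hc : Nat.Coprime j e) (hc' : Nat.Coprime j' e') (he : e ≤ 8 ^ i)
    (he' : e' ≤ 8 ^ i) (hne : (e, j) ≠ (e', j')) :
    1 / 8 ^ (2 * i) ≤ |Int.fract ((N : ℝ) * (j / e)) - Int.fract ((N : ℝ) * (j' / e'))| := by
  have e0 : 0 < e := by omega
  have e0' : 0 < e' := by omega
  have e1 : (0 : ℝ) < e := by exact_mod_cast e0
  have e1' : (0 : ℝ) < e' := by exact_mod_cast e0'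
  obtain ⟨n, hn⟩ : ∃ n : ℤ, Int.fract ((N : ℝ) * (j / e)) = N * (j / e) - n := ⟨_, rfl⟩
  obtain ⟨n', hn'⟩ : ∃ n : ℤ, Int.fract ((N : ℝ) * (j' / e')) = N * (j' / e') - n := ⟨_, rfl⟩
  set D : ℤ := N * j * e' - N * j' * e - (n - n') * e * e' with hD
  have eD : Int.fract ((N : ℝ) * (j / e)) - Int.fract ((N : ℝ) * (j' / e')) = D / (e * e') := by
    rw [hn, hn', hD]; push_cast; field_simp; ring
  have D0 : D ≠ 0 := by
    intro h
    have d1 : (e : ℤ) ∣ N * j * e' := ⟨N * j' + (n - n') * e', by linear_combination h - hD⟩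
    have d2 : (e' : ℤ) ∣ N * j' * e := ⟨N * j - (n - n') * e, by linear_combination hD - h⟩
    have d3 : e ∣ e' := by
      have : e ∣ N * j * e' := by exact_mod_cast d1
      exact (Nat.Coprime.mul_left hN hc).symm.dvd_of_dvd_mul_left this
    have d4 : e' ∣ e := by
      have : e' ∣ N * j' * e := by exact_mod_cast d2
      exact (Nat.Coprime.mul_left hN' hc').symm.dvd_of_dvd_mul_left this
    have ee : e = e' := Nat.dvd_antisymm d3 d4
    subst ee
    have d5 : (e : ℤ) ∣ N * ((j : ℤ) - j') := by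
      refine ⟨n - n', ?_⟩
      have : (e : ℤ) ≠ 0 := by exact_mod_cast e0.ne'
      refine mul_right_cancel₀ this ?_
      linear_combination h - hD
    have d6 : (e : ℤ) ∣ (j : ℤ) - j' :=
      IsCoprime.dvd_of_dvd_mul_left (Nat.isCoprime_iff_coprime.2 hN.symm) d5
    have : (j : ℤ) - j' = 0 := Int.eq_zero_of_dvd_of_natAbs_lt_natAbs d6 (by omega)
    exact hne (by rw [show j = j' by omega])
  rw [eD, abs_div, abs_of_pos (by positivity : (0 : ℝ) < e * e')]
  have a1 : (1 : ℝ) ≤ |(D : ℝ)| := by exact_mod_cast Int.one_le_abs D0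
  have a2 : (e : ℝ) * e' ≤ 8 ^ (2 * i) := by
    rw [two_mul, pow_add]
    exact mul_le_mul (by exact_mod_cast he) (by exact_mod_cast he') e1'.le (by positivity)
  gcongr

lemma farey_sum {r : ℕ} (hr : 0 < r) (i : ℕ) (S : Finset (ℕ × ℕ))
    (hS : ∀ p ∈ S, Odd p.1 ∧ p.1 ≤ 8 ^ i ∧ p.2 < p.1 ∧ Nat.Coprime p.2 p.1) :
    ∑ p ∈ S, Psi (r * (2 * i)) (p.2 / p.1) ≤ r * (2 + 6 * th0 ^ r) ^ (2 * i) := by
  simp only [Psi_mul r]
  refine (sum_le_sum fun p _ => prod_le_sum_pow hr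
    (y := fun b => Psi (2 * i) (8 ^ (b * (2 * i)) * ((p.2 : ℝ) / p.1))) fun b => Psi_nonneg _ _).trans ?_
  rw [sum_comm]
  refine (sum_le_card_nsmul _ _ ((2 + 6 * th0 ^ r) ^ (2 * i)) fun b _ => ?_).trans (by simp)
  have hN : ∀ e, Odd e → Nat.Coprime (8 ^ (b * (2 * i))) e := fun e he => by
    refine Nat.Coprime.pow_left _ ?_
    rw [show 8 = 2 ^ 3 by norm_num]
    exact Nat.Coprime.pow_left _ (Nat.coprime_two_left.2 he)
  have := count_sep (f := fun x => lf x ^ r) (fun x => by simp only; rw [lf_per])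
    (fun x => pow_nonneg (lf_nonneg x) r) (fun x => pow_le_one₀ (lf_nonneg x) (lf_le x))
    (pow_nonneg th0_pos.le r)
    (fun x a b => pow_le_pow_left₀ (lf_nonneg x) (lf_mid x a b) r) (2 * i) S
    (fun p => Int.fract (((8 ^ (b * (2 * i)) : ℕ) : ℝ) * (p.2 / p.1)))
    (fun p _ => ⟨Int.fract_nonneg _, Int.fract_lt_one _⟩)
    (fun p hp p' hp' hne => by
      obtain ⟨a1, a2, a3, a4⟩ := hS p hp
      obtain ⟨b1, b2, b3, b4⟩ := hS p' hp'
      exact farey_sep (hN _ a1) (hN _ b1) a3 b3 a4 b4 a2 b2 hne)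
  refine le_trans (le_of_eq (sum_congr rfl fun p _ => ?_)) this
  rw [prod_pow, ← Psi, ← (Psi_per _).int ⌊((8 ^ (b * (2 * i)) : ℕ) : ℝ) * (p.2 / p.1)⌋ (Int.fract _),
    Int.fract_add_floor]
  push_cast; rfl

/-- Number of divisors. -/
def dv (n : ℕ) : ℕ := n.divisors.card

lemma dv_mul (u v : ℕ) : dv (u * v) ≤ dv u * dv v := by
  unfold dv; rw [Nat.divisors_mul]; exact card_mul_le

noncomputable def Hm (X : ℕ) : ℝ := ∑ n ∈ Icc 1 X, (1 : ℝ) / n

lemma Hm_nonneg (X : ℕ) : 0 ≤ Hm X := sum_nonneg fun _ _ => by positivity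

lemma Hm_le {X n : ℕ} (h : X ≤ 2 ^ n) : Hm X ≤ n + 1 := by
  have h1 := harmonic_le_one_add_log X
  rw [harmonic_eq_sum_Icc] at h1
  push_cast at h1
  have h2 : log X ≤ n := by
    rcases Nat.eq_zero_or_pos X with rfl | hX
    · simp
    · calc log X ≤ log (2 ^ n) := log_le_log (by exact_mod_cast hX) (by exact_mod_cast h)
        _ = n * log 2 := by rw [log_pow]
        _ ≤ n * 1 := by gcongr; linarith [log_two_lt_d9]
        _ = n := mul_one _
  unfold Hm
  simp only [one_div]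
  linarith

lemma sum_dv_pow (m X : ℕ) : ∑ n ∈ Icc 1 X, (dv n : ℝ) ^ m / n ≤ Hm X ^ (2 ^ m) := by
  induction m with
  | zero => simp [Hm]
  | succ m ih =>
    have e : ∀ n ∈ Icc 1 X, (dv n : ℝ) ^ (m + 1) / n = ∑ d ∈ n.divisors, (dv n : ℝ) ^ m / n :=
      fun n _ => by rw [sum_const, nsmul_eq_mul, ← dv]; ring
    rw [sum_congr rfl e, sum_sigma']
    calc _ ≤ ∑ p ∈ Icc 1 X ×ˢ Icc 1 X, (dv p.1 : ℝ) ^ m / p.1 * ((dv p.2 : ℝ) ^ m / p.2) := by
          refine sum_le_inj (fun x => (x.2, x.1 / x.2)) (fun x hx => ?_) (fun x hx y hy h => ?_)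
            (fun x hx => ?_) (fun y _ => by positivity)
          · obtain ⟨h1, h2⟩ := mem_sigma.1 hx
            have h3 := Nat.dvd_of_mem_divisors h2
            have h4 := Nat.pos_of_mem_divisors h2
            have h5 := mem_Icc.1 h1
            have h6 := Nat.le_of_dvd (by omega) h3
            simp only [mem_product, mem_Icc]
            exact ⟨⟨h4, by omega⟩, Nat.div_pos h6 h4, (Nat.div_le_self _ _).trans h5.2⟩
          · obtain ⟨-, h2⟩ := mem_sigma.1 (mem_coe.1 hx)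
            obtain ⟨-, h2'⟩ := mem_sigma.1 (mem_coe.1 hy)
            have h3 := Nat.mul_div_cancel' (Nat.dvd_of_mem_divisors h2)
            have h3' := Nat.mul_div_cancel' (Nat.dvd_of_mem_divisors h2')
            simp only [Prod.mk.injEq] at h
            obtain ⟨n, d⟩ := x
            obtain ⟨n', d'⟩ := y
            simp only at h h3 h3'
            obtain ⟨rfl, h⟩ := h
            have : n = n' := by rw [← h3, ← h3', h]
            subst this; rfl
          · obtain ⟨h1, h2⟩ := mem_sigma.1 hx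
            have h3 := Nat.mul_div_cancel' (Nat.dvd_of_mem_divisors h2)
            have h4 := dv_mul x.2 (x.1 / x.2)
            rw [h3] at h4
            simp only
            rw [div_mul_div_comm, ← mul_pow, ← Nat.cast_mul, ← Nat.cast_mul, h3]
            gcongr
      _ = (∑ n ∈ Icc 1 X, (dv n : ℝ) ^ m / n) ^ 2 := by rw [sum_product, sq, sum_mul_sum]
      _ ≤ (Hm X ^ (2 ^ m)) ^ 2 := by gcongr
      _ = _ := by rw [← pow_mul, pow_succ]

lemma poly_le_exp (k : ℕ) {η : ℝ} (hη : 1 < η) : ∃ C : ℝ, 1 ≤ C ∧ ∀ N : ℕ, ((N : ℝ) + 1) ^ k ≤ C * η ^ N := by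
  have h := (tendsto_pow_const_div_const_pow_of_one_lt k hη).bddAbove_range
  obtain ⟨C, hC⟩ := h
  have η0 : 0 < η := by linarith
  refine ⟨max 1 (C * η), le_max_left _ _, fun N => ?_⟩
  have := hC ⟨N + 1, rfl⟩
  simp only at this
  rw [div_le_iff₀ (by positivity)] at this
  push_cast at this
  calc _ ≤ C * η ^ (N + 1) := this
    _ = C * η * η ^ N := by ring
    _ ≤ _ := by gcongr; exact le_max_right _ _

lemma dv_pow_le (s : ℕ) {η : ℝ} (hη : 1 < η) : ∃ C : ℝ, 1 ≤ C ∧ ∀ N n : ℕ, 1 ≤ n → n ≤ 2 ^ N →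
    (dv n : ℝ) ^ s ≤ C * η ^ N := by
  obtain ⟨m0, hm0⟩ := pow_unbounded_of_one_lt ((4 : ℝ) ^ s) hη
  set m := m0 + 1
  have hm : (4 : ℝ) ^ s ≤ η ^ m := hm0.le.trans (pow_le_pow_right₀ hη.le (by omega))
  obtain ⟨C, hC1, hC⟩ := poly_le_exp (2 ^ m) (η := 2) (by norm_num)
  refine ⟨C ^ s, one_le_pow₀ hC1, fun N n h1 h2 => ?_⟩
  have a1 : (dv n : ℝ) ^ m / n ≤ Hm n ^ (2 ^ m) :=
    le_trans (single_le_sum (f := fun n : ℕ => (dv n : ℝ) ^ m / n) (fun _ _ => by positivity)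
      (mem_Icc.2 ⟨h1, le_rfl⟩)) (sum_dv_pow m n)
  have n0 : (0 : ℝ) < n := by exact_mod_cast h1
  rw [div_le_iff₀ n0] at a1
  have a2 : (dv n : ℝ) ^ m ≤ C * 4 ^ N := by
    calc _ ≤ Hm n ^ (2 ^ m) * n := a1
      _ ≤ ((N : ℝ) + 1) ^ (2 ^ m) * 2 ^ N := by
        gcongr
        · exact Hm_nonneg n
        · exact Hm_le h2
        · exact_mod_cast h2
      _ ≤ C * 2 ^ N * 2 ^ N := by gcongr; exact hC N
      _ = _ := by rw [mul_assoc, ← mul_pow]; norm_num
  have η0 : 0 < η := by linarith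
  refine le_of_pow_le_pow_left₀ (n := m) (by omega) (by positivity) ?_
  calc ((dv n : ℝ) ^ s) ^ m = ((dv n : ℝ) ^ m) ^ s := by rw [← pow_mul, ← pow_mul, mul_comm]
    _ ≤ (C * 4 ^ N) ^ s := by gcongr
    _ = C ^ s * (4 ^ s) ^ N := by rw [mul_pow, ← pow_mul, ← pow_mul, mul_comm N]
    _ ≤ (C ^ s) ^ m * (η ^ m) ^ N := by
      gcongr
      exact le_self_pow₀ (one_le_pow₀ hC1) (by omega)
    _ = _ := by rw [mul_pow, ← pow_mul η, ← pow_mul η, mul_comm N]

lemma landreau_aux {Y D : ℕ} (hY : 1 ≤ Y) (hD : 2 ≤ D) (R n : ℕ) (hn : 1 ≤ n) (h : n ≤ Y ^ R)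
    (hd : ∀ e, e ∣ n → e ≤ Y ^ 2 → dv e ≤ D) : dv n ≤ D ^ R := by
  classical
  induction R generalizing n with
  | zero =>
    have : n = 1 := by simp at h; omega
    subst this; simp [dv]
  | succ R ih =>
    by_cases h1 : n ≤ Y
    · exact (hd n dvd_rfl (by nlinarith)).trans (Nat.le_self_pow (by omega) D)
    have ex : ∃ e, e ∣ n ∧ Y < e := ⟨n, dvd_rfl, by omega⟩
    set e := Nat.find ex
    obtain ⟨e1, e2⟩ : e ∣ n ∧ Y < e := Nat.find_spec ex
    have emin : ∀ f, f ∣ e → f < e → f ≤ Y := fun f a b => by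
      have := Nat.find_min ex b
      by_contra c
      exact this ⟨a.trans e1, by omega⟩
    have de : dv e ≤ D := by
      by_cases hp : e.Prime
      · unfold dv; rw [hp.divisors, card_pair hp.one_lt.ne]; exact hD
      · refine hd e e1 ?_
        obtain ⟨a, b, ha, hb, hab⟩ := (Nat.not_prime_iff_exists_mul_eq (by omega)).1 hp
        have := emin a ⟨b, hab.symm⟩ ha
        have := emin b ⟨a, by rw [mul_comm]; exact hab.symm⟩ hb
        rw [← hab, sq]; gcongr
    obtain ⟨n', hn'⟩ := e1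
    have n1 : 1 ≤ n' := Nat.pos_of_ne_zero (by rintro rfl; omega)
    have n2 : n' ≤ Y ^ R := by
      by_contra c
      have : Y ^ R * Y < n' * e := Nat.mul_lt_mul'' (by omega) e2
      rw [pow_succ, hn', mul_comm e] at h
      omega
    have := ih n' n1 n2 fun f a b => hd f (a.trans ⟨e, by rw [hn', mul_comm]⟩) b
    rw [hn', pow_succ']
    exact (dv_mul _ _).trans (Nat.mul_le_mul de this)

lemma landreau {Y R n : ℕ} (hY : 1 ≤ Y) (hn : 1 ≤ n) (h : n ≤ Y ^ R) :
    dv n ≤ ∑ e ∈ (Icc 1 (Y ^ 2)).filter (· ∣ n), (2 * dv e) ^ R := by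
  have one : 1 ∈ (Icc 1 (Y ^ 2)).filter (· ∣ n) := by
    simp only [mem_filter, mem_Icc, one_dvd, and_true, le_refl, true_and]
    exact Nat.one_le_pow _ _ hY
  obtain ⟨e0, he0, hm⟩ := exists_max_image _ dv ⟨1, one⟩
  have d1 : 1 ≤ dv e0 := by simpa [dv] using hm 1 one
  refine (landreau_aux (D := 2 * dv e0) hY (by omega) R n hn h fun e a b => ?_).trans
    (single_le_sum (f := fun e => (2 * dv e) ^ R) (fun _ _ => Nat.zero_le _) he0)
  have := hm e (by
    simp only [mem_filter, mem_Icc]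
    exact ⟨⟨Nat.pos_of_dvd_of_pos a hn, b⟩, a⟩)
  omega

end Pool.Agent.MP_d431d3_nt
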