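import Pool.Agent.Lib.MP_d431d3_nt.Basic

/-! Fourier coefficients of periodic functions, Parseval, dilations, and complex powers. -/

namespace Pool.Agent.MP_d431d3_nt

open Real Finset MeasureTheory
open scoped ComplexConjugate

noncomputable def ee (x : ℝ) : ℂ := Complex.exp (2 * π * x * Complex.I)

lemma ee_add (x y : ℝ) : ee (x + y) = ee x * ee y := by
  unfold ee; rw [← Complex.exp_add]; congr 1; push_cast; ring

@[simp] lemma ee_zero : ee 0 = 1 := by simp [ee]

@[simp] lemma norm_ee (x : ℝ) : ‖ee x‖ = 1 := by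
  unfold ee
  rw [show (2 * π * x * Complex.I : ℂ) = ((2 * π * x : ℝ) : ℂ) * Complex.I by push_cast; ring]
  exact Complex.norm_exp_ofReal_mul_I _

lemma ee_int (n : ℤ) : ee n = 1 := by
  unfold ee
  rw [show (2 * π * ((n : ℝ) : ℂ) * Complex.I : ℂ) = n * (2 * π * Complex.I) by push_cast; ring]
  exact Complex.exp_int_mul_two_pi_mul_I n

lemma ee_per : Per ee := fun x => by
  rw [ee_add, show ee 1 = 1 by simpa using ee_int 1, mul_one]

@[fun_prop] lemma continuous_ee : Continuous ee := by unfold ee; fun_prop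

lemma ee_re (x : ℝ) : (ee x).re = cos (2 * π * x) := by
  unfold ee
  rw [show (2 * π * x * Complex.I : ℂ) = ((2 * π * x : ℝ) : ℂ) * Complex.I by push_cast; ring]
  exact Complex.exp_ofReal_mul_I_re _

lemma ee_neg (x : ℝ) : ee (-x) = conj (ee x) := by
  unfold ee
  rw [← Complex.exp_conj]; congr 1; simp [Complex.conj_ofNat]

lemma ee_eq_one {x : ℝ} (h : ee x = 1) : ∃ n : ℤ, x = n := by
  obtain ⟨n, hn⟩ := Complex.exp_eq_one_iff.1 h
  refine ⟨n, ?_⟩
  have h2 : (2 * π * Complex.I : ℂ) ≠ 0 := Complex.two_pi_I_ne_zero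
  have : (x : ℂ) = n := mul_right_cancel₀ h2 (by linear_combination hn)
  exact_mod_cast this

lemma normSq_one_sub (β x : ℝ) : ‖1 - β * ee x‖ ^ 2 = 1 + β ^ 2 - 2 * β * cos (2 * π * x) := by
  have h := norm_ee x
  have h2 : (ee x).re ^ 2 + (ee x).im ^ 2 = 1 := by
    have := Complex.sq_norm (ee x)
    rw [h, Complex.normSq_apply] at this
    nlinarith
  rw [Complex.sq_norm, Complex.normSq_apply, ← ee_re]
  simp
  linear_combination β ^ 2 * h2

lemma norm_one_sub_ee (x : ℝ) : ‖1 - ee x‖ = ph x := by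
  have h := normSq_one_sub 1 x
  simp only [Complex.ofReal_one, one_mul] at h
  rw [show 2 * π * x = 2 * (π * x) by ring, cos_two_mul] at h
  have h2 : ph x ^ 2 = 4 * sin (π * x) ^ 2 := by rw [ph_eq, mul_pow, sq_abs]; ring
  have h3 : ‖1 - ee x‖ ^ 2 = ph x ^ 2 := by
    rw [h, h2]; nlinarith [sin_sq_add_cos_sq (π * x)]
  exact (pow_left_inj₀ (norm_nonneg _) (ph_nonneg _) two_ne_zero).1 h3

/-- Fourier coefficient. -/
noncomputable def fc (f : ℝ → ℂ) (n : ℤ) : ℂ := Ex (fun x => f x * ee (-(n * x)))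

theorem parseval {f : ℝ → ℂ} (hf : Continuous f) :
    HasSum (fun n => ‖fc f n‖ ^ 2) (Ex fun x => ‖f x‖ ^ 2) := by
  have hL : MemLp f 2 (volume.restrict (Set.Ioc (0 : ℝ) 1)) := by
    obtain ⟨C, hC⟩ := (isCompact_Icc (a := (0 : ℝ)) (b := 1)).exists_bound_of_continuousOn
      hf.continuousOn
    refine MemLp.of_bound hf.aestronglyMeasurable C ?_
    rw [ae_restrict_iff' measurableSet_Ioc]
    exact Filter.Eventually.of_forall fun x hx => hC x (Set.Ioc_subset_Icc_self hx)
  have := hasSum_sq_fourierCoeffOn zero_lt_one hL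
  simp only [sub_zero, inv_one, one_smul] at this
  convert this using 3 with n
  rw [fourierCoeffOn_eq_integral]
  simp only [sub_zero, div_one, one_smul, fc, Ex]
  congr 2
  funext x
  rw [fourier_coe_apply, smul_eq_mul, mul_comm]
  unfold ee
  congr 2; push_cast; ring

lemma bessel {f : ℝ → ℂ} (hf : Continuous f) (S : Finset ℤ) :
    ∑ n ∈ S, ‖fc f n‖ ^ 2 ≤ Ex fun x => ‖f x‖ ^ 2 :=
  sum_le_hasSum S (fun _ _ => by positivity) (parseval hf)

lemma fc_lin {f g : ℝ → ℂ} (hf : Continuous f) (hg : Continuous g) (a b : ℂ) (n : ℤ) :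
    fc (fun x => a * f x + b * g x) n = a * fc f n + b * fc g n := by
  unfold fc Ex
  rw [← intervalIntegral.integral_const_mul, ← intervalIntegral.integral_const_mul,
    ← intervalIntegral.integral_add]
  · congr 1; funext x; ring
  · exact Continuous.intervalIntegrable (by fun_prop) _ _
  · exact Continuous.intervalIntegrable (by fun_prop) _ _

lemma fc_smul (f : ℝ → ℂ) (a : ℂ) (n : ℤ) : fc (fun x => a * f x) n = a * fc f n := by
  unfold fc Ex
  rw [← intervalIntegral.integral_const_mul]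
  congr 1; funext x; ring

lemma fc_sum {ι : Type*} (S : Finset ι) {f : ι → ℝ → ℂ} (hf : ∀ i, Continuous (f i)) (n : ℤ) :
    fc (fun x => ∑ i ∈ S, f i x) n = ∑ i ∈ S, fc (f i) n := by
  unfold fc Ex
  rw [← intervalIntegral.integral_finsetSum]
  · congr 1; funext x; simp only; rw [sum_mul]
  · exact fun i _ => Continuous.intervalIntegrable (by have := hf i; fun_prop) _ _

lemma fc_zero (f : ℝ → ℂ) : fc f 0 = Ex f := by simp [fc]

lemma per_mul_ee {f : ℝ → ℂ} (hp : Per f) (n : ℤ) : Per (fun x => f x * ee (-(n * x))) := fun x => by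
  simp only
  rw [hp x, show -((n : ℝ) * (x + 1)) = -(n * x) + ((-n : ℤ) : ℝ) by push_cast; ring, ee_per.int]

lemma fc_shift {f : ℝ → ℂ} (hp : Per f) (s : ℝ) (n : ℤ) :
    fc (fun x => f (x + s)) n = ee (n * s) * fc f n := by
  unfold fc
  rw [← Ex_shift (per_mul_ee hp n) s]
  unfold Ex
  rw [← intervalIntegral.integral_const_mul]
  congr 1; funext x
  simp only
  rw [show -((n : ℝ) * x) = n * s + -(n * (x + s)) by ring, ee_add]; ring

lemma fc_dil {f : ℝ → ℂ} (hp : Per f) (hf : Continuous f) {a : ℕ} (ha : a ≠ 0) (k : ℤ) :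
    fc (fun x => f (a * x)) (a * k) = fc f k := by
  unfold fc
  rw [← Ex_dil_c (per_mul_ee hp k) (by fun_prop) ha]
  congr 1; funext x; congr 2; push_cast; ring

lemma fc_dil_zero {f : ℝ → ℂ} (hp : Per f) {a : ℕ} (ha : a ≠ 0) {n : ℤ} (hn : ¬ (a : ℤ) ∣ n) :
    fc (fun x => f (a * x)) n = 0 := by
  have a0 : (a : ℝ) ≠ 0 := by exact_mod_cast ha
  have h := fc_shift (hp.dil a) (1 / a) n
  have e : (fun x => f (a * (x + 1 / a))) = fun x => f (a * x) := by
    funext x; rw [mul_add, mul_one_div_cancel a0, hp]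
  simp only [e] at h
  by_contra h0
  have h1 : ee (n * (1 / a)) = 1 := by
    have : (ee (n * (1 / a)) - 1) * fc (fun x => f (a * x)) n = 0 := by linear_combination -h
    rcases mul_eq_zero.1 this with h2 | h2
    · linear_combination h2
    · exact absurd h2 h0
  obtain ⟨m, hm⟩ := ee_eq_one h1
  refine hn ⟨m, ?_⟩
  have : (n : ℝ) = a * m := by rw [← hm]; field_simp
  exact_mod_cast this

lemma HasSum.congr_val {f : ℤ → ℂ} {a b : ℂ} (h : HasSum f a) (e : b = a) : HasSum f b := e ▸ h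

lemma polar (z w : ℂ) : z * conj w = (1 / 4 : ℂ) * (((‖1 * z + 1 * w‖ ^ 2 : ℝ) : ℂ)
    - ((‖1 * z + (-1) * w‖ ^ 2 : ℝ) : ℂ) + Complex.I * ((‖1 * z + Complex.I * w‖ ^ 2 : ℝ) : ℂ)
    - Complex.I * ((‖1 * z + (-Complex.I) * w‖ ^ 2 : ℝ) : ℂ)) := by
  simp only [Complex.sq_norm, Complex.normSq_apply]
  apply Complex.ext <;> simp <;> ring

theorem parseval_bil {f g : ℝ → ℂ} (hf : Continuous f) (hg : Continuous g) :
    HasSum (fun n => fc f n * conj (fc g n)) (Ex fun x => f x * conj (g x)) := by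
  have key : ∀ c : ℂ, HasSum (fun n => ((‖1 * fc f n + c * fc g n‖ ^ 2 : ℝ) : ℂ))
      (Ex fun x => ((‖1 * f x + c * g x‖ ^ 2 : ℝ) : ℂ)) := fun c => by
    have h := parseval (f := fun x => 1 * f x + c * g x) (by fun_prop)
    simp only [fc_lin hf hg] at h
    have := Complex.hasSum_ofReal.2 h
    convert this using 1
    exact intervalIntegral.integral_ofReal
  have h := ((((key 1).sub (key (-1))).add ((key Complex.I).mul_left Complex.I)).sub
    ((key (-Complex.I)).mul_left Complex.I)).mul_left (1 / 4 : ℂ)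
  have e : (fun n => fc f n * conj (fc g n)) = _ := funext fun n => polar (fc f n) (fc g n)
  have e' : (fun x => f x * conj (g x)) = _ := funext fun x => polar (f x) (g x)
  rw [e, e']
  refine MP_d431d3_nt.HasSum.congr_val h ?_
  have ii : ∀ c : ℂ, IntervalIntegrable (fun x => ((‖1 * f x + c * g x‖ ^ 2 : ℝ) : ℂ)) volume 0 1 :=
    fun c => Continuous.intervalIntegrable (by fun_prop) _ _
  unfold Ex
  rw [intervalIntegral.integral_const_mul, intervalIntegral.integral_sub,
    intervalIntegral.integral_add, intervalIntegral.integral_sub,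
    intervalIntegral.integral_const_mul, intervalIntegral.integral_const_mul]
  · exact ii _
  · exact ii _
  · exact (ii _).sub (ii _)
  · exact (ii _).const_mul _
  · exact ((ii _).sub (ii _)).add ((ii _).const_mul _)
  · exact (ii _).const_mul _

/-- Correlation of two dilates. -/
theorem corr_dil {F G : ℝ → ℂ} (pF : Per F) (pG : Per G) (cF : Continuous F) (cG : Continuous G)
    {d a b : ℕ} (hd : d ≠ 0) (ha : a ≠ 0) (hb : b ≠ 0) (hab : Nat.Coprime a b) :
    HasSum (fun k : ℤ => fc F (k * b) * conj (fc G (k * a)))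
      (Ex fun x => F ((d * a : ℕ) * x) * conj (G ((d * b : ℕ) * x))) := by
  have h := parseval_bil (f := fun x => F ((d * a : ℕ) * x)) (g := fun x => G ((d * b : ℕ) * x))
    (by fun_prop) (by fun_prop)
  have inj : Function.Injective (fun k : ℤ => k * (d * a * b)) :=
    mul_left_injective₀ (by positivity)
  rw [← inj.hasSum_iff] at h
  · convert h using 2 with k
    simp only [Function.comp]
    rw [show k * (d * a * b) = ((d * a : ℕ) : ℤ) * (k * b) by push_cast; ring,
      fc_dil pF cF (mul_ne_zero hd ha),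
      show ((d * a : ℕ) : ℤ) * (k * b) = ((d * b : ℕ) : ℤ) * (k * a) by push_cast; ring,
      fc_dil pG cG (mul_ne_zero hd hb)]
  · intro n hn
    by_cases h1 : ((d * a : ℕ) : ℤ) ∣ n
    · by_cases h2 : ((d * b : ℕ) : ℤ) ∣ n
      · exfalso
        obtain ⟨u, hu⟩ := h1
        have d0 : (d : ℤ) ≠ 0 := by exact_mod_cast hd
        have h3 : (b : ℤ) ∣ a * u := by
          rw [hu] at h2; push_cast at h2
          rw [mul_assoc] at h2
          exact (mul_dvd_mul_iff_left d0).1 h2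
        obtain ⟨k, hk⟩ := IsCoprime.dvd_of_dvd_mul_left (Nat.isCoprime_iff_coprime.2 hab.symm) h3
        exact hn ⟨k, by simp only; rw [hu, hk]; push_cast; ring⟩
      · rw [fc_dil_zero pG (mul_ne_zero hd hb) h2]; simp
    · rw [fc_dil_zero pF (mul_ne_zero hd ha) h1]; simp

lemma sum_range_shift {F : ℕ → ℝ} {e : ℕ} (h : ∀ j, F (j + e) = F j) (c : ℕ) :
    ∑ j ∈ range e, F (j + c) = ∑ j ∈ range e, F j := by
  induction c with
  | zero => rfl
  | succ c ih =>
    have h1 := sum_range_succ' (fun j => F (j + c)) e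
    have h2 := sum_range_succ (fun j => F (j + c)) e
    simp only [zero_add] at h1
    rw [add_comm e c, h c] at h2
    rw [← ih]
    have : ∑ j ∈ range e, F (j + (c + 1)) = ∑ j ∈ range e, F (j + 1 + c) :=
      sum_congr rfl fun j _ => by congr 1; ring
    linarith

/-- High frequencies. -/
lemma fc_tail {g : ℝ → ℂ} (pg : Per g) (cg : Continuous g) {B : ℝ} (hB0 : 0 ≤ B)
    (hB : ∀ x h, 0 ≤ h → ‖g (x + h) - g x‖ ^ 2 ≤ B * h) {K : ℕ} (hK : 0 < K) (S : Finset ℤ)
    (hS : ∀ n ∈ S, K ≤ n.natAbs) : ∑ n ∈ S, ‖fc g n‖ ^ 2 ≤ B / K := by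
  set m := S.sup Int.natAbs + 1
  have K0 : (0 : ℝ) < K := by exact_mod_cast hK
  set hh : ℕ → ℝ := fun i => 1 / (4 * K * 2 ^ i) with hhh
  have h1 : ∀ n ∈ S, 2 * ‖fc g n‖ ^ 2 ≤ ∑ i ∈ range m, ‖1 - ee (n * hh i)‖ ^ 2 * ‖fc g n‖ ^ 2 := by
    intro n hn
    have a := hS n hn
    set i := Nat.log 2 (n.natAbs / K)
    have q0 : n.natAbs / K ≠ 0 := (Nat.div_pos a hK).ne'
    have l1 : 2 ^ i ≤ n.natAbs / K := Nat.pow_log_le_self 2 q0
    have l2 : n.natAbs / K < 2 ^ (i + 1) := Nat.lt_pow_succ_log_self (by norm_num) _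
    have l3 : K * 2 ^ i ≤ n.natAbs := by
      rw [mul_comm]; exact (Nat.le_div_iff_mul_le hK).1 l1
    have l4 : n.natAbs < K * 2 ^ (i + 1) := by
      rw [mul_comm]; exact (Nat.div_lt_iff_lt_mul hK).1 l2
    have im : i ∈ range m := by
      have : n.natAbs ≤ S.sup Int.natAbs := le_sup hn
      have h2 : i < 2 ^ i := Nat.lt_two_pow_self
      have h3 := Nat.div_le_self n.natAbs K
      exact mem_range.2 (by omega)
    refine le_trans ?_ (single_le_sum (f := fun i => ‖1 - ee (n * hh i)‖ ^ 2 * ‖fc g n‖ ^ 2)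
      (fun _ _ => by positivity) im)
    gcongr
    have e := normSq_one_sub 1 (n * hh i)
    simp only [Complex.ofReal_one, one_mul] at e
    rw [e, ← cos_abs]
    have e2 : |2 * π * (n * hh i)| = 2 * π * (n.natAbs * hh i) := by
      rw [abs_mul, abs_mul (n : ℝ), abs_of_pos (by positivity : 0 < 2 * π),
        abs_of_pos (by positivity : 0 < hh i), Nat.cast_natAbs]; push_cast; ring
    have r3 : (K : ℝ) * 2 ^ i ≤ n.natAbs := by exact_mod_cast l3
    have r4 : (n.natAbs : ℝ) ≤ K * 2 ^ (i + 1) := by exact_mod_cast l4.le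
    have s1 : 1 / 4 ≤ n.natAbs * hh i := by
      rw [hhh]; simp only; rw [mul_one_div, le_div_iff₀ (by positivity)]; linarith
    have s2 : n.natAbs * hh i ≤ 1 / 2 := by
      rw [hhh]; simp only; rw [mul_one_div, div_le_iff₀ (by positivity)]
      rw [pow_succ] at r4; linarith
    have := cos_nonpos_of_pi_div_two_le_of_le (x := 2 * π * (n.natAbs * hh i))
      (by nlinarith [pi_pos]) (by nlinarith [pi_pos])
    rw [e2]; linarith
  have h2 : ∀ i ∈ range m, ∑ n ∈ S, ‖1 - ee (n * hh i)‖ ^ 2 * ‖fc g n‖ ^ 2 ≤ B * hh i := by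
    intro i _
    have hb := bessel (f := fun x => 1 * g x + (-1) * g (x + hh i)) (by fun_prop) S
    simp only [fc_lin cg (g := fun x => g (x + hh i)) (by fun_prop), fc_shift pg] at hb
    refine le_trans (le_of_eq (sum_congr rfl fun n _ => ?_)) (hb.trans ?_)
    · rw [← mul_pow, ← norm_mul]; congr 2; ring
    · rw [← Ex_const (B * hh i)]
      refine Ex_mono (by fun_prop) continuous_const fun x => ?_
      have := hB x (hh i) (by positivity)
      rwa [norm_sub_rev, show g x - g (x + hh i) = 1 * g x + (-1) * g (x + hh i) by ring] at this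
  have h3 := sum_le_sum h1
  rw [sum_comm, ← mul_sum] at h3
  have h4 : ∑ i ∈ range m, B * hh i ≤ B / (4 * K) * 2 := by
    have := sum_geometric_two_le m
    calc _ = B / (4 * K) * ∑ i ∈ range m, (1 / 2 : ℝ) ^ i := by
          rw [mul_sum]; refine sum_congr rfl fun i _ => ?_
          rw [hhh]; simp only; rw [one_div_pow]; field_simp
      _ ≤ _ := by gcongr
  have h5 := h3.trans ((sum_le_sum h2).trans h4)
  have h6 : B / (4 * K) * 2 ≤ 2 * (B / K) := by
    rw [show B / (4 * K) * 2 = 2 * (B / K) / 4 by field_simp]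
    have : 0 ≤ B / K := by positivity
    linarith
  linarith

/-- `y ^ (1/2 + i t)`. -/
noncomputable def cp (y t : ℝ) : ℂ := (y : ℂ) ^ (1 / 2 + t * Complex.I : ℂ)

lemma cp_mul {y z : ℝ} (hy : 0 ≤ y) (hz : 0 ≤ z) (t : ℝ) : cp (y * z) t = cp y t * cp z t := by
  unfold cp; push_cast; exact Complex.mul_cpow_ofReal_nonneg hy hz _

lemma norm_cp {y : ℝ} (hy : 0 ≤ y) (t : ℝ) : ‖cp y t‖ = √y := by
  unfold cp
  rw [Complex.norm_cpow_eq_rpow_re_of_nonneg hy (by simp), sqrt_eq_rpow]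
  congr 1; simp

lemma norm_cp_sq {y : ℝ} (hy : 0 ≤ y) (t : ℝ) : ‖cp y t‖ ^ 2 = y := by
  rw [norm_cp hy, sq_sqrt hy]

@[simp] lemma cp_one (t : ℝ) : cp 1 t = 1 := by simp [cp]

lemma cp_zero (t : ℝ) : cp 0 t = 0 := by
  have := norm_cp le_rfl t
  simpa using this

lemma cp_exp (u t : ℝ) : cp (exp u) t = Complex.exp (u * (1 / 2 + t * Complex.I)) := by
  unfold cp
  rw [Complex.cpow_def_of_ne_zero (by exact_mod_cast (exp_pos u).ne'),
    ← Complex.ofReal_log (exp_pos u).le, log_exp]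

@[fun_prop] lemma continuous_cp {X : Type*} [TopologicalSpace X] {f g : X → ℝ} (hf : Continuous f)
    (hg : Continuous g) : Continuous fun x => cp (f x) (g x) := by
  refine continuous_iff_continuousAt.2 fun x => ?_
  have := Complex.continuousAt_ofReal_cpow (f x) (1 / 2 + g x * Complex.I) (Or.inl (by simp))
  exact this.comp₂_of_eq hf.continuousAt (by fun_prop) rfl

lemma cp_lip {A B : ℝ} (hA : 0 ≤ A) (hB : 0 ≤ B) (t : ℝ) :
    ‖cp A t - cp B t‖ ^ 2 ≤ (1 + 4 * t ^ 2) * (A + B - 2 * √(A * B)) := by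
  rcases hA.eq_or_lt with rfl | hA'
  · rw [cp_zero, zero_sub, norm_neg, norm_cp_sq hB]; simp; nlinarith [sq_nonneg t]
  rcases hB.eq_or_lt with rfl | hB'
  · rw [cp_zero, sub_zero, norm_cp_sq hA]; simp; nlinarith [sq_nonneg t]
  obtain ⟨u, rfl⟩ : ∃ u, A = exp (2 * u) := ⟨log A / 2, by rw [mul_div_cancel₀ _ two_ne_zero, exp_log hA']⟩
  obtain ⟨v, rfl⟩ : ∃ u, B = exp (2 * u) := ⟨log B / 2, by rw [mul_div_cancel₀ _ two_ne_zero, exp_log hB']⟩
  have e1 : √(exp (2 * u) * exp (2 * v)) = exp (u + v) := by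
    rw [← exp_add, show 2 * u + 2 * v = (u + v) + (u + v) by ring, exp_add, sqrt_mul_self (exp_pos _).le]
  have e2 : ‖cp (exp (2 * u)) t - cp (exp (2 * v)) t‖ ^ 2
      = exp (2 * u) + exp (2 * v) - 2 * exp (u + v) * cos (2 * t * (u - v)) := by
    rw [cp_exp, cp_exp, Complex.sq_norm, Complex.normSq_apply]
    simp only [Complex.sub_re, Complex.sub_im, Complex.exp_re, Complex.exp_im]
    simp
    rw [show 2 * u * 2⁻¹ = u by ring, show 2 * v * 2⁻¹ = v by ring, two_mul u, two_mul v, exp_add,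
      exp_add, exp_add, show 2 * t * (u - v) = (u + u) * t - (v + v) * t by ring, cos_sub]
    have a := sin_sq_add_cos_sq ((u + u) * t)
    have b := sin_sq_add_cos_sq ((v + v) * t)
    linear_combination exp u ^ 2 * a + exp v ^ 2 * b
  rw [e1, e2]
  have c1 := one_sub_sq_div_two_le_cos (x := 2 * t * (u - v))
  have c2 : (u - v) ^ 2 * exp (u + v) ≤ exp (2 * u) + exp (2 * v) - 2 * exp (u + v) := by
    have s1 : |(u - v) / 2| ≤ |sinh ((u - v) / 2)| := by
      rw [abs_sinh]; exact self_le_sinh_iff.2 (abs_nonneg _)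
    have s2 := sq_le_sq.2 s1
    have s3 : exp (2 * u) + exp (2 * v) - 2 * exp (u + v)
        = 4 * sinh ((u - v) / 2) ^ 2 * exp (u + v) := by
      rw [sinh_eq]
      have a : exp (2 * u) = exp ((u - v) / 2) * exp ((u - v) / 2) * exp (u + v) := by
        rw [← exp_add, ← exp_add]; congr 1; ring
      have b : exp (2 * v) = exp (-((u - v) / 2)) * exp (-((u - v) / 2)) * exp (u + v) := by
        rw [← exp_add, ← exp_add]; congr 1; ring
      have c : exp ((u - v) / 2) * exp (-((u - v) / 2)) = 1 := by rw [← exp_add]; simp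
      rw [a, b]; linear_combination 2 * exp (u + v) * c
    rw [s3]
    gcongr
    nlinarith
  have p := exp_pos (u + v)
  nlinarith [mul_le_mul_of_nonneg_left c1 p.le, mul_le_mul_of_nonneg_left c2 (sq_nonneg t)]

lemma cp_lip' {A B : ℝ} (hA : 0 ≤ A) (hB : 0 ≤ B) (t : ℝ) :
    ‖cp A t - cp B t‖ ^ 2 ≤ (1 + 4 * t ^ 2) * |A - B| := by
  refine (cp_lip hA hB t).trans ?_
  gcongr
  rcases le_total A B with h | h
  · have : A ≤ √(A * B) := le_sqrt_of_sq_le (by nlinarith)
    rw [abs_sub_comm, abs_of_nonneg (by linarith)]; linarith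
  · have : B ≤ √(A * B) := le_sqrt_of_sq_le (by nlinarith)
    rw [abs_of_nonneg (by linarith)]; linarith

/-- The twisted square root of the sine product. -/
noncomputable def gt (L : ℕ) (t x : ℝ) : ℂ := cp (P L x) t

lemma gt_per (L : ℕ) (t : ℝ) : Per (gt L t) := fun x => by unfold gt; rw [P_per]

@[fun_prop] lemma continuous_gt (L : ℕ) (t : ℝ) : Continuous (gt L t) := by
  unfold gt; fun_prop

lemma norm_gt (L : ℕ) (t x : ℝ) : ‖gt L t x‖ = √(P L x) := norm_cp (P_nonneg _ _) t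

lemma norm_gt_sq (L : ℕ) (t x : ℝ) : ‖gt L t x‖ ^ 2 = P L x := norm_cp_sq (P_nonneg _ _) t

lemma gt_add (L M : ℕ) (t x : ℝ) : gt (L + M) t x = gt L t x * gt M t (2 ^ L * x) := by
  unfold gt; rw [P_add, cp_mul (P_nonneg _ _) (P_nonneg _ _)]

lemma gt_tail (L : ℕ) (t : ℝ) {K : ℕ} (hK : 0 < K) (S : Finset ℤ) (hS : ∀ n ∈ S, K ≤ n.natAbs) :
    ∑ n ∈ S, ‖fc (gt L t) n‖ ^ 2 ≤ (1 + 4 * t ^ 2) * (4 * 4 ^ L) / K := by
  refine fc_tail (gt_per L t) (by fun_prop) (by positivity) (fun x h h0 => ?_) hK S hS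
  refine (cp_lip' (P_nonneg _ _) (P_nonneg _ _) t).trans ?_
  rw [mul_assoc]
  gcongr
  refine (P_lip L _ _).trans ?_
  rw [add_sub_cancel_left, abs_of_nonneg h0]
  gcongr
  exact pi_le_four

end Pool.Agent.MP_d431d3_nt
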