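import Pool.Agent.Lib.MP_d431d3_nt.Count
import Pool.Agent.Lib.MP_d431d3_nt.Fourier

/-! A majorant of the indicator of `[1,2]` whose Mellin transform on the critical line is
concentrated near the origin. -/

namespace Pool.Agent.MP_d431d3_nt

open Real Finset MeasureTheory
open scoped ComplexConjugate

structure Maj (W : ℝ → ℝ) (ω : ℝ → ℂ) (c A B η : ℝ) : Prop where
  nonneg : ∀ y, 0 ≤ y → 0 ≤ W y
  lower : ∀ y, 1 ≤ y → y ≤ 2 → c ≤ W y
  sum_le : ∀ y, 0 ≤ y → ∀ H : ℕ, ∑ h ∈ Icc 1 H, W (y / h) ≤ A * y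
  cont : Continuous ω
  rep : ∀ y, 0 ≤ y → (W y : ℂ) = ∫ t, ω t * cp y t
  all : ∀ t, ‖ω t‖ ≤ B * exp (-(1 / 4) * t ^ 2)
  tail : ∀ t, 1 / 200 ≤ |t| → ‖ω t‖ ≤ η * exp (-(1 / 4) * t ^ 2)

structure Jump (S : Finset (ℕ × ℕ)) (p y : ℕ × ℕ → ℝ) (R M : ℝ) : Prop where
  nonneg : ∀ j, 0 ≤ p j
  total : ∑ j ∈ S, p j = 1
  mean : ∑ j ∈ S, p j * y j = 0
  bdd : ∀ j ∈ S, |y j| ≤ R
  mom : ∑ j ∈ S, p j * exp (y j / 2) ≤ M
  osc : ∀ t, 1 / 200 ≤ |t| → t ^ 2 ≤ 4 * M + 2 → ∑ j ∈ S, p j * exp (y j / 2) * cos (t * y j) ≤ 1 / 4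

lemma geom_ee (x : ℝ) (J : ℕ) : ‖∑ i ∈ range J, ee (i * x)‖ * ph x ≤ 2 := by
  have e : (∑ i ∈ range J, ee (i * x)) * (1 - ee x) = 1 - ee (J * x) := by
    induction J with
    | zero => simp
    | succ J ih =>
      rw [sum_range_succ, add_mul, ih]; push_cast; rw [add_mul, one_mul, ee_add]; ring
  rw [← norm_one_sub_ee, ← norm_mul, e, norm_one_sub_ee]
  exact ph_le _

lemma ph_ge_abs {x : ℝ} (h : |x| ≤ 1 / 2) : 4 * |x| ≤ ph x := by
  have h1 := mul_le_sin (x := π * |x|) (by positivity) (by nlinarith [pi_pos])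
  rw [show 2 / π * (π * |x|) = 2 * |x| by field_simp] at h1
  have h2 : sin (π * |x|) ≤ |sin (π * x)| := by
    rcases abs_choice x with h | h <;> rw [h]
    · exact le_abs_self _
    · rw [mul_neg, sin_neg]; exact neg_le_abs _
  rw [ph_eq]; linarith

lemma sum_cos_sq (x : ℝ) (J : ℕ) : ∑ j ∈ range J ×ˢ range J, cos (2 * π * (((j.1 : ℝ) - j.2) * x))
    = ‖∑ i ∈ range J, ee (i * x)‖ ^ 2 := by
  have h := Complex.mul_conj (∑ i ∈ range J, ee (i * x))
  rw [map_sum, sum_mul_sum, Complex.normSq_eq_norm_sq] at h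
  have h2 := congrArg Complex.re h
  rw [Complex.ofReal_re, Complex.re_sum] at h2
  rw [← h2, sum_product]
  refine sum_congr rfl fun i _ => ?_
  rw [Complex.re_sum]
  refine sum_congr rfl fun j _ => ?_
  rw [← ee_neg, ← ee_add, ee_re]; congr 2; ring

lemma exists_jump : ∃ S p y R M, 0 ≤ M ∧ Jump S p y R M := by
  obtain ⟨R, hR⟩ : ∃ R : ℕ, (R : ℝ) = 4000000 := ⟨4000000, by norm_num⟩
  obtain ⟨n, hn⟩ : ∃ n : ℕ, (n : ℝ) = 10000 := ⟨10000, by norm_num⟩
  have n0 : (0 : ℝ) < n := by rw [hn]; norm_num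
  have n1 : 0 < n := by exact_mod_cast n0
  set S := range (R * n) ×ˢ range (R * n) with hS
  set y : ℕ × ℕ → ℝ := fun j => ((j.1 : ℝ) - j.2) / n with hy
  set Z := ∑ j ∈ S, 1 / cosh (y j / 2) with hZ
  have sym : ∀ f : ℝ → ℝ, ∑ j ∈ S, f (y j) = ∑ j ∈ S, f (-y j) := fun f => by
    rw [hS, sum_product, sum_product, sum_comm]
    refine sum_congr rfl fun i _ => sum_congr rfl fun j _ => ?_
    simp only [hy]; congr 1; ring
  have Z1 : (R : ℝ) * n ^ 2 / 2 ≤ Z := by
    have := sum_le_inj (S := range R ×ˢ range n ×ˢ range n) (U := S)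
      (fun x => (x.2.1 + n * x.1, x.2.2 + n * x.1)) (F := fun _ => 1 / 2)
      (G := fun j => 1 / cosh (y j / 2)) (fun x hx => by
        simp only [mem_product, mem_range, hS] at hx ⊢
        constructor <;> nlinarith [hx.1, hx.2.1, hx.2.2])
      (fun x hx z hz e => by
        simp only [coe_product, Set.mem_prod, mem_coe, mem_range] at hx hz
        simp only [Prod.mk.injEq] at e
        have a : x.1 = z.1 := by
          have := congrArg (· / n) e.1
          simpa [Nat.add_mul_div_left _ _ n1, Nat.div_eq_of_lt hx.2.1, Nat.div_eq_of_lt hz.2.1] using this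
        rw [a] at e
        exact Prod.ext a (Prod.ext (by omega) (by omega)))
      (fun x hx => by
        simp only [mem_product, mem_range] at hx
        have a : (x.2.1 : ℝ) < n := by exact_mod_cast hx.2.1
        have b : (x.2.2 : ℝ) < n := by exact_mod_cast hx.2.2
        have c : |y (x.2.1 + n * x.1, x.2.2 + n * x.1)| ≤ 1 := by
          simp only [hy]; push_cast
          rw [abs_div, abs_of_pos n0, div_le_one n0, abs_le]
          constructor <;> linarith [(Nat.cast_nonneg x.2.1 : (0 : ℝ) ≤ _), (Nat.cast_nonneg x.2.2 : (0 : ℝ) ≤ _)]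
        refine one_div_le_one_div_of_le (cosh_pos _) ((cosh_le_exp_half_sq _).trans ?_)
        rw [← le_log_iff_exp_le (by norm_num)]
        have := sq_le_one_iff_abs_le_one _ |>.2 c
        nlinarith [log_two_gt_d9])
      (fun j _ => by have := cosh_pos (y j / 2); positivity)
    simp only [sum_const, card_product, card_range, nsmul_eq_mul] at this
    push_cast at this
    linarith
  have Z0 : 0 < Z := lt_of_lt_of_le (by rw [hR]; positivity) Z1
  refine ⟨S, fun j => 1 / cosh (y j / 2) / Z, y, R, 4 * R, by positivity, fun j => ?_, ?_, ?_, ?_, ?_, ?_⟩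
  · have := cosh_pos (y j / 2); positivity
  · rw [← sum_div, div_self Z0.ne']
  · have := sym fun v => 1 / cosh (v / 2) / Z * v
    simp only [neg_div, cosh_neg, mul_neg, sum_neg_distrib] at this
    linarith
  · intro j hj
    simp only [mem_product, mem_range, hS] at hj
    have a : (j.1 : ℝ) < R * n := by exact_mod_cast hj.1
    have b : (j.2 : ℝ) < R * n := by exact_mod_cast hj.2
    simp only [hy]
    rw [abs_div, abs_of_pos n0, div_le_iff₀ n0, abs_le]
    constructor <;> linarith [(Nat.cast_nonneg j.1 : (0 : ℝ) ≤ _), (Nat.cast_nonneg j.2 : (0 : ℝ) ≤ _)]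
  · calc _ ≤ ∑ _j ∈ S, 2 / Z := sum_le_sum fun j _ => by
          have a := cosh_pos (y j / 2)
          have b : exp (y j / 2) ≤ 2 * cosh (y j / 2) := by
            rw [cosh_eq]; linarith [exp_pos (-(y j / 2))]
          calc _ ≤ 1 / cosh (y j / 2) / Z * (2 * cosh (y j / 2)) := by gcongr
            _ = _ := by field_simp
      _ = (R * n) ^ 2 * 2 / Z := by simp [hS]; ring
      _ ≤ _ := by
          rw [div_le_iff₀ Z0]
          have : (0 : ℝ) ≤ R := Nat.cast_nonneg R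
          nlinarith
  · intro t h1 h2
    have e := sym fun v => 1 / cosh (v / 2) / Z * exp (v / 2) * cos (t * v)
    simp only [neg_div, cosh_neg, mul_neg, cos_neg] at e
    set x := t / (2 * π * n) with hx
    have e2 : ∑ j ∈ S, 1 / cosh (y j / 2) / Z * exp (y j / 2) * cos (t * y j)
        + ∑ j ∈ S, 1 / cosh (y j / 2) / Z * exp (-(y j / 2)) * cos (t * y j)
        = 2 / Z * ‖∑ i ∈ range (R * n), ee (i * x)‖ ^ 2 := by
      rw [← sum_cos_sq, mul_sum, ← sum_add_distrib]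
      refine sum_congr rfl fun j _ => ?_
      have a := cosh_pos (y j / 2)
      have b : exp (y j / 2) + exp (-(y j / 2)) = 2 * cosh (y j / 2) := by rw [cosh_eq]; ring
      rw [show 2 * π * (((j.1 : ℝ) - j.2) * x) = t * y j by simp only [hx, hy]; field_simp,
        ← add_mul, ← mul_add, b]
      field_simp
    have t1 : |t| ≤ 10000 := by
      refine le_of_sq (by norm_num) ?_
      rw [sq_abs]; rw [hR] at h2; linarith
    have ax : |x| = |t| / (2 * π * n) := by
      rw [hx, abs_div, abs_of_pos (by positivity : 0 < 2 * π * n)]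
    have x1 : |x| ≤ 1 / 2 := by
      rw [ax, div_le_iff₀ (by positivity), hn]; nlinarith [pi_gt_three]
    have x2 : 1 / (1300 * n) ≤ |x| := by
      rw [ax, div_le_div_iff₀ (by positivity) (by positivity)]
      nlinarith [pi_lt_d2, mul_le_mul_of_nonneg_right h1 n0.le]
    have g := geom_ee x (R * n)
    have g2 := ph_ge_abs x1
    set G := ‖∑ i ∈ range (R * n), ee (i * x)‖
    have G0 : 0 ≤ G := norm_nonneg _
    have g3 : G ≤ 650 * n := by
      have : G * (4 * (1 / (1300 * n))) ≤ 2 := le_trans (by gcongr; linarith) g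
      rw [show G * (4 * (1 / (1300 * n))) = G / (325 * n) by field_simp; ring,
        div_le_iff₀ (by positivity)] at this
      linarith
    have g4 : 2 / Z * G ^ 2 ≤ 1 / 2 := by
      rw [div_mul_eq_mul_div, div_le_iff₀ Z0]
      have := pow_le_pow_left₀ G0 g3 2
      rw [hR] at Z1
      nlinarith
    linarith

section Construction

variable (S : Finset (ℕ × ℕ)) (p y : ℕ × ℕ → ℝ) (ε σ : ℝ)

noncomputable def chi : ℕ → ℝ → ℝ
  | 0, u => exp (-u ^ 2 / (2 * σ ^ 2))
  | n + 1, u => (1 - ε) * chi n u + ε * ∑ j ∈ S, p j * chi n (u - y j)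

noncomputable def mel (t : ℝ) : ℂ :=
  (1 - ε) + ε * ∑ j ∈ S, p j * Complex.exp (y j * (1 / 2 - t * Complex.I))

noncomputable def om (n : ℕ) (t : ℝ) : ℂ :=
  Complex.exp (σ ^ 2 * (1 / 2 - t * Complex.I) ^ 2 / 2) / (√(2 * π) / σ : ℝ) * mel S p y ε t ^ n

variable {S p y ε σ} {R M : ℝ}

lemma om_rep (hσ : 0 < σ) (n : ℕ) (u : ℝ) :
    Integrable (fun t : ℝ => om S p y ε σ n t * Complex.exp (u * (1 / 2 + t * Complex.I))) ∧
    ∫ t : ℝ, om S p y ε σ n t * Complex.exp (u * (1 / 2 + t * Complex.I))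
      = ((exp u * chi S p y ε σ n u : ℝ) : ℂ) := by
  induction n generalizing u with
  | zero =>
    have hb : (-(σ : ℂ) ^ 2 / 2).re < 0 := by
      rw [show (-(σ : ℂ) ^ 2 / 2) = ((-σ ^ 2 / 2 : ℝ) : ℂ) by push_cast; ring, Complex.ofReal_re]
      have := pow_pos hσ 2; linarith
    have e : ∀ t : ℝ, om S p y ε σ 0 t * Complex.exp (u * (1 / 2 + t * Complex.I)) =
        ((√(2 * π) / σ : ℝ) : ℂ)⁻¹ * Complex.exp (-(σ : ℂ) ^ 2 / 2 * t ^ 2
          + Complex.I * (u - σ ^ 2 / 2) * t + (σ ^ 2 / 8 + u / 2)) := fun t => by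
      rw [om, pow_zero, mul_one, div_eq_inv_mul, mul_assoc, ← Complex.exp_add]
      congr 2
      linear_combination ((σ : ℂ) ^ 2 * t ^ 2 / 2) * Complex.I_sq
    simp only [e]
    refine ⟨(integrable_cexp_quadratic' hb _ _).const_mul _, ?_⟩
    rw [integral_const_mul, integral_cexp_quadratic hb]
    have s0 : (σ : ℂ) ≠ 0 := by exact_mod_cast hσ.ne'
    have e1 : ((π : ℂ) / -(-(σ : ℂ) ^ 2 / 2)) ^ (1 / 2 : ℂ) = ((√(2 * π) / σ : ℝ) : ℂ) := by
      rw [show ((π : ℂ) / -(-(σ : ℂ) ^ 2 / 2)) = ((2 * π / σ ^ 2 : ℝ) : ℂ) by push_cast; field_simp,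
        show (1 / 2 : ℂ) = ((1 / 2 : ℝ) : ℂ) by push_cast; ring,
        ← Complex.ofReal_cpow (by positivity), ← sqrt_eq_rpow, sqrt_div (by positivity),
        sqrt_sq hσ.le]
    rw [e1, ← mul_assoc, inv_mul_cancel₀ (by
      have : 0 < √(2 * π) / σ := by positivity
      exact_mod_cast this.ne'), one_mul, chi, ← exp_add, Complex.ofReal_exp]
    congr 1
    push_cast; field_simp
    linear_combination ((2 * u - (σ : ℂ) ^ 2) ^ 2 * 8) * Complex.I_sq
  | succ n ih =>
    have e : ∀ t : ℝ, om S p y ε σ (n + 1) t * Complex.exp (u * (1 / 2 + t * Complex.I)) =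
        (1 - ε : ℂ) * (om S p y ε σ n t * Complex.exp (u * (1 / 2 + t * Complex.I)))
        + ε * ∑ j ∈ S, ((p j * exp (y j) : ℝ) : ℂ) * (om S p y ε σ n t *
          Complex.exp ((u - y j : ℝ) * (1 / 2 + t * Complex.I))) := fun t => by
      have : om S p y ε σ (n + 1) t = om S p y ε σ n t * mel S p y ε t := by
        rw [om, om, pow_succ (mel S p y ε t)]; ring
      rw [this, mel, mul_add, add_mul, mul_sum, mul_sum, mul_sum, sum_mul]
      congr 1
      · ring
      · refine sum_congr rfl fun j _ => ?_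
        have : Complex.exp (y j * (1 / 2 - t * Complex.I)) * Complex.exp (u * (1 / 2 + t * Complex.I))
            = Complex.exp (y j) * Complex.exp ((u - y j : ℝ) * (1 / 2 + t * Complex.I)) := by
          rw [← Complex.exp_add, ← Complex.exp_add]; congr 1; push_cast; ring
        push_cast at this ⊢
        linear_combination om S p y ε σ n t * ε * p j * this
    simp only [e]
    have i1 := (ih u).1.const_mul (1 - ε : ℂ)
    have i2 := fun j (_ : j ∈ S) => (ih (u - y j)).1.const_mul ((p j * exp (y j) : ℝ) : ℂ)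
    have i3 := (integrable_finsetSum S i2).const_mul (ε : ℂ)
    refine ⟨i1.add i3, ?_⟩
    rw [integral_add i1 i3, integral_const_mul, integral_const_mul, integral_finsetSum S i2]
    simp only [integral_const_mul, (ih _).2, chi]
    push_cast
    rw [mul_add, mul_sum, mul_sum, mul_sum]
    congr 1
    · ring
    · refine sum_congr rfl fun j _ => ?_
      have : Complex.exp (y j) * Complex.exp (u - y j) = Complex.exp u := by
        rw [← Complex.exp_add]; congr 1; ring
      linear_combination (ε : ℂ) * p j * (chi S p y ε σ n (u - y j) : ℂ) * this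

lemma chi_lower (J : Jump S p y R M) (h0 : 0 ≤ ε) (h1 : ε ≤ 1) (hσ : 0 < σ) (n : ℕ) (u : ℝ) :
    exp (-(u ^ 2 + n * (ε * R ^ 2)) / (2 * σ ^ 2)) ≤ chi S p y ε σ n u := by
  induction n generalizing u with
  | zero => simp [chi]
  | succ n ih =>
    set z := -(u ^ 2 + (n + 1 : ℕ) * (ε * R ^ 2)) / (2 * σ ^ 2) with hz
    have key : ∀ v, exp z * (1 + (2 * u * v - v ^ 2 + ε * R ^ 2) / (2 * σ ^ 2)) ≤
        chi S p y ε σ n (u - v) := fun v => by
      refine le_trans ?_ (ih (u - v))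
      rw [show -((u - v) ^ 2 + n * (ε * R ^ 2)) / (2 * σ ^ 2)
        = z + (2 * u * v - v ^ 2 + ε * R ^ 2) / (2 * σ ^ 2) by rw [hz]; push_cast; ring, exp_add]
      gcongr
      linarith [add_one_le_exp ((2 * u * v - v ^ 2 + ε * R ^ 2) / (2 * σ ^ 2))]
    have k0 := key 0
    rw [sub_zero] at k0
    have k1 : ∑ j ∈ S, p j * (exp z * (1 + (2 * u * y j - R ^ 2 + ε * R ^ 2) / (2 * σ ^ 2))) ≤
        ∑ j ∈ S, p j * chi S p y ε σ n (u - y j) := sum_le_sum fun j hj => by
      refine mul_le_mul_of_nonneg_left (le_trans ?_ (key (y j))) (J.nonneg j)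
      have := pow_le_pow_left₀ (abs_nonneg _) (J.bdd j hj) 2
      rw [sq_abs] at this
      gcongr
    have k2 : ∑ j ∈ S, p j * (exp z * (1 + (2 * u * y j - R ^ 2 + ε * R ^ 2) / (2 * σ ^ 2)))
        = exp z * (1 + (-R ^ 2 + ε * R ^ 2) / (2 * σ ^ 2)) := by
      calc _ = ∑ j ∈ S, (exp z * (1 + (-R ^ 2 + ε * R ^ 2) / (2 * σ ^ 2)) * p j
            + exp z * (u / σ ^ 2) * (p j * y j)) := sum_congr rfl fun j _ => by field_simp; ring
        _ = _ := by rw [sum_add_distrib, ← mul_sum, ← mul_sum, J.total, J.mean]; ring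
    rw [k2] at k1
    simp only [chi]
    have a := mul_le_mul_of_nonneg_left k0 (sub_nonneg.2 h1)
    have b := mul_le_mul_of_nonneg_left k1 h0
    refine le_trans (le_of_eq ?_) (add_le_add a b)
    ring

lemma gauss_sum {σ : ℝ} (hσ : 1 ≤ σ) (u : ℝ) (H : ℕ) :
    ∑ h ∈ Icc 1 H, 1 / (h : ℝ) * exp (-(u - log h) ^ 2 / (2 * σ ^ 2)) ≤ 20 * σ := by
  set F : ℝ → ℝ := fun x => x / (1 + |x|) with hF
  have F1 : ∀ x, |F x| ≤ 1 := fun x => by
    simp only [hF]
    rw [abs_div, abs_of_pos (by positivity : 0 < 1 + |x|), div_le_one (by positivity)]; linarith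
  have F2 : ∀ x x', x ≤ x' → (x' - x) / ((1 + |x|) * (1 + |x'|)) ≤ F x' - F x := fun x x' h => by
    simp only [hF]
    rw [div_sub_div _ _ (by positivity) (by positivity), mul_comm (1 + |x'|) (1 + |x|)]
    refine div_le_div_of_nonneg_right ?_ (by positivity)
    rcases le_total 0 x with a | a
    · rw [abs_of_nonneg a, abs_of_nonneg (a.trans h)]; linarith
    · rcases le_total 0 x' with b | b
      · rw [abs_of_nonpos a, abs_of_nonneg b]; nlinarith
      · rw [abs_of_nonpos a, abs_of_nonpos b]; linarith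
  have σ0 : 0 < σ := by linarith
  set x : ℕ → ℝ := fun h => (log h - u) / σ with hx
  have step : ∀ h : ℕ, 1 ≤ h → 1 / (h : ℝ) * exp (-(u - log h) ^ 2 / (2 * σ ^ 2)) ≤
      10 * σ * (F (x (h + 1)) - F (x h)) := fun h hh => by
    have h0 : (1 : ℝ) ≤ h := by exact_mod_cast hh
    have d : x (h + 1) - x h = log (1 + 1 / h) / σ := by
      simp only [hx]; push_cast
      rw [show (1 : ℝ) + 1 / h = (h + 1) / h by field_simp, log_div (by positivity) (by positivity)]
      ring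
    have l1 : 1 / (2 * h) ≤ log (1 + 1 / h) := by
      have := one_sub_inv_le_log_of_pos (by positivity : (0 : ℝ) < 1 + 1 / h)
      refine le_trans ?_ this
      rw [show 1 - ((1 : ℝ) + 1 / h)⁻¹ = 1 / (h + 1) by field_simp; ring]
      gcongr; linarith
    have l2 : log (1 + 1 / h) ≤ 1 := by
      have := log_le_sub_one_of_pos (by positivity : (0 : ℝ) < 1 + 1 / h)
      have : 1 / (h : ℝ) ≤ 1 := by rw [div_le_one (by positivity)]; exact h0
      linarith
    have l0 : 0 ≤ log (1 + 1 / (h : ℝ)) := le_trans (by positivity) l1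
    have d0 : 0 ≤ x (h + 1) - x h := by rw [d]; positivity
    have d1 : x (h + 1) - x h ≤ 1 := by rw [d, div_le_one σ0]; linarith
    have d2 : 1 / (2 * h) / σ ≤ x (h + 1) - x h := by rw [d]; gcongr
    have f := F2 (x h) (x (h + 1)) (by linarith)
    have a1 : |x (h + 1)| ≤ |x h| + 1 := by
      have := abs_add_le (x h) (x (h + 1) - x h)
      rw [add_sub_cancel, abs_of_nonneg d0] at this; linarith
    have ee : -(u - log h) ^ 2 / (2 * σ ^ 2) = -(x h ^ 2 / 2) := by simp only [hx]; field_simp; ring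
    have g : exp (-(x h ^ 2 / 2)) ≤ 5 / ((1 + |x h|) * (1 + |x (h + 1)|)) := by
      rw [exp_neg, inv_eq_one_div, div_le_div_iff₀ (exp_pos _) (by positivity)]
      have := add_one_le_exp (x h ^ 2 / 2)
      nlinarith [abs_nonneg (x h), sq_nonneg (|x h| - 1), mul_le_mul_of_nonneg_left a1
        (by positivity : 0 ≤ 1 + |x h|), sq_abs (x h)]
    rw [ee]
    calc _ ≤ 1 / (h : ℝ) * (5 / ((1 + |x h|) * (1 + |x (h + 1)|))) := by gcongr
      _ = 10 * σ * (1 / (2 * h) / σ / ((1 + |x h|) * (1 + |x (h + 1)|))) := by field_simp; ring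
      _ ≤ _ := by gcongr; exact le_trans (by gcongr) f
  have tel : ∀ H : ℕ, ∑ h ∈ Icc 1 H, 1 / (h : ℝ) * exp (-(u - log h) ^ 2 / (2 * σ ^ 2)) ≤
      10 * σ * (F (x (H + 1)) - F (x 1)) := fun H => by
    induction H with
    | zero => simp
    | succ H ih =>
      rw [sum_Icc_succ_top (by omega)]
      have := step (H + 1) (by omega)
      linarith
  refine (tel H).trans ?_
  have a := abs_le.1 (F1 (x (H + 1)))
  have b := abs_le.1 (F1 (x 1))
  nlinarith

lemma chi_sum (J : Jump S p y R M) (h0 : 0 ≤ ε) (h1 : ε ≤ 1) (hσ : 1 ≤ σ) (n : ℕ) (u : ℝ) (H : ℕ) :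
    ∑ h ∈ Icc 1 H, 1 / (h : ℝ) * chi S p y ε σ n (u - log h) ≤ 20 * σ := by
  induction n generalizing u with
  | zero => exact gauss_sum hσ u H
  | succ n ih =>
    have e : ∑ h ∈ Icc 1 H, 1 / (h : ℝ) * chi S p y ε σ (n + 1) (u - log h) =
        (1 - ε) * ∑ h ∈ Icc 1 H, 1 / (h : ℝ) * chi S p y ε σ n (u - log h)
        + ε * ∑ j ∈ S, p j * ∑ h ∈ Icc 1 H, 1 / (h : ℝ) * chi S p y ε σ n (u - y j - log h) := by
      simp only [chi, mul_sum]
      rw [sum_comm, ← sum_add_distrib]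
      refine sum_congr rfl fun h _ => ?_
      rw [mul_add, mul_sum]
      congr 1
      · ring
      · refine sum_congr rfl fun j _ => ?_
        rw [show u - log h - y j = u - y j - log h by ring]; ring
    rw [e]
    have a := mul_le_mul_of_nonneg_left (ih u) (sub_nonneg.2 h1)
    have b : ∑ j ∈ S, p j * ∑ h ∈ Icc 1 H, 1 / (h : ℝ) * chi S p y ε σ n (u - y j - log h) ≤
        ∑ j ∈ S, p j * (20 * σ) := sum_le_sum fun j _ => mul_le_mul_of_nonneg_left (ih _) (J.nonneg j)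
    rw [← sum_mul, J.total] at b
    have := mul_le_mul_of_nonneg_left b h0
    linarith

lemma mel_bound (J : Jump S p y R M) (h0 : 0 ≤ ε) (h1 : ε * (1 + M ^ 2) ≤ 1 / 2) (t : ℝ) :
    ‖mel S p y ε t‖ ≤ exp (ε * M) ∧
      (1 / 200 ≤ |t| → t ^ 2 ≤ 4 * M + 2 → ‖mel S p y ε t‖ ≤ exp (-(ε / 2))) := by
  set m := ∑ j ∈ S, (p j : ℂ) * Complex.exp (y j * (1 / 2 - t * Complex.I)) with hm
  have m1 : ‖m‖ ≤ M := by
    refine (norm_sum_le _ _).trans (le_trans (le_of_eq (sum_congr rfl fun j _ => ?_)) J.mom)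
    rw [norm_mul, Complex.norm_exp, Complex.norm_real, norm_eq_abs, abs_of_nonneg (J.nonneg j)]
    congr 2; simp; ring
  have ε1 : ε ≤ 1 / 2 := by nlinarith [sq_nonneg M]
  refine ⟨?_, fun a b => ?_⟩
  · have : ‖mel S p y ε t‖ ≤ (1 - ε) + ε * M := by
      refine (norm_add_le _ _).trans (add_le_add (le_of_eq ?_) ?_)
      · rw [show (1 - ε : ℂ) = ((1 - ε : ℝ) : ℂ) by push_cast; ring, Complex.norm_real, norm_eq_abs,
          abs_of_nonneg (by linarith)]
      · rw [norm_mul, Complex.norm_real, norm_eq_abs, abs_of_nonneg h0]; gcongr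
    linarith [add_one_le_exp (ε * M)]
  · have m2 : m.re ≤ 1 / 4 := by
      refine le_trans (le_of_eq ?_) (J.osc t a b)
      rw [hm, Complex.re_sum]
      refine sum_congr rfl fun j _ => ?_
      rw [Complex.re_ofReal_mul, Complex.exp_re]
      simp; ring_nf
    have m3 : m.re ^ 2 + m.im ^ 2 ≤ M ^ 2 := by
      have := pow_le_pow_left₀ (norm_nonneg _) m1 2
      rw [Complex.sq_norm, Complex.normSq_apply] at this; nlinarith
    refine le_of_sq (exp_pos _).le ?_
    rw [← exp_nat_mul, Complex.sq_norm, Complex.normSq_apply, mel, ← hm]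
    have := add_one_le_exp (((2 : ℕ) : ℝ) * -(ε / 2))
    refine le_trans ?_ this
    simp
    nlinarith [mul_le_mul_of_nonneg_left m3 (sq_nonneg ε),
      mul_le_mul_of_nonneg_left m2 (mul_nonneg h0 (by linarith : 0 ≤ 1 - ε)), sq_nonneg ε,
      mul_le_mul_of_nonneg_left h1 h0]

lemma norm_om (hσ : 0 < σ) (n : ℕ) (t : ℝ) : ‖om S p y ε σ n t‖ ≤
    σ * exp (σ ^ 2 * (1 / 8 - t ^ 2 / 2)) * ‖mel S p y ε t‖ ^ n := by
  rw [om, norm_mul, norm_pow, norm_div, Complex.norm_exp, Complex.norm_real, norm_eq_abs,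
    abs_of_pos (by positivity)]
  gcongr
  have e : ((σ : ℂ) ^ 2 * (1 / 2 - t * Complex.I) ^ 2 / 2).re = σ ^ 2 * (1 / 8 - t ^ 2 / 2) := by
    simp [sq]; ring
  rw [e, div_div_eq_mul_div, mul_comm, div_le_iff₀ (by positivity)]
  refine le_mul_of_one_le_right (by positivity) ?_
  rw [one_le_sqrt]; linarith [pi_gt_three]

end Construction

theorem exists_maj : ∃ c ε M : ℝ, 0 < c ∧ 0 < ε ∧ ε ≤ 1 ∧ 0 ≤ M ∧ ∀ N : ℕ, 1 ≤ ε * N → ∃ W ω,
    Maj W ω c (20 * √(ε * N)) (√(ε * N) * exp (M * (ε * N))) (√(ε * N) * exp (-(3 / 8) * (ε * N))) := by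
  obtain ⟨S, p, y, R, M, M0, J⟩ := exists_jump
  set ε := 1 / (2 * (1 + M ^ 2)) with hε
  have ε0 : 0 < ε := by positivity
  have ε1 : ε * (1 + M ^ 2) ≤ 1 / 2 := by rw [hε]; field_simp; norm_num
  have ε2 : ε ≤ 1 := by nlinarith [sq_nonneg M]
  refine ⟨exp (-(1 + R ^ 2) / 2), ε, M + 1 / 8, exp_pos _, ε0, ε2, by positivity, fun N hN => ?_⟩
  set σ := √(ε * N) with hσ
  have σ1 : 1 ≤ σ := by rw [hσ, one_le_sqrt]; exact hN
  have σ0 : 0 < σ := by linarith
  have σ2 : σ ^ 2 = ε * N := sq_sqrt (by linarith)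
  have c0 : ∀ u, 0 ≤ chi S p y ε σ N u := fun u =>
    (exp_pos _).le.trans (chi_lower J ε0.le ε2 σ0 N u)
  have gen : ∀ (t b : ℝ), ‖mel S p y ε t‖ ≤ exp (ε * b) → ‖om S p y ε σ N t‖ ≤
      σ * exp (σ ^ 2 * (1 / 8 - t ^ 2 / 2 + b)) := fun t b h => by
    refine (norm_om σ0 N t).trans ?_
    calc _ ≤ σ * exp (σ ^ 2 * (1 / 8 - t ^ 2 / 2)) * exp (ε * b) ^ N := by gcongr
      _ = _ := by rw [← exp_nat_mul, mul_assoc, ← exp_add, σ2]; congr 2; ring
  refine ⟨fun v => v * chi S p y ε σ N (log v), om S p y ε σ N, fun v hv => mul_nonneg hv (c0 _),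
    fun v h1 h2 => ?_, fun v hv H => ?_, ?_, fun v hv => ?_, fun t => ?_, fun t ht => ?_⟩
  · refine le_trans ?_ (le_mul_of_one_le_left (c0 _) h1)
    refine le_trans ?_ (chi_lower J ε0.le ε2 σ0 N _)
    refine exp_le_exp.2 ?_
    have a := log_nonneg h1
    have b := log_le_sub_one_of_pos (by linarith : 0 < v)
    rw [div_le_div_iff₀ (by norm_num) (by positivity), σ2]
    nlinarith [mul_le_mul (by linarith : log v ≤ 1) (by linarith : log v ≤ 1) a zero_le_one]
  · rcases hv.eq_or_lt with rfl | hv'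
    · simp
    · refine le_trans (le_of_eq ?_) (mul_le_mul_of_nonneg_right (chi_sum J ε0.le ε2 σ1 N (log v) H) hv)
      rw [sum_mul]
      refine sum_congr rfl fun h hh => ?_
      have : (0 : ℝ) < h := by exact_mod_cast (mem_Icc.1 hh).1
      rw [log_div hv'.ne' this.ne']; ring
  · unfold om mel; fun_prop
  · rcases hv.eq_or_lt with rfl | hv'
    · simp [cp_zero]
    · have := (om_rep (S := S) (p := p) (y := y) (ε := ε) σ0 N (log v)).2
      rw [exp_log hv'] at this
      rw [← this]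
      congr 1; funext t
      rw [← cp_exp, exp_log hv']
  · refine (gen t M (mel_bound J ε0.le ε1 t).1).trans ?_
    rw [mul_assoc, ← exp_add, ← σ2]
    gcongr
    have : 1 ≤ σ ^ 2 := one_le_pow₀ σ1
    nlinarith [sq_nonneg t]
  · have s1 : 1 ≤ σ ^ 2 := one_le_pow₀ σ1
    rw [mul_assoc, ← exp_add, ← σ2]
    rcases le_total (t ^ 2) (4 * M + 2) with h | h
    · refine (gen t (-(1 / 2)) (by
        rw [show ε * -(1 / 2) = -(ε / 2) by ring]; exact (mel_bound J ε0.le ε1 t).2 ht h)).trans ?_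
      gcongr
      nlinarith [sq_nonneg t]
    · refine (gen t M (mel_bound J ε0.le ε1 t).1).trans ?_
      gcongr
      nlinarith [sq_nonneg t]

end Pool.Agent.MP_d431d3_nt
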