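import Pool.Agent.Lib.MP_d431d3_nt.Sparse2
import Pool.Agent.Lib.MP_d431d3_nt.Mellin

/-! Covariances of majorants evaluated at dilates of the normalised sine product. -/

namespace Pool.Agent.MP_d431d3_nt

open Real Finset MeasureTheory Filter Topology
open scoped ComplexConjugate

/-- The normalised product. -/
noncomputable def nP (L : ℕ) (x : ℝ) : ℝ := P L x / rho ^ L

lemma nP_nonneg (L : ℕ) (x : ℝ) : 0 ≤ nP L x := div_nonneg (P_nonneg _ _) (pow_pos rho_pos _).le

lemma nP_le (L : ℕ) (x : ℝ) : nP L x ≤ 2 ^ L :=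
  (div_le_self (P_nonneg _ _) (one_le_pow₀ one_le_rho)).trans (P_le _ _)

lemma nP_per (L : ℕ) : Per (nP L) := fun x => by unfold nP; rw [P_per]

@[fun_prop] lemma continuous_nP (L : ℕ) : Continuous (nP L) := by unfold nP; fun_prop

lemma Ex_nP (L : ℕ) : Ex (nP L) ≤ 2 := by
  have := pow_pos rho_pos L
  unfold nP Ex
  rw [intervalIntegral.integral_div, div_le_iff₀ this]
  exact sinInt_le L

noncomputable def gw (t : ℝ) : ℝ := (1 + 4 * t ^ 2) * exp (-(1 / 4) * t ^ 2)

lemma integrable_gw : Integrable gw := by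
  refine ((integrable_exp_neg_mul_sq (b := 1 / 8) (by norm_num)).const_mul 33).mono'
    (Continuous.aestronglyMeasurable (by unfold gw; fun_prop)) (Eventually.of_forall fun t => ?_)
  unfold gw
  rw [norm_eq_abs, abs_of_nonneg (by positivity),
    show -(1 / 4) * t ^ 2 = -(t ^ 2 / 8) + -(1 / 8) * t ^ 2 by ring, exp_add, ← mul_assoc]
  gcongr
  rw [exp_neg, ← div_eq_mul_inv, div_le_iff₀ (exp_pos _)]
  nlinarith [add_one_le_exp (t ^ 2 / 8), sq_nonneg t]

noncomputable def Cg : ℝ := ∫ t, gw t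

lemma Cg_nonneg : 0 ≤ Cg := integral_nonneg fun t => by unfold gw; positivity

lemma gauss_int : Integrable fun t : ℝ => exp (-(1 / 4) * t ^ 2) :=
  integrable_exp_neg_mul_sq (by norm_num)

section

variable {W : ℝ → ℝ} {ω : ℝ → ℂ} {c A B η : ℝ}

lemma Maj.B_nonneg (m : Maj W ω c A B η) : 0 ≤ B :=
  nonneg_of_mul_nonneg_left ((norm_nonneg _).trans (m.all 0)) (exp_pos _)

lemma Maj.cont_comp (m : Maj W ω c A B η) {f : ℝ → ℝ} (hf : Continuous f) {K : ℝ}
    (h0 : ∀ x, 0 ≤ f x) (h1 : ∀ x, f x ≤ K) : Continuous fun x => W (f x) := by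
  have hc := m.cont
  have : Continuous fun x => ∫ t, ω t * cp (f x) t := by
    refine continuous_of_dominated (bound := fun t => B * exp (-(1 / 4) * t ^ 2) * √K)
      (fun x => Continuous.aestronglyMeasurable (by fun_prop))
      (fun x => Eventually.of_forall fun t => ?_) ((gauss_int.const_mul B).mul_const _)
      (Eventually.of_forall fun t => by fun_prop)
    rw [norm_mul, norm_cp (h0 x)]
    exact mul_le_mul (m.all t) (sqrt_le_sqrt (h1 x)) (sqrt_nonneg _)
      ((norm_nonneg _).trans (m.all t))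
  simp only [← m.rep _ (h0 _)] at this
  exact Complex.continuous_re.comp this

/-- The majorant at scale `s`. -/
noncomputable def FW (W : ℝ → ℝ) (L : ℕ) (s x : ℝ) : ℝ := W (nP L x / s)

lemma FW_per (W : ℝ → ℝ) (L : ℕ) (s : ℝ) : Per (FW W L s) := fun x => by unfold FW; rw [nP_per]

lemma Maj.cont_FW (m : Maj W ω c A B η) (L : ℕ) {s : ℝ} (hs : 0 < s) : Continuous (FW W L s) :=
  m.cont_comp (K := 2 ^ L / s) (by fun_prop) (fun x => div_nonneg (nP_nonneg _ _) hs.le)
    fun x => by gcongr; exact nP_le _ _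

lemma Maj.FW_nonneg (m : Maj W ω c A B η) (L : ℕ) {s : ℝ} (hs : 0 < s) (x : ℝ) : 0 ≤ FW W L s x :=
  m.nonneg _ (div_nonneg (nP_nonneg _ _) hs.le)

lemma continuous_fc_gt (L : ℕ) (n : ℤ) : Continuous fun t => fc (gt L t) n := by
  unfold fc Ex gt
  refine intervalIntegral.continuous_parametric_intervalIntegral_of_continuous' ?_ _ _
  unfold Function.uncurry
  fun_prop

lemma norm_fc_gt_le (L : ℕ) (t : ℝ) (n : ℤ) : ‖fc (gt L t) n‖ ≤ √(2 ^ L) := by
  have := intervalIntegral.norm_integral_le_of_norm_le_const (a := 0) (b := 1)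
    (f := fun x => gt L t x * ee (-(n * x))) (C := √(2 ^ L)) fun x _ => by
      rw [norm_mul, norm_ee, mul_one, norm_gt]; exact sqrt_le_sqrt (P_le _ _)
  simpa [fc] using this

lemma Maj.integrable_phi (m : Maj W ω c A B η) (L : ℕ) (n : ℤ) :
    Integrable fun t => ‖ω t‖ * ‖fc (gt L t) n‖ := by
  have := m.cont
  have := continuous_fc_gt L n
  refine ((gauss_int.const_mul B).mul_const √(2 ^ L)).mono'
    (Continuous.aestronglyMeasurable (by fun_prop)) (Eventually.of_forall fun t => ?_)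
  rw [norm_eq_abs, abs_of_nonneg (by positivity)]
  exact mul_le_mul (m.all t) (norm_fc_gt_le L t n) (norm_nonneg _) ((norm_nonneg _).trans (m.all t))

noncomputable def Phi (ω : ℝ → ℂ) (L : ℕ) (n : ℤ) : ℝ :=
  (∫ t, ‖ω t‖ * ‖fc (gt L t) n‖) / √(rho ^ L)

lemma Phi_nonneg (ω : ℝ → ℂ) (L : ℕ) (n : ℤ) : 0 ≤ Phi ω L n :=
  div_nonneg (integral_nonneg fun _ => by positivity) (sqrt_nonneg _)

lemma Maj.norm_fc_FW (m : Maj W ω c A B η) (L : ℕ) {s : ℝ} (hs : 0 < s) (n : ℤ) :
    ‖fc (fun x => (FW W L s x : ℂ)) n‖ ≤ Phi ω L n / √s := by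
  have hc := m.cont
  have r0 := pow_pos rho_pos L
  set u := 1 / (rho ^ L * s) with hu
  have u0 : 0 ≤ u := by positivity
  have e1 : ∀ x, (FW W L s x : ℂ) * ee (-(n * x))
      = ∫ t, ω t * cp u t * (gt L t x * ee (-(n * x))) := fun x => by
    rw [FW, m.rep _ (div_nonneg (nP_nonneg _ _) hs.le), ← integral_mul_const]
    congr 1; funext t
    rw [show nP L x / s = u * P L x by rw [hu, nP]; field_simp, cp_mul u0 (P_nonneg _ _), gt]
    ring
  have e2 : fc (fun x => (FW W L s x : ℂ)) n = ∫ t, ω t * cp u t * fc (gt L t) n := by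
    unfold fc Ex
    simp only [e1]
    rw [intervalIntegral_integral_swap]
    · congr 1; funext t; rw [intervalIntegral.integral_const_mul]
    · have i1 : Integrable (fun _ : ℝ => (1 : ℝ)) (volume.restrict (Set.uIoc (0 : ℝ) 1)) := by
        rw [Set.uIoc_of_le zero_le_one]; exact integrable_const _
      refine (i1.mul_prod (((gauss_int.const_mul B).mul_const √u).mul_const √(2 ^ L))).mono'
        (Continuous.aestronglyMeasurable (by unfold Function.uncurry gt; fun_prop))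
        (Eventually.of_forall fun z => ?_)
      simp only [Function.uncurry, norm_mul, norm_ee, mul_one, one_mul, norm_cp u0, norm_gt]
      have := m.B_nonneg
      gcongr
      · exact m.all _
      · exact P_le _ _
  rw [e2]
  refine (norm_integral_le_integral_norm _).trans (le_of_eq ?_)
  simp only [norm_mul, norm_cp u0]
  rw [Phi, div_div, ← sqrt_mul r0.le, ← integral_div]
  congr 1; funext t
  rw [hu, sqrt_div zero_le_one, sqrt_one]; ring

lemma Maj.Qs_Phi (m : Maj W ω c A B η) (L : ℕ) (D : Finset ℕ) (S : Finset ℤ) {K : ℝ} (hK : 0 ≤ K)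
    (h : ∀ t, ‖ω t‖ * √(Qs (fun n => ‖fc (gt L t) n‖) D S) ≤ K * √(rho ^ L) * gw t) :
    √(Qs (Phi ω L) D S) ≤ K * Cg := by
  have r0 : 0 < √(rho ^ L) := sqrt_pos.2 (pow_pos rho_pos L)
  set α : ℤ → ℝ := fun k => ∑ a ∈ D, Phi ω L (k * a) / √a with hα
  set f : ℤ → ℝ → ℝ := fun k t => ∑ a ∈ D, ‖ω t‖ * ‖fc (gt L t) (k * a)‖ / √(rho ^ L) / √a with hf
  have i1 : ∀ k, ∀ a ∈ D, Integrable fun t => ‖ω t‖ * ‖fc (gt L t) (k * a)‖ / √(rho ^ L) / √(a : ℝ) :=
    fun k a _ => ((m.integrable_phi L _).div_const _).div_const _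
  have i2 : ∀ k, Integrable (f k) := fun k => integrable_finsetSum D (i1 k)
  have e1 : ∀ k, α k = ∫ t, f k t := fun k => by
    simp only [hα, hf]
    rw [integral_finsetSum D (i1 k)]
    refine sum_congr rfl fun a _ => ?_
    rw [integral_div, integral_div, Phi]
  set Q := Qs (Phi ω L) D S with hQ
  have Q0 : 0 ≤ Q := sum_nonneg fun _ _ => sq_nonneg _
  have e2 : Q = ∫ t, ∑ k ∈ S, α k * f k t := by
    rw [integral_finsetSum S fun k _ => (i2 k).const_mul _]
    refine sum_congr rfl fun k _ => ?_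
    rw [integral_const_mul, ← e1, sq]
  have e3 : ∀ t, ∑ k ∈ S, α k * f k t ≤ √Q * K * gw t := fun t => by
    refine (Real.sum_mul_le_sqrt_mul_sqrt S _ _).trans ?_
    rw [mul_assoc]
    refine mul_le_mul_of_nonneg_left ?_ (sqrt_nonneg _)
    have : ∑ k ∈ S, f k t ^ 2 = (‖ω t‖ / √(rho ^ L)) ^ 2 * Qs (fun n => ‖fc (gt L t) n‖) D S := by
      rw [Qs, mul_sum]
      refine sum_congr rfl fun k _ => ?_
      rw [← mul_pow, mul_sum]
      congr 1
      exact sum_congr rfl fun a _ => by ring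
    rw [this, sqrt_mul (sq_nonneg _), sqrt_sq (by positivity), div_mul_eq_mul_div, div_le_iff₀ r0]
    linarith [h t]
  have e4 : Q ≤ √Q * (K * Cg) := by
    nth_rw 1 [e2]
    refine (integral_mono (integrable_finsetSum S fun k _ => (i2 k).const_mul _)
      (integrable_gw.const_mul (√Q * K)) e3).trans (le_of_eq ?_)
    rw [integral_const_mul, Cg]; ring
  rcases (sqrt_nonneg Q).eq_or_lt with h0 | h0
  · rw [← h0]; exact mul_nonneg hK Cg_nonneg
  · refine le_of_mul_le_mul_left ?_ h0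
    rwa [mul_self_sqrt Q0]

end

/-- Odd integers in `[b, H]`. -/
def Od (b H : ℕ) : Finset ℕ := (Icc b H).filter Odd

lemma mem_Od {b H a : ℕ} : a ∈ Od b H ↔ (b ≤ a ∧ a ≤ H) ∧ Odd a := by simp [Od]

theorem cov_bound {W W' : ℝ → ℝ} {ω ω' : ℝ → ℂ} {c A B η c' A' B' η' : ℝ} (m : Maj W ω c A B η)
    (m' : Maj W' ω' c' A' B' η') (L L' : ℕ) {s s' : ℝ} (hs : 0 < s) (hs' : 0 < s') (H b0 : ℕ)
    (T : Finset (ℕ × ℕ)) (hT : ∀ p ∈ T, p.1 ∈ Od 1 H ∧ p.2 ∈ Od 1 H ∧ b0 ≤ p.2 / Nat.gcd p.1 p.2)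
    {Q Q' : ℝ} (hQ : ∀ S : Finset ℤ, 0 ∉ S → √(Qs (Phi ω L) (Od b0 H) S) ≤ Q)
    (hQ' : ∀ S : Finset ℤ, 0 ∉ S → √(Qs (Phi ω' L') (Od 1 H) S) ≤ Q') :
    ∑ p ∈ T, |Ex (fun x => FW W L (s * p.1) (p.1 * x) * FW W' L' (s' * p.2) (p.2 * x))
      - Ex (FW W L (s * p.1)) * Ex (FW W' L' (s' * p.2))| ≤ Hm H * (Q * Q') / (√s * √s') := by
  classical
  set g : ℕ × ℕ → ℕ := fun p => Nat.gcd p.1 p.2 with hg
  set cc : ℕ × ℕ → ℤ → ℂ := fun p k => fc (fun x => (FW W L (s * p.1) x : ℂ)) (k * (p.2 / g p : ℕ))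
    * conj (fc (fun x => (FW W' L' (s' * p.2) x : ℂ)) (k * (p.1 / g p : ℕ))) with hcc
  have pos : ∀ p ∈ T, 0 < p.1 ∧ 0 < p.2 ∧ 0 < g p ∧ g p * (p.1 / g p) = p.1 ∧ g p * (p.2 / g p) = p.2 :=
    fun p hp => by
      have a := (mem_Od.1 (hT p hp).1).2.pos
      have b := (mem_Od.1 (hT p hp).2.1).2.pos
      exact ⟨a, b, Nat.gcd_pos_of_pos_left _ a, Nat.mul_div_cancel' (Nat.gcd_dvd_left _ _),
        Nat.mul_div_cancel' (Nat.gcd_dvd_right _ _)⟩
  have hsum : ∀ p ∈ T, HasSum (fun k => if k = 0 then 0 else cc p k)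
      ((Ex (fun x => FW W L (s * p.1) (p.1 * x) * FW W' L' (s' * p.2) (p.2 * x))
      - Ex (FW W L (s * p.1)) * Ex (FW W' L' (s' * p.2)) : ℝ) : ℂ) := fun p hp => by
    obtain ⟨a, b, d, e1, e2⟩ := pos p hp
    have a' : (0 : ℝ) < p.1 := by exact_mod_cast a
    have b' : (0 : ℝ) < p.2 := by exact_mod_cast b
    have c1 := m.cont_FW L (mul_pos hs a')
    have c2 := m'.cont_FW L' (mul_pos hs' b')
    have h := corr_dil (F := fun x => (FW W L (s * p.1) x : ℂ)) (G := fun x => (FW W' L' (s' * p.2) x : ℂ))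
      (fun x => by simp only; rw [FW_per]) (fun x => by simp only; rw [FW_per]) (by fun_prop)
      (by fun_prop) (d := g p) (a := p.1 / g p) (b := p.2 / g p) d.ne'
      (by rintro h; rw [h] at e1; omega) (by rintro h; rw [h] at e2; omega)
      (Nat.coprime_div_gcd_div_gcd d)
    rw [e1, e2] at h
    refine MP_d431d3_nt.HasSum.congr_val (hasSum_ite_sub_hasSum h 0) ?_
    simp only [zero_mul, fc_zero, Complex.conj_ofReal, ← Complex.ofReal_mul,
      intervalIntegral.integral_ofReal]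
    push_cast; rfl
  have lim : Tendsto (fun S : Finset ℤ => ∑ p ∈ T, ‖∑ k ∈ S, if k = 0 then 0 else cc p k‖) atTop
      (𝓝 (∑ p ∈ T, |Ex (fun x => FW W L (s * p.1) (p.1 * x) * FW W' L' (s' * p.2) (p.2 * x))
      - Ex (FW W L (s * p.1)) * Ex (FW W' L' (s' * p.2))|)) := by
    refine tendsto_finsetSum T fun p hp => ?_
    have := (hsum p hp).norm
    rwa [Complex.norm_real, norm_eq_abs] at this
  refine le_of_tendsto' lim fun S => ?_
  set X : ℤ → ℝ := fun k => ∑ b ∈ Od b0 H, Phi ω L (k * b) / √b with hX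
  set Y : ℤ → ℝ := fun k => ∑ a ∈ Od 1 H, Phi ω' L' (k * a) / √a with hY
  have ss : 0 < √s * √s' := mul_pos (sqrt_pos.2 hs) (sqrt_pos.2 hs')
  have k1 : ∀ k, ∑ p ∈ T, ‖cc p k‖ ≤ Hm H * (X k * Y k) / (√s * √s') := fun k => by
    calc _ ≤ ∑ z ∈ Icc 1 H ×ˢ Od b0 H ×ˢ Od 1 H, (1 : ℝ) / z.1 * (Phi ω L (k * z.2.1) / √z.2.1 *
          (Phi ω' L' (k * z.2.2) / √z.2.2)) / (√s * √s') := by
          refine sum_le_inj (fun p => (g p, p.2 / g p, p.1 / g p)) (fun p hp => ?_)
            (fun p hp r hr e => ?_) (fun p hp => ?_) (fun z _ => by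
              have := Phi_nonneg ω L (k * z.2.1)
              have := Phi_nonneg ω' L' (k * z.2.2)
              positivity)
          · obtain ⟨a, b, d, e1, e2⟩ := pos p hp
            obtain ⟨t1, t2, t3⟩ := hT p hp
            rw [mem_Od] at t1 t2
            simp only [mem_product, mem_Icc, mem_Od]
            refine ⟨⟨d, (Nat.gcd_le_left _ a).trans t1.1.2⟩,
              ⟨⟨t3, (Nat.div_le_self _ _).trans t2.1.2⟩,
                t2.2.of_dvd_nat (Nat.div_dvd_of_dvd (Nat.gcd_dvd_right _ _))⟩,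
              ⟨Nat.div_pos (Nat.gcd_le_left _ a) d, (Nat.div_le_self _ _).trans t1.1.2⟩,
                t1.2.of_dvd_nat (Nat.div_dvd_of_dvd (Nat.gcd_dvd_left _ _))⟩
          · obtain ⟨-, -, -, e1, e2⟩ := pos p hp
            obtain ⟨-, -, -, f1, f2⟩ := pos r hr
            simp only [Prod.mk.injEq] at e
            rw [e.2.2, e.1, f1] at e1
            rw [e.2.1, e.1, f2] at e2
            exact Prod.ext e1.symm e2.symm
          · obtain ⟨a, b, d, e1, e2⟩ := pos p hp
            have a' : (0 : ℝ) < p.1 := by exact_mod_cast a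
            have b' : (0 : ℝ) < p.2 := by exact_mod_cast b
            have n1 := m.norm_fc_FW L (mul_pos hs a') (k * (p.2 / g p : ℕ))
            have n2 := m'.norm_fc_FW L' (mul_pos hs' b') (k * (p.1 / g p : ℕ))
            simp only [hcc, norm_mul, Complex.norm_conj]
            refine (mul_le_mul n1 n2 (norm_nonneg _)
              (div_nonneg (Phi_nonneg _ _ _) (sqrt_nonneg _))).trans (le_of_eq ?_)
            have d' : (0 : ℝ) < g p := by exact_mod_cast d
            have r1 : √(p.1 : ℝ) = √(g p) * √(p.1 / g p : ℕ) := by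
              rw [← sqrt_mul d'.le, ← Nat.cast_mul, e1]
            have r2 : √(p.2 : ℝ) = √(g p) * √(p.2 / g p : ℕ) := by
              rw [← sqrt_mul d'.le, ← Nat.cast_mul, e2]
            rw [sqrt_mul hs.le, sqrt_mul hs'.le, r1, r2]
            nth_rw 3 [← mul_self_sqrt d'.le]
            ring
      _ = _ := by
          rw [← sum_div, Hm, hX, hY]
          simp only
          rw [sum_mul_sum (Od b0 H), sum_mul]
          simp only [sum_product, mul_sum]
  have H0 := Hm_nonneg H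
  calc _ ≤ ∑ p ∈ T, ∑ k ∈ S.erase 0, ‖cc p k‖ := sum_le_sum fun p _ => by
        refine le_trans (le_of_eq ?_) (norm_sum_le _ _)
        rw [← sum_erase S (f := fun k => if k = 0 then 0 else cc p k) (a := 0) (by simp)]
        congr 1
        exact sum_congr rfl fun k hk => if_neg (ne_of_mem_erase hk)
    _ ≤ ∑ k ∈ S.erase 0, Hm H * (X k * Y k) / (√s * √s') := by
        rw [sum_comm]; exact sum_le_sum fun k _ => k1 k
    _ ≤ _ := by
        rw [← sum_div, ← mul_sum]
        gcongr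
        refine (Real.sum_mul_le_sqrt_mul_sqrt _ _ _).trans ?_
        have q1 := hQ (S.erase 0) (notMem_erase _ _)
        have q2 := hQ' (S.erase 0) (notMem_erase _ _)
        exact mul_le_mul q1 q2 (sqrt_nonneg _) ((sqrt_nonneg _).trans q1)

end Pool.Agent.MP_d431d3_nt
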