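import Mathlib

/-! Definitions for the metric discrepancy problem along integers with even binary digit sum. -/

namespace Pool.Agent.MP_d431d3_nt

/-- `n` is a positive integer whose binary digit sum is even. -/
def EvenDigitSum (n : ℕ) : Prop := 1 ≤ n ∧ Even (Nat.digits 2 n).sum

/-- The increasing enumeration `n_0 = 3, n_1 = 5, n_2 = 6, ...` of those integers. -/
noncomputable def seq (k : ℕ) : ℕ := Nat.nth EvenDigitSum k

open Classical in
/-- The discrepancy `D_N(α)` of the first `N` fractional parts `{n_k α}`. -/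
noncomputable def disc (α : ℝ) (N : ℕ) : ℝ :=
  sSup {r : ℝ | ∃ a b : ℝ, 0 ≤ a ∧ a < b ∧ b ≤ 1 ∧
    r = |(((Finset.range N).filter
      (fun k => Int.fract ((seq k : ℝ) * α) ∈ Set.Ico a b)).card : ℝ) / N - (b - a)|}

/-- The integral over `[0,1]` of the product of `|2 sin(π 2^j x)|` over `j < L`. -/
noncomputable def sinInt (L : ℕ) : ℝ :=
  ∫ x in (0 : ℝ)..1, ∏ j ∈ Finset.range L, |2 * Real.sin (Real.pi * (2 ^ j * x))|

end Pool.Agent.MP_d431d3_nt
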