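import Pool.Agent.Lib.MP_d431d3_nt.Affin

/-! The dilation deficiency: two different odd dilates of the sine product have exponentially
small affinity, uniformly in the dilation factors. -/

namespace Pool.Agent.MP_d431d3_nt

open Real Finset MeasureTheory

noncomputable def s2 (x : ℝ) : ℝ := sin (π * x) ^ 2

lemma s2_per : Per s2 := fun x => by
  unfold s2; rw [mul_add, mul_one, sin_add_pi, neg_sq]

lemma s2_nonneg (x : ℝ) : 0 ≤ s2 x := sq_nonneg _

lemma s2_le (x : ℝ) : s2 x ≤ 1 := sin_sq_le_one _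

lemma s2_neg (x : ℝ) : s2 (-x) = s2 x := by unfold s2; rw [mul_neg, sin_neg, neg_sq]

@[fun_prop] lemma continuous_s2 : Continuous s2 := by unfold s2; fun_prop

lemma s2_double (x : ℝ) : s2 (2 * x) ≤ 4 * s2 x := by
  unfold s2
  rw [show π * (2 * x) = 2 * (π * x) by ring, sin_two_mul]
  nlinarith [cos_sq_le_one (π * x), sq_nonneg (sin (π * x))]

lemma s2_pow (j : ℕ) (x : ℝ) : s2 (2 ^ j * x) ≤ 4 ^ j * s2 x := by
  induction j with
  | zero => simp
  | succ j ih =>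
    rw [show 2 ^ (j + 1) * x = 2 * (2 ^ j * x) by ring, pow_succ]
    linarith [s2_double (2 ^ j * x)]

noncomputable def Dl (L a b : ℕ) (x : ℝ) : ℝ := √(P L (a * x) * P L (b * x))

noncomputable def wt (a b : ℕ) (z : ℝ) : ℝ := 1 + s2 ((a - b) * z) * s2 ((a + b) * z) / 32

noncomputable def Wt (L a b : ℕ) (x : ℝ) : ℝ := ∏ j ∈ range L, wt a b (2 ^ j * x)

noncomputable def Gd (j a b : ℕ) (y : ℝ) : ℝ := √(q j (a * y) * q j (b * y))

lemma one_le_wt (a b : ℕ) (z : ℝ) : 1 ≤ wt a b z := by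
  unfold wt
  have := mul_nonneg (s2_nonneg ((a - b) * z)) (s2_nonneg ((a + b) * z))
  linarith

lemma wt_per (a b : ℕ) : Per (wt a b) := fun z => by
  unfold wt
  rw [show ((a : ℝ) - b) * (z + 1) = (a - b) * z + ((a - b : ℤ) : ℝ) by push_cast; ring,
    show ((a : ℝ) + b) * (z + 1) = (a + b) * z + ((a + b : ℕ) : ℝ) by push_cast; ring,
    s2_per.int, s2_per.nat]

@[fun_prop] lemma continuous_Wt (L a b : ℕ) : Continuous (Wt L a b) := by
  unfold Wt wt; fun_prop

@[fun_prop] lemma continuous_Dl (L a b : ℕ) : Continuous (Dl L a b) := by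
  unfold Dl; fun_prop

lemma TT_Dl_le {a b : ℕ} (ha : Odd a) (hb : Odd b) (L : ℕ) (y : ℝ) :
    TT L (fun x => Dl L a b x * Wt L a b x) y ≤ Gd L a b y := by
  induction L generalizing y with
  | zero => simp [Dl, Wt, Gd, q_zero]
  | succ L ih =>
    set f : ℝ → ℝ := fun z => √(ph (a * z) * ph (b * z)) * wt a b z with hf
    have fper : Per f := fun z => by
      simp only [hf]
      rw [wt_per a b z, ph_per.dil' a z, ph_per.dil' b z]
    have e : (fun x => Dl (L + 1) a b x * Wt (L + 1) a b x)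
        = fun x => (Dl L a b x * Wt L a b x) * f (2 ^ L * x) := by
      funext x
      simp only [hf, Dl, Wt, prod_range_succ, P_succ]
      rw [show P L (a * x) * ph (2 ^ L * (a * x)) * (P L (b * x) * ph (2 ^ L * (b * x)))
        = (P L (a * x) * P L (b * x)) * (ph (a * (2 ^ L * x)) * ph (b * (2 ^ L * x))) by ring_nf,
        sqrt_mul (mul_nonneg (P_nonneg _ _) (P_nonneg _ _))]
      ring
    rw [e, TT_step L _ fper]
    have f0 : ∀ z, 0 ≤ f z := fun z =>
      mul_nonneg (sqrt_nonneg _) (zero_le_one.trans (one_le_wt a b z))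
    refine (T_mono (g := fun z => Gd L a b z * f z)
      (fun z => mul_le_mul_of_nonneg_right (ih z) (f0 z)) y).trans ?_
    obtain ⟨k, hk⟩ := ha
    obtain ⟨k', hk'⟩ := hb
    have ea : (a : ℝ) * (y / 2 + 1 / 2) = a * (y / 2) + 1 / 2 + k := by rw [hk]; push_cast; ring
    have eb : (b : ℝ) * (y / 2 + 1 / 2) = b * (y / 2) + 1 / 2 + k' := by rw [hk']; push_cast; ring
    have ew : wt a b (y / 2 + 1 / 2) = wt a b (y / 2) := by
      unfold wt
      rw [show ((a : ℝ) - b) * (y / 2 + 1 / 2) = (a - b) * (y / 2) + ((k - k' : ℤ) : ℝ) by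
          rw [hk, hk']; push_cast; ring,
        show ((a : ℝ) + b) * (y / 2 + 1 / 2) = (a + b) * (y / 2) + ((k + k' + 1 : ℕ) : ℝ) by
          rw [hk, hk']; push_cast; ring, s2_per.int, s2_per.nat]
    have eG : ∀ z, Gd L a b z * f z
        = √(q L (a * z) * ph (a * z) * (q L (b * z) * ph (b * z))) * wt a b z := fun z => by
      simp only [hf, Gd]
      rw [← mul_assoc, ← sqrt_mul (mul_nonneg (q_pos _ _).le (q_pos _ _).le)]
      congr 2; ring
    have h := step_loss L (a * (y / 2)) (b * (y / 2))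
    simp only [T, eG]
    rw [ew, ea, eb, (q_per L).nat, (q_per L).nat, ph_per.nat, ph_per.nat]
    rw [show 2 * (a * (y / 2)) = a * y by ring, show 2 * (b * (y / 2)) = b * y by ring,
      ← sub_mul, ← add_mul] at h
    unfold Gd wt s2
    set l := sin (π * ((a - b) * (y / 2))) ^ 2 * sin (π * ((a + b) * (y / 2))) ^ 2
    have l0 : 0 ≤ l := by positivity
    have hG : 0 ≤ √(q (L + 1) (a * y) * q (L + 1) (b * y)) := sqrt_nonneg _
    have := mul_le_mul_of_nonneg_right h (by positivity : 0 ≤ 1 + l / 32)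
    nlinarith [mul_nonneg hG (sq_nonneg l)]

noncomputable def Bk (m : ℕ) (y : ℝ) : ℝ := ∏ j ∈ range m, 2 * (1 - s2 (2 ^ j * y))

lemma Bk_nonneg (m : ℕ) (y : ℝ) : 0 ≤ Bk m y :=
  prod_nonneg fun j _ => by have := s2_le (2 ^ j * y); linarith

lemma Bk_per (m : ℕ) : Per (Bk m) := fun y => by
  unfold Bk
  refine prod_congr rfl fun j _ => ?_
  rw [s2_per.dil2' j y]

lemma TT_Bk (m : ℕ) (y : ℝ) : TT m (Bk m) y = 1 := by
  induction m generalizing y with
  | zero => simp [Bk]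
  | succ m ih =>
    rw [TT_step' m (Bk m) (fun z => 2 * (1 - s2 z)) (fun z => by simp only; rw [s2_per z])
      (fun x => by simp only [Bk, prod_range_succ])]
    simp only [T, ih, s2]
    rw [show π * (y / 2 + 1 / 2) = π * (y / 2) + π / 2 by ring, sin_add_pi_div_two]
    nlinarith [sin_sq_add_cos_sq (π * (y / 2))]

lemma Bk_ge (m : ℕ) (y : ℝ) : 2 ^ m * (1 - 4 ^ m * s2 y / 3) ≤ Bk m y := by
  induction m with
  | zero => simp [Bk]; have := s2_nonneg y; linarith
  | succ m ih =>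
    rw [Bk, prod_range_succ, ← Bk]
    have h1 := s2_pow m y
    have h2 := s2_le (2 ^ m * y)
    have h3 := s2_nonneg (2 ^ m * y)
    have h4 : 0 ≤ 4 ^ m * s2 y := mul_nonneg (by positivity) (s2_nonneg y)
    calc 2 ^ (m + 1) * (1 - 4 ^ (m + 1) * s2 y / 3)
        = 2 ^ m * 2 * (1 - 4 ^ m * s2 y / 3 - 4 ^ m * s2 y) := by ring
      _ ≤ 2 ^ m * 2 * ((1 - 4 ^ m * s2 y / 3) * (1 - s2 (2 ^ m * y))) := by
        gcongr; nlinarith [mul_nonneg h4 h3]
      _ = 2 ^ m * (1 - 4 ^ m * s2 y / 3) * (2 * (1 - s2 (2 ^ m * y))) := by ring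
      _ ≤ _ := by gcongr

noncomputable def Zp (m n : ℕ) (y : ℝ) : ℝ := ∏ i ∈ range n, (1 + Bk m (2 ^ (m * i) * y))

lemma Zp_per (m n : ℕ) : Per (Zp m n) := fun y => by
  unfold Zp
  refine prod_congr rfl fun j _ => ?_
  rw [(Bk_per m).dil2' _ y]

lemma Zp_nonneg (m n : ℕ) (y : ℝ) : 0 ≤ Zp m n y :=
  prod_nonneg fun _ _ => add_nonneg zero_le_one (Bk_nonneg _ _)

@[fun_prop] lemma continuous_Zp (m n : ℕ) : Continuous (Zp m n) := by
  unfold Zp Bk; fun_prop

lemma TT_Zp (m n : ℕ) (y : ℝ) : TT (m * n) (Zp m n) y = 2 ^ n := by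
  induction n generalizing y with
  | zero => simp [Zp]
  | succ n ih =>
    rw [mul_add, mul_one, TT_block' (m * n) m (Zp m n) (fun z => 1 + Bk m z)
      (fun z => by simp only; rw [Bk_per m z]) (fun x => by simp only [Zp, prod_range_succ])]
    simp only [ih]
    rw [TT_smul, TT_add', TT_const, TT_Bk]; ring

lemma Ex_Zp (m n : ℕ) : Ex (Zp m n) = 2 ^ n := by
  rw [← Ex_TT (m * n) (by fun_prop), show TT (m * n) (Zp m n) = fun _ => 2 ^ n from
    funext (TT_Zp m n), Ex_const]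

lemma TT_Psq (L : ℕ) (y : ℝ) : TT L (fun x => P L x ^ 2) y = 2 ^ L := by
  induction L generalizing y with
  | zero => simp
  | succ L ih =>
    rw [TT_step' L (fun x => P L x ^ 2) (fun z => ph z ^ 2) (fun z => by simp only; rw [ph_per z])
      (fun x => by simp only [P_succ, mul_pow])]
    simp only [T, ih]
    linear_combination 2 ^ L / 2 * ph_sq_add (y / 2)

lemma TT_PP_le (L : ℕ) {a b : ℕ} (ha : Odd a) (hb : Odd b) (y : ℝ) :
    TT L (fun x => P L (a * x) * P L (b * x)) y ≤ 2 ^ L := by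
  have hp : Per (fun x => P L x ^ 2) := fun x => by simp only; rw [P_per]
  refine (TT_mono L (g := fun x => 1 / 2 * (fun z => P L z ^ 2) (a * x)
    + 1 / 2 * (fun z => P L z ^ 2) (b * x)) (fun x => ?_) y).trans ?_
  · nlinarith [sq_nonneg (P L (a * x) - P L (b * x))]
  · rw [TT_lin, TT_dil L hp ha, TT_dil L hp hb, TT_Psq, TT_Psq]; linarith

lemma prod_ge_card {n : ℕ} {S : Finset ℕ} (hS : S ⊆ range n) {f : ℕ → ℝ} {c : ℝ} (hc : 0 ≤ c)
    (h1 : ∀ i, 1 ≤ f i) (h2 : ∀ i ∈ S, c ≤ f i) : c ^ S.card ≤ ∏ i ∈ range n, f i := by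
  calc c ^ S.card = ∏ _i ∈ S, c := by rw [prod_const]
    _ ≤ ∏ i ∈ S, f i := prod_le_prod (fun _ _ => hc) h2
    _ ≤ _ := prod_le_prod_of_subset_of_one_le hS (fun i _ => zero_le_one.trans (h1 i))
      fun i _ _ => h1 i

/-- The boost constant. -/
noncomputable def kap : ℝ := 1 + (1 / 4 ^ 51) ^ 2 / 32

lemma one_lt_kap : 1 < kap := by unfold kap; norm_num

lemma Zp_ge (k : ℕ) (c x : ℝ) (S : Finset ℕ) (hS : S ⊆ range (32 * k)) (hc : 15 * k ≤ S.card)
    (h : ∀ i ∈ S, s2 (c * (2 ^ (51 * i) * x)) < 1 / 4 ^ 51) :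
    2 ^ (375 * k) ≤ √(Zp 51 (32 * k) (c * x)) := by
  refine le_sqrt_of_sq_le ?_
  have h1 := prod_ge_card hS (f := fun i => 1 + Bk 51 (2 ^ (51 * i) * (c * x))) (c := 2 ^ 50)
    (by positivity) (fun i => by have := Bk_nonneg 51 (2 ^ (51 * i) * (c * x)); linarith)
    (fun i hi => by
      have h2 := Bk_ge 51 (2 ^ (51 * i) * (c * x))
      have h3 := h i hi
      rw [show c * (2 ^ (51 * i) * x) = 2 ^ (51 * i) * (c * x) by ring,
        lt_div_iff₀ (by positivity)] at h3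
      nlinarith)
  refine le_trans ?_ h1
  rw [← pow_mul, ← pow_mul]
  exact pow_le_pow_right₀ (by norm_num) (by omega)

lemma dil_point (k a b : ℕ) (x : ℝ) :
    1 ≤ (1 / kap ^ 2) ^ k * Wt (51 * (32 * k)) a b x + (1 / 2 ^ 375) ^ k *
      (√(Zp 51 (32 * k) ((a - b) * x)) + √(Zp 51 (32 * k) ((a + b) * x))) := by
  classical
  set S1 := (range (32 * k)).filter fun i => s2 ((a - b) * (2 ^ (51 * i) * x)) < 1 / 4 ^ 51
  set S2 := (range (32 * k)).filter fun i => s2 ((a + b) * (2 ^ (51 * i) * x)) < 1 / 4 ^ 51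
  set S0 := (range (32 * k)).filter fun i => 1 / 4 ^ 51 ≤ s2 ((a - b) * (2 ^ (51 * i) * x)) ∧
    1 / 4 ^ 51 ≤ s2 ((a + b) * (2 ^ (51 * i) * x))
  have hk := one_lt_kap
  have W0 : 0 ≤ Wt (51 * (32 * k)) a b x :=
    prod_nonneg fun _ _ => zero_le_one.trans (one_le_wt _ _ _)
  have t0 : 0 ≤ (1 / kap ^ 2) ^ k * Wt (51 * (32 * k)) a b x := by positivity
  have hcard : 32 * k ≤ S0.card + S1.card + S2.card := by
    have : range (32 * k) ⊆ S0 ∪ S1 ∪ S2 := fun i hi => by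
      simp only [S0, S1, S2, mem_union, mem_filter, hi, true_and]
      by_cases h1 : s2 ((a - b) * (2 ^ (51 * i) * x)) < 1 / 4 ^ 51
      · exact Or.inl (Or.inr h1)
      · by_cases h2 : s2 ((a + b) * (2 ^ (51 * i) * x)) < 1 / 4 ^ 51
        · exact Or.inr h2
        · exact Or.inl (Or.inl ⟨not_lt.1 h1, not_lt.1 h2⟩)
    have h1 := card_le_card this
    have h2 := card_union_le (S0 ∪ S1) S2
    have h3 := card_union_le S0 S1
    rw [card_range] at h1
    omega
  have e2 : ((1 : ℝ) / 2 ^ 375) ^ k * 2 ^ (375 * k) = 1 := by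
    rw [pow_mul, ← mul_pow, one_div, inv_mul_cancel₀ (pow_ne_zero _ two_ne_zero), one_pow]
  by_cases h1 : 15 * k ≤ S1.card
  · have := Zp_ge k (a - b) x S1 (filter_subset _ _) h1 fun i hi => (mem_filter.1 hi).2
    have h2 : ((1 : ℝ) / 2 ^ 375) ^ k * 2 ^ (375 * k) ≤ (1 / 2 ^ 375) ^ k *
      (√(Zp 51 (32 * k) ((a - b) * x)) + √(Zp 51 (32 * k) ((a + b) * x))) := by
      gcongr; linarith [sqrt_nonneg (Zp 51 (32 * k) ((a + b) * x))]
    linarith
  by_cases h2 : 15 * k ≤ S2.card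
  · have := Zp_ge k (a + b) x S2 (filter_subset _ _) h2 fun i hi => (mem_filter.1 hi).2
    have h2 : ((1 : ℝ) / 2 ^ 375) ^ k * 2 ^ (375 * k) ≤ (1 / 2 ^ 375) ^ k *
      (√(Zp 51 (32 * k) ((a - b) * x)) + √(Zp 51 (32 * k) ((a + b) * x))) := by
      gcongr; linarith [sqrt_nonneg (Zp 51 (32 * k) ((a - b) * x))]
    linarith
  have h3 : 2 * k ≤ S0.card := by omega
  have h4 := prod_ge_card (n := 51 * (32 * k)) (S := S0.image (51 * ·))
    (f := fun j => wt a b (2 ^ j * x)) (c := kap) (fun j hj => by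
      obtain ⟨i, hi, rfl⟩ := mem_image.1 hj
      have := mem_range.1 (mem_filter.1 hi).1
      exact mem_range.2 (by omega)) (by linarith) (fun j => one_le_wt _ _ _) (fun j hj => by
      obtain ⟨i, hi, rfl⟩ := mem_image.1 hj
      obtain ⟨-, u1, u2⟩ := mem_filter.1 hi
      unfold kap wt
      have := mul_le_mul u1 u2 (by positivity) (s2_nonneg _)
      rw [sq]; linarith)
  rw [card_image_of_injective _ (mul_right_injective₀ (by norm_num))] at h4
  have h5 : (kap ^ 2) ^ k ≤ Wt (51 * (32 * k)) a b x := by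
    rw [← pow_mul]; exact (pow_le_pow_right₀ hk.le h3).trans h4
  have h6 : (1 / kap ^ 2) ^ k * (kap ^ 2) ^ k = 1 := by
    rw [← mul_pow, one_div, inv_mul_cancel₀ (by positivity), one_pow]
  have h7 : (1 / kap ^ 2) ^ k * (kap ^ 2) ^ k ≤ (1 / kap ^ 2) ^ k * Wt (51 * (32 * k)) a b x := by
    gcongr
  have h8 : 0 ≤ ((1 : ℝ) / 2 ^ 375) ^ k *
      (√(Zp 51 (32 * k) ((a - b) * x)) + √(Zp 51 (32 * k) ((a + b) * x))) := by positivity
  linarith

lemma Ex_Zp_dil (m n : ℕ) {c : ℤ} (hc : c ≠ 0) : Ex (fun x => Zp m n (c * x)) = 2 ^ n := by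
  have hn : ∀ y, Zp m n (-y) = Zp m n y := fun y => by
    unfold Zp Bk
    simp only [mul_neg, s2_neg]
  have : (fun x => Zp m n (c * x)) = fun x => Zp m n ((c.natAbs : ℕ) * x) := by
    funext x
    rcases Int.natAbs_eq c with h | h
    · nth_rw 1 [h]; simp
    · nth_rw 1 [h]; rw [← hn]; simp
  rw [this, Ex_dil_c (Zp_per m n) (by fun_prop) (Int.natAbs_ne_zero.2 hc), Ex_Zp]

lemma rho_big : (2 : ℝ) ^ 476 ≤ rho ^ 1632 := by
  have h1 : (2 : ℝ) ^ 7 ≤ rho ^ 24 := by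
    have := pow_le_pow_left₀ (by norm_num) rho_cube 8
    rw [← pow_mul] at this
    exact le_trans (by norm_num) this
  have := pow_le_pow_left₀ (by norm_num) h1 68
  rwa [← pow_mul, ← pow_mul] at this

lemma dil_aux {a b : ℕ} (ha : Odd a) (hb : Odd b) (hab : a ≠ b) (k M M' : ℕ) :
    Ex (fun x => √(P (1632 * k + M) (a * x) * P (1632 * k + M') (b * x))) ≤
      ((1 / kap ^ 2) ^ k * 2 + (1 / 2 ^ 19) ^ k * (4 * 2 ^ M)) *
        (√(rho ^ (1632 * k + M)) * √(rho ^ (1632 * k + M'))) := by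
  set L := 1632 * k with hL
  have hL' : 51 * (32 * k) = L := by omega
  have a0 : a ≠ 0 := ha.pos.ne'
  have b0 : b ≠ 0 := hb.pos.ne'
  have r0 := rho_pos
  have hk := one_lt_kap
  set H : ℝ → ℝ := fun y => √(P M (a * y) * P M' (b * y)) with hH
  have Hper : Per H := fun y => by
    simp only [hH]; rw [(P_per M).dil' a y, (P_per M').dil' b y]
  have Hc : Continuous H := by simp only [hH]; fun_prop
  have H0 : ∀ y, 0 ≤ H y := fun y => sqrt_nonneg _
  have e : ∀ x, √(P (L + M) (a * x) * P (L + M') (b * x)) = Dl L a b x * H (2 ^ L * x) := fun x => by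
    simp only [hH, Dl, P_add]
    rw [← sqrt_mul (mul_nonneg (P_nonneg _ _) (P_nonneg _ _))]
    congr 1; ring_nf
  simp only [e]
  have good : Ex (fun x => Dl L a b x * Wt L a b x * H (2 ^ L * x)) ≤
      √(2 * rho ^ (L + M)) * √(2 * rho ^ (L + M')) := by
    rw [Ex_mul_dil L (by fun_prop) Hc Hper]
    have hq : ∀ N, Per (fun y => q L y * P N y) := fun N y => by simp only; rw [q_per, P_per]
    calc _ ≤ Ex (fun y => √(q L (a * y) * P M (a * y)) * √(q L (b * y) * P M' (b * y))) := by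
          refine Ex_mono ((TT_cont _ (by fun_prop)).mul Hc) (by fun_prop) fun y => ?_
          refine (mul_le_mul_of_nonneg_right (TT_Dl_le ha hb L y) (H0 y)).trans (le_of_eq ?_)
          simp only [hH, Gd]
          rw [← sqrt_mul (mul_nonneg (q_pos _ _).le (q_pos _ _).le),
            ← sqrt_mul (mul_nonneg (q_pos _ _).le (P_nonneg _ _))]
          congr 1; ring
      _ ≤ _ := by
          refine Ex_cs (by fun_prop) (by fun_prop) ?_ ?_ (by positivity) (by positivity)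
          · simp only [sq_sqrt (mul_nonneg (q_pos _ _).le (P_nonneg _ _))]
            rw [Ex_dil_c (hq M) (by fun_prop) a0, Ex_qP]; exact sinInt_le _
          · simp only [sq_sqrt (mul_nonneg (q_pos _ _).le (P_nonneg _ _))]
            rw [Ex_dil_c (hq M') (by fun_prop) b0, Ex_qP]; exact sinInt_le _
  have bad : ∀ c : ℤ, c ≠ 0 → Ex (fun x => Dl L a b x * H (2 ^ L * x) * √(Zp 51 (32 * k) (c * x))) ≤
      √(2 ^ L * (2 ^ M * (2 * rho ^ M'))) * √(2 ^ (32 * k)) := fun c hc => by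
    refine Ex_cs (by fun_prop) (by fun_prop) ?_ ?_ (by positivity) (by positivity)
    · simp only [mul_pow, Dl, sq_sqrt (mul_nonneg (P_nonneg _ _) (P_nonneg _ _))]
      rw [Ex_mul_dil L (H := fun y => H y ^ 2) (by fun_prop) (by fun_prop)
        (fun y => by simp only; rw [Hper])]
      calc _ ≤ Ex (fun y => 2 ^ L * (2 ^ M * P M' (b * y))) := by
            refine Ex_mono ((TT_cont _ (by fun_prop)).mul (by fun_prop)) (by fun_prop) fun y => ?_
            refine mul_le_mul (TT_PP_le L ha hb y) ?_ (by positivity) (by positivity)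
            simp only [hH]
            rw [sq_sqrt (mul_nonneg (P_nonneg _ _) (P_nonneg _ _))]
            exact mul_le_mul_of_nonneg_right (P_le _ _) (P_nonneg _ _)
        _ ≤ _ := by
            rw [Ex_smul, Ex_smul, Ex_dil_c (P_per M') (by fun_prop) b0]
            gcongr; exact sinInt_le _
    · simp only [sq_sqrt (Zp_nonneg _ _ _)]
      exact (Ex_Zp_dil _ _ hc).le
  have b1 := bad (a - b) (sub_ne_zero.2 (by exact_mod_cast hab))
  have b2 := bad (a + b) (by have := ha.pos; omega)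
  push_cast at b1 b2
  have tot : Ex (fun x => Dl L a b x * H (2 ^ L * x)) ≤
      (1 / kap ^ 2) ^ k * Ex (fun x => Dl L a b x * Wt L a b x * H (2 ^ L * x)) + (1 / 2 ^ 375) ^ k *
        (Ex (fun x => Dl L a b x * H (2 ^ L * x) * √(Zp 51 (32 * k) ((a - b) * x))) +
        Ex (fun x => Dl L a b x * H (2 ^ L * x) * √(Zp 51 (32 * k) ((a + b) * x)))) := by
    rw [← Ex_add (by fun_prop) (by fun_prop), ← Ex_smul, ← Ex_smul,
      ← Ex_add (by fun_prop) (by fun_prop)]
    refine Ex_mono (by fun_prop) (by fun_prop) fun x => ?_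
    have h1 := dil_point k a b x
    rw [hL'] at h1
    have h2 : 0 ≤ Dl L a b x * H (2 ^ L * x) := mul_nonneg (sqrt_nonneg _) (H0 _)
    have := mul_le_mul_of_nonneg_left h1 h2
    linarith
  have g2 : √(2 * rho ^ (L + M)) * √(2 * rho ^ (L + M')) = 2 * (√(rho ^ (L + M)) * √(rho ^ (L + M'))) := by
    rw [sqrt_mul (by norm_num), sqrt_mul (by norm_num)]
    have h4 : √2 * √2 = (2 : ℝ) := mul_self_sqrt (by norm_num)
    linear_combination (√(rho ^ (L + M)) * √(rho ^ (L + M'))) * h4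
  have g3 : (1 / 2 ^ 375) ^ k * (√(2 ^ L * (2 ^ M * (2 * rho ^ M'))) * √(2 ^ (32 * k))) ≤
      (1 / 2 ^ 19) ^ k * (2 * 2 ^ M) * (√(rho ^ (L + M)) * √(rho ^ (L + M'))) := by
    refine le_of_sq (by positivity) ?_
    simp only [mul_pow]
    rw [sq_sqrt (by positivity), sq_sqrt (by positivity), sq_sqrt (by positivity),
      sq_sqrt (by positivity)]
    have r1 : (2 : ℝ) ^ (476 * k) ≤ rho ^ L := by
      rw [hL, pow_mul, pow_mul]; exact pow_le_pow_left₀ (by positivity) rho_big k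
    have r2 : (1 : ℝ) ≤ rho ^ M := one_le_pow₀ one_le_rho
    have r3 : (1 : ℝ) ≤ 2 ^ M := one_le_pow₀ (by norm_num)
    have r4 : (((1 : ℝ) / 2 ^ 375) ^ k) ^ 2 * (2 ^ L * 2 ^ (32 * k))
        = ((1 / 2 ^ 19) ^ k) ^ 2 * (2 ^ (476 * k) * 2 ^ (476 * k)) := by
      rw [hL, pow_mul, pow_mul, pow_mul, ← pow_mul _ k 2, ← pow_mul _ k 2, mul_comm k 2, pow_mul,
        pow_mul, ← mul_pow, ← mul_pow, ← mul_pow, ← mul_pow]
      congr 1
      rw [show (1632 : ℕ) = 750 + 882 by norm_num, show (476 : ℕ) = 19 + 457 by norm_num,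
        pow_add, pow_add]
      have : (2 : ℝ) ^ 882 * 2 ^ 32 = 2 ^ 457 * 2 ^ 457 := by rw [← pow_add, ← pow_add]
      have e750 : (2 : ℝ) ^ 750 = 2 ^ 375 * 2 ^ 375 := by rw [← pow_add]
      rw [e750]
      generalize (2 : ℝ) ^ 882 = x1 at *
      generalize (2 : ℝ) ^ 32 = x2 at *
      generalize (2 : ℝ) ^ 457 = x3 at *
      have n1 : (2 : ℝ) ^ 375 ≠ 0 := by positivity
      have n2 : (2 : ℝ) ^ 19 ≠ 0 := by positivity
      generalize (2 : ℝ) ^ 375 = x4 at *
      generalize (2 : ℝ) ^ 19 = x5 at *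
      field_simp
      linear_combination this
    calc _ = ((1 / 2 ^ 375) ^ k) ^ 2 * (2 ^ L * 2 ^ (32 * k)) * (2 * 2 ^ M * rho ^ M') := by ring
      _ = ((1 / 2 ^ 19) ^ k) ^ 2 * (2 ^ (476 * k) * 2 ^ (476 * k)) * (2 * 2 ^ M * 1 * 1 * rho ^ M') := by
        rw [r4]; ring
      _ ≤ ((1 / 2 ^ 19) ^ k) ^ 2 * (rho ^ L * rho ^ L) * (2 * 2 ^ M * (2 * 2 ^ M) * rho ^ M * rho ^ M') := by
        gcongr; linarith
      _ = _ := by rw [pow_add, pow_add]; ring
  have g4 : (1 / kap ^ 2) ^ k * Ex (fun x => Dl L a b x * Wt L a b x * H (2 ^ L * x)) ≤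
      (1 / kap ^ 2) ^ k * (2 * (√(rho ^ (L + M)) * √(rho ^ (L + M')))) := by
    rw [← g2]; gcongr
  have g5 := mul_le_mul_of_nonneg_left (add_le_add b1 b2)
    (by positivity : (0 : ℝ) ≤ (1 / 2 ^ 375) ^ k)
  linarith

/-- Dilation deficiency. -/
theorem dil_def : ∃ C θ : ℝ, 0 < C ∧ 0 < θ ∧ θ < 1 ∧ ∀ Λ L L' a b : ℕ, Λ ≤ L → Λ ≤ L' → Odd a →
    Odd b → a ≠ b → Ex (fun x => √(P L (a * x) * P L' (b * x))) ≤
      C * θ ^ Λ * (√(rho ^ L) * √(rho ^ L')) := by
  have hk := one_lt_kap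
  set η : ℝ := max (1 / kap ^ 2) (1 / 2) with hη
  have η0 : 0 < η := lt_max_of_lt_right (by norm_num)
  have η1 : η < 1 := max_lt (by rw [div_lt_one (by positivity)]; nlinarith) (by norm_num)
  set θ := η ^ ((1 : ℝ) / 1632) with hθ
  have θ0 : 0 < θ := rpow_pos_of_pos η0 _
  have θ1 : θ < 1 := rpow_lt_one η0.le η1 (by norm_num)
  have θe : θ ^ 1632 = η := by
    rw [hθ, ← rpow_natCast, ← rpow_mul η0.le]; norm_num
  obtain ⟨K, hK⟩ : ∃ K : ℝ, K = 2 ^ 1632 := ⟨_, rfl⟩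
  have K0 : 0 < K := by rw [hK]; positivity
  have main : ∀ Λ L L' a b : ℕ, Λ ≤ L → L ≤ L' → Odd a → Odd b → a ≠ b →
      Ex (fun x => √(P L (a * x) * P L' (b * x))) ≤
      (2 + 4 * K) / η * θ ^ Λ * (√(rho ^ L) * √(rho ^ L')) := by
    intro Λ L L' a b h1 h2 ha hb hab
    obtain ⟨M', hM'⟩ : ∃ M', L' = 1632 * (L / 1632) + M' := ⟨L' - 1632 * (L / 1632), by omega⟩
    have hM : L = 1632 * (L / 1632) + L % 1632 := by omega
    have := dil_aux ha hb hab (L / 1632) (L % 1632) M'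
    rw [← hM, ← hM'] at this
    refine this.trans ?_
    gcongr
    set k := L / 1632
    have e1 : (1 / kap ^ 2) ^ k ≤ η ^ k := pow_le_pow_left₀ (by positivity) (le_max_left _ _) k
    have e2 : ((1 : ℝ) / 2 ^ 19) ^ k ≤ η ^ k :=
      pow_le_pow_left₀ (by positivity) (le_trans (by norm_num) (le_max_right _ _)) k
    have e3 : (2 : ℝ) ^ (L % 1632) ≤ K := by
      rw [hK]; exact pow_le_pow_right₀ (by norm_num) (by omega)
    have e4 : η ^ k * η ≤ θ ^ Λ := by
      rw [← pow_succ, ← θe, ← pow_mul]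
      exact pow_le_pow_of_le_one θ0.le θ1.le (by omega)
    calc _ ≤ η ^ k * 2 + η ^ k * (4 * K) := by gcongr
      _ = (2 + 4 * K) / η * (η ^ k * η) := by field_simp
      _ ≤ _ := by gcongr
  refine ⟨(2 + 4 * K) / η, θ, by positivity, θ0, θ1, fun Λ L L' a b h1 h2 ha hb hab => ?_⟩
  rcases le_total L L' with h | h
  · exact main Λ L L' a b h1 h ha hb hab
  · have := main Λ L' L b a h2 h hb ha hab.symm
    simp only [mul_comm (P L' _)] at this
    rwa [mul_comm (√(rho ^ L))]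

end Pool.Agent.MP_d431d3_nt
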