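import Pool.Agent.Lib.MP_d431d3_nt.Count
import Pool.Agent.Lib.MP_d431d3_nt.Fourier

/-! Distribution of the spectrum of the twisted square root along multiples. -/

namespace Pool.Agent.MP_d431d3_nt

open Real Finset MeasureTheory

noncomputable def RR (L : ℕ) (σ : ℝ) : ℝ := Ex (Af L σ)

lemma RR_nonneg (L : ℕ) (σ : ℝ) : 0 ≤ RR L σ := Ex_nonneg (Af_nonneg L σ)

lemma RR_per (L : ℕ) : Per (RR L) := fun σ => by
  unfold RR Af
  simp only [← add_assoc, P_per L _]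

lemma Ex_sum {ι : Type*} (S : Finset ι) {f : ι → ℝ → ℝ} (hf : ∀ i, Continuous (f i)) :
    Ex (fun x => ∑ i ∈ S, f i x) = ∑ i ∈ S, Ex (f i) :=
  intervalIntegral.integral_finsetSum fun i _ => (hf i).intervalIntegrable _ _

lemma mult_mass (L : ℕ) (t : ℝ) {e : ℕ} (he : 0 < e) (S : Finset ℤ) (hS : ∀ n ∈ S, (e : ℤ) ∣ n) :
    ∑ n ∈ S, ‖fc (gt L t) n‖ ^ 2 ≤ (1 / e) * ∑ j ∈ range e, RR L (j / e) := by
  have e0 : (0 : ℝ) < e := by exact_mod_cast he
  have e1 : (e : ℂ) ≠ 0 := by exact_mod_cast he.ne'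
  have hb := bessel (f := fun x => (1 / e : ℂ) * ∑ j ∈ range e, gt L t (x + j / e))
    (by fun_prop) S
  refine le_trans (le_of_eq (sum_congr rfl fun n hn => ?_)) (hb.trans ?_)
  · rw [fc_smul, fc_sum _ (fun j => by fun_prop)]
    obtain ⟨k, rfl⟩ := hS n hn
    have : ∀ j ∈ range e, fc (fun x => gt L t (x + j / e)) (e * k) = fc (gt L t) (e * k) := by
      intro j _
      rw [fc_shift (gt_per L t), show ((e * k : ℤ) : ℝ) * (j / e) = ((k * j : ℤ) : ℝ) by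
        push_cast; field_simp, ee_int, one_mul]
    rw [sum_congr rfl this, sum_const, card_range, nsmul_eq_mul, ← mul_assoc, one_div,
      inv_mul_cancel₀ e1, one_mul]
  · have h1 : ∀ x, ‖(1 / e : ℂ) * ∑ j ∈ range e, gt L t (x + j / e)‖ ^ 2 ≤
        (1 / e) ^ 2 * ∑ j ∈ range e, ∑ i ∈ range e, Af L (i / e - j / e) (x + j / e) := fun x => by
      rw [norm_mul, mul_pow]
      have : ‖(1 / e : ℂ)‖ = 1 / e := by simp
      rw [this]
      gcongr
      refine (pow_le_pow_left₀ (norm_nonneg _) (norm_sum_le _ _) 2).trans (le_of_eq ?_)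
      rw [sq, sum_mul_sum]
      refine sum_congr rfl fun j _ => sum_congr rfl fun i _ => ?_
      rw [norm_gt, norm_gt, ← sqrt_mul (P_nonneg _ _), Af]
      congr 3; ring
    refine (Ex_mono (by fun_prop) (by fun_prop) h1).trans (le_of_eq ?_)
    rw [Ex_smul, Ex_sum _ (fun j => by fun_prop)]
    have : ∀ j ∈ range e, Ex (fun x => ∑ i ∈ range e, Af L (i / e - j / e) (x + j / e))
        = ∑ i ∈ range e, RR L (i / e) := by
      intro j hj
      rw [Ex_sum _ (fun i => by fun_prop)]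
      rw [← sum_range_shift (F := fun i : ℕ => RR L (i / e)) (e := e) (fun i => by
        push_cast; rw [add_div, div_self e0.ne', RR_per]) (e - j)]
      refine sum_congr rfl fun i _ => ?_
      rw [Ex_shift (Af_per L _), ← RR, ← RR_per L]
      congr 1
      push_cast [Nat.cast_sub (mem_range.1 hj).le]
      field_simp; ring
    rw [sum_congr rfl this, sum_const, card_range, nsmul_eq_mul]
    field_simp

noncomputable def th1 : ℝ := (2 + 6 * th0) / 8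

lemma th1_pos : 0 < th1 := by unfold th1 th0; norm_num

lemma th1_lt : th1 < 1 := by unfold th1 th0; norm_num

lemma mass_two (t : ℝ) {l L : ℕ} (h : 3 * l ≤ L) (S : Finset ℤ) (hS : ∀ n ∈ S, (8 : ℤ) ^ l ∣ n) :
    ∑ n ∈ S, ‖fc (gt L t) n‖ ^ 2 ≤ 2 * rho ^ L * th1 ^ l := by
  refine (mult_mass L t (e := 8 ^ l) (by positivity) S (by simpa using hS)).trans ?_
  push_cast
  have r0 := rho_pos
  calc _ ≤ 1 / 8 ^ l * ∑ j ∈ range (8 ^ l), 2 * rho ^ L * Psi l (j / 8 ^ l) := by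
        gcongr with j; exact trans_def h _
    _ ≤ 1 / 8 ^ l * (2 * rho ^ L * (2 + 6 * th0) ^ l) := by
        rw [← mul_sum]; gcongr; exact sum_Psi_grid l
    _ = _ := by rw [th1, div_pow]; ring

lemma cp_zero_right {y : ℝ} (hy : 0 ≤ y) : cp y 0 = (√y : ℝ) := by
  unfold cp
  rw [sqrt_eq_rpow, Complex.ofReal_cpow hy]
  congr 1; simp

lemma Ex_sqrt_P (L : ℕ) : Ex (fun x => √(P L x)) ^ 2 ≤ 2 * rho ^ L * th1 ^ (L / 3) := by
  have := mass_two 0 (l := L / 3) (L := L) (by omega) {0} (by simp)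
  rw [sum_singleton, fc_zero] at this
  have e : Ex (gt L 0) = ((Ex fun x => √(P L x) : ℝ) : ℂ) := by
    rw [← intervalIntegral.integral_ofReal]
    congr 1; funext x; exact cp_zero_right (P_nonneg _ _)
  rwa [e, Complex.norm_real, norm_eq_abs, sq_abs] at this

/-- The quadratic form along multiples. -/
noncomputable def Qs (c : ℤ → ℝ) (A : Finset ℕ) (S : Finset ℤ) : ℝ :=
  ∑ k ∈ S, (∑ a ∈ A, c (k * a) / √a) ^ 2

lemma Qs_cs {c lam : ℤ → ℝ} (hl : ∀ n, 0 < lam n) {A : Finset ℕ}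
    {S : Finset ℤ} {B : ℝ} (hB : ∀ k ∈ S, ∑ a ∈ A, 1 / (a * lam (k * a)) ≤ B) :
    Qs c A S ≤ B * ∑ k ∈ S, ∑ a ∈ A, lam (k * a) * c (k * a) ^ 2 := by
  rw [mul_sum]
  refine sum_le_sum fun k hk => ?_
  have h := sum_mul_sq_le_sq_mul_sq A (fun a => 1 / √(a * lam (k * a)))
    (fun a => √(lam (k * a)) * c (k * a))
  have e1 : ∀ a ∈ A, 1 / √(a * lam (k * a)) * (√(lam (k * a)) * c (k * a)) = c (k * a) / √a := by
    intro a ha
    have := sqrt_pos.2 (hl (k * a))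
    rw [sqrt_mul (Nat.cast_nonneg a)]; field_simp
  have e2 : ∀ a ∈ A, (1 / √(a * lam (k * a))) ^ 2 = 1 / (a * lam (k * a)) := by
    intro a ha
    rw [div_pow, sq_sqrt (mul_nonneg (Nat.cast_nonneg a) (hl _).le), one_pow]
  have e3 : ∀ a ∈ A, (√(lam (k * a)) * c (k * a)) ^ 2 = lam (k * a) * c (k * a) ^ 2 := by
    intro a ha
    rw [mul_pow, sq_sqrt (hl _).le]
  rw [sum_congr rfl e1, sum_congr rfl e2, sum_congr rfl e3] at h
  refine h.trans ?_
  gcongr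
  · exact sum_nonneg fun a _ => mul_nonneg (hl _).le (sq_nonneg _)
  · exact hB k hk

/-- Number of elements of `A` dividing `n`. -/
def cnt (A : Finset ℕ) (n : ℤ) : ℕ := (A.filter fun a : ℕ => (a : ℤ) ∣ n).card

lemma double_sum_le {F : ℤ → ℝ} (hF : ∀ n, 0 ≤ F n) {A : Finset ℕ} {H K : ℕ}
    (hA : ∀ a ∈ A, 0 < a ∧ a ≤ H) {S : Finset ℤ} {p : ℤ → Prop}
    (hS : ∀ k ∈ S, ∀ a ∈ A, p (k * a)) {B1 B2 : ℝ}
    (h1 : ∀ U : Finset ℤ, (∀ n ∈ U, p n ∧ n.natAbs ≤ K) → ∑ n ∈ U, F n * cnt A n ≤ B1)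
    (h2 : ∀ U : Finset ℤ, (∀ n ∈ U, K ≤ n.natAbs) → ∑ n ∈ U, F n ≤ B2) :
    ∑ k ∈ S, ∑ a ∈ A, F (k * a) ≤ B1 + H * B2 := by
  classical
  set U := (S ×ˢ A).image fun x => x.1 * (x.2 : ℤ) with hU
  have s1 : ∑ k ∈ S, ∑ a ∈ A, F (k * a) ≤ ∑ n ∈ U, F n * cnt A n := by
    rw [← sum_product' (f := fun k (a : ℕ) => F (k * a))]
    calc _ ≤ ∑ x ∈ U.sigma (fun n => A.filter fun a : ℕ => (a : ℤ) ∣ n), F x.1 := by
          refine sum_le_inj (G := fun x : (Σ _ : ℤ, ℕ) => F x.1) (fun x : ℤ × ℕ => (⟨x.1 * x.2, x.2⟩ : Σ _ : ℤ, ℕ)) (fun x hx => ?_)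
            (fun x hx y hy h => ?_) (fun x _ => le_rfl) (fun y _ => hF _)
          · simp only [mem_sigma, mem_filter]
            exact ⟨mem_image_of_mem _ hx, (mem_product.1 hx).2, Dvd.intro_left _ rfl⟩
          · simp only [Sigma.mk.injEq, heq_eq_eq] at h
            obtain ⟨h3, h4⟩ := h
            have := (hA _ (mem_product.1 (mem_coe.1 hy)).2).1
            rw [h4] at h3
            exact Prod.ext (mul_right_cancel₀ (by exact_mod_cast this.ne') h3) h4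
      _ = _ := by
          rw [sum_sigma]
          refine sum_congr rfl fun n _ => ?_
          simp only [sum_const, nsmul_eq_mul, cnt]; ring
  refine s1.trans ?_
  rw [← sum_filter_add_sum_filter_not U fun n => n.natAbs ≤ K]
  refine add_le_add (h1 _ fun n hn => ?_) ?_
  · obtain ⟨a, b⟩ := mem_filter.1 hn
    obtain ⟨x, hx, rfl⟩ := mem_image.1 a
    exact ⟨hS _ (mem_product.1 hx).1 _ (mem_product.1 hx).2, b⟩
  · have hc : ∀ n, (cnt A n : ℝ) ≤ H := fun n => by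
      have : cnt A n ≤ (Icc 1 H).card := card_le_card fun a ha =>
        mem_Icc.2 (hA a (mem_filter.1 ha).1)
      rw [Nat.card_Icc] at this
      exact_mod_cast this
    calc _ ≤ ∑ n ∈ U.filter fun n => ¬n.natAbs ≤ K, H * F n :=
          sum_le_sum fun n _ => by rw [mul_comm]; exact mul_le_mul_of_nonneg_right (hc n) (hF n)
      _ ≤ _ := by
          rw [← mul_sum]
          gcongr
          exact h2 _ fun n hn => by have := (mem_filter.1 hn).2; omega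

lemma cnt_le_dv (A : Finset ℕ) {n : ℤ} (hn : n ≠ 0) : cnt A n ≤ dv n.natAbs :=
  card_le_card fun _ ha => Nat.mem_divisors.2
    ⟨Int.natCast_dvd.1 (mem_filter.1 ha).2, Int.natAbs_ne_zero.2 hn⟩

lemma cnt_le_landreau {A : Finset ℕ} (hA : ∀ a ∈ A, Odd a) {Y R : ℕ} (hY : 1 ≤ Y) {n : ℤ}
    (hn : n ≠ 0) (h : n.natAbs ≤ Y ^ R) :
    cnt A n ≤ ∑ e ∈ ((Icc 1 (Y ^ 2)).filter Odd).filter (fun e : ℕ => (e : ℤ) ∣ n), (2 * dv e) ^ R := by
  obtain ⟨k, m, hm, e⟩ := Nat.exists_eq_two_pow_mul_odd (Int.natAbs_ne_zero.2 hn)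
  have m1 : 1 ≤ m := hm.pos
  have m2 : m ∣ n.natAbs := ⟨2 ^ k, by rw [e, mul_comm]⟩
  have c1 : cnt A n ≤ dv m := card_le_card fun a ha => by
    obtain ⟨a1, a2⟩ := mem_filter.1 ha
    have a3 := Int.natCast_dvd.1 a2
    rw [e] at a3
    exact Nat.mem_divisors.2 ⟨(Nat.Coprime.pow_right k
      (Nat.coprime_two_right.2 (hA a a1))).dvd_of_dvd_mul_left a3, by omega⟩
  refine c1.trans ((landreau hY m1 ((Nat.le_of_dvd (Int.natAbs_pos.2 hn) m2).trans h)).trans ?_)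
  refine sum_le_sum_of_subset fun f hf => ?_
  obtain ⟨f1, f2⟩ := mem_filter.1 hf
  exact mem_filter.2 ⟨mem_filter.2 ⟨f1, hm.of_dvd_nat f2⟩, Int.natCast_dvd.2 (f2.trans m2)⟩

lemma sum_inv_le {A : Finset ℕ} {H : ℕ} (hA : ∀ a ∈ A, 0 < a ∧ a ≤ H) :
    ∑ a ∈ A, (1 : ℝ) / a ≤ Hm H :=
  sum_le_sum_of_subset_of_nonneg (fun a ha => mem_Icc.2 (hA a ha)) fun _ _ _ => by positivity

lemma farey_total (R : ℕ) {r : ℕ} (hr : 0 < r) (hθ : th0 ^ r ≤ 1 / 60) :
    ∃ C : ℝ, 0 < C ∧ ∀ L i0 : ℕ, 6 * r * i0 ≤ L → ∀ S : Finset (ℕ × ℕ),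
      (∀ p ∈ S, Odd p.1 ∧ p.1 ≤ 8 ^ i0 ∧ p.2 < p.1 ∧ Nat.Coprime p.2 p.1) →
      ∑ p ∈ S, (dv p.1 : ℝ) ^ R / p.1 * RR L (p.2 / p.1) ≤ C * (i0 + 1) * rho ^ L := by
  obtain ⟨C, C1, hC⟩ := dv_pow_le R (η := 11 / 10) (by norm_num)
  have r0 := rho_pos
  have rr : (0 : ℝ) < r := by exact_mod_cast hr
  refine ⟨16 * C * r, by positivity, fun L i0 hL S hS => ?_⟩
  have hm : ∀ p ∈ S, Nat.clog 8 p.1 ∈ range (i0 + 1) := fun p hp =>
    mem_range.2 (Nat.lt_succ_of_le ((Nat.clog_le_iff_le_pow (by norm_num)).2 (hS p hp).2.1))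
  rw [← sum_fiberwise_of_maps_to hm]
  refine (sum_le_card_nsmul _ _ (16 * C * r * rho ^ L) fun i hi => ?_).trans (by simp; linarith)
  have hi' := mem_range.1 hi
  have h1 : ∀ p ∈ S.filter (fun p => Nat.clog 8 p.1 = i), (dv p.1 : ℝ) ^ R / p.1 * RR L (p.2 / p.1)
      ≤ C * (11 / 10) ^ (3 * i) * (8 / 8 ^ i) * (2 * rho ^ L) * Psi (r * (2 * i)) (p.2 / p.1) := by
    intro p hp
    obtain ⟨a, b⟩ := mem_filter.1 hp
    have p0 := (hS p a).1.pos
    have p1 : p.1 ≤ 8 ^ i := b ▸ Nat.le_pow_clog (by norm_num) _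
    have p2 : 8 ^ i ≤ 8 * p.1 := by
      rcases Nat.eq_zero_or_pos i with h | h
      · rw [h]; omega
      · have : 8 ^ (i - 1) < p.1 := (Nat.lt_clog_iff_pow_lt (by norm_num)).1 (by omega)
        rw [show i = i - 1 + 1 by omega, pow_succ]; omega
    have p3 := hC (3 * i) p.1 p0 (by rw [pow_mul]; exact p1)
    have p4 : (1 : ℝ) / p.1 ≤ 8 / 8 ^ i := by
      rw [div_le_div_iff₀ (by exact_mod_cast p0) (by positivity), one_mul]; exact_mod_cast p2
    have p5 := trans_def (l := r * (2 * i)) (L := L) (by nlinarith) ((p.2 : ℝ) / p.1)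
    rw [div_eq_mul_one_div, mul_assoc (C * _ * _)]
    gcongr
    · exact RR_nonneg _ _
    · exact p5
  refine (sum_le_sum h1).trans ?_
  rw [← mul_sum]
  have h2 := farey_sum hr i (S.filter fun p => Nat.clog 8 p.1 = i) fun p hp => by
    obtain ⟨a, b⟩ := mem_filter.1 hp
    obtain ⟨c1, -, c3, c4⟩ := hS p a
    exact ⟨c1, b ▸ Nat.le_pow_clog (by norm_num) _, c3, c4⟩
  have h3 : (2 + 6 * th0 ^ r) ^ (2 * i) ≤ (21 / 10) ^ (2 * i) :=
    pow_le_pow_left₀ (by have := pow_pos th0_pos r; positivity) (by linarith) _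
  have h4 : ((11 : ℝ) / 10) ^ (3 * i) * (21 / 10) ^ (2 * i) ≤ 8 ^ i := by
    rw [pow_mul, pow_mul, ← mul_pow]; gcongr; norm_num
  calc _ ≤ C * (11 / 10) ^ (3 * i) * (8 / 8 ^ i) * (2 * rho ^ L) * (r * (21 / 10) ^ (2 * i)) := by
        gcongr; exact h2.trans (by gcongr)
    _ = 16 * C * r * rho ^ L * (((11 : ℝ) / 10) ^ (3 * i) * (21 / 10) ^ (2 * i) / 8 ^ i) := by ring
    _ ≤ 16 * C * r * rho ^ L * 1 := by gcongr; rwa [div_le_one (by positivity)]
    _ = _ := mul_one _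

lemma farey_reduce (R L X : ℕ) :
    ∑ e ∈ (Icc 1 X).filter Odd, ((2 * dv e : ℕ) : ℝ) ^ R * ((1 / e) * ∑ j ∈ range e, RR L (j / e)) ≤
      2 ^ R * Hm X ^ (2 ^ R) * ∑ p ∈ (Icc 1 X ×ˢ range X).filter
        (fun p => Odd p.1 ∧ p.2 < p.1 ∧ Nat.Coprime p.2 p.1),
        (dv p.1 : ℝ) ^ R / p.1 * RR L (p.2 / p.1) := by
  set Far := (Icc 1 X ×ˢ range X).filter (fun p => Odd p.1 ∧ p.2 < p.1 ∧ Nat.Coprime p.2 p.1)
  have F0 : 0 ≤ ∑ p ∈ Far, (dv p.1 : ℝ) ^ R / p.1 * RR L (p.2 / p.1) :=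
    sum_nonneg fun p _ => mul_nonneg (by positivity) (RR_nonneg _ _)
  simp only [mul_sum (range _)]
  rw [sum_sigma']
  calc _ ≤ ∑ y ∈ Icc 1 X ×ˢ Far, 2 ^ R * ((dv y.1 : ℝ) ^ R / y.1 *
        ((dv y.2.1 : ℝ) ^ R / y.2.1 * RR L (y.2.2 / y.2.1))) := by
        refine sum_le_inj (fun x => (Nat.gcd x.2 x.1, (x.1 / Nat.gcd x.2 x.1, x.2 / Nat.gcd x.2 x.1)))
          (fun x hx => ?_) (fun x _ y _ h => ?_) (fun x hx => ?_)
          (fun y _ => mul_nonneg (by positivity) (mul_nonneg (by positivity)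
            (mul_nonneg (by positivity) (RR_nonneg _ _))))
        · obtain ⟨e, j⟩ := x
          simp only [mem_sigma, mem_filter, mem_Icc, mem_range] at hx
          obtain ⟨⟨⟨a1, a2⟩, a3⟩, a4⟩ := hx
          have g0 : 0 < Nat.gcd j e := Nat.gcd_pos_of_pos_right _ a1
          have g1 := Nat.gcd_dvd_right j e
          have g2 := Nat.gcd_dvd_left j e
          have g3 := Nat.le_of_dvd a1 g1
          simp only [Far, mem_product, mem_filter, mem_Icc, mem_range]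
          refine ⟨⟨g0, by omega⟩, ⟨⟨Nat.div_pos g3 g0, (Nat.div_le_self _ _).trans a2⟩,
            lt_of_le_of_lt (Nat.div_le_self _ _) (by omega)⟩,
            a3.of_dvd_nat (Nat.div_dvd_of_dvd g1), Nat.div_lt_div_of_lt_of_dvd g1 a4,
            Nat.coprime_div_gcd_div_gcd g0⟩
        · obtain ⟨e, j⟩ := x
          obtain ⟨e', j'⟩ := y
          simp only [Prod.mk.injEq] at h
          obtain ⟨h1, h2, h3⟩ := h
          have a := Nat.mul_div_cancel' (Nat.gcd_dvd_right j e)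
          have b := Nat.mul_div_cancel' (Nat.gcd_dvd_left j e)
          have a' := Nat.mul_div_cancel' (Nat.gcd_dvd_right j' e')
          have b' := Nat.mul_div_cancel' (Nat.gcd_dvd_left j' e')
          rw [h2, h1, a'] at a
          rw [h3, h1, b'] at b
          subst a b; rfl
        · obtain ⟨e, j⟩ := x
          simp only [mem_sigma, mem_filter, mem_Icc, mem_range] at hx
          obtain ⟨⟨⟨a1, -⟩, -⟩, -⟩ := hx
          have g0 : 0 < Nat.gcd j e := Nat.gcd_pos_of_pos_right _ a1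
          simp only
          have a := Nat.mul_div_cancel' (Nat.gcd_dvd_right j e)
          have b := Nat.mul_div_cancel' (Nat.gcd_dvd_left j e)
          generalize e / Nat.gcd j e = e' at *
          generalize j / Nat.gcd j e = j' at *
          generalize Nat.gcd j e = g at *
          subst a b
          have gg : (0 : ℝ) < g := by exact_mod_cast g0
          have d : (dv (g * e') : ℝ) ≤ dv g * dv e' := by exact_mod_cast dv_mul g e'
          push_cast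
          rw [mul_div_mul_left _ _ gg.ne', mul_pow]
          have := RR_nonneg L (j' / e')
          calc _ ≤ 2 ^ R * ((dv g : ℝ) * dv e') ^ R * (1 / (g * e') * RR L (j' / e')) := by gcongr
            _ = _ := by rw [mul_pow]; ring
    _ = 2 ^ R * (∑ g ∈ Icc 1 X, (dv g : ℝ) ^ R / g) *
        ∑ p ∈ Far, (dv p.1 : ℝ) ^ R / p.1 * RR L (p.2 / p.1) := by
        rw [← mul_sum, sum_product, mul_assoc, sum_mul_sum]
    _ ≤ _ := by gcongr; exact sum_dv_pow R X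

/-- Polynomial bound for the quadratic form along all odd multiples, for every twist. -/
theorem div_bound : ∃ (C : ℝ) (s L0 : ℕ), 0 < C ∧ ∀ L, L0 ≤ L → ∀ (t : ℝ) (H : ℕ) (A : Finset ℕ)
    (S : Finset ℤ), H ≤ 2 ^ (4 * L) → (∀ a ∈ A, Odd a ∧ a ≤ H) → 0 ∉ S →
    Qs (fun n => ‖fc (gt L t) n‖) A S ≤ C * ((L : ℝ) + 1) ^ s * (1 + 4 * t ^ 2) * rho ^ L := by
  obtain ⟨r0, hr0⟩ := exists_pow_lt_of_lt_one (by norm_num : (0 : ℝ) < 1 / 60)
    (by unfold th0; norm_num : th0 < 1)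
  obtain ⟨r, hrr⟩ : ∃ r, r = r0 + 1 := ⟨_, rfl⟩
  have hr : 0 < r := by omega
  have hθ : th0 ^ r ≤ 1 / 60 :=
    (pow_le_pow_of_le_one th0_pos.le (by unfold th0; norm_num) (by omega)).trans hr0.le
  obtain ⟨R, hR⟩ : ∃ R, R = 72 * r := ⟨_, rfl⟩
  obtain ⟨C, C0, hC⟩ := farey_total R hr hθ
  refine ⟨4 * (2 ^ R * C + 4), 2 ^ R + 2, 6 * r, by positivity, fun L hL t H A S hH hA hS => ?_⟩
  have rp := rho_pos
  have r1 : 1 ≤ rho ^ L := one_le_pow₀ one_le_rho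
  obtain ⟨i0, hi0⟩ : ∃ i0, i0 = L / (6 * r) := ⟨_, rfl⟩
  have i1 : 6 * r * i0 ≤ L := hi0 ▸ Nat.mul_div_le _ _
  have i2 : 6 * L ≤ i0 * R := by
    have a : L < 6 * r * (i0 + 1) := hi0 ▸ Nat.lt_mul_div_succ _ (by omega)
    have b : 1 ≤ i0 := hi0 ▸ Nat.div_pos hL (by omega)
    rw [hR]; nlinarith
  have i3 : 2 * i0 ≤ L := by nlinarith
  have hA' : ∀ a ∈ A, 0 < a ∧ a ≤ H := fun a ha => ⟨(hA a ha).1.pos, (hA a ha).2⟩
  have L1 : (1 : ℝ) ≤ L + 1 := by have : (0 : ℝ) ≤ L := Nat.cast_nonneg L; linarith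
  have t1 : 1 ≤ 1 + 4 * t ^ 2 := by nlinarith [sq_nonneg t]
  have q1 := Qs_cs (c := fun n => ‖fc (gt L t) n‖) (lam := fun _ => 1) (fun _ => one_pos)
    (A := A) (S := S) (B := 4 * (L + 1)) (fun k _ => by
      simp only [mul_one]
      refine (sum_inv_le hA').trans ((Hm_le hH).trans ?_)
      push_cast; linarith)
  simp only [one_mul] at q1
  have q2 := double_sum_le (F := fun n => ‖fc (gt L t) n‖ ^ 2) (fun _ => by positivity) hA'
    (K := 2 ^ (6 * L)) (S := S) (p := fun n => n ≠ 0)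
    (B1 := 2 ^ R * ((L : ℝ) + 1) ^ (2 ^ R) * (C * (L + 1) * rho ^ L))
    (B2 := (1 + 4 * t ^ 2) * (4 * 4 ^ L) / (2 ^ (6 * L) : ℕ))
    (fun k hk a ha => mul_ne_zero (fun h => hS (h ▸ hk)) (by exact_mod_cast (hA' a ha).1.ne'))
    (fun U hU => ?_) (fun U hU => gt_tail L t (by positivity) U hU)
  · have q3 : (H : ℝ) * ((1 + 4 * t ^ 2) * (4 * 4 ^ L) / (2 ^ (6 * L) : ℕ)) ≤ 4 * (1 + 4 * t ^ 2) := by
      have a : (H : ℝ) ≤ 2 ^ (4 * L) := by exact_mod_cast hH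
      have b : ((2 ^ (6 * L) : ℕ) : ℝ) = 2 ^ (4 * L) * 4 ^ L := by
        push_cast; rw [show (4 : ℝ) = 2 ^ 2 by norm_num, ← pow_mul, ← pow_add]; congr 1; ring
      rw [b]
      calc _ ≤ 2 ^ (4 * L) * ((1 + 4 * t ^ 2) * (4 * 4 ^ L) / (2 ^ (4 * L) * 4 ^ L)) := by gcongr
        _ = _ := by field_simp
    have p1 : (1 : ℝ) ≤ (L + 1) ^ (2 ^ R + 1) := one_le_pow₀ L1
    calc _ ≤ 4 * ((L : ℝ) + 1) * (2 ^ R * ((L : ℝ) + 1) ^ (2 ^ R) * (C * (L + 1) * rho ^ L)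
          + 4 * (1 + 4 * t ^ 2)) := q1.trans (by gcongr; linarith)
      _ ≤ 4 * ((L : ℝ) + 1) * (2 ^ R * ((L : ℝ) + 1) ^ (2 ^ R) * (C * (L + 1) * rho ^ L)
          * (1 + 4 * t ^ 2) + 4 * (1 + 4 * t ^ 2) * ((L + 1) ^ (2 ^ R + 1) * rho ^ L)) := by
        refine mul_le_mul_of_nonneg_left (add_le_add ?_ ?_) (by positivity)
        · exact le_mul_of_one_le_right (by positivity) t1
        · exact le_mul_of_one_le_right (by positivity) (one_le_mul_of_one_le_of_one_le p1 r1)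
      _ = _ := by ring
  · set Y := 2 ^ i0
    have Y1 : 1 ≤ Y := Nat.one_le_two_pow
    set E := (Icc 1 (Y ^ 2)).filter Odd
    calc _ ≤ ∑ n ∈ U, ∑ e ∈ E.filter (fun e : ℕ => (e : ℤ) ∣ n),
          ((2 * dv e : ℕ) : ℝ) ^ R * ‖fc (gt L t) n‖ ^ 2 := by
          refine sum_le_sum fun n hn => ?_
          rw [← sum_mul, mul_comm]
          gcongr
          have := cnt_le_landreau (fun a ha => (hA a ha).1) Y1 (R := R) (hU n hn).1
            ((hU n hn).2.trans (by rw [← pow_mul]; exact Nat.pow_le_pow_right (by norm_num) i2))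
          exact_mod_cast this
      _ = ∑ e ∈ E, ((2 * dv e : ℕ) : ℝ) ^ R * ∑ n ∈ U.filter (fun n => (e : ℤ) ∣ n),
          ‖fc (gt L t) n‖ ^ 2 := by
          simp only [sum_filter, mul_sum]
          rw [sum_comm]
          refine sum_congr rfl fun e _ => sum_congr rfl fun n _ => ?_
          split_ifs <;> simp
      _ ≤ ∑ e ∈ E, ((2 * dv e : ℕ) : ℝ) ^ R * ((1 / e) * ∑ j ∈ range e, RR L (j / e)) := by
          gcongr with e he
          exact mult_mass L t (mem_filter.1 he).2.pos _ fun n hn => (mem_filter.1 hn).2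
      _ ≤ _ := by
          refine (farey_reduce R L (Y ^ 2)).trans ?_
          have a : Hm (Y ^ 2) ≤ L + 1 := Hm_le (by
            rw [← pow_mul]; exact Nat.pow_le_pow_right (by norm_num) (by omega))
          have b := hC L i0 i1 ((Icc 1 (Y ^ 2) ×ˢ range (Y ^ 2)).filter
            (fun p => Odd p.1 ∧ p.2 < p.1 ∧ Nat.Coprime p.2 p.1)) fun p hp => by
              obtain ⟨c1, c2, c3, c4⟩ := mem_filter.1 hp
              refine ⟨c2, (mem_Icc.1 (mem_product.1 c1).1).2.trans ?_, c3, c4⟩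
              rw [← pow_mul, mul_comm, pow_mul]
              exact Nat.pow_le_pow_left (by norm_num) _
          have c : (i0 : ℝ) + 1 ≤ L + 1 := by exact_mod_cast (by omega : i0 + 1 ≤ L + 1)
          gcongr
          · exact sum_nonneg fun p _ => mul_nonneg (by positivity) (RR_nonneg _ _)
          · exact Hm_nonneg _
          · exact b.trans (by gcongr)

end Pool.Agent.MP_d431d3_nt
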