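import Pool.Agent.Lib.MP_d431d3_nt.Pair

/-! Discrepancy and exponential sums: a Koksma inequality and an Erdos-Turan inequality. -/

namespace Pool.Agent.MP_d431d3_nt

open Real Finset MeasureTheory

open Classical in
noncomputable def cntI (a : ℕ → ℝ) (N : ℕ) (u v : ℝ) : ℝ :=
  (((range N).filter (fun k => Int.fract (a k) ∈ Set.Ico u v)).card : ℝ)

noncomputable def dsc (a : ℕ → ℝ) (N : ℕ) : ℝ :=
  sSup {r : ℝ | ∃ u v : ℝ, 0 ≤ u ∧ u < v ∧ v ≤ 1 ∧ r = |cntI a N u v / N - (v - u)|}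

lemma disc_eq (α : ℝ) (N : ℕ) : disc α N = dsc (fun k => (seq k : ℝ) * α) N := rfl

lemma cntI_eq (a : ℕ → ℝ) (N : ℕ) (u v : ℝ) :
    cntI a N u v = ∑ k ∈ range N, ind (u ≤ Int.fract (a k) ∧ Int.fract (a k) < v) := by
  classical
  unfold cntI ind
  rw [card_filter]; push_cast
  refine sum_congr rfl fun k _ => ?_
  simp only [Set.mem_Ico]
  split_ifs <;> rfl

lemma le_dsc (a : ℕ → ℝ) {N : ℕ} (hN : 0 < N) {u v : ℝ} (h0 : 0 ≤ u) (h1 : u < v) (h2 : v ≤ 1) :
    |cntI a N u v - N * (v - u)| ≤ N * dsc a N := by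
  have N0 : (0 : ℝ) < N := by exact_mod_cast hN
  have : |cntI a N u v / N - (v - u)| ≤ dsc a N := by
    refine le_csSup ⟨1, ?_⟩ ⟨u, v, h0, h1, h2, rfl⟩
    rintro r ⟨u, v, h0, h1, h2, rfl⟩
    have a0 : 0 ≤ cntI a N u v / N := div_nonneg (Nat.cast_nonneg _) N0.le
    have a1 : cntI a N u v / N ≤ 1 := by
      rw [div_le_one N0]; unfold cntI
      exact_mod_cast (card_filter_le _ _).trans (card_range N).le
    rw [abs_le]; constructor <;> linarith
  calc _ = N * |cntI a N u v / N - (v - u)| := by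
        rw [← abs_of_pos N0, ← abs_mul, abs_of_pos N0]; congr 1; field_simp
    _ ≤ _ := by gcongr

lemma dsc_le (a : ℕ → ℝ) {N : ℕ} (hN : 0 < N) {B : ℝ}
    (h : ∀ u v : ℝ, 0 ≤ u → u < v → v ≤ 1 → |cntI a N u v - N * (v - u)| ≤ B) : N * dsc a N ≤ B := by
  have N0 : (0 : ℝ) < N := by exact_mod_cast hN
  rw [mul_comm, ← le_div_iff₀ N0]
  refine csSup_le ⟨_, 0, 1, le_rfl, one_pos, le_rfl, rfl⟩ ?_
  rintro r ⟨u, v, h0, h1, h2, rfl⟩
  rw [le_div_iff₀ N0]
  calc _ = |(cntI a N u v / N - (v - u)) * N| := by rw [abs_mul, abs_of_pos N0]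
    _ = |cntI a N u v - N * (v - u)| := by congr 1; field_simp
    _ ≤ B := h u v h0 h1 h2

lemma dsc_nonneg (a : ℕ → ℝ) (N : ℕ) : 0 ≤ dsc a N :=
  Real.sSup_nonneg (by rintro r ⟨u, v, -, -, -, rfl⟩; exact abs_nonneg _)

/-- The sawtooth sum. -/
noncomputable def saw (a : ℕ → ℝ) (N : ℕ) (u : ℝ) : ℝ := ∑ k ∈ range N, (Int.fract (a k - u) - 1 / 2)

lemma fract_sub_eq (x : ℝ) {u : ℝ} (h0 : 0 ≤ u) (h1 : u ≤ 1) :
    Int.fract (x - u) = Int.fract x - u + ind (Int.fract x < u) := by
  have a := Int.fract_nonneg x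
  have b := Int.fract_lt_one x
  rw [Int.fract_eq_iff]
  by_cases h : Int.fract x < u
  · rw [ind_pos h]
    exact ⟨by linarith, by linarith, ⌊x⌋ - 1, by unfold Int.fract; push_cast; ring⟩
  · rw [ind_neg h]
    exact ⟨by linarith, by linarith, ⌊x⌋, by unfold Int.fract; ring⟩

lemma saw_sub (a : ℕ → ℝ) (N : ℕ) {u v : ℝ} (h0 : 0 ≤ u) (h1 : u ≤ v) (h2 : v ≤ 1) :
    saw a N v - saw a N u = cntI a N u v - N * (v - u) := by
  rw [cntI_eq, saw, saw, ← sum_sub_distrib, show (N : ℝ) * (v - u) = ∑ _k ∈ range N, (v - u) by simp [mul_sub],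
    ← sum_sub_distrib]
  refine sum_congr rfl fun k _ => ?_
  rw [fract_sub_eq _ h0 (h1.trans h2), fract_sub_eq _ (h0.trans h1) h2]
  by_cases c1 : Int.fract (a k) < u
  · rw [ind_pos c1, ind_pos (c1.trans_le h1), ind_neg (fun h => absurd h.1 (not_le.2 c1))]; ring
  · by_cases c2 : Int.fract (a k) < v
    · rw [ind_neg c1, ind_pos c2, ind_pos ⟨not_lt.1 c1, c2⟩]; ring
    · rw [ind_neg c1, ind_neg c2, ind_neg (fun h => c2 h.2)]; ring

lemma saw_mono (a : ℕ → ℝ) (N : ℕ) {u v : ℝ} (h : u ≤ v) : saw a N u - N * (v - u) ≤ saw a N v := by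
  rw [saw, saw, show (N : ℝ) * (v - u) = ∑ _k ∈ range N, (v - u) by simp [mul_sub], ← sum_sub_distrib]
  refine sum_le_sum fun k _ => ?_
  have : (⌊a k - v⌋ : ℝ) ≤ ⌊a k - u⌋ := by exact_mod_cast Int.floor_mono (by linarith)
  unfold Int.fract; linarith

lemma saw_per (a : ℕ → ℝ) (N : ℕ) : Per (saw a N) := fun u => by
  unfold saw
  refine sum_congr rfl fun k _ => ?_
  rw [show a k - (u + 1) = a k - u - 1 by ring, Int.fract_sub_one]

lemma BM_fract (c : ℝ) : BM fun u => Int.fract (c - u) - 1 / 2 :=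
  ⟨(measurable_fract.comp (by fun_prop)).sub measurable_const, 1, fun u => by
    have a := Int.fract_nonneg (c - u)
    have b := Int.fract_lt_one (c - u)
    rw [abs_le]; constructor <;> linarith⟩

lemma BM_saw (a : ℕ → ℝ) (N : ℕ) : BM (saw a N) := BM.sum _ fun _ _ => BM_fract _

lemma hasDerivAt_ee (h u : ℝ) : HasDerivAt (fun u => ee (h * u)) (2 * π * h * Complex.I * ee (h * u)) u := by
  unfold ee
  have : HasDerivAt (fun u : ℝ => (2 * π * h * Complex.I : ℂ) * u) (2 * π * h * Complex.I) u := by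
    simpa using (Complex.ofRealCLM.hasDerivAt (x := u)).const_mul (2 * π * h * Complex.I : ℂ)
  have := this.cexp
  convert this using 1
  · funext v; congr 1; push_cast; ring
  · rw [mul_comm]; congr 2; push_cast; ring

lemma int_saw_one (h : ℤ) :
    2 * π * h * Complex.I * Ex (fun w => ((1 / 2 - w : ℝ) : ℂ) * ee (h * w)) = if h = 0 then 0 else -1 := by
  split_ifs with h0
  · simp [h0]
  have c0 : (2 * π * h * Complex.I : ℂ) ≠ 0 := by simp [h0, pi_ne_zero]
  have d : ∀ w ∈ Set.uIcc (0 : ℝ) 1, HasDerivAt (fun w : ℝ => ((1 / 2 - w : ℝ) : ℂ) * ee (h * w)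
      + ee (h * w) / (2 * π * h * Complex.I))
      (2 * π * h * Complex.I * (((1 / 2 - w : ℝ) : ℂ) * ee (h * w))) w := fun w _ => by
    have a : HasDerivAt (fun w : ℝ => ((1 / 2 - w : ℝ) : ℂ)) (-1) w := by
      exact ((hasDerivAt_id w).const_sub (1 / 2)).ofReal_comp.congr_deriv (by simp)
    have := (a.mul (hasDerivAt_ee h w)).add ((hasDerivAt_ee h w).div_const (2 * π * h * Complex.I))
    refine this.congr_deriv ?_
    push_cast; field_simp; ring
  unfold Ex
  rw [← intervalIntegral.integral_const_mul, intervalIntegral.integral_eq_sub_of_hasDerivAt d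
    (Continuous.intervalIntegrable (by fun_prop) _ _)]
  simp only [mul_one, mul_zero, ee_int, ee_zero]
  push_cast; ring

lemma Ex_saw_one : Ex (fun w : ℝ => ((1 / 2 - w : ℝ) : ℂ)) = 0 := by
  unfold Ex
  rw [intervalIntegral.integral_ofReal, intervalIntegral.integral_sub] <;> simp

lemma ii_mul_ee {f : ℝ → ℝ} (hf : BM f) (h : ℝ) (a b : ℝ) :
    IntervalIntegrable (fun u => (f u : ℂ) * ee (h * u)) volume a b :=
  IntervalIntegrable.mul_continuousOn (f := fun u => (f u : ℂ))
    ⟨(hf.ii a b).1.ofReal, (hf.ii a b).2.ofReal⟩ (Continuous.continuousOn (by fun_prop))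

lemma fract_coef (c : ℝ) (h : ℤ) : Ex (fun u => ((Int.fract (c - u) - 1 / 2 : ℝ) : ℂ) * ee (h * u))
    = ee (h * c) * Ex (fun w => ((1 / 2 - w : ℝ) : ℂ) * ee (h * w)) := by
  have p : Per fun u : ℝ => ((Int.fract (c - u) - 1 / 2 : ℝ) : ℂ) * ee (h * u) := fun u => by
    simp only
    rw [show c - (u + 1) = c - u - 1 by ring, Int.fract_sub_one, mul_add, mul_one, ee_per.int]
  rw [← Ex_shift p c]
  unfold Ex
  rw [← intervalIntegral.integral_const_mul]
  refine intervalIntegral.integral_congr_ae (Filter.Eventually.of_forall fun w hw => ?_)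
  rw [Set.uIoc_of_le zero_le_one] at hw
  have : Int.fract (c - (w + c)) = 1 - w := by
    rw [Int.fract_eq_iff]
    exact ⟨by linarith [hw.2], by linarith [hw.1], -1, by push_cast; ring⟩
  rw [this, mul_add, ee_add]; push_cast; ring

lemma saw_coef (a : ℕ → ℝ) (N : ℕ) (h : ℤ) : Ex (fun u => (saw a N u : ℂ) * ee (h * u))
    = (∑ k ∈ range N, ee (h * a k)) * Ex (fun w => ((1 / 2 - w : ℝ) : ℂ) * ee (h * w)) := by
  rw [sum_mul, ← sum_congr rfl fun k _ => fract_coef (a k) h]
  unfold Ex saw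
  rw [← intervalIntegral.integral_finsetSum fun k _ => ii_mul_ee (BM_fract _) _ _ _]
  congr 1; funext u; push_cast; rw [sum_mul]

lemma saw_coef_norm (a : ℕ → ℝ) (N : ℕ) {h : ℕ} (h0 : 0 < h) :
    2 * π * h * ‖Ex (fun u => (saw a N u : ℂ) * ee (h * u))‖ = ‖∑ k ∈ range N, ee (h * a k)‖ := by
  have e1 := saw_coef a N h
  have e2 := congrArg norm (int_saw_one h)
  rw [if_neg (by omega)] at e2
  simp only [Int.cast_natCast] at e1 e2
  simp only [norm_mul, Complex.norm_I, Complex.norm_real, norm_eq_abs, abs_of_pos pi_pos,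
    Complex.norm_natCast, norm_neg, norm_one, Complex.norm_ofNat, mul_one] at e2
  rw [e1, norm_mul]
  linear_combination ‖∑ k ∈ range N, ee (h * a k)‖ * e2

lemma Ex_saw (a : ℕ → ℝ) (N : ℕ) : Ex (saw a N) = 0 := by
  have := saw_coef a N 0
  simp only [Int.cast_zero, zero_mul, ee_zero, mul_one] at this
  rw [Ex_saw_one, mul_zero, Ex, intervalIntegral.integral_ofReal] at this
  exact_mod_cast this

/-- Koksma inequality for exponentials. -/
theorem koksma (a : ℕ → ℝ) {N : ℕ} (hN : 0 < N) {h : ℕ} (h0 : 0 < h) :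
    ‖∑ k ∈ range N, ee (h * a k)‖ ≤ 2 * π * h * (N * dsc a N) := by
  rw [← saw_coef_norm a N h0]
  gcongr
  have z : Ex (fun u => ((saw a N 0 : ℝ) : ℂ) * ee (h * u)) = 0 := by
    have := fc_dil_zero (f := fun _ => ((saw a N 0 : ℝ) : ℂ)) (fun _ => rfl) (a := h + 1)
      (by omega) (n := -h) (fun c => by
        have := Int.le_of_dvd (by exact_mod_cast h0) (dvd_neg.1 c)
        push_cast at this; omega)
    simpa [fc] using this
  have e : Ex (fun u => (saw a N u : ℂ) * ee (h * u))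
      = Ex (fun u => ((saw a N u - saw a N 0 : ℝ) : ℂ) * ee (h * u)) := by
    rw [← sub_zero (Ex _), ← z]
    unfold Ex
    rw [← intervalIntegral.integral_sub (ii_mul_ee (BM_saw a N) _ _ _) (ii_mul_ee (BM.const _) _ _ _)]
    congr 1; funext u; push_cast; ring
  rw [e]
  have := intervalIntegral.norm_integral_le_of_norm_le_const (a := 0) (b := 1) (C := N * dsc a N)
    (f := fun u => ((saw a N u - saw a N 0 : ℝ) : ℂ) * ee (h * u)) fun u hu => by
      rw [Set.uIoc_of_le zero_le_one] at hu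
      rw [norm_mul, norm_ee, mul_one, Complex.norm_real, norm_eq_abs, saw_sub a N le_rfl hu.1.le hu.2]
      exact le_dsc a hN le_rfl hu.1 hu.2
  simpa using this

/-- Fejer kernel. -/
noncomputable def fej (H : ℕ) (w : ℝ) : ℝ := ‖∑ i ∈ range H, ee (i * w)‖ ^ 2 / H

lemma fej_per (H : ℕ) : Per (fej H) := fun w => by
  unfold fej
  simp only [ee_per.dil']

@[fun_prop] lemma continuous_fej (H : ℕ) : Continuous (fej H) := by unfold fej; fun_prop

lemma fej_nonneg (H : ℕ) (w : ℝ) : 0 ≤ fej H w := by unfold fej; positivity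

lemma fej_ph (H : ℕ) (w : ℝ) : ph w ^ 2 * fej H w ≤ 4 / H := by
  have := pow_le_pow_left₀ (mul_nonneg (norm_nonneg _) (ph_nonneg _)) (geom_ee w H) 2
  unfold fej
  rw [← mul_div_assoc]
  gcongr
  nlinarith

lemma Ex_cos_mul {f : ℝ → ℝ} (hf : BM f) (h : ℕ) (t : ℝ) :
    |Ex (fun u => f u * cos (2 * π * (h * (u - t))))| ≤ ‖Ex (fun u => (f u : ℂ) * ee (h * u))‖ := by
  have e : Ex (fun u => f u * cos (2 * π * (h * (u - t))))
      = (ee (-(h * t)) * Ex (fun u => (f u : ℂ) * ee (h * u))).re := by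
    unfold Ex
    rw [← intervalIntegral.integral_const_mul]
    have := Complex.reCLM.intervalIntegral_comp_comm ((ii_mul_ee hf h 0 1).const_mul (ee (-(h * t))))
    simp only [Complex.reCLM_apply] at this
    rw [← this]
    congr 1; funext u
    rw [mul_left_comm, ← ee_add, Complex.re_ofReal_mul, ee_re]
    congr 3; ring
  rw [e]
  refine (Complex.abs_re_le_norm _).trans ?_
  rw [norm_mul, norm_ee, one_mul]

lemma conv_le {f : ℝ → ℝ} (hf : BM f) {H : ℕ} (hH : 0 < H) (t : ℝ) :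
    |Ex (fun u => f u * fej H (u - t)) - Ex f| ≤
      2 * ∑ h ∈ Icc 1 H, ‖Ex (fun u => (f u : ℂ) * ee (h * u))‖ := by
  classical
  have H0 : (0 : ℝ) < H := by exact_mod_cast hH
  set c : ℕ × ℕ → ℝ := fun j => Ex (fun u => f u * cos (2 * π * (((j.1 : ℝ) - j.2) * (u - t)))) with hc
  have e : Ex (fun u => f u * fej H (u - t)) = (∑ j ∈ range H ×ˢ range H, c j) / H := by
    rw [← Ex_sumB _ fun j _ => hf.mul ⟨by fun_prop, 1, fun _ => abs_cos_le_one _⟩]
    unfold Ex
    rw [← intervalIntegral.integral_div]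
    congr 1; funext u
    simp only
    rw [fej, ← sum_cos_sq, ← mul_sum, mul_div_assoc]
  have e2 : ∑ j ∈ (range H ×ˢ range H).filter (fun j => j.1 = j.2), c j = H * Ex f := by
    rw [show (range H ×ˢ range H).filter (fun j => j.1 = j.2) = (range H).diag by
      ext j; simp only [mem_filter, mem_product, mem_range, mem_diag]; omega, sum_diag]
    simp [hc]
  rw [e, ← sum_filter_add_sum_filter_not _ (fun j => j.1 = j.2), e2, add_div,
    mul_div_cancel_left₀ _ H0.ne', add_sub_cancel_left, abs_div, abs_of_pos H0, div_le_iff₀ H0]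
  refine (abs_sum_le_sum_abs _ _).trans ?_
  calc _ ≤ ∑ z ∈ range H ×ˢ Icc 1 H ×ˢ (univ : Finset Bool), ‖Ex (fun u => (f u : ℂ) * ee (z.2.1 * u))‖ := by
        refine sum_le_inj (fun j => (j.1, (j.1 - j.2) + (j.2 - j.1), decide (j.1 < j.2)))
          (fun j hj => ?_) (fun i hi j hj e => ?_) (fun j hj => ?_) (fun _ _ => norm_nonneg _)
        · simp only [mem_filter, mem_product, mem_range, mem_Icc, mem_univ, and_true] at hj ⊢
          omega
        · simp only [Prod.mk.injEq, decide_eq_decide] at e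
          exact Prod.ext e.1 (by omega)
        · refine le_trans (le_of_eq ?_) (Ex_cos_mul hf _ t)
          simp only [hc]
          congr 2; funext u; congr 1
          rcases le_total j.1 j.2 with h | h
          · rw [← cos_neg]; congr 1
            rw [Nat.sub_eq_zero_of_le h, zero_add, Nat.cast_sub h]; ring
          · rw [Nat.sub_eq_zero_of_le h, add_zero, Nat.cast_sub h]
    _ = _ := by
        simp only [sum_product, sum_const, card_range, nsmul_eq_mul, card_univ, Fintype.card_bool,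
          ← mul_sum]
        push_cast; ring

lemma Ex_fej {H : ℕ} (hH : 0 < H) : Ex (fej H) = 1 := by
  have := conv_le (BM.const 1) hH 0
  have z : ∀ h ∈ Icc 1 H, ‖Ex (fun u => (((1 : ℝ) : ℝ) : ℂ) * ee (h * u))‖ = 0 := fun h hh => by
    have h0 := (mem_Icc.1 hh).1
    have := fc_dil_zero (f := fun _ => (1 : ℂ)) (fun _ => rfl) (a := h + 1)
      (by omega) (n := -h) (fun c => by
        have := Int.le_of_dvd (by exact_mod_cast h0) (dvd_neg.1 c)
        push_cast at this; omega)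
    simpa [fc] using this
  rw [sum_eq_zero z, mul_zero, abs_nonpos_iff, Ex_const] at this
  simp only [one_mul, sub_zero] at this
  linarith

lemma Ex_mono01 {f g : ℝ → ℝ} (hf : BM f) (hg : BM g) (h : ∀ x, 0 ≤ x → x ≤ 1 → f x ≤ g x) :
    Ex f ≤ Ex g :=
  intervalIntegral.integral_mono_on zero_le_one (hf.ii _ _) (hg.ii _ _) fun x hx => h x hx.1 hx.2

lemma BM.shift {f : ℝ → ℝ} (hf : BM f) (a : ℝ) : BM fun x => f (x + a) := by
  obtain ⟨m, C, hC⟩ := hf
  exact ⟨m.comp (by fun_prop), C, fun x => hC _⟩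

lemma smooth_step {f : ℝ → ℝ} (hf : BM f) (hp : Per f) {H : ℕ} (hH : 0 < H) {η M b : ℝ} (η0 : 0 < η)
    (η1 : 1 ≤ H * η ^ 2) (M0 : 0 ≤ M) (t : ℝ) (h1 : ∀ w, |w| ≤ η → b ≤ f (w + t))
    (h2 : ∀ w, b - 2 * M ≤ f w) : b - M / 2 ≤ Ex (fun u => f u * fej H (u - t)) := by
  have H0 : (0 : ℝ) < H := by exact_mod_cast hH
  have p : Per fun u => f u * fej H (u - t) := fun u => by
    simp only; rw [hp, show u + 1 - t = u - t + 1 by ring, fej_per]
  have bf := BM.of_per (continuous_fej H) (fej_per H)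
  rw [← Ex_shift p t]
  simp only [add_sub_cancel_right]
  calc b - M / 2 ≤ Ex (fun w => b * fej H w + (-(M / (8 * η ^ 2) * (4 / H)))) := by
        rw [Ex_addB (bf.smul _) (BM.const _), Ex_smul, Ex_fej hH, Ex_const]
        have : M / (8 * η ^ 2) * (4 / H) ≤ M / 2 := by
          rw [show M / (8 * η ^ 2) * (4 / H) = M / 2 / (H * η ^ 2) by field_simp; ring]
          exact div_le_self (by positivity) η1
        linarith
    _ ≤ _ := by
        refine Ex_mono01 ((bf.smul _).add (BM.const _)) ((hf.shift t).mul bf) fun w w0 w1 => ?_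
        have k0 := fej_nonneg H w
        have k1 := mul_le_mul_of_nonneg_left (fej_ph H w) (by positivity : 0 ≤ M / (8 * η ^ 2))
        have k2 : b - M / (8 * η ^ 2) * ph w ^ 2 ≤ f (w + t) := by
          have z : 0 ≤ M / (8 * η ^ 2) * ph w ^ 2 := by positivity
          by_cases c1 : w ≤ η
          · linarith [h1 w (by rwa [abs_of_nonneg w0])]
          by_cases c2 : 1 - w ≤ η
          · have := h1 (w - 1) (by rw [abs_sub_comm, abs_of_nonneg (by linarith)]; exact c2)
            rw [← hp, show w - 1 + t + 1 = w + t by ring] at this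
            linarith
          have c3 : 4 * η ≤ ph w := by
            rcases le_total w (1 / 2) with c | c
            · have := ph_ge_abs (x := w) (by rwa [abs_of_nonneg w0])
              rw [abs_of_nonneg w0] at this; linarith
            · have := ph_ge_abs (x := w - 1) (by rw [abs_sub_comm, abs_of_nonneg (by linarith)]; linarith)
              rw [← ph_per, sub_add_cancel, abs_sub_comm, abs_of_nonneg (by linarith)] at this
              linarith
          have c4 : M / (8 * η ^ 2) * (4 * η) ^ 2 ≤ M / (8 * η ^ 2) * ph w ^ 2 := by gcongr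
          rw [show M / (8 * η ^ 2) * (4 * η) ^ 2 = 2 * M by field_simp; ring] at c4
          linarith [h2 (w + t)]
        nlinarith [mul_le_mul_of_nonneg_right k2 k0]

/-- Erdos-Turan inequality (with a square-root error term). -/
theorem erdos_turan (a : ℕ → ℝ) {N : ℕ} (hN : 0 < N) {H : ℕ} (hH : 0 < H) {η : ℝ} (η0 : 0 < η)
    (η1 : 1 ≤ H * η ^ 2) :
    N * dsc a N ≤ 2 * ∑ h ∈ Icc 1 H, ‖∑ k ∈ range N, ee (h * a k)‖ / h + 8 * N * η := by
  set E := ∑ h ∈ Icc 1 H, ‖∑ k ∈ range N, ee (h * a k)‖ / h with hE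
  have N0 : (0 : ℝ) < N := by exact_mod_cast hN
  have cv : ∀ t, |Ex (fun u => saw a N u * fej H (u - t))| ≤ E / 2 := fun t => by
    have := conv_le (BM_saw a N) hH t
    rw [Ex_saw, sub_zero] at this
    refine this.trans ?_
    rw [hE, mul_sum, sum_div]
    refine sum_le_sum fun h hh => ?_
    have h0 := (mem_Icc.1 hh).1
    have h1 : (0 : ℝ) < h := by exact_mod_cast h0
    rw [← saw_coef_norm a N h0, le_div_iff₀ (by norm_num), le_div_iff₀ h1]
    have := norm_nonneg (Ex fun u => (saw a N u : ℂ) * ee (h * u))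
    nlinarith [pi_gt_three, mul_nonneg this h1.le]
  obtain ⟨-, C, hC⟩ := BM_saw a N
  have bdd : BddAbove (Set.range fun t => |saw a N t|) := ⟨C, by rintro _ ⟨t, rfl⟩; exact hC t⟩
  set M := ⨆ t, |saw a N t| with hM
  have hM1 : ∀ t, |saw a N t| ≤ M := fun t => le_ciSup bdd t
  have M0 : 0 ≤ M := (abs_nonneg _).trans (hM1 0)
  have Nη : 0 ≤ N * η := by positivity
  have key : ∀ t, |saw a N t| ≤ E / 2 + 2 * N * η + M / 2 := fun t => by
    have a1 := abs_le.1 (hM1 t)
    have u := smooth_step (BM_saw a N) (saw_per a N) hH (b := saw a N t - 2 * N * η) η0 η1 M0 (t + η)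
      (fun w hw => by
        have := saw_mono a N (u := t) (v := w + (t + η)) (by linarith [(abs_le.1 hw).1])
        nlinarith [(abs_le.1 hw).2])
      (fun w => by linarith [(abs_le.1 (hM1 w)).1])
    have l := smooth_step ((BM_saw a N).smul (-1)) (fun x => by simp only; rw [saw_per]) hH
      (b := -saw a N t - 2 * N * η) η0 η1 M0 (t - η)
      (fun w hw => by
        have := saw_mono a N (u := w + (t - η)) (v := t) (by linarith [(abs_le.1 hw).2])
        nlinarith [(abs_le.1 hw).1])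
      (fun w => by linarith [(abs_le.1 (hM1 w)).2])
    simp only [mul_assoc, Ex_smul] at l
    have c1 := (abs_le.1 (cv (t + η))).2
    have c2 := (abs_le.1 (cv (t - η))).1
    rw [abs_le]; constructor <;> linarith
  have hM2 : M ≤ E / 2 + 2 * N * η + M / 2 := ciSup_le key
  refine dsc_le a hN fun u v h0 h1 h2 => ?_
  rw [← saw_sub a N h0 h1.le h2]
  have := abs_sub (saw a N v) (saw a N u)
  linarith [hM1 u, hM1 v]

end Pool.Agent.MP_d431d3_nt
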