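import Pool.Agent.Lib.MP_d431d3_nt.Upper

/-! Second moment method and zero-one law for the lower bound. -/

namespace Pool.Agent.MP_d431d3_nt

open Real Finset MeasureTheory Filter Topology

lemma zero_one {p : ℝ → Prop} (hp : Per p) (hm : MeasurableSet {x | p x}) (h2 : ∀ x, p (2 * x) → p x)
    (h0 : mu {x | p x} ≠ 0) : ∀ᵐ x, p x := by
  set S : Set UnitAddCircle := (fun y => ((AddCircle.measurableEquivIoc 1 0 y : Set.Ioc _ _) : ℝ)) ⁻¹' {x | p x}
    with hS
  have mS : MeasurableSet S :=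
    (measurable_subtype_coe.comp (AddCircle.measurableEquivIoc 1 0).measurable) hm
  have e : ∀ x : ℝ, (x : UnitAddCircle) ∈ S ↔ p x := fun x => by
    change p (toIocMod one_pos 0 x) ↔ p x
    rw [← self_sub_toIocDiv_zsmul, ← hp.int (toIocDiv one_pos 0 x)]
    simp
  have mp := UnitAddCircle.measurePreserving_mk 0
  rw [zero_add] at mp
  rcases (AddCircle.ergodic_nsmul (T := 1) one_lt_two).ae_empty_or_univ_of_preimage_ae_le
    mS.nullMeasurableSet (HasSubset.Subset.eventuallyLE fun y hy => by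
      induction y using QuotientAddGroup.induction_on with
      | H x =>
        refine (e x).2 (h2 x ((e _).1 ?_))
        have : ((2 * x : ℝ) : UnitAddCircle) = 2 • (x : UnitAddCircle) := by
          rw [← AddCircle.coe_nsmul]; simp
        rw [this]; exact hy) with h | h
  · refine absurd ?_ h0
    have := mp.measure_preimage mS.nullMeasurableSet
    rw [ae_eq_empty.1 h] at this
    rw [← this]; congr 1; ext x; exact (e x).symm
  · refine ae_of_per hp ?_
    filter_upwards [mp.quasiMeasurePreserving.ae h] with x hx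
    exact (e x).1 (by change S x; rw [hx]; trivial)

/-- Paley-Zygmund type lower bound. -/
lemma pz {X : ℕ → ℝ → ℝ} {a : ℕ → ℝ} {c C : ℝ} (hc : 0 < c) (hC : 0 < C) (hX : ∀ k, BM (X k))
    (h0 : ∀ k x, 0 ≤ X k x) (a0 : ∀ k, 0 ≤ a k) (ha : ¬Summable a) (h1 : ∀ k, c * a k ≤ Ex (X k))
    (h2 : ∀ k, Ex (fun x => X k x * X k x) ≤ C * a k)
    (h3 : ∀ k l, k ≠ l → Ex (fun x => X k x * X l x) ≤ C * (a k * a l))
    {p : ℝ → Prop} (hp : MeasurableSet {x | p x}) (K : ℕ) (h : ∀ k x, K ≤ k → 0 < X k x → p x) :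
    c ^ 2 / (2 * C) ≤ mu.real {x | p x} := by
  classical
  obtain ⟨n, hn⟩ := ((not_summable_iff_tendsto_nat_atTop_of_nonneg a0).1 ha).eventually_ge_atTop
    (∑ k ∈ range K, a k + 1) |>.and (eventually_ge_atTop K) |>.exists
  have hA : 1 ≤ ∑ k ∈ Ico K n, a k := by rw [sum_Ico_eq_sub _ hn.2]; linarith [hn.1]
  set I := Ico K n
  have bS : BM fun x => ∑ k ∈ I, X k x := BM.sum _ fun k _ => hX k
  have e1 : c * ∑ k ∈ I, a k ≤ Ex fun x => ∑ k ∈ I, X k x := by
    rw [Ex_sumB _ fun k _ => hX k, mul_sum]; exact sum_le_sum fun k _ => h1 k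
  have e2 : Ex (fun x => (∑ k ∈ I, X k x) * ∑ k ∈ I, X k x) ≤ 2 * C * (∑ k ∈ I, a k) ^ 2 := by
    rw [Ex_sum_mul _ _ (fun k _ => hX k) fun k _ => hX k, sum_product]
    calc _ ≤ ∑ k ∈ I, ∑ l ∈ I, (C * (a k * a l) + if k = l then C * a k else 0) :=
          sum_le_sum fun k _ => sum_le_sum fun l _ => by
            split_ifs with e
            · subst e
              linarith [h2 k, mul_nonneg hC.le (mul_nonneg (a0 k) (a0 k))]
            · simpa using h3 k l e
      _ = C * (∑ k ∈ I, a k) ^ 2 + C * ∑ k ∈ I, a k := by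
          simp only [sum_add_distrib, sum_ite_eq]
          rw [sq, sum_mul_sum, mul_sum, mul_sum]
          congr 1
          · exact sum_congr rfl fun k _ => (mul_sum _ _ _).symm
          · exact sum_congr rfl fun k hk => if_pos hk
      _ ≤ _ := by nlinarith [mul_le_mul_of_nonneg_left hA hC.le]
  generalize ∑ k ∈ I, a k = A at *
  have e3 : (Ex fun x => ∑ k ∈ I, X k x) ≤ Ex fun x => c / (4 * C * A) *
      ((∑ k ∈ I, X k x) * ∑ k ∈ I, X k x) + C * A / c * ind (p x) := by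
    refine Ex_monoB bS (((bS.mul bS).smul _).add ((BM.ind hp).smul _)) fun x => ?_
    by_cases d : p x
    · rw [ind_pos d]
      generalize ∑ k ∈ I, X k x = S
      have : c / (4 * C * A) * (S * S) + C * A / c * 1 - S = (c * S - 2 * C * A) ^ 2 / (4 * C * A * c) := by
        field_simp; ring
      have : 0 ≤ (c * S - 2 * C * A) ^ 2 / (4 * C * A * c) := by positivity
      linarith
    · rw [ind_neg d, sum_eq_zero fun k hk => le_antisymm (not_lt.1 fun g => d (h k x (mem_Ico.1 hk).1 g))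
        (h0 k x)]
      simp
  rw [Ex_addB ((bS.mul bS).smul _) ((BM.ind hp).smul _), Ex_smul, Ex_smul, Ex_ind_eq hp] at e3
  have e4 := mul_le_mul_of_nonneg_left e2 (by positivity : 0 ≤ c / (4 * C * A))
  rw [show c / (4 * C * A) * (2 * C * A ^ 2) = c * A / 2 by field_simp; ring] at e4
  have e5 : C * A / c * (c ^ 2 / (2 * C)) ≤ C * A / c * mu.real {x | p x} := by
    rw [show C * A / c * (c ^ 2 / (2 * C)) = c * A / 2 by field_simp]; linarith
  exact le_of_mul_le_mul_left e5 (by positivity)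

/-- Approximate independence of a slowly varying function and a fast periodic one. -/
lemma far {u w V : ℝ → ℝ} (bu : BM u) (bw : BM w) (bV : BM V) (pu : Per u) (pw : Per w) (pV : Per V)
    (V0 : ∀ x, 0 ≤ V x) {n : ℕ} (hn : 0 < n) (h : ∀ x y : ℝ, |x - y| ≤ 1 / (n : ℝ) → u x ≤ w y) :
    Ex (fun x => u x * V (n * x)) ≤ Ex w * Ex V := by
  have n0 : (0 : ℝ) < n := by exact_mod_cast hn
  have k1 : ∀ x, ∑ j ∈ range n, u (x + j / n) ≤ n * Ex w := fun x => by
    have e := intervalIntegral.sum_integral_adjacent_intervals (μ := volume) (f := w)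
      (a := fun j : ℕ => x + j / n) (n := n) fun _ _ => bw.ii _ _
    have e2 := pw.intervalIntegral_add_eq x 0
    simp only [Nat.cast_zero, zero_div, add_zero, div_self n0.ne', zero_add] at e e2
    rw [Ex, ← e2, ← e, mul_sum]
    refine sum_le_sum fun j _ => ?_
    have d : x + ((j + 1 : ℕ) : ℝ) / n = x + j / n + 1 / n := by push_cast; ring
    have := intervalIntegral.integral_mono_on (μ := volume) (f := fun _ => u (x + j / n)) (g := w)
      (a := x + j / n) (b := x + ((j + 1 : ℕ) : ℝ) / n) (by rw [d]; exact le_add_of_nonneg_right (by positivity))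
      intervalIntegrable_const (bw.ii _ _) fun y hy => h _ _ (by
        rw [d] at hy; rw [abs_sub_comm, abs_of_nonneg (by linarith [hy.1])]; linarith [hy.2])
    rw [intervalIntegral.integral_const, d, add_sub_cancel_left, smul_eq_mul, one_div_mul_eq_div,
      div_le_iff₀ n0, ← d] at this
    linarith
  have k2 : ∀ j ∈ range n, Ex (fun x => u (x + j / n) * V (n * x)) = Ex (fun x => u x * V (n * x)) :=
    fun j _ => by
      rw [← Ex_shift (f := fun x => u x * V (n * x)) (fun x => by simp only; rw [pu, pV.dil']) (j / n)]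
      congr 1; funext x
      rw [mul_add, mul_div_cancel₀ _ n0.ne', pV.nat]
  refine le_of_mul_le_mul_left ?_ n0
  calc _ = ∑ j ∈ range n, Ex (fun x => u (x + j / n) * V (n * x)) := by rw [sum_congr rfl k2]; simp
    _ ≤ Ex (fun x => n * Ex w * V (n * x)) := by
      rw [← Ex_sumB _ fun j _ => (bu.shift _).mul (bV.dil _)]
      refine Ex_monoB (BM.sum _ fun j _ => (bu.shift _).mul (bV.dil _)) ((bV.dil _).smul _) fun x => ?_
      rw [← sum_mul]
      exact mul_le_mul_of_nonneg_right (k1 x) (V0 _)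
    _ = _ := by rw [Ex_smul, Ex_dilB pV bV hn.ne', mul_assoc]

lemma Ex_sqrt_nP : ∃ C θ : ℝ, 0 < C ∧ 0 < θ ∧ θ < 1 ∧ ∀ M, Ex (fun x => √(nP M x)) ≤ C * θ ^ M := by
  obtain ⟨x, x0, x1, hx⟩ := pow_div_le th1_pos th1_lt (D := 3) (by norm_num)
  have t0 := th1_pos
  refine ⟨√(2 / th1), √x, by positivity, by positivity, by rwa [sqrt_lt' one_pos, one_pow], fun M => ?_⟩
  have r0 := pow_pos rho_pos M
  refine le_of_sq (by positivity) ?_
  simp only [nP, sqrt_div' _ r0.le]
  rw [Ex, intervalIntegral.integral_div, div_pow, sq_sqrt r0.le, div_le_iff₀ r0, mul_pow,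
    sq_sqrt (by positivity), ← pow_mul, mul_comm M 2, pow_mul, sq_sqrt x0.le]
  refine (Ex_sqrt_P M).trans ((mul_le_mul_of_nonneg_left (hx M) (by positivity)).trans (le_of_eq ?_))
  ring

lemma Ex_nP_mul (L M : ℕ) : Ex (fun x => √(nP L x * nP (L + M) x)) ≤ 2 * Ex (fun x => √(nP M x)) := by
  have r0 := pow_pos rho_pos L
  have pM : Per fun x => √(nP M x) := fun x => by simp only; rw [nP_per]
  have e : (fun x => √(nP L x * nP (L + M) x)) = fun x => 1 / rho ^ L * (P L x * √(nP M (2 ^ L * x))) := by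
    funext x
    have : nP (L + M) x = nP L x * nP M (2 ^ L * x) := by
      unfold nP; rw [P_add, pow_add]; ring
    rw [this, ← mul_assoc, sqrt_mul (mul_self_nonneg _), sqrt_mul_self (nP_nonneg _ _), nP]; ring
  rw [e, Ex_smul, Ex_mul_dil L (H := fun x => √(nP M x)) (continuous_P L) (by fun_prop) pM,
    one_div_mul_eq_div, div_le_iff₀ r0, mul_right_comm, ← Ex_smul]
  exact Ex_mono ((TT_cont L (continuous_P L)).mul (by fun_prop)) (by fun_prop) fun x =>
    mul_le_mul_of_nonneg_right (q_le_rho L x) (sqrt_nonneg _)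

lemma half_le_Ex_nP (L : ℕ) : 1 / 2 ≤ Ex (nP L) := by
  have := pow_pos rho_pos L
  unfold nP Ex
  rw [intervalIntegral.integral_div, le_div_iff₀ this, one_div_mul_eq_div]
  exact le_sinInt L

lemma Od_sub (b H : ℕ) : Od b H ⊆ Od 1 H := fun _ h =>
  mem_Od.2 ⟨⟨(mem_Od.1 h).2.pos, (mem_Od.1 h).1.2⟩, (mem_Od.1 h).2⟩

/-- Number of hits in one block of levels. -/
noncomputable def NB (Λ b : ℕ) (s x : ℝ) : ℝ :=
  ∑ L ∈ Ico Λ (2 * Λ), ∑ h ∈ Od b (2 ^ (2 * Λ)), win L (s * h) (h * x)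

lemma BM_NB (Λ b : ℕ) (s : ℝ) : BM (NB Λ b s) := BM.sum _ fun _ _ => BM.sum _ fun _ _ => (BM_win _ _).dil _

lemma NB_nonneg (Λ b : ℕ) (s x : ℝ) : 0 ≤ NB Λ b s x :=
  sum_nonneg fun _ _ => sum_nonneg fun _ _ => win_nonneg _ _ _

lemma NB_per (Λ b : ℕ) (s : ℝ) : Per (NB Λ b s) := fun x => by
  unfold NB; simp only [(win_per _ _).dil']

lemma count_odd {y s : ℝ} {b H : ℕ} (hs : 0 < s) (hb : 6 ≤ b) (h1 : 2 * s * b ≤ y) (h2 : y ≤ s * H) :
    y / (8 * s) ≤ ∑ h ∈ Od b H, ind (s * h < y ∧ y ≤ 2 * (s * h)) := by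
  obtain ⟨z, rfl⟩ : ∃ z, y = s * z := ⟨y / s, by field_simp⟩
  have b6 : (6 : ℝ) ≤ b := by exact_mod_cast hb
  have z1 : 2 * b ≤ z := by nlinarith
  have z2 : z ≤ H := le_of_mul_le_mul_left h2 hs
  have c1 := Nat.le_ceil (z / 4)
  have c2 := Nat.ceil_lt_add_one (by linarith : 0 ≤ z / 4)
  have c3 := Nat.le_ceil ((z - 1) / 2)
  refine le_trans ?_ (sum_le_inj (S := Ico ⌈z / 4⌉₊ ⌈(z - 1) / 2⌉₊) (F := fun _ => 1) (fun i => 2 * i + 1)
    (fun i hi => ?_) (fun i _ j _ e => by simpa using e) (fun i hi => ?_) fun _ _ => ind_nonneg _)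
  · have : ⌈z / 4⌉₊ ≤ ⌈(z - 1) / 2⌉₊ := Nat.ceil_mono (by linarith)
    rw [sum_const, Nat.card_Ico, nsmul_eq_mul, Nat.cast_sub this, mul_one,
      show s * z / (8 * s) = z / 8 by field_simp]
    linarith
  all_goals
    obtain ⟨i1, i2⟩ := mem_Ico.1 hi
    have i3 := Nat.ceil_le.1 i1
    have i4 := Nat.lt_ceil.1 i2
  · refine mem_Od.2 ⟨⟨?_, ?_⟩, odd_two_mul_add_one i⟩
    · have : (b : ℝ) ≤ 2 * i + 1 := by linarith
      exact_mod_cast this
    · have : (2 * i + 1 : ℝ) ≤ H := by linarith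
      exact_mod_cast this
  · rw [ind_pos]; push_cast; constructor <;> nlinarith

lemma NB_lower : ∃ D Λ0 : ℕ, 0 < D ∧ ∀ Λ, Λ0 ≤ Λ → ∀ s : ℝ, 1 ≤ s → s ≤ (Λ : ℝ) ^ 2 →
    Λ / s / 32 ≤ Ex (NB Λ (2 ^ (Λ / D)) s) := by
  obtain ⟨C, θ, c0, θ0, θ1, hC⟩ := Ex_sqrt_nP
  obtain ⟨n, hn⟩ := exists_pow_lt_of_lt_one (by norm_num : (0 : ℝ) < 1 / 2) θ1
  have t : Tendsto (fun Λ : ℕ => 2 * C ^ 2 * ((Λ : ℝ) ^ 2 * θ ^ Λ)) atTop (𝓝 (2 * C ^ 2 * 0)) :=
    (tendsto_pow_const_mul_const_pow_of_abs_lt_one 2 (by rwa [abs_of_pos θ0])).const_mul _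
  obtain ⟨Λ0, h0⟩ := eventually_atTop.1 (t.eventually_le_const (u := 1 / 16) (by norm_num))
  refine ⟨n + 1, max Λ0 (3 * (n + 1)), by omega, fun Λ hΛ s s1 s2 => ?_⟩
  have s0 : 0 < s := by linarith
  set u := Λ / (n + 1) with hu
  have u3 : 3 ≤ u := (Nat.le_div_iff_mul_le (by omega)).2 (by omega)
  have u4 : (n + 1) * u ≤ Λ := Nat.mul_div_le _ _
  have b6 : 6 ≤ 2 ^ u := le_trans (by norm_num) (Nat.pow_le_pow_right two_pos u3)
  set T : ℝ := 2 * s * (2 ^ u : ℕ) with hT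
  have T0 : 0 < T := by positivity
  unfold NB
  rw [Ex_sumB _ fun _ _ => BM.sum _ fun _ _ => (BM_win _ _).dil _]
  refine le_trans (le_of_eq ?_) (card_nsmul_le_sum _ _ (1 / s / 32) fun L hL => ?_)
  · rw [Nat.card_Ico, show 2 * Λ - Λ = Λ by omega, nsmul_eq_mul]; ring
  obtain ⟨l1, l2⟩ := mem_Ico.1 hL
  have a1 : √T * Ex (fun x => √(nP L x)) ≤ 1 / 4 := by
    refine (mul_le_mul_of_nonneg_left (hC L) (sqrt_nonneg _)).trans (le_of_sq (by norm_num) ?_)
    have f1 : (2 : ℝ) ^ u * θ ^ Λ ≤ 1 := by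
      calc _ ≤ (2 : ℝ) ^ u * (θ ^ n) ^ u := by
            rw [← pow_mul]; gcongr _ * ?_; exact pow_le_pow_of_le_one θ0.le θ1.le (by nlinarith)
        _ ≤ _ := by rw [← mul_pow]; exact pow_le_one₀ (by positivity) (by linarith)
    have f2 : θ ^ L ≤ θ ^ Λ := pow_le_pow_of_le_one θ0.le θ1.le l1
    rw [mul_pow, sq_sqrt T0.le, hT]
    push_cast
    calc _ ≤ 2 * (Λ : ℝ) ^ 2 * 2 ^ u * (C * θ ^ Λ) ^ 2 := by gcongr
      _ = 2 * C ^ 2 * ((Λ : ℝ) ^ 2 * θ ^ Λ) * (2 ^ u * θ ^ Λ) := by ring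
      _ ≤ 1 / 16 * 1 := by gcongr; exact h0 Λ (by omega)
      _ = _ := by norm_num
  have bs : BM fun x => √(nP L x) := BM.of_per (by fun_prop) fun x => congrArg sqrt (nP_per L x)
  rw [Ex_sumB _ fun _ _ => (BM_win _ _).dil _, sum_congr rfl fun h hh =>
    Ex_dilB (win_per _ _) (BM_win _ _) (mem_Od.1 hh).2.pos.ne', ← Ex_sumB _ fun _ _ => BM_win _ _]
  calc _ ≤ 1 / (8 * s) * (Ex (nP L) + -√T * Ex fun x => √(nP L x)) := by
        rw [show 1 / s / 32 = 1 / (8 * s) * (1 / 4) by field_simp; norm_num]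
        gcongr; linarith [half_le_Ex_nP L]
    _ ≤ _ := by
        rw [← Ex_smul, ← Ex_addB (BM_nP L) (bs.smul _), ← Ex_smul]
        refine Ex_monoB (((BM_nP L).add (bs.smul _)).smul _) (BM.sum _ fun _ _ => BM_win _ _) fun x => ?_
        have y0 := nP_nonneg L x
        rcases le_total T (nP L x) with d | d
        · refine le_trans ?_ (count_odd s0 b6 d ((nP_le L x).trans ?_))
          · rw [one_div_mul_eq_div]; gcongr
            nlinarith [sqrt_nonneg T, sqrt_nonneg (nP L x)]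
          · push_cast
            exact (pow_le_pow_right₀ (by norm_num) l2.le).trans (le_mul_of_one_le_left (by positivity) s1)
        · refine le_trans (mul_nonpos_of_nonneg_of_nonpos (by positivity) ?_)
            (sum_nonneg fun _ _ => win_nonneg _ _ _)
          nlinarith [mul_le_mul_of_nonneg_right (sqrt_le_sqrt d) (sqrt_nonneg (nP L x)), mul_self_sqrt y0]

lemma diag_le (L L' H : ℕ) {s : ℝ} (hs : 0 < s) :
    ∑ p ∈ (Od 1 H ×ˢ Od 1 H).filter (fun p => ¬p.1 ≠ p.2),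
      Ex (fun x => win L (s * p.1) (p.1 * x) * win L' (s * p.2) (p.2 * x)) ≤
      Ex (fun x => √(nP L x * nP L' x)) / s := by
  classical
  have pf : Per fun x => √(nP L x * nP L' x) := fun x => by simp only; rw [nP_per, nP_per]
  have bf : BM fun x => √(nP L x * nP L' x) := BM.of_per (by fun_prop) pf
  refine le_trans (sum_le_inj (U := Od 1 H) (G := fun h => Ex fun x => ind (s * h < √(nP L x * nP L' x)))
    (fun p => p.1) (fun p hp => (mem_product.1 (mem_filter.1 hp).1).1)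
    (fun p hp r hr e => ?_) (fun p hp => ?_) fun _ _ => Ex_nonneg fun _ => ind_nonneg _) ?_
  · have a := not_not.1 (mem_filter.1 hp).2
    have b := not_not.1 (mem_filter.1 hr).2
    exact Prod.ext e (a.symm.trans (e.trans b))
  · have h0 := (mem_Od.1 (mem_product.1 (mem_filter.1 hp).1).1).2.pos
    rw [← not_not.1 (mem_filter.1 hp).2,
      Ex_dilB (f := fun x => win L (s * p.1) x * win L' (s * p.1) x)
        (fun x => by simp only; rw [win_per, win_per]) ((BM_win _ _).mul (BM_win _ _)) h0.ne']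
    refine Ex_monoB ((BM_win _ _).mul (BM_win _ _)) (BM_lt bf _) fun x => ?_
    unfold win
    by_cases w1 : s * p.1 < nP L x ∧ nP L x ≤ 2 * (s * p.1)
    · rw [ind_pos w1, one_mul]
      refine ind_le_of (ind_nonneg _) fun w2 => (ind_pos (lt_sqrt_of_sq_lt ?_)).ge
      rw [sq]
      exact mul_lt_mul'' w1.1 w2.1 (by positivity) (by positivity)
    · rw [ind_neg w1, zero_mul]; exact ind_nonneg _
  · rw [← Ex_sumB _ fun _ _ => BM_lt bf _, ← one_div_mul_eq_div, ← Ex_smul]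
    refine Ex_monoB (BM.sum _ fun _ _ => BM_lt bf _) (bf.smul _) fun x => ?_
    rw [one_div_mul_eq_div]
    exact sum_ind_le (sqrt_nonneg _) hs _ fun h hh => (mem_Od.1 hh).2.pos

lemma NB_second : ∃ (C : ℝ) (Λ0 : ℕ), 0 < C ∧ ∀ Λ b, Λ0 ≤ Λ → ∀ s : ℝ, 0 < s →
    Λ * √(log (Λ + 1)) ≤ s → Ex (fun x => NB Λ b s x * NB Λ b s x) ≤ C * (Λ / s) := by
  classical
  obtain ⟨C, θ, c0, θ0, θ1, hC⟩ := Ex_sqrt_nP
  obtain ⟨C1, Λ0, c1, h1⟩ := pair_bound
  have θ2 : 0 < (1 - θ)⁻¹ := inv_pos.2 (by linarith)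
  refine ⟨2 * C1 + 4 * C * (1 - θ)⁻¹, Λ0, by positivity, fun Λ b h0 s s0 hs => ?_⟩
  set I := Ico Λ (2 * Λ)
  set H := 2 ^ (2 * Λ) with hH
  set g : ℕ → ℕ → ℝ := fun L L' => if L ≤ L' then θ ^ (L' - L) else 0 with hg
  have g0 : ∀ L L', 0 ≤ g L L' := fun L L' => by simp only [hg]; positivity
  have g1 : ∀ L L', Ex (fun x => √(nP L x * nP L' x)) ≤ 2 * C * (g L L' + g L' L) := by
    have : ∀ L L', L ≤ L' → Ex (fun x => √(nP L x * nP L' x)) ≤ 2 * C * g L L' := fun L L' h => by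
      obtain ⟨M, rfl⟩ := Nat.exists_eq_add_of_le h
      simp only [hg, if_pos h, Nat.add_sub_cancel_left]
      linarith [Ex_nP_mul L M, hC M]
    intro L L'
    rcases le_total L L' with h | h
    · nlinarith [this L L' h, g0 L' L]
    · simp only [mul_comm (nP L _)]; nlinarith [this L' L h, g0 L L']
  have cI : (I.card : ℝ) = Λ := by rw [Nat.card_Ico, show 2 * Λ - Λ = Λ by omega]
  have g2 : ∑ L ∈ I, ∑ L' ∈ I, g L L' ≤ Λ * (1 - θ)⁻¹ := by
    refine (sum_le_card_nsmul _ _ (1 - θ)⁻¹ fun L _ => ?_).trans (by rw [nsmul_eq_mul, cI])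
    simp only [hg]
    rw [← sum_filter]
    refine le_trans (sum_le_inj (fun L' => L' - L) (fun L' h => ?_) (fun a ha b hb e => ?_) (fun _ _ => le_rfl)
      fun _ _ => by positivity) (geom_le θ0.le θ1 (2 * Λ))
    · have := (mem_Ico.1 (mem_filter.1 h).1).2
      exact mem_range.2 (by omega)
    · have := (mem_filter.1 ha).2
      have := (mem_filter.1 hb).2
      simp only at e; omega
  have e1 : ∀ x, NB Λ b s x ≤ ∑ L ∈ I, NW L H s x := fun x => sum_le_sum fun L _ =>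
    sum_le_sum_of_subset_of_nonneg (Od_sub _ _) fun _ _ _ => win_nonneg _ _ _
  have bN : BM fun x => ∑ L ∈ I, NW L H s x := BM.sum _ fun _ _ => BM_NW _ _ _
  refine (Ex_monoB ((BM_NB _ _ _).mul (BM_NB _ _ _)) (bN.mul bN) fun x =>
    mul_self_le_mul_self (NB_nonneg _ _ _ _) (e1 x)).trans ?_
  rw [Ex_sum_mul _ _ (fun _ _ => BM_NW _ _ _) (fun _ _ => BM_NW _ _ _), sum_product]
  calc _ ≤ ∑ L ∈ I, ∑ L' ∈ I, (C1 * √(log (Λ + 1)) / (s * s) + C1 / (Λ + 1) / s
        + 2 * C / s * (g L L' + g L' L)) := sum_le_sum fun L hL => sum_le_sum fun L' hL' => by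
        have a := mem_Ico.1 hL
        have a' := mem_Ico.1 hL'
        have p := h1 Λ L L' H h0 a.1 a.2.le a'.1 a'.2.le (Nat.pow_le_pow_right two_pos (by omega)) s s s0 s0
        rw [mul_self_sqrt s0.le] at p
        simp only [NW]
        rw [Ex_sum_mul _ _ (fun _ _ => (BM_win _ _).dil _) fun _ _ => (BM_win _ _).dil _,
          ← sum_filter_add_sum_filter_not _ (fun p => p.1 ≠ p.2), div_mul_eq_mul_div]
        exact add_le_add p ((diag_le L L' H s0).trans (div_le_div_of_nonneg_right (g1 L L') s0.le))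
    _ = C1 * (Λ / s) * (Λ * √(log (Λ + 1)) / s + Λ / (Λ + 1)) +
        2 * C / s * (∑ L ∈ I, ∑ L' ∈ I, g L L' + ∑ L ∈ I, ∑ L' ∈ I, g L L') := by
        nth_rw 2 [sum_comm]
        simp only [sum_add_distrib, sum_const, nsmul_eq_mul, cI, ← mul_sum]
        rw [sum_comm (s := I) (t := I) (f := fun a b => g b a)]
        ring
    _ ≤ C1 * (Λ / s) * (1 + 1) + 2 * C / s * (Λ * (1 - θ)⁻¹ + Λ * (1 - θ)⁻¹) := by
        gcongr
        · rwa [div_le_one s0]
        · rw [div_le_one (by positivity)]; linarith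
    _ = _ := by ring

lemma NB_far {Λ Λ' b b' : ℕ} (hb : 4 ^ (2 * Λ) ≤ b') {s s' : ℝ} (hs : 8 ≤ s) (hs' : 0 < s') :
    Ex (fun x => NB Λ b s x * NB Λ' b' s' x) ≤ 8 * (Λ / s * (Λ' / s')) := by
  have s0 : 0 < s := by linarith
  set w : ℝ → ℝ := fun x => ∑ L ∈ Ico Λ (2 * Λ), ∑ h ∈ Od 1 (2 ^ (2 * Λ)), ind (s / 2 * h < nP L (h * x))
    with hw
  have b1 : ∀ L h : ℕ, BM fun x => ind (s / 2 * h < nP L (h * x)) := fun _ _ => BM_lt ((BM_nP _).dil _) _
  have bw : BM w := BM.sum _ fun _ _ => BM.sum _ fun _ _ => b1 _ _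
  have cI : ∀ Λ : ℕ, ((Ico Λ (2 * Λ)).card : ℝ) = Λ := fun Λ => by rw [Nat.card_Ico, show 2 * Λ - Λ = Λ by omega]
  have e1 : Ex w ≤ 4 * (Λ / s) := by
    rw [hw, Ex_sumB _ fun _ _ => BM.sum _ fun _ _ => b1 _ _]
    refine (sum_le_card_nsmul _ _ (2 / (s / 2)) fun L _ => ?_).trans (le_of_eq ?_)
    · rw [Ex_sumB _ fun _ _ => b1 _ _]; exact big_sum _ _ (by positivity)
    · rw [nsmul_eq_mul, cI]; field_simp; norm_num
  have e2 : ∀ (L' : ℕ), ∀ h' ∈ Od b' (2 ^ (2 * Λ')), Ex (fun x => NB Λ b s x * win L' (s' * h') (h' * x)) ≤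
      4 * (Λ / s) * Ex (fun x => ind (s' * h' < nP L' (h' * x))) := fun L' h' hh => by
    obtain ⟨⟨a1, -⟩, a2⟩ := mem_Od.1 hh
    refine (far (BM_NB _ _ _) bw (BM_win _ _) (NB_per _ _ _) (fun x => ?_) (win_per _ _)
      (win_nonneg _ _) a2.pos fun x y hxy => ?_).trans ?_
    · simp only [hw, (nP_per _).dil']
    · refine sum_le_sum fun L hL => (sum_le_sum_of_subset_of_nonneg (Od_sub _ _) fun _ _ _ =>
        win_nonneg _ _ _).trans (sum_le_sum fun h hh => ind_le_of (ind_nonneg _) fun c => (ind_pos ?_).ge)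
      have h0 : (0 : ℝ) < h := by exact_mod_cast (mem_Od.1 hh).2.pos
      have r := pow_pos rho_pos L
      have l1 := P_lip L (h * x) (h * y)
      have l2 : (4 : ℝ) ^ L * |x - y| ≤ 1 := by
        have : ((4 ^ L : ℕ) : ℝ) ≤ h' := by
          exact_mod_cast (Nat.pow_le_pow_right (by norm_num) (mem_Ico.1 hL).2.le).trans (hb.trans a1)
        rw [le_div_iff₀ (by exact_mod_cast a2.pos)] at hxy
        push_cast at this
        nlinarith [abs_nonneg (x - y)]
      rw [← mul_sub, abs_mul, abs_of_pos h0] at l1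
      have l3 : P L (h * x) - P L (h * y) ≤ 4 * h * rho ^ L := by
        calc _ ≤ π * h * (4 ^ L * |x - y|) := (le_abs_self _).trans (l1.trans_eq (by ring))
          _ ≤ 4 * h * rho ^ L := by gcongr; exacts [pi_le_four, l2.trans (one_le_pow₀ one_le_rho)]
      have c1 := c.1
      unfold nP at c1 ⊢
      rw [lt_div_iff₀ r] at c1 ⊢
      nlinarith [mul_le_mul_of_nonneg_right hs (mul_pos h0 r).le]
    · rw [← Ex_dilB (win_per _ _) (BM_win _ _) a2.pos.ne']
      exact mul_le_mul e1 (Ex_monoB ((BM_win _ _).dil _) (BM_lt ((BM_nP _).dil _) _) fun x =>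
        win_le_ind _ _ _) (Ex_nonneg fun _ => win_nonneg _ _ _) (by positivity)
  simp only [NB.eq_1 Λ', mul_sum]
  rw [Ex_sumB _ fun _ _ => BM.sum _ fun _ _ => (BM_NB _ _ _).mul ((BM_win _ _).dil _)]
  refine (sum_le_card_nsmul _ _ (4 * (Λ / s) * (2 / s')) fun L' _ => ?_).trans (le_of_eq ?_)
  · rw [Ex_sumB _ fun _ _ => (BM_NB _ _ _).mul ((BM_win _ _).dil _)]
    refine (sum_le_sum (e2 L')).trans ?_
    rw [← mul_sum]
    exact mul_le_mul_of_nonneg_left ((sum_le_sum_of_subset_of_nonneg (Od_sub _ _) fun _ _ _ =>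
      Ex_nonneg fun _ => ind_nonneg _).trans (big_sum _ _ hs')) (by positivity)
  · rw [nsmul_eq_mul, cI]; ring

lemma summable_of_ap {f : ℕ → ℝ} (h0 : ∀ k, 0 ≤ f k) (ha : Antitone f) {G : ℕ} (hG : 0 < G)
    (h : Summable fun j => f (G * j)) : Summable f := by
  have k : ∀ N, ∑ n ∈ range (G * N), f n ≤ G * ∑ j ∈ range N, f (G * j) := fun N => by
    induction N with
    | zero => simp
    | succ N ih =>
      rw [mul_add_one, sum_range_add, sum_range_succ, mul_add]
      exact add_le_add ih ((sum_le_card_nsmul _ _ (f (G * N)) fun r _ => ha (Nat.le_add_right _ _)).trans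
        (by simp))
  refine summable_of_sum_range_le h0 (c := G * ∑' j, f (G * j)) fun N => ?_
  refine (sum_le_sum_of_subset_of_nonneg (range_subset_range.2 (Nat.le_mul_of_pos_left N hG))
    fun _ _ _ => h0 _).trans ((k N).trans ?_)
  gcongr
  exact h.sum_le_tsum _ fun _ _ => h0 _

lemma summable_of_min {u : ℕ → ℝ} (h0 : ∀ k, 0 ≤ u k) (ha : Antitone u)
    (h : Summable fun k => min (u k) (1 / (k + 1))) : Summable u := by
  rw [← summable_condensed_iff_of_nonneg h0 fun m n _ e => ha e]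
  have h1 := (summable_condensed_iff_of_nonneg (fun k => le_min (h0 k) (by positivity))
    fun m n _ e => min_le_min (ha e) (by gcongr)).2 h
  refine h1.congr_atTop ?_
  filter_upwards [h1.tendsto_atTop_zero.eventually_lt_const (u := 1 / 2) (by norm_num)] with k hk
  rw [min_eq_left]
  by_contra c
  rw [min_eq_right (not_le.1 c).le, mul_one_div, div_lt_iff₀ (by positivity)] at hk
  push_cast at hk
  linarith [one_le_pow₀ (by norm_num : (1 : ℝ) ≤ 2) (n := k)]

/-- A large value of some dilate at a level at least `n`. -/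
def Hit (φ : ℝ → ℝ) (n : ℕ) (x : ℝ) : Prop :=
  ∃ L : ℕ, n ≤ L ∧ ∃ h : ℕ, 0 < h ∧ (n + 1) * (L * φ (log L)) * h < nP L (h * x)

lemma Hit_meas (φ : ℝ → ℝ) (n : ℕ) : Measurable (Hit φ n) :=
  Measurable.exists fun _ => measurable_const.and (Measurable.exists fun _ => measurable_const.and
    (measurableSet_setOfPred.1 (measurableSet_lt measurable_const ((BM_nP _).dil _).1)))

lemma hit_prob : ∃ δ : ℝ, 0 < δ ∧ ∀ φ : ℝ → ℝ, Monotone φ → (∀ x, 0 < φ x) →
    (¬Summable fun n : ℕ => 1 / φ n) → ∀ n, δ ≤ mu.real {x | Hit φ n x} := by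
  classical
  obtain ⟨D, Λ1, D0, h1⟩ := NB_lower
  obtain ⟨C, Λ2, c0, h2⟩ := NB_second
  refine ⟨(1 / 32) ^ 2 / (2 * (C + 8)), by positivity, fun φ hm hp hs n => ?_⟩
  set u : ℕ → ℝ := fun k => 1 / (2 * (n + 1) * φ (k + 1 : ℕ)) with hu
  have u0 : ∀ k, 0 < u k := fun k => by have := hp (k + 1 : ℕ); positivity
  have u1 : Antitone u := fun k l e => by
    have := hp (k + 1 : ℕ)
    simp only [hu]; gcongr; exact hm (by gcongr)
  set a : ℕ → ℝ := fun k => min (u k) (1 / (k + 1)) with ha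
  have a0 : ∀ k, 0 < a k := fun k => lt_min (u0 k) (by positivity)
  have a1 : ∀ k, a k * (k + 1) ≤ 1 := fun k => by
    rw [← le_div_iff₀ (by positivity)]; exact min_le_right _ _
  set Λ : ℕ → ℕ := fun j => 2 ^ (4 * D * j) with hΛ
  have l0 : ∀ j, j < Λ j := fun j => lt_of_le_of_lt (Nat.le_mul_of_pos_left j (by omega)) Nat.lt_two_pow_self
  have l1 : ∀ j, (0 : ℝ) < Λ j := fun j => by simp only [hΛ]; positivity
  set s : ℕ → ℝ := fun j => Λ j / a (4 * D * j) with hs'
  have s0 : ∀ j, 0 < s j := fun j => div_pos (l1 j) (a0 _)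
  have s1 : ∀ j, Λ j / s j = a (4 * D * j) := fun j => by
    have := l1 j; have := a0 (4 * D * j); simp only [hs']; field_simp
  have s2 : ∀ j, Λ j * ((4 * D * j : ℕ) + 1 : ℝ) ≤ s j := fun j => by
    simp only [hs']; rw [le_div_iff₀ (a0 _), mul_assoc, mul_comm _ (a _)]
    exact mul_le_of_le_one_right (l1 j).le (a1 _)
  have s3 : ∀ j, (Λ j : ℝ) ≤ s j := fun j => le_trans (le_mul_of_one_le_right (l1 j).le
    (le_add_of_nonneg_left (Nat.cast_nonneg _))) (s2 j)
  set good : ℕ → Prop := fun j => Λ1 + Λ2 + 8 ≤ j ∧ 1 / Λ j ≤ a (4 * D * j) with hg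
  have s8 : ∀ j, good j → 8 ≤ s j := fun j g => le_trans (by
    have := l0 j; have := g.1; exact_mod_cast (by omega)) (s3 j)
  have fr : ∀ j l, j < l → good j → good l → Ex (fun x => NB (Λ j) (2 ^ (Λ j / D)) (s j) x *
      NB (Λ l) (2 ^ (Λ l / D)) (s l) x) ≤ (C + 8) * (a (4 * D * j) * a (4 * D * l)) := fun j l e g g' => by
    refine (NB_far ?_ (s8 j g) (s0 l)).trans ?_
    · rw [show 4 = 2 ^ 2 by norm_num, ← pow_mul]
      refine Nat.pow_le_pow_right two_pos ((Nat.le_div_iff_mul_le D0).2 ?_)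
      have : 4 * D < 2 ^ (4 * D) := Nat.lt_two_pow_self
      calc _ = Λ j * (4 * D) := by ring
        _ ≤ 2 ^ (4 * D * j) * 2 ^ (4 * D) := by gcongr
        _ ≤ _ := by rw [← pow_add]; exact Nat.pow_le_pow_right two_pos (by nlinarith)
    · rw [s1, s1]; nlinarith [mul_pos c0 (mul_pos (a0 (4 * D * j)) (a0 (4 * D * l)))]
  refine pz (X := fun j x => if good j then NB (Λ j) (2 ^ (Λ j / D)) (s j) x else 0)
    (a := fun j => if good j then a (4 * D * j) else 0) (by norm_num) (by positivity) (fun j => ?_)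
    (fun j x => ?_) (fun j => ?_) (fun c => hs ?_) (fun j => ?_) (fun j => ?_) (fun j l e => ?_)
    (measurableSet_setOfPred.2 (Hit_meas φ n)) n fun j x hj c => ?_
  · split_ifs; exacts [BM_NB _ _ _, BM.const 0]
  · split_ifs; exacts [NB_nonneg _ _ _ _, le_rfl]
  · split_ifs; exacts [(a0 _).le, le_rfl]
  · have e1 : Summable fun j => a (4 * D * j) := by
      refine (c.add summable_geometric_two).of_norm_bounded_eventually_nat ?_
      filter_upwards [eventually_ge_atTop (Λ1 + Λ2 + 8)] with j hj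
      rw [norm_eq_abs, abs_of_pos (a0 _)]
      split_ifs with g
      · exact le_add_of_nonneg_right (by positivity)
      · rw [zero_add, one_div_pow]
        refine (not_le.1 fun d => g ⟨hj, d⟩).le.trans ?_
        simp only [hΛ]; push_cast
        gcongr; exacts [by norm_num, Nat.le_mul_of_pos_left j (by omega)]
    have e2 := summable_of_min (fun k => (u0 k).le) u1 (summable_of_ap (fun k => (a0 k).le)
      (fun k l e => min_le_min (u1 e) (by gcongr)) (by omega) e1)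
    rw [← summable_nat_add_iff 1]
    refine (e2.mul_left (2 * ((n : ℝ) + 1))).congr fun k => ?_
    have := hp (k + 1 : ℕ)
    simp only [hu]; field_simp
  · split_ifs with g
    · rw [← s1, one_div_mul_eq_div]
      refine h1 _ (by have := l0 j; have := g.1; omega) _ (by linarith [s8 j g]) ?_
      have := g.2
      rw [div_le_iff₀ (l1 j)] at this
      simp only [hs']; rw [div_le_iff₀ (a0 _)]
      nlinarith [l1 j]
    · simp [Ex]
  · split_ifs with g
    · refine (h2 _ _ (by have := l0 j; have := g.1; omega) _ (s0 j) (le_trans ?_ (s2 j))).trans ?_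
      · refine mul_le_mul_of_nonneg_left ?_ (l1 j).le
        have : log (Λ j + 1) ≤ (4 * D * j : ℕ) + 1 := by
          refine (log_le_log (by positivity) (?_ : _ ≤ (2 : ℝ) ^ (4 * D * j + 1))).trans ?_
          · simp only [hΛ]; push_cast; rw [pow_succ]
            linarith [one_le_pow₀ (by norm_num : (1 : ℝ) ≤ 2) (n := 4 * D * j)]
          · rw [log_pow, Nat.cast_succ]
            exact mul_le_of_le_one_right (by positivity) (by linarith [log_two_lt_d9])
        rw [sqrt_le_left (by positivity)]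
        nlinarith [Nat.cast_nonneg (α := ℝ) (4 * D * j)]
      · rw [s1]; nlinarith [a0 (4 * D * j)]
    · simp [Ex]
  · split_ifs with g g'
    · rcases lt_or_gt_of_ne e with e | e
      · exact fr j l e g g'
      · simpa only [mul_comm] using fr l j e g' g
    all_goals simp [Ex]
  · split_ifs at c with g
    · obtain ⟨L, hL, c⟩ := exists_ne_zero_of_sum_ne_zero c.ne'
      obtain ⟨h, hh, c⟩ := exists_ne_zero_of_sum_ne_zero c
      obtain ⟨m1, m2⟩ := mem_Ico.1 hL
      refine ⟨L, by have := l0 j; omega, h, (mem_Od.1 hh).2.pos, lt_of_le_of_lt ?_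
        (not_not.1 fun d => c (ind_neg fun w => d w.1))⟩
      refine mul_le_mul_of_nonneg_right ?_ (Nat.cast_nonneg _)
      have m3 : (L : ℝ) ≤ 2 * Λ j := by exact_mod_cast m2.le
      have m4 : φ (log L) ≤ φ (4 * D * j + 1 : ℕ) := hm (by
        refine (log_le_log (by have := l0 j; exact_mod_cast (by omega)) m3).trans ?_
        simp only [hΛ]; rw [Nat.cast_pow, Nat.cast_ofNat, ← pow_succ', log_pow]
        exact mul_le_of_le_one_right (by positivity) (by linarith [log_two_lt_d9]))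
      have m5 : a (4 * D * j) ≤ u (4 * D * j) := min_le_left _ _
      have := hp (log L)
      have := hp (4 * D * j + 1 : ℕ)
      simp only [hs']; rw [le_div_iff₀ (a0 _)]
      calc _ ≤ (n + 1) * (2 * Λ j * φ (4 * D * j + 1 : ℕ)) * u (4 * D * j) := by have := a0 (4 * D * j); gcongr
        _ = _ := by simp only [hu]; field_simp
    · exact absurd c (lt_irrefl _)

theorem lower {κ : ℝ} (κ0 : 0 ≤ κ) (hκ : (2 : ℝ) ^ κ = rho) {φ : ℝ → ℝ} (hm : Monotone φ)
    (hp : ∀ x, 0 < φ x) (hs : ¬Summable fun n : ℕ => 1 / φ n) :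
    ∀ᵐ α : ℝ, ∀ C : ℝ, ∃ᶠ N : ℕ in atTop,
      C * ((N : ℝ) ^ κ * log N * φ (log (log N))) ≤ N * disc α N := by
  obtain ⟨δ, δ0, hδ⟩ := hit_prob
  obtain ⟨L0, hL0⟩ := disc_lower
  have anti : ∀ m n x, m ≤ n → Hit φ n x → Hit φ m x := fun m n x e ⟨L, a, h, b, c⟩ =>
    ⟨L, e.trans a, h, b, lt_of_le_of_lt (by have := hp (log L); gcongr) c⟩
  have key := zero_one (p := fun x => ∀ n, Hit φ n x) (fun x => by simp only [Hit, (nP_per _).dil'])
    (measurableSet_setOfPred.2 (Measurable.forall (Hit_meas φ))) (fun x hx n => by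
      obtain ⟨L, a, h, b, c⟩ := hx (2 * n + 1)
      refine ⟨L, by omega, 2 * h, by omega, ?_⟩
      push_cast at c ⊢
      rw [show 2 * (h : ℝ) * x = h * (2 * x) by ring]; linarith) (by
      rw [Set.ofPred_forall, Antitone.measure_iInter (s := fun n => {x | Hit φ n x}) (fun m n e x => anti m n x e)
        (fun n => (measurableSet_setOfPred.2 (Hit_meas φ n)).nullMeasurableSet) ⟨0, measure_ne_top _ _⟩]
      refine ((ENNReal.ofReal_pos.2 δ0).trans_le (le_iInf fun n => ?_)).ne'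
      rw [← ofReal_measureReal]
      exact ENNReal.ofReal_le_ofReal (hδ φ hm hp hs n))
  filter_upwards [key] with α hα C
  refine frequently_atTop.2 fun N0 => ?_
  obtain ⟨n1, hn1⟩ := exists_nat_ge (max (64 * C) (1 / φ 0))
  obtain ⟨L', a, h, b, c⟩ := hα (n1 + N0 + L0 + 3)
  obtain ⟨L, rfl⟩ : ∃ L, L' = L + 1 := ⟨L' - 1, by omega⟩
  have e0 : L < 2 ^ L := Nat.lt_two_pow_self
  refine ⟨2 ^ L - 1, by omega, ?_⟩
  have n2 : (n1 : ℝ) ≤ (n1 + N0 + L0 + 3 : ℕ) + 1 := by exact_mod_cast (by omega)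
  generalize ((n1 + N0 + L0 + 3 : ℕ) : ℝ) + 1 = m at c n2
  have r := pow_pos rho_pos (L + 1)
  have h1 : (1 : ℝ) ≤ h := by exact_mod_cast b
  have l1 : (1 : ℝ) ≤ (L + 1 : ℕ) := by exact_mod_cast (by omega)
  have p0 := hp 0
  have p1 : φ 0 ≤ φ (log (L + 1 : ℕ)) := hm (log_nonneg l1)
  have p2 := hp (log (L + 1 : ℕ))
  have m1 : 1 / φ 0 ≤ m := (le_max_right _ _).trans (hn1.trans n2)
  have m2 : 64 * C ≤ m := (le_max_left _ _).trans (hn1.trans n2)
  have m0 : 0 < m := lt_of_lt_of_le (by positivity) m1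
  rw [nP, lt_div_iff₀ r] at c
  have d := hL0 L (by omega) α h b (le_trans (le_mul_of_one_le_left r.le (by
    calc (1 : ℝ) = 1 / φ 0 * (1 * φ 0) * 1 := by field_simp
      _ ≤ _ := by gcongr)) c.le)
  have N2 : (2 : ℝ) ≤ (2 ^ L - 1 : ℕ) := by exact_mod_cast (by omega)
  have N3 : ((2 ^ L - 1 : ℕ) : ℝ) ≤ 2 ^ L := by exact_mod_cast Nat.sub_le _ _
  generalize ((2 ^ L - 1 : ℕ) : ℝ) = N at *
  have g0 : 0 < log N := log_pos (by linarith)
  have g1 : log N ≤ (L + 1 : ℕ) := by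
    refine (log_le_log (by linarith) N3).trans ?_
    rw [log_pow]; push_cast
    nlinarith [log_two_lt_d9, Nat.cast_nonneg (α := ℝ) L]
  have g2 : N ^ κ ≤ rho ^ (L + 1) := by
    refine le_trans ?_ (pow_le_pow_right₀ one_le_rho (Nat.le_succ L))
    rw [← hκ, ← rpow_natCast, ← rpow_mul (by norm_num), mul_comm, rpow_mul (by norm_num), rpow_natCast]
    exact rpow_le_rpow (by linarith) N3 κ0
  have g3 := hp (log (log N))
  have g4 : (0 : ℝ) < N ^ κ := rpow_pos_of_pos (by linarith) _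
  refine le_of_mul_le_mul_left (le_trans ?_ (c.le.trans d)) (by positivity)
  calc _ = 64 * C * (log N * φ (log (log N))) * h * N ^ κ := by ring
    _ ≤ _ := by gcongr; exact hm (log_le_log g0 g1)

end Pool.Agent.MP_d431d3_nt
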