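import Pool.Agent.Lib.MP_d431d3_nt.Cov

/-! Pair correlations of the events that a dilate of the normalised product lies in a window. -/

namespace Pool.Agent.MP_d431d3_nt

open Real Finset MeasureTheory Filter Topology

/-- Bounded measurable functions. -/
def BM (f : ℝ → ℝ) : Prop := Measurable f ∧ ∃ C, ∀ x, |f x| ≤ C

lemma BM.ii {f : ℝ → ℝ} (h : BM f) (a b : ℝ) : IntervalIntegrable f volume a b := by
  obtain ⟨m, C, hC⟩ := h
  refine (intervalIntegrable_const (c := C)).mono_fun' m.aestronglyMeasurable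
    (Eventually.of_forall fun x => hC x)

lemma BM.const (c : ℝ) : BM fun _ => c := ⟨measurable_const, |c|, fun _ => le_rfl⟩

lemma BM.mul {f g : ℝ → ℝ} (hf : BM f) (hg : BM g) : BM fun x => f x * g x := by
  obtain ⟨m, C, hC⟩ := hf
  obtain ⟨m', C', hC'⟩ := hg
  exact ⟨m.mul m', C * C', fun x => by
    rw [abs_mul]; exact mul_le_mul (hC x) (hC' x) (abs_nonneg _) ((abs_nonneg _).trans (hC x))⟩

lemma BM.add {f g : ℝ → ℝ} (hf : BM f) (hg : BM g) : BM fun x => f x + g x := by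
  obtain ⟨m, C, hC⟩ := hf
  obtain ⟨m', C', hC'⟩ := hg
  exact ⟨m.add m', C + C', fun x => (abs_add_le _ _).trans (add_le_add (hC x) (hC' x))⟩

lemma BM.smul (c : ℝ) {f : ℝ → ℝ} (hf : BM f) : BM fun x => c * f x := (BM.const c).mul hf

lemma BM.sq {f : ℝ → ℝ} (hf : BM f) : BM fun x => f x ^ 2 := by
  simpa only [pow_two] using hf.mul hf

lemma BM.sum {ι : Type*} (S : Finset ι) {f : ι → ℝ → ℝ} (h : ∀ i ∈ S, BM (f i)) :
    BM fun x => ∑ i ∈ S, f i x := by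
  classical
  induction S using Finset.induction_on with
  | empty => simpa using BM.const 0
  | insert a S ha ih =>
    simp only [sum_insert ha]
    exact (h a (mem_insert_self _ _)).add (ih fun i hi => h i (mem_insert_of_mem hi))

lemma BM.of_per {f : ℝ → ℝ} (hc : Continuous f) (hp : Per f) : BM f := by
  obtain ⟨C, hC⟩ := (isCompact_Icc (a := (0 : ℝ)) (b := 1)).exists_bound_of_continuousOn
    hc.continuousOn
  refine ⟨hc.measurable, C, fun x => ?_⟩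
  rw [← Int.fract_add_floor x, hp.int]
  exact hC _ ⟨Int.fract_nonneg x, (Int.fract_lt_one x).le⟩

lemma BM.dil {f : ℝ → ℝ} (hf : BM f) (a : ℝ) : BM fun x => f (a * x) := by
  obtain ⟨m, C, hC⟩ := hf
  exact ⟨m.comp (by fun_prop), C, fun x => hC _⟩

open Classical in
noncomputable def ind (p : Prop) : ℝ := if p then 1 else 0

lemma ind_nonneg (p : Prop) : 0 ≤ ind p := by unfold ind; split_ifs <;> norm_num

lemma ind_le (p : Prop) : ind p ≤ 1 := by unfold ind; split_ifs <;> norm_num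

lemma ind_pos {p : Prop} (h : p) : ind p = 1 := if_pos h

lemma ind_neg {p : Prop} (h : ¬p) : ind p = 0 := if_neg h

lemma ind_le_of {p : Prop} {a : ℝ} (h0 : 0 ≤ a) (h : p → 1 ≤ a) : ind p ≤ a := by
  by_cases hp : p
  · rw [ind_pos hp]; exact h hp
  · rw [ind_neg hp]; exact h0

lemma BM.ind {p : ℝ → Prop} (h : MeasurableSet {x | p x}) : BM fun x => ind (p x) := by
  classical
  refine ⟨?_, 1, fun x => by rw [abs_of_nonneg (ind_nonneg _)]; exact ind_le _⟩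
  unfold MP_d431d3_nt.ind
  exact Measurable.ite h measurable_const measurable_const

lemma Ex_monoB {f g : ℝ → ℝ} (hf : BM f) (hg : BM g) (h : ∀ x, f x ≤ g x) : Ex f ≤ Ex g :=
  intervalIntegral.integral_mono_on zero_le_one (hf.ii _ _) (hg.ii _ _) fun x _ => h x

lemma Ex_addB {f g : ℝ → ℝ} (hf : BM f) (hg : BM g) : Ex (fun x => f x + g x) = Ex f + Ex g :=
  intervalIntegral.integral_add (hf.ii _ _) (hg.ii _ _)

lemma Ex_sumB {ι : Type*} (S : Finset ι) {f : ι → ℝ → ℝ} (hf : ∀ i ∈ S, BM (f i)) :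
    Ex (fun x => ∑ i ∈ S, f i x) = ∑ i ∈ S, Ex (f i) :=
  intervalIntegral.integral_finsetSum fun i hi => (hf i hi).ii _ _

lemma Ex_dilB {f : ℝ → ℝ} (hp : Per f) (hf : BM f) {a : ℕ} (ha : a ≠ 0) :
    Ex (fun x => f (a * x)) = Ex f := Ex_dil hp hf.ii ha

/-- Indicator that the normalised product lies in `(s, 2 s]`. -/
noncomputable def win (L : ℕ) (s x : ℝ) : ℝ := ind (s < nP L x ∧ nP L x ≤ 2 * s)

lemma BM_win (L : ℕ) (s : ℝ) : BM (win L s) :=
  BM.ind ((measurableSet_lt measurable_const (continuous_nP L).measurable).inter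
    (measurableSet_le (continuous_nP L).measurable measurable_const))

lemma win_per (L : ℕ) (s : ℝ) : Per (win L s) := fun x => by unfold win; rw [nP_per]

lemma win_nonneg (L : ℕ) (s x : ℝ) : 0 ≤ win L s x := ind_nonneg _

lemma win_le (L : ℕ) (s x : ℝ) : win L s x ≤ 1 := ind_le _

section

variable {W W' : ℝ → ℝ} {ω ω' : ℝ → ℂ} {c A B η c' A' B' η' : ℝ}

lemma Maj.A_nonneg (m : Maj W ω c A B η) : 0 ≤ A := by simpa using m.sum_le 1 zero_le_one 0

lemma Maj.η_nonneg (m : Maj W ω c A B η) : 0 ≤ η :=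
  nonneg_of_mul_nonneg_left ((norm_nonneg _).trans (m.tail 1 (by norm_num))) (exp_pos _)

lemma Maj.BM_FW (m : Maj W ω c A B η) (L : ℕ) {s : ℝ} (hs : 0 < s) : BM (FW W L s) :=
  BM.of_per (m.cont_FW L hs) (FW_per W L s)

lemma Maj.win_le (m : Maj W ω c A B η) (hc : 0 < c) (L : ℕ) {s : ℝ} (hs : 0 < s) (x : ℝ) :
    win L s x ≤ FW W L s x / c := by
  refine ind_le_of (div_nonneg (m.FW_nonneg L hs x) hc.le) fun h => ?_
  rw [le_div_iff₀ hc, one_mul]
  exact m.lower _ (by rw [le_div_iff₀ hs]; linarith [h.1]) (by rw [div_le_iff₀ hs]; exact h.2)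

lemma Maj.sum_Ex (m : Maj W ω c A B η) (L : ℕ) {s : ℝ} (hs : 0 < s) (H : ℕ) :
    ∑ h ∈ Od 1 H, Ex (FW W L (s * h)) ≤ 2 * A / s := by
  have p : ∀ h ∈ Icc 1 H, 0 < s * (h : ℝ) := fun h hh =>
    mul_pos hs (by exact_mod_cast (mem_Icc.1 hh).1)
  calc _ ≤ ∑ h ∈ Icc 1 H, Ex (FW W L (s * h)) :=
        sum_le_sum_of_subset_of_nonneg (filter_subset _ _) fun h hh _ =>
          Ex_nonneg (m.FW_nonneg L (p h hh))
    _ ≤ Ex (fun x => A / s * nP L x) := by
        rw [← Ex_sumB _ fun h hh => m.BM_FW L (p h hh)]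
        refine Ex_monoB (BM.sum _ fun h hh => m.BM_FW L (p h hh))
          ((BM.of_per (continuous_nP L) (nP_per L)).smul _) fun x => ?_
        have := m.sum_le (nP L x / s) (div_nonneg (nP_nonneg _ _) hs.le) H
        simp only [div_div] at this
        unfold FW
        refine this.trans (le_of_eq ?_)
        ring
    _ ≤ _ := by
        rw [Ex_smul, show 2 * A / s = A / s * 2 by ring]
        have := m.A_nonneg
        gcongr; exact Ex_nP L

lemma large_pairs (m : Maj W ω c A B η) (m' : Maj W' ω' c' A' B' η') (hc : 0 < c) (hc' : 0 < c')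
    (L L' : ℕ) {s s' : ℝ} (hs : 0 < s) (hs' : 0 < s') (H b0 : ℕ)
    (T : Finset (ℕ × ℕ)) (hT : ∀ p ∈ T, p.1 ∈ Od 1 H ∧ p.2 ∈ Od 1 H ∧ b0 ≤ p.2 / Nat.gcd p.1 p.2)
    {Q Q' : ℝ} (hQ : ∀ S : Finset ℤ, 0 ∉ S → √(Qs (Phi ω L) (Od b0 H) S) ≤ Q)
    (hQ' : ∀ S : Finset ℤ, 0 ∉ S → √(Qs (Phi ω' L') (Od 1 H) S) ≤ Q') :
    ∑ p ∈ T, Ex (fun x => win L (s * p.1) (p.1 * x) * win L' (s' * p.2) (p.2 * x)) ≤
      (4 * A * A' / (s * s') + Hm H * (Q * Q') / (√s * √s')) / (c * c') := by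
  have h1 := cov_bound m m' L L' hs hs' H b0 T hT hQ hQ'
  have pos : ∀ {h : ℕ} {s : ℝ}, 0 < s → h ∈ Od 1 H → 0 < s * h := fun hs hh =>
    mul_pos hs (by exact_mod_cast (mem_Od.1 hh).1.1)
  have h2 : ∑ p ∈ T, Ex (FW W L (s * p.1)) * Ex (FW W' L' (s' * p.2)) ≤ 4 * A * A' / (s * s') := by
    calc _ ≤ ∑ p ∈ Od 1 H ×ˢ Od 1 H, Ex (FW W L (s * p.1)) * Ex (FW W' L' (s' * p.2)) :=
          sum_le_sum_of_subset_of_nonneg (fun p hp => mem_product.2 ⟨(hT p hp).1, (hT p hp).2.1⟩)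
            fun p hp _ => mul_nonneg (Ex_nonneg (m.FW_nonneg L (pos hs (mem_product.1 hp).1)))
              (Ex_nonneg (m'.FW_nonneg L' (pos hs' (mem_product.1 hp).2)))
      _ ≤ 2 * A / s * (2 * A' / s') := by
          rw [sum_product]
          simp only
          rw [← sum_mul_sum]
          have := m.A_nonneg
          exact mul_le_mul (m.sum_Ex L hs H) (m'.sum_Ex L' hs' H)
            (sum_nonneg fun h hh => Ex_nonneg (m'.FW_nonneg L' (pos hs' hh))) (by positivity)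
      _ = _ := by field_simp; ring
  calc _ ≤ ∑ p ∈ T, (1 / (c * c')) * Ex (fun x => FW W L (s * p.1) (p.1 * x)
        * FW W' L' (s' * p.2) (p.2 * x)) := sum_le_sum fun p hp => by
        have a := pos hs (hT p hp).1
        have b := pos hs' (hT p hp).2.1
        rw [← Ex_smul]
        refine Ex_monoB (((BM_win _ _).dil _).mul ((BM_win _ _).dil _))
          ((((m.BM_FW L a).dil _).mul ((m'.BM_FW L' b).dil _)).smul _) fun x => ?_
        refine (mul_le_mul (m.win_le hc L a _) (m'.win_le hc' L' b _) (win_nonneg _ _ _)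
          (div_nonneg (m.FW_nonneg L a _) hc.le)).trans (le_of_eq ?_)
        field_simp
    _ ≤ _ := by
        rw [← mul_sum, one_div_mul_eq_div]
        gcongr
        refine le_trans ?_ (add_le_add h2 h1)
        rw [← sum_add_distrib]
        exact sum_le_sum fun p _ => by linarith [le_abs_self (Ex (fun x => FW W L (s * p.1) (p.1 * x)
          * FW W' L' (s' * p.2) (p.2 * x)) - Ex (FW W L (s * p.1)) * Ex (FW W' L' (s' * p.2)))]

lemma Maj.Q_le (m : Maj W ω c A B η) (L : ℕ) (D : Finset ℕ) (S : Finset ℤ) {K1 K2 : ℝ} (k1 : 0 ≤ K1)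
    (k2 : 0 ≤ K2) (h1 : ∀ t, |t| ≤ 1 / 200 → Qs (fun n => ‖fc (gt L t) n‖) D S ≤ K1 * rho ^ L)
    (h2 : ∀ t, Qs (fun n => ‖fc (gt L t) n‖) D S ≤ K2 * (1 + 4 * t ^ 2) * rho ^ L) :
    √(Qs (Phi ω L) D S) ≤ (B * √K1 + η * √K2) * Cg := by
  have b0 := m.B_nonneg
  have e0 := m.η_nonneg
  refine m.Qs_Phi L D S (by positivity) fun t => ?_
  have t1 : 1 ≤ 1 + 4 * t ^ 2 := by nlinarith [sq_nonneg t]
  have r0 := sqrt_nonneg (rho ^ L)
  unfold gw
  rcases le_total |t| (1 / 200) with h | h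
  · have := sqrt_le_sqrt (h1 t h)
    rw [sqrt_mul k1] at this
    calc _ ≤ B * exp (-(1 / 4) * t ^ 2) * (√K1 * √(rho ^ L)) := by gcongr; exact m.all t
      _ = (B * √K1 + 0) * √(rho ^ L) * (1 * exp (-(1 / 4) * t ^ 2)) := by ring
      _ ≤ _ := by gcongr; positivity
  · have := sqrt_le_sqrt (h2 t)
    rw [sqrt_mul (by positivity), sqrt_mul k2] at this
    have s1 : √(1 + 4 * t ^ 2) ≤ 1 + 4 * t ^ 2 := by
      rw [sqrt_le_left (by positivity)]; nlinarith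
    calc _ ≤ η * exp (-(1 / 4) * t ^ 2) * (√K2 * (1 + 4 * t ^ 2) * √(rho ^ L)) := by
          refine mul_le_mul (m.tail t h) (this.trans (by gcongr)) (sqrt_nonneg _) (by positivity)
      _ = (0 + η * √K2) * √(rho ^ L) * ((1 + 4 * t ^ 2) * exp (-(1 / 4) * t ^ 2)) := by ring
      _ ≤ _ := by gcongr; positivity

lemma Maj.Q_le' (m : Maj W ω c A B η) (L : ℕ) (D : Finset ℕ) (S : Finset ℤ) {K2 : ℝ} (k2 : 0 ≤ K2)
    (h2 : ∀ t, Qs (fun n => ‖fc (gt L t) n‖) D S ≤ K2 * (1 + 4 * t ^ 2) * rho ^ L) :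
    √(Qs (Phi ω L) D S) ≤ 3 * B * √K2 * Cg := by
  have m2 : Maj W ω c A B B := ⟨m.nonneg, m.lower, m.sum_le, m.cont, m.rep, m.all, fun t _ => m.all t⟩
  have := m2.Q_le L D S (K1 := 4 * K2) (by positivity) k2 (fun t ht => (h2 t).trans (by
    have := pow_le_pow_left₀ (abs_nonneg t) ht 2
    rw [sq_abs] at this
    have r := pow_pos rho_pos L
    rw [mul_comm 4 K2]; gcongr; linarith)) h2
  rw [sqrt_mul (by norm_num), show √4 = (2 : ℝ) by
    rw [show (4 : ℝ) = 2 ^ 2 by norm_num, sqrt_sq (by norm_num)]] at this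
  linarith

end

lemma small_pairs {C θ : ℝ} (hC : 0 ≤ C) (hθ : 0 ≤ θ) {Λ L L' : ℕ} (hd : ∀ a b : ℕ, Odd a → Odd b → a ≠ b →
    Ex (fun x => √(P L (a * x) * P L' (b * x))) ≤ C * θ ^ Λ * (√(rho ^ L) * √(rho ^ L')))
    {s s' : ℝ} (hs : 0 < s) (hs' : 0 < s') (H b0 : ℕ) (T : Finset (ℕ × ℕ))
    (hT : ∀ p ∈ T, p.1 ∈ Od 1 H ∧ p.2 ∈ Od 1 H ∧ p.1 ≠ p.2 ∧ p.1 / Nat.gcd p.1 p.2 < b0 ∧
      p.2 / Nat.gcd p.1 p.2 < b0) :
    ∑ p ∈ T, Ex (fun x => win L (s * p.1) (p.1 * x) * win L' (s' * p.2) (p.2 * x)) ≤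
      Hm H * b0 ^ 2 * (C * θ ^ Λ) / (√s * √s') := by
  have ss : 0 < √s * √s' := mul_pos (sqrt_pos.2 hs) (sqrt_pos.2 hs')
  have r1 := sqrt_pos.2 (pow_pos rho_pos L)
  have r2 := sqrt_pos.2 (pow_pos rho_pos L')
  calc _ ≤ ∑ z ∈ Icc 1 H ×ˢ range b0 ×ˢ range b0, (1 : ℝ) / z.1 * (C * θ ^ Λ / (√s * √s')) := by
        refine sum_le_inj (fun p => (Nat.gcd p.1 p.2, p.1 / Nat.gcd p.1 p.2, p.2 / Nat.gcd p.1 p.2))
          (fun p hp => ?_) (fun p hp r hr e => ?_) (fun p hp => ?_) (fun z _ => by positivity)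
        · obtain ⟨t1, t2, -, t3, t4⟩ := hT p hp
          rw [mem_Od] at t1
          simp only [mem_product, mem_Icc, mem_range]
          exact ⟨⟨Nat.gcd_pos_of_pos_left _ t1.2.pos, (Nat.gcd_le_left _ t1.2.pos).trans t1.1.2⟩, t3, t4⟩
        · simp only [Prod.mk.injEq] at e
          have e1 := Nat.mul_div_cancel' (Nat.gcd_dvd_left p.1 p.2)
          have e2 := Nat.mul_div_cancel' (Nat.gcd_dvd_right p.1 p.2)
          rw [e.2.1, e.1, Nat.mul_div_cancel' (Nat.gcd_dvd_left _ _)] at e1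
          rw [e.2.2, e.1, Nat.mul_div_cancel' (Nat.gcd_dvd_right _ _)] at e2
          exact Prod.ext e1.symm e2.symm
        · obtain ⟨t1, t2, t3, -, -⟩ := hT p hp
          rw [mem_Od] at t1 t2
          have e1 := Nat.mul_div_cancel' (Nat.gcd_dvd_left p.1 p.2)
          have e2 := Nat.mul_div_cancel' (Nat.gcd_dvd_right p.1 p.2)
          have oa := t1.2.of_dvd_nat (Nat.div_dvd_of_dvd (Nat.gcd_dvd_left p.1 p.2))
          have ob := t2.2.of_dvd_nat (Nat.div_dvd_of_dvd (Nat.gcd_dvd_right p.1 p.2))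
          have d0 := Nat.gcd_pos_of_pos_left p.2 t1.2.pos
          simp only
          generalize p.1 / Nat.gcd p.1 p.2 = a at *
          generalize p.2 / Nat.gcd p.1 p.2 = b at *
          generalize Nat.gcd p.1 p.2 = d at *
          have hab : a ≠ b := by rintro rfl; exact t3 (e1.symm.trans e2)
          have d1 : (0 : ℝ) < d := by exact_mod_cast d0
          have a1 : (1 : ℝ) ≤ a := by exact_mod_cast oa.pos
          have b1 : (1 : ℝ) ≤ b := by exact_mod_cast ob.pos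
          set f : ℝ → ℝ := fun x => √(P L (a * x) * P L' (b * x)) with hf
          have fp : Per f := fun x => by simp only [hf]; rw [(P_per L).dil', (P_per L').dil']
          have fc : Continuous f := by simp only [hf]; fun_prop
          set κ := 1 / (d * (√s * √s') * (√(rho ^ L) * √(rho ^ L'))) with hκ
          calc _ ≤ Ex (fun x => κ * f (d * x)) := by
                refine Ex_monoB (((BM_win _ _).dil _).mul ((BM_win _ _).dil _))
                  (((BM.of_per fc fp).dil _).smul _) fun x => ?_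
                have f0 : 0 ≤ κ * f (d * x) := mul_nonneg (by positivity) (sqrt_nonneg _)
                unfold win
                by_cases w1 : s * p.1 < nP L (p.1 * x) ∧ nP L (p.1 * x) ≤ 2 * (s * p.1)
                · rw [ind_pos w1, one_mul]
                  refine ind_le_of f0 fun w2 => ?_
                  have u1 := w1.1
                  have u2 := w2.1
                  unfold nP at u1 u2
                  rw [lt_div_iff₀ (pow_pos rho_pos _), ← e1] at u1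
                  rw [lt_div_iff₀ (pow_pos rho_pos _), ← e2] at u2
                  push_cast at u1 u2
                  rw [hκ, one_div_mul_eq_div, le_div_iff₀ (by positivity), one_mul]
                  refine le_sqrt_of_sq_le ?_
                  rw [show (a : ℝ) * (d * x) = d * a * x by ring, show (b : ℝ) * (d * x) = d * b * x by ring]
                  simp only [mul_pow]
                  rw [sq_sqrt hs.le, sq_sqrt hs'.le, sq_sqrt (pow_pos rho_pos _).le,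
                    sq_sqrt (pow_pos rho_pos _).le]
                  have r3 := pow_pos rho_pos L
                  have r4 := pow_pos rho_pos L'
                  calc _ = s * (d * 1) * rho ^ L * (s' * (d * 1) * rho ^ L') := by ring
                    _ ≤ s * (d * a) * rho ^ L * (s' * (d * b) * rho ^ L') := by gcongr
                    _ ≤ _ := mul_le_mul u1.le u2.le (by positivity) (P_nonneg _ _)
                · rw [ind_neg w1, zero_mul]; exact f0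
            _ ≤ κ * (C * θ ^ Λ * (√(rho ^ L) * √(rho ^ L'))) := by
                rw [Ex_smul, Ex_dil_c fp fc d0.ne']
                gcongr; exact hd a b oa ob hab
            _ = _ := by rw [hκ]; field_simp
    _ = _ := by
        simp only [sum_product, sum_const, card_product, card_range, nsmul_eq_mul, Hm, sum_mul, sum_div]
        exact sum_congr rfl fun d _ => by push_cast; ring

lemma pow_div_le {x : ℝ} (h0 : 0 < x) (h1 : x < 1) {D : ℕ} (hD : 0 < D) :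
    ∃ x' : ℝ, 0 < x' ∧ x' < 1 ∧ ∀ Λ : ℕ, x ^ (Λ / D) ≤ x' ^ Λ / x := by
  refine ⟨x ^ ((D : ℝ)⁻¹), rpow_pos_of_pos h0 _, rpow_lt_one h0.le h1 (by positivity), fun Λ => ?_⟩
  rw [le_div_iff₀ h0, ← pow_succ]
  nth_rw 1 [← rpow_inv_natCast_pow h0.le hD.ne']
  rw [← pow_mul]
  refine pow_le_pow_of_le_one (rpow_pos_of_pos h0 _).le (rpow_lt_one h0.le h1 (by positivity)).le ?_
  exact (Nat.lt_mul_div_succ Λ hD).le

lemma poly_geom (k : ℕ) {x : ℝ} (h0 : 0 < x) (h1 : x < 1) :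
    ∃ C : ℝ, 0 < C ∧ ∀ Λ : ℕ, ((Λ : ℝ) + 1) ^ k * x ^ Λ ≤ C := by
  obtain ⟨C, c1, hC⟩ := poly_le_exp k (η := 1 / x) (by rw [lt_div_iff₀ h0]; linarith)
  refine ⟨C, by linarith, fun Λ => ?_⟩
  calc _ ≤ C * (1 / x) ^ Λ * x ^ Λ := by gcongr; exact hC Λ
    _ = C := by rw [mul_assoc, ← mul_pow, one_div_mul_cancel h0.ne', one_pow, mul_one]

lemma maj_family : ∃ c : ℝ, 0 < c ∧ ∀ k : ℕ, ∃ (C : ℝ) (m : ℕ), 0 < C ∧ ∀ X : ℝ, 3 ≤ X →
    ∃ W ω A B η, Maj W ω c A B η ∧ A ≤ C * √(log X) ∧ B ≤ C * X ^ m ∧ η ≤ C / X ^ k := by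
  obtain ⟨c, ε, M, c0, ε0, ε1, M0, h⟩ := exists_maj
  refine ⟨c, c0, fun k => ?_⟩
  obtain ⟨D, hD⟩ : ∃ D : ℝ, D = 3 * (k + 1) := ⟨_, rfl⟩
  have D1 : 3 ≤ D := by rw [hD]; have : (0 : ℝ) ≤ k := Nat.cast_nonneg k; linarith
  refine ⟨20 * (D + 1) * exp M, ⌈M * D⌉₊ + 1, by positivity, fun X hX => ?_⟩
  have X0 : 0 < X := by linarith
  have l1 : 1 ≤ log X := by
    rw [le_log_iff_exp_le X0]; linarith [exp_one_lt_d9]
  have l2 : log X ≤ X := by linarith [log_le_sub_one_of_pos X0]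
  have e1 : 1 ≤ exp M := one_le_exp M0
  set N := ⌈D * log X / ε⌉₊
  have n1 : D * log X ≤ ε * N := by
    have := Nat.le_ceil (D * log X / ε)
    rw [div_le_iff₀ ε0] at this; linarith
  have n2 : ε * N ≤ D * log X + 1 := by
    have := (Nat.ceil_lt_add_one (by positivity : 0 ≤ D * log X / ε)).le
    have h2 := mul_le_mul_of_nonneg_left this ε0.le
    rw [mul_add, mul_div_cancel₀ _ ε0.ne'] at h2
    linarith
  have n3 : 1 ≤ ε * N := by nlinarith
  obtain ⟨W, ω, hW⟩ := h N n3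
  generalize ε * N = n at *
  have s1 : √n ≤ (D + 1) * √(log X) := by
    refine le_of_sq (by positivity) ?_
    rw [mul_pow, sq_sqrt (by linarith), sq_sqrt (by linarith)]
    nlinarith
  have s2 : √n ≤ (D + 1) * X := by
    refine s1.trans ?_
    gcongr
    rw [sqrt_le_left X0.le]; nlinarith
  refine ⟨W, ω, _, _, _, hW, ?_, ?_, ?_⟩
  · have := sqrt_nonneg (log X)
    nlinarith [mul_le_mul_of_nonneg_left e1 (by positivity : 0 ≤ (D + 1) * √(log X))]
  · have a : exp (M * n) ≤ exp M * X ^ ⌈M * D⌉₊ := by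
      rw [← exp_log (pow_pos X0 _), ← exp_add, log_pow, exp_le_exp]
      have := Nat.le_ceil (M * D)
      nlinarith [mul_le_mul_of_nonneg_left n2 M0, mul_le_mul_of_nonneg_right this (by linarith : 0 ≤ log X)]
    calc _ ≤ (D + 1) * X * (exp M * X ^ ⌈M * D⌉₊) := by gcongr
      _ = 1 * (D + 1) * exp M * X ^ (⌈M * D⌉₊ + 1) := by ring
      _ ≤ _ := by gcongr; norm_num
  · have a : exp (-(3 / 8) * n) ≤ 1 / X ^ (k + 1) := by
      rw [← exp_log (pow_pos X0 _), one_div, ← exp_neg, log_pow, exp_le_exp]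
      push_cast
      have : (0 : ℝ) ≤ k := Nat.cast_nonneg k
      rw [hD] at n1
      nlinarith
    calc _ ≤ (D + 1) * X * (1 / X ^ (k + 1)) := by gcongr
      _ = 1 * (D + 1) * 1 / X ^ k := by field_simp; ring
      _ ≤ _ := by gcongr; norm_num

/-- Pair correlation bound. -/
theorem pair_bound : ∃ (C : ℝ) (Λ0 : ℕ), 0 < C ∧ ∀ Λ L L' H : ℕ, Λ0 ≤ Λ → Λ ≤ L → L ≤ 2 * Λ →
    Λ ≤ L' → L' ≤ 2 * Λ → H ≤ 2 ^ (4 * Λ) → ∀ s s' : ℝ, 0 < s → 0 < s' →
    ∑ p ∈ (Od 1 H ×ˢ Od 1 H).filter (fun p => p.1 ≠ p.2),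
      Ex (fun x => win L (s * p.1) (p.1 * x) * win L' (s' * p.2) (p.2 * x)) ≤
      C * √(log (Λ + 1)) / (s * s') + C / (Λ + 1) / (√s * √s') := by
  classical
  obtain ⟨Cδ, θ, δ0, θ0, θ1, hδ⟩ := dil_def
  obtain ⟨ζ, ζ0, ζ1, hζ⟩ := sparse_bound
  obtain ⟨Cd, k, L0, d0, hd⟩ := div_bound
  obtain ⟨c, c0, hc⟩ := maj_family
  obtain ⟨Cm, m, m0, hm⟩ := hc (k + 2)
  obtain ⟨W0, ω0, A0, B0, η0, M0, -, -, -⟩ := hm 3 le_rfl
  obtain ⟨n0, hn0⟩ := exists_pow_lt_of_lt_one (by positivity : (0 : ℝ) < 1 / 2 ^ 165) θ1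
  obtain ⟨D, D1, D2⟩ : ∃ D : ℕ, 82 ≤ D ∧ 2 ^ 164 * θ ^ D ≤ 1 / 2 := ⟨max n0 82, le_max_right _ _, by
    have := (pow_le_pow_of_le_one θ0.le θ1.le (le_max_left n0 82)).trans hn0.le
    refine (mul_le_mul_of_nonneg_left this (by positivity)).trans (by norm_num)⟩
  obtain ⟨x1, a0, a1, hx1⟩ := pow_div_le (x := 1 / 2) (by norm_num) (by norm_num) (D := D) (by omega)
  obtain ⟨ζ', z0, z1, hζ'⟩ := pow_div_le ζ0 ζ1 (D := D) (by omega)
  obtain ⟨η, η1, η2⟩ : ∃ η : ℝ, 1 < η ∧ η ^ 2 * ζ' < 1 := ⟨2 / (1 + ζ'),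
    by rw [lt_div_iff₀ (by linarith)]; linarith, by
      rw [div_pow, div_mul_eq_mul_div, div_lt_one (by positivity)]; nlinarith⟩
  obtain ⟨Cs, s0, hs⟩ := hζ η η1
  obtain ⟨x3, b0, b1, b2⟩ : ∃ x : ℝ, 0 < x ∧ x < 1 ∧ x ^ 2 = η ^ 2 * ζ' :=
    ⟨√(η ^ 2 * ζ'), by positivity, by rwa [sqrt_lt' one_pos, one_pow], sq_sqrt (by positivity)⟩
  obtain ⟨C1, e1, hC1⟩ := poly_geom 2 a0 a1
  obtain ⟨C3, e3, hC3⟩ := poly_geom (2 + m + k) b0 b1
  have g0 := Cg_nonneg
  have A00 := M0.A_nonneg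
  have B00 := M0.B_nonneg
  obtain ⟨K, hK⟩ : ∃ K : ℝ, K = Cd * 2 ^ k := ⟨_, rfl⟩
  have K0 : 0 < K := by rw [hK]; positivity
  obtain ⟨E, hE⟩ : ∃ E : ℝ, E = 12 * B0 * Cg ^ 2 * (Cm * √(Cs / ζ) * √K * C3 + Cm * K) := ⟨_, rfl⟩
  have E0 : 0 ≤ E := by rw [hE]; positivity
  refine ⟨2 * (4 * Cm * A0 + E) / (c * c) + 8 * Cδ * C1, max L0 2, by positivity,
    fun Λ L L' H h0 h1 h2 h3 h4 hH s s' hs0 hs0' => ?_⟩
  have ss : 0 < √s * √s' := mul_pos (sqrt_pos.2 hs0) (sqrt_pos.2 hs0')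
  obtain ⟨X, hX⟩ : ∃ X : ℝ, X = Λ + 1 := ⟨_, rfl⟩
  have X3 : 3 ≤ X := by
    have : (2 : ℝ) ≤ Λ := by exact_mod_cast (le_max_right L0 2).trans h0
    linarith
  have X0 : 0 < X := by linarith
  have X1 : 1 ≤ X := by linarith
  obtain ⟨W, ω, A, B, η', MW, hA, hB, hη⟩ := hm X X3
  have hHm : Hm H ≤ 4 * X := (Hm_le hH).trans (by rw [hX]; push_cast; linarith)
  have uD : D * (Λ / D) ≤ Λ := Nat.mul_div_le _ _
  obtain ⟨u, hu⟩ : ∃ u, u = Λ / D := ⟨_, rfl⟩
  rw [← hu] at uD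
  have allQ : ∀ L, Λ ≤ L → L ≤ 2 * Λ → ∀ b (S : Finset ℤ), 0 ∉ S → ∀ t,
      Qs (fun n => ‖fc (gt L t) n‖) (Od b H) S ≤ K * X ^ k * (1 + 4 * t ^ 2) * rho ^ L := by
    intro L i1 i2 b S hS t
    refine (hd L (by omega) t H _ S (hH.trans (Nat.pow_le_pow_right (by norm_num) (by omega)))
      (fun a ha => ⟨(mem_Od.1 ha).2, (mem_Od.1 ha).1.2⟩) hS).trans ?_
    have := pow_pos rho_pos L
    rw [hK, mul_assoc Cd (2 ^ k), ← mul_pow]
    gcongr
    have : (L : ℝ) ≤ 2 * Λ := by exact_mod_cast i2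
    linarith
  have large : ∀ L L', Λ ≤ L → L ≤ 2 * Λ → Λ ≤ L' → L' ≤ 2 * Λ → ∀ s s' : ℝ, 0 < s → 0 < s' →
      ∀ T : Finset (ℕ × ℕ),
      (∀ p ∈ T, p.1 ∈ Od 1 H ∧ p.2 ∈ Od 1 H ∧ 2 ^ (82 * u) ≤ p.2 / Nat.gcd p.1 p.2) →
      ∑ p ∈ T, Ex (fun x => win L (s * p.1) (p.1 * x) * win L' (s' * p.2) (p.2 * x)) ≤
      (4 * Cm * A0 * √(log X) / (s * s') + E / X / (√s * √s')) / (c * c) := by
    intro L L' i1 i2 i3 i4 s s' j1 j2 T hT
    have ss : 0 < √s * √s' := mul_pos (sqrt_pos.2 j1) (sqrt_pos.2 j2)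
    refine (large_pairs MW M0 c0 c0 L L' j1 j2 H _ T hT
      (Q := (B * √(Cs / ζ * (x3 ^ Λ) ^ 2) + η' * √(K * X ^ k)) * Cg) (Q' := 3 * B0 * √(K * X ^ k) * Cg)
      (fun S hS => MW.Q_le L _ S (by positivity) (by positivity) (fun t ht => ?_)
        (allQ L i1 i2 _ S hS))
      (fun S hS => M0.Q_le' L' _ S (by positivity) (allQ L' i3 i4 _ S hS))).trans ?_
    · refine (hs L u t H _ S (by nlinarith) ht
        (hH.trans (Nat.pow_le_pow_right (by norm_num) (by omega)))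
        (fun a ha => (mem_Od.1 ha).1) hS).trans ?_
      have := pow_pos rho_pos L
      refine mul_le_mul_of_nonneg_right ?_ this.le
      have f1 : η ^ L ≤ (η ^ 2) ^ Λ := by rw [← pow_mul]; exact pow_le_pow_right₀ η1.le i2
      have f2 := hζ' Λ
      rw [← hu] at f2
      calc _ ≤ Cs * (η ^ 2) ^ Λ * (ζ' ^ Λ / ζ) := by gcongr
        _ = _ := by rw [← pow_mul x3, mul_comm Λ 2, pow_mul x3, b2, mul_pow]; ring
    · have B1 := MW.B_nonneg
      have B2 := MW.η_nonneg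
      refine div_le_div_of_nonneg_right (add_le_add ?_ ?_) (by positivity)
      · refine div_le_div_of_nonneg_right ?_ (by positivity)
        nlinarith [mul_le_mul_of_nonneg_right hA A00]
      · refine div_le_div_of_nonneg_right ?_ ss.le
        have k1 : √(K * X ^ k) ≤ √K * X ^ k := by
          rw [sqrt_mul K0.le]
          gcongr
          rw [sqrt_le_left (by positivity)]
          exact le_self_pow₀ (one_le_pow₀ X1) two_ne_zero
        have k2 : √(K * X ^ k) * √(K * X ^ k) = K * X ^ k := mul_self_sqrt (by positivity)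
        have k3 := hC3 Λ
        rw [← hX] at k3
        rw [sqrt_mul (by positivity), sqrt_sq (by positivity), le_div_iff₀ X0]
        have k4 : X ^ 2 * (B * (√(Cs / ζ) * x3 ^ Λ) * √(K * X ^ k)) ≤ Cm * √(Cs / ζ) * √K * C3 := by
          calc _ ≤ X ^ 2 * (Cm * X ^ m * (√(Cs / ζ) * x3 ^ Λ) * (√K * X ^ k)) := by gcongr
            _ = Cm * √(Cs / ζ) * √K * (X ^ (2 + m + k) * x3 ^ Λ) := by ring
            _ ≤ _ := by gcongr
        have k5 : X ^ 2 * (η' * (K * X ^ k)) ≤ Cm * K := by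
          calc _ ≤ X ^ 2 * (Cm / X ^ (k + 2) * (K * X ^ k)) := by gcongr
            _ = _ := by field_simp; ring
        calc _ ≤ 4 * X * ((B * (√(Cs / ζ) * x3 ^ Λ) + η' * √(K * X ^ k)) * Cg
              * (3 * B0 * √(K * X ^ k) * Cg)) * X := by gcongr
          _ = 12 * B0 * Cg ^ 2 * (X ^ 2 * (B * (√(Cs / ζ) * x3 ^ Λ) * √(K * X ^ k))
              + X ^ 2 * (η' * (√(K * X ^ k) * √(K * X ^ k)))) := by ring
          _ ≤ _ := by rw [k2, hE]; gcongr
  set T := (Od 1 H ×ˢ Od 1 H).filter (fun p => p.1 ≠ p.2) with hT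
  have mT : ∀ p ∈ T, p.1 ∈ Od 1 H ∧ p.2 ∈ Od 1 H ∧ p.1 ≠ p.2 := fun p hp => by
    obtain ⟨a, b⟩ := mem_filter.1 hp
    exact ⟨(mem_product.1 a).1, (mem_product.1 a).2, b⟩
  rw [← sum_filter_add_sum_filter_not T (fun p => 2 ^ (82 * u) ≤ p.2 / Nat.gcd p.1 p.2),
    ← sum_filter_add_sum_filter_not (T.filter fun p => ¬2 ^ (82 * u) ≤ p.2 / Nat.gcd p.1 p.2)
      (fun p => 2 ^ (82 * u) ≤ p.1 / Nat.gcd p.1 p.2)]
  have t1 := large L L' h1 h2 h3 h4 s s' hs0 hs0'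
    (T.filter fun p => 2 ^ (82 * u) ≤ p.2 / Nat.gcd p.1 p.2) fun p hp => by
      obtain ⟨a, b⟩ := mem_filter.1 hp
      exact ⟨(mT p a).1, (mT p a).2.1, b⟩
  have t2 := large L' L h3 h4 h1 h2 s' s hs0' hs0
    (((T.filter fun p => ¬2 ^ (82 * u) ≤ p.2 / Nat.gcd p.1 p.2).filter
      fun p => 2 ^ (82 * u) ≤ p.1 / Nat.gcd p.1 p.2).map ⟨Prod.swap, Prod.swap_injective⟩)
    fun p hp => by
      obtain ⟨r, hr, rfl⟩ := mem_map.1 hp
      obtain ⟨a, b⟩ := mem_filter.1 hr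
      have := mT r (mem_filter.1 a).1
      exact ⟨this.2.1, this.1, by simpa [Nat.gcd_comm] using b⟩
  rw [sum_map, mul_comm s' s, mul_comm (√s')] at t2
  simp only [Function.Embedding.coeFn_mk, Prod.fst_swap, Prod.snd_swap, mul_comm (win L' _ _)] at t2
  have t3 := small_pairs δ0.le θ0.le (fun a b => hδ Λ L L' a b h1 h3) hs0 hs0' H (2 ^ (82 * u))
    ((T.filter fun p => ¬2 ^ (82 * u) ≤ p.2 / Nat.gcd p.1 p.2).filter
      fun p => ¬2 ^ (82 * u) ≤ p.1 / Nat.gcd p.1 p.2) fun p hp => by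
      obtain ⟨a, b⟩ := mem_filter.1 hp
      obtain ⟨a1, a2⟩ := mem_filter.1 a
      exact ⟨(mT p a1).1, (mT p a1).2.1, (mT p a1).2.2, not_le.1 b, not_le.1 a2⟩
  have t4 : Hm H * ((2 ^ (82 * u) : ℕ) : ℝ) ^ 2 * (Cδ * θ ^ Λ) ≤ 8 * Cδ * C1 / X := by
    have f1 : ((2 ^ (82 * u) : ℕ) : ℝ) ^ 2 * θ ^ Λ ≤ x1 ^ Λ / (1 / 2) := by
      refine le_trans ?_ (hu ▸ hx1 Λ)
      calc _ ≤ (2 ^ 164) ^ u * (θ ^ D) ^ u := by
            push_cast
            rw [← pow_mul, ← pow_mul, ← pow_mul, show 82 * u * 2 = 164 * u by ring]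
            gcongr _ * ?_
            exact pow_le_pow_of_le_one θ0.le θ1.le uD
        _ ≤ _ := by rw [← mul_pow]; gcongr
    have f2 := hC1 Λ
    rw [← hX] at f2
    rw [le_div_iff₀ X0]
    calc _ = Hm H * X * Cδ * (((2 ^ (82 * u) : ℕ) : ℝ) ^ 2 * θ ^ Λ) := by ring
      _ ≤ 4 * X * X * Cδ * (x1 ^ Λ / (1 / 2)) := by gcongr
      _ = 8 * Cδ * (X ^ 2 * x1 ^ Λ) := by ring
      _ ≤ _ := by gcongr
  have t5 := t3.trans (div_le_div_of_nonneg_right t4 ss.le)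
  rw [← hX]
  refine (add_le_add t1 (add_le_add t2 t5)).trans ?_
  have p1 : 0 ≤ √(log X) / (s * s') := by positivity
  have p2 : 0 ≤ 1 / X / (√s * √s') := by positivity
  have e : ∀ a : ℝ, a / X / (√s * √s') = a * (1 / X / (√s * √s')) := fun a => by ring
  have e' : ∀ a : ℝ, a * √(log X) / (s * s') = a * (√(log X) / (s * s')) := fun a => by ring
  rw [e E, e (8 * Cδ * C1), e (_ + _), e', e']
  generalize √(log X) / (s * s') = y1 at *
  generalize 1 / X / (√s * √s') = y2 at *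
  have q1 : 0 ≤ E / (c * c) * y1 := by positivity
  have q2 : 0 ≤ 8 * Cδ * C1 * y1 := by positivity
  have q3 : 0 ≤ 4 * Cm * A0 / (c * c) * y2 := by positivity
  have : (2 * (4 * Cm * A0 + E) / (c * c) + 8 * Cδ * C1) * y1
      + (2 * (4 * Cm * A0 + E) / (c * c) + 8 * Cδ * C1) * y2
      = (4 * Cm * A0 * y1 + E * y2) / (c * c) + ((4 * Cm * A0 * y1 + E * y2) / (c * c) + 8 * Cδ * C1 * y2)
        + (2 * (E / (c * c) * y1) + 8 * Cδ * C1 * y1 + 2 * (4 * Cm * A0 / (c * c) * y2)) := by ring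
  linarith

end Pool.Agent.MP_d431d3_nt
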