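import Pool.Agent.Lib.MP_d431d3_nt.Div

/-! Dyadic sparsity of the spectrum: the block estimates. -/

namespace Pool.Agent.MP_d431d3_nt

open Real Finset MeasureTheory

lemma TT_shiftP' (m n : ℕ) (τ y : ℝ) :
    TT n (fun z => q m z * P n (z + τ)) y ≤ √2 * q (m + n) (y + 2 ^ n * τ) := by
  rw [q_add, ← TT_shift, ← TT_smul]
  refine TT_mono n (fun z => ?_) y
  rw [← mul_assoc]
  exact mul_le_mul_of_nonneg_right (q_harnack m _ _) (P_nonneg _ _)

lemma TT_shiftP (m n : ℕ) (τ y : ℝ) :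
    TT n (fun z => q m z * P n (z + τ)) y ≤ 2 * q (m + n) y := by
  refine (TT_shiftP' m n τ y).trans ?_
  have h4 : √2 * √2 = (2 : ℝ) := mul_self_sqrt (by norm_num)
  calc _ ≤ √2 * (√2 * q (m + n) y) := by gcongr; exact q_harnack _ _ _
    _ = _ := by rw [← mul_assoc, h4]

lemma T_lin (a b : ℝ) (f g : ℝ → ℝ) (y : ℝ) :
    T (fun x => a * f x + b * g x) y = a * T f y + b * T g y := by
  simp only [T]; ring

lemma TT_diffP (m n : ℕ) {τ : ℝ} (hτ : 0 ≤ τ) (y : ℝ) :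
    TT n (fun z => q m z * |P n (z + τ) - P n z|) y ≤ 10 * 2 ^ n * τ * q (m + n) y := by
  induction n generalizing y with
  | zero => simp; have := q_pos m y; positivity
  | succ n ih =>
    have h1 : ∀ z, q m z * |P (n + 1) (z + τ) - P (n + 1) z| ≤
        1 * (q m z * |P n (z + τ) - P n z| * ph (2 ^ n * z))
          + (2 * π * (2 ^ n * τ)) * (q m z * P n (z + τ)) := fun z => by
      have a := ph_lip (2 ^ n * (z + τ)) (2 ^ n * z)
      rw [show 2 ^ n * (z + τ) - 2 ^ n * z = 2 ^ n * τ by ring,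
        abs_of_nonneg (by positivity : 0 ≤ 2 ^ n * τ)] at a
      rw [P_succ, P_succ, show P n (z + τ) * ph (2 ^ n * (z + τ)) - P n z * ph (2 ^ n * z)
        = (P n (z + τ) - P n z) * ph (2 ^ n * z)
          + P n (z + τ) * (ph (2 ^ n * (z + τ)) - ph (2 ^ n * z)) by ring]
      have b := abs_add_le ((P n (z + τ) - P n z) * ph (2 ^ n * z))
        (P n (z + τ) * (ph (2 ^ n * (z + τ)) - ph (2 ^ n * z)))
      rw [abs_mul, abs_mul, abs_of_nonneg (ph_nonneg _), abs_of_nonneg (P_nonneg _ _)] at b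
      have c := mul_le_mul_of_nonneg_left a (P_nonneg n (z + τ))
      have := mul_le_mul_of_nonneg_left (b.trans (add_le_add_right c _)) (q_pos m z).le
      linarith
    refine (TT_mono _ h1 y).trans ?_
    rw [TT_lin, TT_step n _ ph_per]
    have p := q_pos (m + n + 1) y
    have h2 : T (fun z => TT n (fun z => q m z * |P n (z + τ) - P n z|) z * ph z) y ≤
        10 * 2 ^ n * τ * q (m + n + 1) y := by
      refine (T_mono (g := fun z => 10 * 2 ^ n * τ * (q (m + n) z * ph z) + 0 * z) (fun z => ?_) y).trans ?_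
      · have := mul_le_mul_of_nonneg_right (ih z) (ph_nonneg z); linarith
      · rw [T_lin, ← q_succ]; simp
    have h3 : TT (n + 1) (fun z => q m z * P n (z + τ)) y ≤ 3 / 2 * q (m + n + 1) y := by
      rw [TT_succ]
      refine (T_mono (g := fun _ => 3 / 2 * q (m + n + 1) y) (fun z => ?_) y).trans (by simp [T])
      refine (TT_shiftP' m n τ z).trans ?_
      exact mul_le_mul sqrt2_le (q_le_succ _ _ _) (q_pos _ _).le (by norm_num)
    have h4 : 2 * π * (2 ^ n * τ) * TT (n + 1) (fun z => q m z * P n (z + τ)) y ≤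
        2 * (10 / 3) * (2 ^ n * τ) * (3 / 2 * q (m + n + 1) y) := by
      gcongr
      · exact TT_nonneg _ (fun z => mul_nonneg (q_pos _ _).le (P_nonneg _ _)) _
      · linarith [pi_lt_d2]
    rw [← add_assoc, pow_succ]
    linarith

lemma TT_aff_small (m n : ℕ) {τ : ℝ} (hτ : 0 ≤ τ) (y : ℝ) :
    (1 - 2 * π * (2 ^ n * τ)) * q (m + n) y ≤ TT n (fun z => q m z * Af n τ z) y := by
  induction n generalizing y with
  | zero =>
    have := q_pos m y
    have : 0 ≤ 2 * π * τ * q m y := by positivity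
    simp [Af]; linarith
  | succ n ih =>
    set δ := 2 * π * (2 ^ n * τ) with hδ
    have δ0 : 0 ≤ δ := by positivity
    have e : 2 * π * (2 ^ (n + 1) * τ) = 2 * δ := by rw [hδ]; ring
    have p := q_pos (m + n + 1) y
    rw [e, ← add_assoc]
    rcases le_total 1 δ with h | h
    · refine le_trans ?_ (TT_nonneg _ (fun z => mul_nonneg (q_pos _ _).le (Af_nonneg _ _ _)) _)
      nlinarith
    rw [TT_step' n (fun z => q m z * Af n τ z) (Af 1 (2 ^ n * τ)) (Af_per _ _)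
      (fun x => by rw [Af_add, mul_assoc])]
    have h1 : ∀ z, ph z - δ ≤ Af 1 (2 ^ n * τ) z := fun z => by
      have a := ph_lip (z + 2 ^ n * τ) z
      rw [add_sub_cancel_left, abs_of_nonneg (by positivity : 0 ≤ 2 ^ n * τ), ← hδ] at a
      rw [Af_one]
      rcases le_total (ph z) δ with b | b
      · linarith [sqrt_nonneg (ph z * ph (z + 2 ^ n * τ))]
      · refine le_sqrt_of_sq_le ?_
        rw [sq]
        exact mul_le_mul (by linarith) (by linarith [(abs_le.1 a).1]) (by linarith) (ph_nonneg _)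
    refine le_trans ?_ (T_mono (f := fun z => (1 - δ) * (q (m + n) z * ph z)
      + (-((1 - δ) * δ * q (m + n + 1) y)) * (fun _ => (1 : ℝ)) z) (fun z => ?_) y)
    · rw [T_lin, ← q_succ]
      simp only [T]
      nlinarith [mul_nonneg (mul_nonneg δ0 δ0) p.le]
    · have a := mul_le_mul_of_nonneg_right (ih z) (Af_nonneg 1 (2 ^ n * τ) z)
      have b := mul_le_mul_of_nonneg_left (h1 z) (mul_nonneg (sub_nonneg.2 h) (q_pos (m + n) z).le)
      have c := mul_le_mul_of_nonneg_left (q_le_succ (m + n) z y) (mul_nonneg (sub_nonneg.2 h) δ0)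
      simp only
      linarith

lemma P_four (z : ℝ) : ph (8 * z) ^ 4 / 64 ≤ P 4 z := by
  have a := ph_ge_double z
  have b := ph_ge_double (2 * z)
  have c := ph_ge_double (4 * z)
  rw [show 2 * (2 * z) = 4 * z by ring] at b
  rw [show 2 * (4 * z) = 8 * z by ring] at c
  have w := ph_nonneg (8 * z)
  have e : P 4 z = ph z * ph (2 * z) * ph (4 * z) * ph (8 * z) := by
    simp [P, prod_range_succ]; norm_num
  rw [e]
  calc _ = ph (8 * z) / 8 * (ph (8 * z) / 4) * (ph (8 * z) / 2) * ph (8 * z) := by ring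
    _ ≤ _ := by
      gcongr
      · exact mul_nonneg (ph_nonneg _) (ph_nonneg _)
      · exact ph_nonneg _
      all_goals linarith

lemma TT_aff_block (m : ℕ) (y : ℝ) :
    1 / 500 * q (m + 41) y ≤ TT 41 (fun z => q m z * Af 41 (1 / 2 ^ 40) z) y := by
  rw [show 41 = 37 + 4 from rfl, TT_block' 37 4 (fun z => q m z * Af 37 (1 / 2 ^ 40) z) (Af 4 (1 / 8))
    (Af_per _ _) (fun x => by rw [Af_add, mul_assoc]; norm_num)]
  have m0 := mm_pos (m + 37)
  refine le_trans ?_ (TT_mono 4 (f := fun z => (mm (m + 37) / 320) * (fun w => ph w ^ 4) (2 ^ 3 * z))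
    (fun z => ?_) y)
  · rw [TT_step' 3 (fun _ => mm (m + 37) / 320) (fun w => ph w ^ 4)
      (fun w => by simp only; rw [ph_per]) (fun _ => rfl)]
    simp only [TT_const, T]
    have a := ph_sq_add (y / 2)
    have b : 8 ≤ ph (y / 2) ^ 4 + ph (y / 2 + 1 / 2) ^ 4 := by
      nlinarith [sq_nonneg (ph (y / 2) ^ 2 - ph (y / 2 + 1 / 2) ^ 2)]
    have c : q (m + (37 + 4)) y ≤ 6 * mm (m + 37) := by
      have c1 := q_le_mm (m + 41) y
      have c2 := mm_two_le (m + 40)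
      have c3 := mm_two_le (m + 38)
      have c4 := mm_succ_le (m + 37)
      have c5 := mul_le_mul_of_nonneg_right sqrt2_le m0.le
      norm_num at *
      linarith
    nlinarith
  · have a := TT_aff_small m 37 (τ := 1 / 2 ^ 40) (by positivity) z
    have b : mm (m + 37) / 5 ≤ TT 37 (fun z => q m z * Af 37 (1 / 2 ^ 40) z) z := by
      refine le_trans ?_ a
      have := mm_le_q (m + 37) z
      have h2 : 1 / 5 ≤ 1 - 2 * π * (2 ^ 37 * (1 / 2 ^ 40)) := by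
        norm_num; linarith [pi_lt_d2]
      nlinarith
    have c : ph (8 * z) ^ 4 / 64 ≤ Af 4 (1 / 8) z := by
      refine le_sqrt_of_sq_le ?_
      have c1 := P_four (z + 1 / 8)
      rw [show 8 * (z + 1 / 8) = 8 * z + 1 by ring, ph_per] at c1
      rw [sq]
      exact mul_le_mul (P_four z) c1 (by positivity) (P_nonneg _ _)
    calc _ = mm (m + 37) / 5 * (ph (8 * z) ^ 4 / 64) := by norm_num; ring
      _ ≤ _ := mul_le_mul b c (by positivity) (le_trans (by positivity) b)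

noncomputable def bet : ℝ := 1 / 10 ^ 5

noncomputable def thS : ℝ := 1 - 2 / 10 ^ 8

lemma norm_sub_sq_le (a b : ℂ) {ε : ℝ} (hε : 0 < ε) :
    ‖a - b‖ ^ 2 ≤ (1 + ε) * ‖a‖ ^ 2 + (1 + 1 / ε) * ‖b‖ ^ 2 := by
  have h := pow_le_pow_left₀ (norm_nonneg _) (norm_sub_le a b) 2
  have : 0 ≤ (ε * ‖a‖ - ‖b‖) ^ 2 / ε := by positivity
  have e : (ε * ‖a‖ - ‖b‖) ^ 2 / ε = ε * ‖a‖ ^ 2 + 1 / ε * ‖b‖ ^ 2 - 2 * ‖a‖ * ‖b‖ := by
    field_simp; ring
  nlinarith

lemma norm_sub_smul_sq (a b : ℂ) (β : ℝ) :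
    ‖a - β * b‖ ^ 2 = (1 - β) * ‖a‖ ^ 2 + (β ^ 2 - β) * ‖b‖ ^ 2 + β * ‖a - b‖ ^ 2 := by
  simp only [Complex.sq_norm, Complex.normSq_apply]
  simp; ring

lemma TT_gain (m : ℕ) {t : ℝ} (ht : |t| ≤ 1 / 200) (y : ℝ) :
    TT 41 (fun z => q m z * ‖gt 41 t z - bet * gt 41 t (z + 1 / 2 ^ 40)‖ ^ 2) y ≤
      (1 - 36 / 10 ^ 9) * q (m + 41) y := by
  have t2 : t ^ 2 ≤ 1 / 40000 := by
    have := pow_le_pow_left₀ (abs_nonneg t) ht 2
    rw [sq_abs] at this; linarith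
  have h1 : ∀ z, q m z * ‖gt 41 t z - bet * gt 41 t (z + 1 / 2 ^ 40)‖ ^ 2 ≤
      1 * ((1 + 1 / 10 ^ 9) * (q m z * P 41 z) + (11 / 10 ^ 10) * (q m z * P 41 (z + 1 / 2 ^ 40)))
        + (-(2 / 10 ^ 5)) * (q m z * Af 41 (1 / 2 ^ 40) z) := fun z => by
    have a := cp_lip (P_nonneg 41 z) (P_nonneg 41 (z + 1 / 2 ^ 40)) t
    rw [norm_sub_smul_sq, norm_gt_sq, norm_gt_sq]
    unfold gt Af bet
    have A0 := P_nonneg 41 z
    have B0 := P_nonneg 41 (z + 1 / 2 ^ 40)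
    set A := P 41 z
    set B := P 41 (z + 1 / 2 ^ 40)
    set N := ‖cp A t - cp B t‖ ^ 2
    have r0 := sqrt_nonneg (A * B)
    set r := √(A * B)
    have b : N ≤ A + B - 2 * r + 1 / 10000 * (A + B) := by
      nlinarith [mul_nonneg (sq_nonneg t) r0, mul_le_mul_of_nonneg_right t2 (add_nonneg A0 B0)]
    have c : (1 - 1 / 10 ^ 5) * A + ((1 / 10 ^ 5) ^ 2 - 1 / 10 ^ 5) * B + 1 / 10 ^ 5 * N ≤
        (1 + 1 / 10 ^ 9) * A + (11 / 10 ^ 10) * B - 2 / 10 ^ 5 * r := by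
      norm_num; linarith
    have := mul_le_mul_of_nonneg_left c (q_pos m z).le
    linarith
  refine (TT_mono _ h1 y).trans ?_
  rw [TT_lin, TT_lin, ← q_add]
  have a := TT_shiftP m 41 (1 / 2 ^ 40) y
  have b := TT_aff_block m y
  have p := q_pos (m + 41) y
  norm_num at *
  linarith

/-- Level reached after `i` blocks. -/
def lev (v i : ℕ) : ℕ := v + 41 * i

noncomputable def sh (v i : ℕ) : ℝ := 1 / 2 ^ (lev v i + 40)

noncomputable def GG (v : ℕ) (t : ℝ) : ℕ → ℝ → ℂ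
  | 0, x => gt v t x
  | i + 1, x => GG v t i x * gt 41 t (2 ^ lev v i * x)
      - bet * (GG v t i (x + sh v i) * gt 41 t (2 ^ lev v i * (x + sh v i)))

lemma GG_per (v : ℕ) (t : ℝ) (i : ℕ) : Per (GG v t i) := by
  induction i with
  | zero => exact gt_per v t
  | succ i ih =>
    intro x
    simp only [GG]
    rw [show x + 1 + sh v i = x + sh v i + 1 by ring, ih, ih, (gt_per 41 t).dil2', (gt_per 41 t).dil2']

@[fun_prop] lemma continuous_GG (v : ℕ) (t : ℝ) (i : ℕ) : Continuous (GG v t i) := by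
  induction i with
  | zero => exact continuous_gt v t
  | succ i ih =>
    have : GG v t (i + 1) = fun x => GG v t i x * gt 41 t (2 ^ lev v i * x)
      - bet * (GG v t i (x + sh v i) * gt 41 t (2 ^ lev v i * (x + sh v i))) := rfl
    rw [this]; fun_prop

lemma lev_succ (v i : ℕ) : lev v (i + 1) = lev v i + 41 := by unfold lev; ring

lemma pow_mul_sh (v i : ℕ) : 2 ^ lev v i * sh v i = 1 / 2 ^ 40 := by
  unfold sh; rw [pow_add]; field_simp

lemma pow_succ_mul_sh (v i : ℕ) : 2 ^ (lev v i + 41) * sh v i = ((2 : ℕ) : ℝ) := by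
  rw [pow_add, mul_comm (2 ^ _), mul_assoc, pow_mul_sh]; norm_num

lemma TT_difg {t : ℝ} (ht : |t| ≤ 1 / 200) (m n : ℕ) {τ : ℝ} (hτ : 0 ≤ τ) (y : ℝ) :
    TT n (fun z => q m z * ‖gt n t (z + τ) - gt n t z‖ ^ 2) y ≤ 20 * 2 ^ n * τ * q (m + n) y := by
  have t2 : 1 + 4 * t ^ 2 ≤ 2 := by
    have := pow_le_pow_left₀ (abs_nonneg t) ht 2
    rw [sq_abs] at this; linarith
  refine (TT_mono n (g := fun z => 2 * (q m z * |P n (z + τ) - P n z|)) (fun z => ?_) y).trans ?_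
  · have a := (cp_lip' (P_nonneg n (z + τ)) (P_nonneg n z) t).trans
      (mul_le_mul_of_nonneg_right t2 (abs_nonneg _))
    have := mul_le_mul_of_nonneg_left a (q_pos m z).le
    unfold gt; linarith
  · rw [TT_smul]; linarith [TT_diffP m n hτ y]

lemma TT_blk (m k : ℕ) {F f : ℝ → ℝ} {c B : ℝ} (hc : 0 ≤ c) (hp : Per f) (h0 : ∀ z, 0 ≤ f z)
    (h1 : ∀ z, TT m F z ≤ c * q m z) (y : ℝ) (h2 : TT k (fun z => q m z * f z) y ≤ B) :
    TT (m + k) (fun x => F x * f (2 ^ m * x)) y ≤ c * B := by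
  refine le_trans ?_ (mul_le_mul_of_nonneg_left h2 hc)
  rw [TT_block m k F hp, ← TT_smul]
  refine TT_mono _ (fun z => ?_) y
  rw [← mul_assoc]; exact mul_le_mul_of_nonneg_right (h1 z) (h0 z)

lemma K_step {t : ℝ} (ht : |t| ≤ 1 / 200) (m : ℕ) (G : ℝ → ℂ) {c s : ℝ} (hc : 0 ≤ c)
    (hs : 2 ^ m * s = 1 / 2 ^ 40) (hK : ∀ y, TT m (fun x => ‖G x‖ ^ 2) y ≤ c * q m y)
    (hD : ∀ y, TT m (fun x => ‖G (x + s) - G x‖ ^ 2) y ≤ 100 * (1 / 2 ^ 40) * c * q m y) (y : ℝ) :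
    TT (m + 41) (fun x => ‖G x * gt 41 t (2 ^ m * x)
      - bet * (G (x + s) * gt 41 t (2 ^ m * (x + s)))‖ ^ 2) y ≤ c * thS * q (m + 41) y := by
  have p := q_pos (m + 41) y
  have g1 := TT_gain m ht y
  have g2 := TT_shiftP m 41 (1 / 2 ^ 40) y
  have s0 : (1 : ℝ) / 2 ^ 40 ≤ 1 / 10 ^ 12 := by norm_num
  have s1 : (0 : ℝ) ≤ 1 / 2 ^ 40 := by positivity
  generalize (1 : ℝ) / 2 ^ 40 = r at *
  obtain ⟨u, hu⟩ : ∃ u : ℝ → ℝ, u = fun z => ‖gt 41 t z - bet * gt 41 t (z + r)‖ ^ 2 := ⟨_, rfl⟩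
  obtain ⟨w, hw⟩ : ∃ w : ℝ → ℝ, w = fun z => P 41 (z + r) := ⟨_, rfl⟩
  have up : Per u := fun z => by
    simp only [hu]; rw [gt_per, show z + 1 + r = z + r + 1 by ring, gt_per]
  have wp : Per w := hw ▸ (P_per 41).shift _
  have h1 : ∀ x, ‖G x * gt 41 t (2 ^ m * x) - bet * (G (x + s) * gt 41 t (2 ^ m * (x + s)))‖ ^ 2 ≤
      (1 + 1 / 10 ^ 8) * (‖G x‖ ^ 2 * u (2 ^ m * x))
        + ((1 + 1 / (1 / 10 ^ 8)) * bet ^ 2) * (‖G (x + s) - G x‖ ^ 2 * w (2 ^ m * x)) := fun x => by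
    have := norm_sub_sq_le (G x * (gt 41 t (2 ^ m * x) - bet * gt 41 t (2 ^ m * x + r)))
      (bet * ((G (x + s) - G x) * gt 41 t (2 ^ m * x + r))) (ε := 1 / 10 ^ 8) (by norm_num)
    simp only [norm_mul, mul_pow, norm_gt_sq, Complex.norm_real, norm_eq_abs, sq_abs] at this
    rw [mul_add, hs, hu, hw]
    refine le_trans (le_of_eq ?_) (this.trans (le_of_eq ?_))
    · congr 2; ring
    · ring
  refine (TT_mono _ h1 y).trans ?_
  rw [TT_lin]
  have g1' : TT 41 (fun z => q m z * u z) y ≤ (1 - 36 / 10 ^ 9) * q (m + 41) y := by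
    simp only [hu]; exact g1
  have g2' : TT 41 (fun z => q m z * w z) y ≤ 2 * q (m + 41) y := by
    simp only [hw]; exact g2
  have a := TT_blk m 41 hc up (fun z => by rw [hu]; positivity) hK y g1'
  have b := TT_blk m 41 (by positivity) wp (fun z => by rw [hw]; exact P_nonneg _ _) hD y g2'
  have w0 : 0 ≤ c * q (m + 41) y := by positivity
  have b2 : 100 * r * c * (2 * q (m + 41) y) ≤ 200 / 10 ^ 12 * (c * q (m + 41) y) := by
    nlinarith [mul_le_mul_of_nonneg_right s0 w0]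
  have b3 := b.trans b2
  generalize TT (m + 41) (fun x => ‖G x‖ ^ 2 * u (2 ^ m * x)) y = X at *
  generalize TT (m + 41) (fun x => ‖G (x + s) - G x‖ ^ 2 * w (2 ^ m * x)) y = Y at *
  rw [mul_left_comm] at a
  rw [show c * thS * q (m + 41) y = thS * (c * q (m + 41) y) by ring]
  unfold bet thS
  generalize c * q (m + 41) y = Z at *
  norm_num at a b3 ⊢
  linarith

lemma D_step {t : ℝ} (ht : |t| ≤ 1 / 200) (m : ℕ) {G : ℝ → ℂ} (Gp : Per G) {c s : ℝ} (hc : 0 ≤ c)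
    (hs : 2 ^ (m + 41) * s = ((2 : ℕ) : ℝ)) (hK : ∀ y, TT m (fun x => ‖G x‖ ^ 2) y ≤ c * q m y)
    (hD : ∀ σ, 0 ≤ σ → ∀ y, TT m (fun x => ‖G (x + σ / 2 ^ m) - G x‖ ^ 2) y ≤ 100 * σ * c * q m y)
    {G' : ℝ → ℂ} (hG : ∀ x, G' x = G x * gt 41 t (2 ^ m * x)
      - bet * (G (x + s) * gt 41 t (2 ^ m * (x + s)))) {σ : ℝ} (hσ : 0 ≤ σ) (y : ℝ) :
    TT (m + 41) (fun x => ‖G' (x + σ / 2 ^ (m + 41)) - G' x‖ ^ 2) y ≤
      100 * σ * (c * thS) * q (m + 41) y := by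
  have p := q_pos (m + 41) y
  obtain ⟨τ, hτ⟩ : ∃ τ, τ = σ / 2 ^ 41 := ⟨_, rfl⟩
  have τ0 : 0 ≤ τ := by rw [hτ]; positivity
  have τ1 : 2 ^ 41 * τ = σ := by rw [hτ]; field_simp
  have τ2 : τ ≤ σ / 1000 := by rw [hτ]; gcongr; norm_num
  have e1 : σ / 2 ^ (m + 41) = τ / 2 ^ m := by rw [hτ, pow_add]; field_simp
  obtain ⟨H, hH⟩ : ∃ H : ℝ → ℂ, H = fun x => G x * gt 41 t (2 ^ m * x) := ⟨_, rfl⟩
  obtain ⟨D, hDd⟩ : ∃ D : ℝ → ℝ, D = fun x => ‖H (x + τ / 2 ^ m) - H x‖ ^ 2 := ⟨_, rfl⟩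
  obtain ⟨u, hu⟩ : ∃ u : ℝ → ℝ, u = fun z => ‖gt 41 t (z + τ) - gt 41 t z‖ ^ 2 := ⟨_, rfl⟩
  obtain ⟨w, hw⟩ : ∃ w : ℝ → ℝ, w = fun z => P 41 (z + τ) := ⟨_, rfl⟩
  have up : Per u := fun z => by
    simp only [hu]; rw [gt_per, show z + 1 + τ = z + τ + 1 by ring, gt_per]
  have wp : Per w := hw ▸ (P_per 41).shift _
  have Dp : Per D := fun x => by
    simp only [hDd, hH]
    rw [show x + 1 + τ / 2 ^ m = x + τ / 2 ^ m + 1 by ring, Gp, Gp, (gt_per 41 t).dil2',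
      (gt_per 41 t).dil2']
  have h1 : ∀ x, ‖G' (x + σ / 2 ^ (m + 41)) - G' x‖ ^ 2 ≤ 2 * D x + 2 * bet ^ 2 * D (x + s) :=
    fun x => by
      have := norm_sub_sq_le (H (x + τ / 2 ^ m) - H x)
        (bet * (H (x + s + τ / 2 ^ m) - H (x + s))) one_pos
      simp only [norm_mul, mul_pow, Complex.norm_real, norm_eq_abs, sq_abs] at this
      rw [e1, hG, hG, hDd, show x + τ / 2 ^ m + s = x + s + τ / 2 ^ m by ring]
      refine le_trans (le_of_eq ?_) (this.trans (le_of_eq ?_))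
      · congr 2; simp only [hH]; ring
      · ring
  have h2 : ∀ x, D x ≤ 2 * (‖G (x + τ / 2 ^ m) - G x‖ ^ 2 * w (2 ^ m * x))
      + 2 * (‖G x‖ ^ 2 * u (2 ^ m * x)) := fun x => by
    have := norm_sub_sq_le ((G (x + τ / 2 ^ m) - G x) * gt 41 t (2 ^ m * x + τ))
      (-(G x * (gt 41 t (2 ^ m * x + τ) - gt 41 t (2 ^ m * x)))) one_pos
    simp only [norm_neg, norm_mul, mul_pow, norm_gt_sq] at this
    simp only [hDd, hH, hu, hw]
    rw [show 2 ^ m * (x + τ / 2 ^ m) = 2 ^ m * x + τ by field_simp]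
    refine le_trans (le_of_eq ?_) (this.trans (le_of_eq ?_))
    · congr 2; ring
    · ring
  have w0 : 0 ≤ c * q (m + 41) y := by positivity
  have h3 : TT (m + 41) D y ≤ 41 * (σ * (c * q (m + 41) y)) := by
    refine (TT_mono _ h2 y).trans ?_
    rw [TT_lin]
    have g1' : TT 41 (fun z => q m z * u z) y ≤ 20 * 2 ^ 41 * τ * q (m + 41) y := by
      simp only [hu]; exact TT_difg ht m 41 τ0 y
    have g2' : TT 41 (fun z => q m z * w z) y ≤ 2 * q (m + 41) y := by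
      simp only [hw]; exact TT_shiftP m 41 τ y
    have a := TT_blk m 41 (by positivity) wp (fun z => by rw [hw]; exact P_nonneg _ _) (hD τ τ0) y g2'
    have b := TT_blk m 41 hc up (fun z => by rw [hu]; positivity) hK y g1'
    rw [mul_assoc 20, τ1] at b
    nlinarith [mul_le_mul_of_nonneg_right τ2 w0, mul_nonneg hσ w0]
  refine (TT_mono _ h1 y).trans ?_
  rw [TT_lin, TT_shift, hs, (TT_per _ Dp).nat]
  have w1 : 0 ≤ σ * (c * q (m + 41) y) := by positivity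
  have e : 100 * σ * (c * thS) * q (m + 41) y = 100 * thS * (σ * (c * q (m + 41) y)) := by ring
  rw [e]
  generalize σ * (c * q (m + 41) y) = Z at *
  generalize TT (m + 41) D y = X at *
  unfold bet thS
  norm_num
  linarith

lemma thS_pos : 0 < thS := by unfold thS; norm_num

lemma GG_inv (v : ℕ) {t : ℝ} (ht : |t| ≤ 1 / 200) (i : ℕ) :
    (∀ y, TT (lev v i) (fun x => ‖GG v t i x‖ ^ 2) y ≤ thS ^ i * q (lev v i) y) ∧
    ∀ σ, 0 ≤ σ → ∀ y, TT (lev v i) (fun x => ‖GG v t i (x + σ / 2 ^ lev v i) - GG v t i x‖ ^ 2) y ≤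
      100 * σ * thS ^ i * q (lev v i) y := by
  induction i with
  | zero =>
    refine ⟨fun y => ?_, fun σ hσ y => ?_⟩
    · simp only [GG, norm_gt_sq, pow_zero, one_mul]; rfl
    · have := TT_difg ht 0 v (τ := σ / 2 ^ v) (by positivity) y
      simp only [q_zero, one_mul, zero_add] at this
      simp only [GG, lev, mul_zero, add_zero, pow_zero, mul_one]
      refine this.trans ?_
      rw [show 20 * 2 ^ v * (σ / 2 ^ v) = 20 * σ by field_simp]
      have := q_pos v y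
      nlinarith [mul_nonneg hσ this.le]
  | succ i ih =>
    obtain ⟨hK, hD⟩ := ih
    have θ0 : 0 ≤ thS ^ i := pow_nonneg thS_pos.le i
    rw [lev_succ, pow_succ]
    refine ⟨fun y => ?_, fun σ hσ y => ?_⟩
    · refine K_step ht _ _ θ0 (pow_mul_sh v i) hK (fun z => ?_) y
      have e1 : sh v i = 1 / 2 ^ 40 / 2 ^ lev v i := by rw [← pow_mul_sh v i]; field_simp
      rw [e1]; exact hD _ (by positivity) z
    · exact D_step ht _ (GG_per v t i) θ0 (pow_succ_mul_sh v i) hK hD (fun _ => rfl) hσ y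

end Pool.Agent.MP_d431d3_nt
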