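import Pool.Agent.Lib.MP_d431d3_nt.Sparse

/-! Dyadic sparsity of the spectrum: exponential gain for large multipliers. -/

namespace Pool.Agent.MP_d431d3_nt

open Real Finset MeasureTheory

lemma fc_GG (v : ℕ) (t : ℝ) (i M : ℕ) (n : ℤ) :
    fc (fun x => GG v t i x * gt M t (2 ^ lev v i * x)) n =
      (∏ j ∈ range i, (1 - bet * ee (n * sh v j))) * fc (gt (lev v i + M) t) n := by
  induction i generalizing M with
  | zero =>
    simp only [range_zero, prod_empty, one_mul, GG]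
    congr 1; funext x; exact (gt_add _ _ _ _).symm
  | succ i ih =>
    obtain ⟨Φ, hΦ⟩ : ∃ Φ : ℝ → ℂ, Φ = fun x => GG v t i x * gt (41 + M) t (2 ^ lev v i * x) :=
      ⟨_, rfl⟩
    have Φp : Per Φ := fun x => by simp only [hΦ]; rw [GG_per, (gt_per _ t).dil2']
    have Φc : Continuous Φ := by rw [hΦ]; fun_prop
    have e : (fun x => GG v t (i + 1) x * gt M t (2 ^ lev v (i + 1) * x))
        = fun x => 1 * Φ x + (-bet) * Φ (x + sh v i) := by
      funext x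
      simp only [hΦ, GG, gt_add, lev_succ]
      have e1 : 2 ^ 41 * (2 ^ lev v i * x) = 2 ^ (lev v i + 41) * x := by rw [pow_add]; ring
      have e2 : 2 ^ 41 * (2 ^ lev v i * (x + sh v i)) = 2 ^ (lev v i + 41) * x + ((2 : ℕ) : ℝ) := by
        rw [← pow_succ_mul_sh v i, pow_add]; ring
      rw [e1, e2, (gt_per M t).nat]
      ring
    rw [e, fc_lin Φc (g := fun x => Φ (x + sh v i)) (by fun_prop), fc_shift Φp, hΦ, ih,
      prod_range_succ, lev_succ, add_assoc]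
    ring

noncomputable def lam (v i : ℕ) (n : ℤ) : ℝ := ∏ j ∈ range i, ‖1 - bet * ee (n * sh v j)‖ ^ 2

lemma fac_bounds (x : ℝ) : 1 / 2 ≤ ‖1 - bet * ee x‖ ^ 2 ∧ ‖1 - bet * ee x‖ ^ 2 ≤ 2 := by
  rw [normSq_one_sub]
  have := abs_le.1 (abs_cos_le_one (2 * π * x))
  unfold bet
  constructor <;> nlinarith

lemma lam_pos (v i : ℕ) (n : ℤ) : 0 < lam v i n :=
  prod_pos fun _ _ => lt_of_lt_of_le (by norm_num) (fac_bounds _).1

lemma lam_le (v i : ℕ) (n : ℤ) : lam v i n ≤ 2 ^ i := by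
  calc _ ≤ ∏ _j ∈ range i, (2 : ℝ) := prod_le_prod (fun _ _ => by positivity) fun _ _ => (fac_bounds _).2
    _ = _ := by simp

lemma lam_mass {v i L : ℕ} (h : lev v i ≤ L) {t : ℝ} (ht : |t| ≤ 1 / 200) (U : Finset ℤ) :
    ∑ n ∈ U, lam v i n * ‖fc (gt L t) n‖ ^ 2 ≤ 2 * rho ^ L * thS ^ i := by
  obtain ⟨M, rfl⟩ := Nat.exists_eq_add_of_le h
  have hb := bessel (f := fun x => GG v t i x * gt M t (2 ^ lev v i * x)) (by fun_prop) U
  simp only [fc_GG, norm_mul, mul_pow, norm_prod, ← prod_pow, norm_gt_sq] at hb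
  refine hb.trans ?_
  rw [Ex_mul_dil _ (F := fun x => ‖GG v t i x‖ ^ 2) (by fun_prop) (by fun_prop) (P_per M)]
  have θ0 := pow_pos thS_pos i
  calc _ ≤ Ex (fun y => thS ^ i * (q (lev v i) y * P M y)) := by
        refine Ex_mono ((TT_cont _ (by fun_prop)).mul (by fun_prop)) (by fun_prop) fun y => ?_
        rw [← mul_assoc]
        exact mul_le_mul_of_nonneg_right ((GG_inv v ht i).1 y) (P_nonneg _ _)
    _ ≤ _ := by
        rw [Ex_smul, Ex_qP, mul_comm]; gcongr; exact sinInt_le _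

noncomputable def gam : ℝ := 1 + 4 / 10 ^ 10

lemma flip_avg (x : ℝ) :
    1 / ‖1 - bet * ee x‖ ^ 2 + 1 / ‖1 - bet * ee (x + 1 / 2)‖ ^ 2 ≤ 2 * gam := by
  have a := (fac_bounds x).1
  have b := (fac_bounds (x + 1 / 2)).1
  rw [div_add_div _ _ (by linarith) (by linarith), div_le_iff₀ (by positivity)]
  rw [normSq_one_sub, normSq_one_sub, show 2 * π * (x + 1 / 2) = 2 * π * x + π by ring, cos_add_pi]
  have := cos_sq_le_one (2 * π * x)
  unfold bet gam
  nlinarith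

lemma lam_per {v i w : ℕ} (h : lev v i ≤ w) (k : ℤ) (a : ℕ) :
    lam v i (k * ((a + 2 ^ w : ℕ) : ℤ)) = lam v i (k * a) := by
  unfold lam
  refine prod_congr rfl fun j hj => ?_
  have hj' := mem_range.1 hj
  obtain ⟨d, rfl⟩ : ∃ d, w = lev v j + 40 + d := ⟨w - (lev v j + 40), by unfold lev at *; omega⟩
  rw [← ee_per.int (k * 2 ^ d) (((k * a : ℤ) : ℝ) * sh v j)]
  congr 5
  unfold sh; push_cast; rw [pow_add _ _ d]; field_simp

lemma lam_avg {v w : ℕ} {k : ℤ} (hk : ¬ (2 : ℤ) ^ v ∣ k) (i : ℕ) (h : lev v i ≤ w) :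
    ∑ a ∈ range (2 ^ w), 1 / lam v i (k * a) ≤ 2 ^ w * gam ^ i := by
  have k0 : k ≠ 0 := by rintro rfl; exact hk (dvd_zero _)
  obtain ⟨v', k', hk', e⟩ : ∃ (v' : ℕ) (k' : ℤ), Odd k' ∧ k = 2 ^ v' * k' := by
    obtain ⟨v', m, hm, e⟩ := Nat.exists_eq_two_pow_mul_odd (Int.natAbs_ne_zero.2 k0)
    rcases Int.natAbs_eq k with h | h
    · exact ⟨v', m, by exact_mod_cast hm, by rw [h, e]; push_cast; ring⟩
    · exact ⟨v', -m, (by exact_mod_cast hm : Odd (m : ℤ)).neg, by rw [h, e]; push_cast; ring⟩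
  have hv : v' ≤ v := by
    by_contra c
    exact hk (e ▸ Dvd.dvd.mul_right (pow_dvd_pow 2 (by omega)) _)
  induction i with
  | zero => simp [lam]
  | succ i ih =>
    rw [lev_succ] at h
    have ih := ih (by omega)
    obtain ⟨d, hd⟩ : ∃ d, lev v i + 39 = v' + d := ⟨lev v i + 39 - v', by unfold lev; omega⟩
    obtain ⟨r, hr⟩ := hk'
    have s1 := sum_range_shift (F := fun a : ℕ => 1 / lam v (i + 1) (k * a)) (e := 2 ^ w)
      (fun a => by rw [lam_per (by rw [lev_succ]; exact h)]) (2 ^ d)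
    have e1 : ∀ a : ℕ, lam v i (k * ((a + 2 ^ d : ℕ) : ℤ)) = lam v i (k * a) := fun a => by
      unfold lam
      refine prod_congr rfl fun j hj => ?_
      have hj' := mem_range.1 hj
      obtain ⟨c, hc⟩ : ∃ c, v' + d = lev v j + 40 + c :=
        ⟨v' + d - (lev v j + 40), by unfold lev at *; omega⟩
      rw [← ee_per.int (k' * 2 ^ c) (((k * a : ℤ) : ℝ) * sh v j)]
      congr 5
      have : (2 : ℝ) ^ v' * 2 ^ d = 2 ^ (lev v j + 40) * 2 ^ c := by rw [← pow_add, hc, pow_add]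
      unfold sh; rw [e]; push_cast; field_simp
      linear_combination (k' : ℝ) * this
    have e2 : ∀ a : ℕ, ee (((k * ((a + 2 ^ d : ℕ) : ℤ) : ℤ) : ℝ) * sh v i)
        = ee (((k * a : ℤ) : ℝ) * sh v i + 1 / 2) := fun a => by
      rw [← ee_per.int r (((k * a : ℤ) : ℝ) * sh v i + 1 / 2)]
      congr 1
      have : (2 : ℝ) ^ v' * 2 ^ d * 2 = 2 ^ (lev v i + 40) := by
        rw [← pow_add, ← hd, ← pow_succ]
      unfold sh; rw [e, hr]; push_cast; field_simp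
      linear_combination (2 * r + 1 : ℝ) * this
    have s2 : ∀ a ∈ range (2 ^ w), 1 / lam v (i + 1) (k * a) + 1 / lam v (i + 1) (k * ((a + 2 ^ d : ℕ) : ℤ))
        ≤ 2 * gam * (1 / lam v i (k * a)) := fun a _ => by
      have l0 := lam_pos v i (k * a)
      have := mul_le_mul_of_nonneg_right (flip_avg (((k * a : ℤ) : ℝ) * sh v i))
        (by positivity : 0 ≤ 1 / lam v i (k * a))
      refine le_trans (le_of_eq ?_) this
      simp only [lam, prod_range_succ]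
      rw [e2, ← lam, ← lam, e1]
      simp only [one_div, mul_inv]; ring
    have s3 := sum_le_sum s2
    rw [sum_add_distrib, s1, ← mul_sum] at s3
    have g0 : 0 ≤ gam := by unfold gam; norm_num
    have := mul_le_mul_of_nonneg_left ih g0
    rw [pow_succ]
    linarith

lemma lam_inv_sum {v w i H : ℕ} {k : ℤ} (hk : ¬ (2 : ℤ) ^ v ∣ k) (h : lev v i ≤ w) {A : Finset ℕ}
    (hA : ∀ a ∈ A, 2 ^ w ≤ a ∧ a ≤ H) :
    ∑ a ∈ A, 1 / (a * lam v i (k * a)) ≤ Hm H * gam ^ i := by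
  have w0 : 0 < 2 ^ w := by positivity
  have per : ∀ c a : ℕ, lam v i (k * ((a + 2 ^ w * c : ℕ) : ℤ)) = lam v i (k * a) := fun c a => by
    induction c with
    | zero => simp
    | succ c ih => rw [mul_add, mul_one, ← add_assoc, lam_per h, ih]
  calc _ ≤ ∑ p ∈ Icc 1 H ×ˢ range (2 ^ w), (1 : ℝ) / p.1 * (1 / 2 ^ w * (1 / lam v i (k * p.2))) := by
        refine sum_le_inj (fun a => (a / 2 ^ w, a % 2 ^ w)) (fun a ha => ?_) (fun a _ b _ e => ?_)
          (fun a ha => ?_) (fun p _ => by have := lam_pos v i (k * p.2); positivity)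
        · simp only [mem_product, mem_Icc, mem_range]
          exact ⟨⟨Nat.div_pos (hA a ha).1 w0, (Nat.div_le_self _ _).trans (hA a ha).2⟩,
            Nat.mod_lt _ w0⟩
        · simp only [Prod.mk.injEq] at e
          rw [← Nat.mod_add_div a (2 ^ w), ← Nat.mod_add_div b (2 ^ w), e.1, e.2]
        · have e := per (a / 2 ^ w) (a % 2 ^ w)
          rw [Nat.mod_add_div] at e
          have l0 := lam_pos v i (k * a)
          have c0 : (0 : ℝ) < (a / 2 ^ w : ℕ) := by exact_mod_cast Nat.div_pos (hA a ha).1 w0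
          have c1 : ((a / 2 ^ w : ℕ) : ℝ) * 2 ^ w ≤ a := by exact_mod_cast Nat.div_mul_le_self a _
          simp only
          rw [← e, one_div_mul_one_div, one_div_mul_one_div, ← mul_assoc]
          gcongr
    _ = Hm H * (1 / 2 ^ w * ∑ a ∈ range (2 ^ w), 1 / lam v i (k * a)) := by
        rw [sum_product, Hm, mul_sum (range _), sum_mul_sum]
    _ ≤ Hm H * (1 / 2 ^ w * (2 ^ w * gam ^ i)) := by
        gcongr
        · exact Hm_nonneg H
        · exact lam_avg hk i h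
    _ = _ := by field_simp

/-- Exponential gain for multipliers at least `2 ^ (82 u)` and small twists. -/
theorem sparse_bound : ∃ ζ : ℝ, 0 < ζ ∧ ζ < 1 ∧ ∀ η : ℝ, 1 < η → ∃ C : ℝ, 0 < C ∧
    ∀ (L u : ℕ) (t : ℝ) (H : ℕ) (A : Finset ℕ) (S : Finset ℤ), 82 * u ≤ L → |t| ≤ 1 / 200 →
    H ≤ 2 ^ (4 * L) → (∀ a ∈ A, 2 ^ (82 * u) ≤ a ∧ a ≤ H) → 0 ∉ S →
    Qs (fun n => ‖fc (gt L t) n‖) A S ≤ C * η ^ L * ζ ^ u * rho ^ L := by
  classical
  set ζ := max (gam * thS) th1 with hζ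
  have ζ1 : ζ < 1 := max_lt (by unfold gam thS; norm_num) th1_lt
  have ζh : 1 / 2 ≤ ζ := le_trans (by unfold gam thS; norm_num) (le_max_left _ _)
  refine ⟨ζ, by linarith, ζ1, fun η hη => ?_⟩
  obtain ⟨η', h1, h2⟩ : ∃ η' : ℝ, 1 < η' ∧ η' ^ 9 = η :=
    ⟨η ^ ((9 : ℕ) : ℝ)⁻¹, one_lt_rpow hη (by norm_num), rpow_inv_natCast_pow (by linarith) (by norm_num)⟩
  obtain ⟨C1, c1, hC1⟩ := dv_pow_le 1 h1
  obtain ⟨C2, c2, hC2⟩ := poly_le_exp 1 h1
  refine ⟨4 * C2 * (4 * C1 + 16), by positivity, fun L u t H A S hu ht hH hA hS => ?_⟩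
  have rp := rho_pos
  have r1 : 1 ≤ rho ^ L := one_le_pow₀ one_le_rho
  have η0 : 0 < η' := by linarith
  have ζ0 : 0 < ζ := by linarith
  have g1 : 1 ≤ gam := by unfold gam; norm_num
  have t2 : 1 + 4 * t ^ 2 ≤ 2 := by
    have := pow_le_pow_left₀ (abs_nonneg t) ht 2
    rw [sq_abs] at this; linarith
  have hA' : ∀ a ∈ A, 0 < a ∧ a ≤ H := fun a ha =>
    ⟨lt_of_lt_of_le (by positivity) (hA a ha).1, (hA a ha).2⟩
  have hHm : Hm H ≤ 4 * C2 * η' ^ L := by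
    refine (Hm_le hH).trans ?_
    have := hC2 L
    push_cast; rw [pow_one] at this; linarith
  have hcnt : ∀ n : ℤ, n ≠ 0 → n.natAbs ≤ 2 ^ (8 * L) → (cnt A n : ℝ) ≤ C1 * η' ^ (8 * L) := by
    intro n h0 h3
    have a := hC1 (8 * L) n.natAbs (Int.natAbs_pos.2 h0) h3
    have b : (cnt A n : ℝ) ≤ dv n.natAbs := by exact_mod_cast cnt_le_dv A h0
    rw [pow_one] at a; linarith
  have tl : ∀ U : Finset ℤ, (∀ n ∈ U, 2 ^ (8 * L) ≤ n.natAbs) →
      ∑ n ∈ U, ‖fc (gt L t) n‖ ^ 2 ≤ 8 / 2 ^ (6 * L) := fun U hU => by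
    refine (gt_tail L t (by positivity) U hU).trans ?_
    have b : ((2 ^ (8 * L) : ℕ) : ℝ) = 2 ^ (6 * L) * 4 ^ L := by
      push_cast; rw [show (4 : ℝ) = 2 ^ 2 by norm_num, ← pow_mul, ← pow_add]; congr 1; ring
    rw [b]
    calc _ ≤ (2 : ℝ) * (4 * 4 ^ L) / (2 ^ (6 * L) * 4 ^ L) := by gcongr
      _ = _ := by field_simp; norm_num
  have tl2 : gam ^ u * (H * (2 ^ u * (8 / 2 ^ (6 * L)))) ≤ 8 * ζ ^ u := by
    have a : (H : ℝ) ≤ 2 ^ (4 * L) := by exact_mod_cast hH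
    have b : gam ^ u ≤ 2 ^ u := pow_le_pow_left₀ (by linarith) (by unfold gam; norm_num) u
    have c : (2 : ℝ) ^ u * 2 ^ (4 * L) * 2 ^ u * 2 ^ u ≤ 2 ^ (6 * L) := by
      rw [← pow_add, ← pow_add, ← pow_add]; exact pow_le_pow_right₀ (by norm_num) (by omega)
    have d : (1 / 2 : ℝ) ^ u ≤ ζ ^ u := by gcongr
    calc _ ≤ 2 ^ u * (2 ^ (4 * L) * (2 ^ u * (8 / 2 ^ (6 * L)))) := by gcongr
      _ = 8 * (1 / 2) ^ u * ((2 : ℝ) ^ u * 2 ^ (4 * L) * 2 ^ u * 2 ^ u / 2 ^ (6 * L)) := by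
        rw [one_div_pow]; field_simp
      _ ≤ 8 * ζ ^ u * 1 := by gcongr; rwa [div_le_one (by positivity)]
      _ = _ := mul_one _
  have nz : ∀ k ∈ S, ∀ a ∈ A, k * (a : ℤ) ≠ 0 := fun k hk a ha =>
    mul_ne_zero (fun h => hS (h ▸ hk)) (by exact_mod_cast (hA' a ha).1.ne')
  have lv : lev (41 * u) u = 82 * u := by unfold lev; ring
  have Q1 : Qs (fun n => ‖fc (gt L t) n‖) A (S.filter fun k => ¬ (2 : ℤ) ^ (41 * u) ∣ k) ≤
      Hm H * gam ^ u * (C1 * η' ^ (8 * L) * (2 * rho ^ L * thS ^ u)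
        + H * (2 ^ u * (8 / 2 ^ (6 * L)))) := by
    refine (Qs_cs (lam_pos (41 * u) u) (fun k hk =>
      lam_inv_sum (mem_filter.1 hk).2 lv.le hA)).trans ?_
    refine mul_le_mul_of_nonneg_left ?_ (mul_nonneg (Hm_nonneg H) (by positivity))
    refine double_sum_le (F := fun n => lam (41 * u) u n * ‖fc (gt L t) n‖ ^ 2)
      (fun n => mul_nonneg (lam_pos _ _ _).le (by positivity)) hA' (K := 2 ^ (8 * L))
      (p := fun n => n ≠ 0) (fun k hk a ha => nz k (mem_filter.1 hk).1 a ha) (fun U hU => ?_)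
      (fun U hU => ?_)
    · refine le_trans ?_ (mul_le_mul_of_nonneg_left (lam_mass (v := 41 * u) (i := u)
        (by rw [lv]; exact hu) ht U) (by positivity))
      rw [mul_sum]
      refine sum_le_sum fun n hn => ?_
      rw [mul_comm]
      exact mul_le_mul_of_nonneg_right (hcnt n (hU n hn).1 (hU n hn).2)
        (mul_nonneg (lam_pos _ _ _).le (by positivity))
    · refine le_trans ?_ (mul_le_mul_of_nonneg_left (tl U hU) (by positivity))
      rw [mul_sum]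
      exact sum_le_sum fun n _ => mul_le_mul_of_nonneg_right (lam_le _ _ _) (by positivity)
  have Q2 : Qs (fun n => ‖fc (gt L t) n‖) A (S.filter fun k => (2 : ℤ) ^ (41 * u) ∣ k) ≤
      Hm H * (C1 * η' ^ (8 * L) * (2 * rho ^ L * th1 ^ (13 * u)) + H * (8 / 2 ^ (6 * L))) := by
    refine (Qs_cs (lam := fun _ => 1) (fun _ => one_pos) (B := Hm H) (fun k _ => by
      simp only [mul_one]; exact sum_inv_le hA')).trans ?_
    refine mul_le_mul_of_nonneg_left ?_ (Hm_nonneg H)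
    simp only [one_mul]
    refine double_sum_le (F := fun n => ‖fc (gt L t) n‖ ^ 2)
      (fun n => by positivity) hA' (K := 2 ^ (8 * L))
      (p := fun n => n ≠ 0 ∧ (8 : ℤ) ^ (13 * u) ∣ n) (fun k hk a ha => ⟨nz k (mem_filter.1 hk).1 a ha,
        Dvd.dvd.mul_right (dvd_trans ?_ (mem_filter.1 hk).2) _⟩) (fun U hU => ?_) tl
    · rw [show (8 : ℤ) = 2 ^ 3 by norm_num, ← pow_mul]; exact pow_dvd_pow 2 (by omega)
    · refine le_trans ?_ (mul_le_mul_of_nonneg_left (mass_two t (l := 13 * u) (by omega) U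
        fun n hn => (hU n hn).1.2) (by positivity))
      rw [mul_sum]
      refine sum_le_sum fun n hn => ?_
      rw [mul_comm]
      exact mul_le_mul_of_nonneg_right (hcnt n (hU n hn).1.1 (hU n hn).2) (by positivity)
  have split : Qs (fun n => ‖fc (gt L t) n‖) A S =
      Qs (fun n => ‖fc (gt L t) n‖) A (S.filter fun k => (2 : ℤ) ^ (41 * u) ∣ k) +
      Qs (fun n => ‖fc (gt L t) n‖) A (S.filter fun k => ¬ (2 : ℤ) ^ (41 * u) ∣ k) :=
    (sum_filter_add_sum_filter_not S _ _).symm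
  have z1 : gam ^ u * thS ^ u ≤ ζ ^ u := by
    rw [← mul_pow]
    exact pow_le_pow_left₀ (by have := thS_pos; positivity) (le_max_left _ _) u
  have z2 : th1 ^ (13 * u) ≤ ζ ^ u :=
    (pow_le_pow_of_le_one th1_pos.le th1_lt.le (by omega)).trans
      (pow_le_pow_left₀ th1_pos.le (le_max_right _ _) u)
  have z3 : (H : ℝ) * (8 / 2 ^ (6 * L)) ≤ 8 * ζ ^ u := by
    refine le_trans ?_ tl2
    calc _ = (1 : ℝ) * (H * (1 * (8 / 2 ^ (6 * L)))) := by ring
      _ ≤ _ := by gcongr <;> exact one_le_pow₀ (by linarith)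
  have z4 : ζ ^ u ≤ η' ^ (8 * L) * (rho ^ L * ζ ^ u) := by
    rw [← mul_assoc]
    exact le_mul_of_one_le_left (by positivity)
      (one_le_mul_of_one_le_of_one_le (one_le_pow₀ h1.le) r1)
  have z5 : gam ^ u * (C1 * η' ^ (8 * L) * (2 * rho ^ L * thS ^ u)) ≤
      2 * C1 * (η' ^ (8 * L) * (rho ^ L * ζ ^ u)) := by
    calc _ = 2 * C1 * (η' ^ (8 * L) * (rho ^ L * (gam ^ u * thS ^ u))) := by ring
      _ ≤ _ := by gcongr
  have z6 : C1 * η' ^ (8 * L) * (2 * rho ^ L * th1 ^ (13 * u)) ≤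
      2 * C1 * (η' ^ (8 * L) * (rho ^ L * ζ ^ u)) := by
    calc _ = 2 * C1 * (η' ^ (8 * L) * (rho ^ L * th1 ^ (13 * u))) := by ring
      _ ≤ _ := by gcongr
  have fin : Qs (fun n => ‖fc (gt L t) n‖) A S ≤
      Hm H * ((4 * C1 + 16) * (η' ^ (8 * L) * (rho ^ L * ζ ^ u))) := by
    rw [split]
    refine (add_le_add Q2 Q1).trans ?_
    rw [mul_assoc (Hm H), ← mul_add]
    refine mul_le_mul_of_nonneg_left ?_ (Hm_nonneg H)
    rw [mul_add (gam ^ u)]
    linarith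
  refine fin.trans ?_
  calc _ ≤ 4 * C2 * η' ^ L * ((4 * C1 + 16) * (η' ^ (8 * L) * (rho ^ L * ζ ^ u))) := by gcongr
    _ = _ := by rw [← h2, ← pow_mul]; ring

end Pool.Agent.MP_d431d3_nt
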