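import Pool.Agent.Lib.MP_d431d3_nt.ET

/-! Exponential sums along the integers with even binary digit sum. -/

namespace Pool.Agent.MP_d431d3_nt

open Real Finset MeasureTheory

/-- Thue-Morse sign. -/
def sg (n : ℕ) : ℤ := (-1) ^ (Nat.digits 2 n).sum

lemma sg_zero : sg 0 = 1 := by simp [sg]

lemma sg_two_mul (n : ℕ) : sg (2 * n) = sg n := by
  rcases Nat.eq_zero_or_pos n with rfl | h
  · rfl
  · unfold sg
    rw [Nat.digits_def' (by norm_num) (by omega), Nat.mul_mod_right, Nat.mul_div_cancel_left _ two_pos]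
    simp

lemma sg_two_mul_add (n : ℕ) : sg (2 * n + 1) = -sg n := by
  unfold sg
  rw [Nat.digits_def' (by norm_num) (by omega), show (2 * n + 1) % 2 = 1 by omega,
    show (2 * n + 1) / 2 = n by omega, List.sum_cons, pow_add]
  simp

lemma norm_sg (n : ℕ) : ‖(sg n : ℂ)‖ = 1 := by simp [sg]

noncomputable def VV (M : ℕ) (x : ℝ) : ℂ := ∑ n ∈ range M, (sg n : ℂ) * ee (n * x)

lemma VV_two_mul (m : ℕ) (x : ℝ) : VV (2 * m) x = (1 - ee x) * VV m (2 * x) := by
  induction m with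
  | zero => simp [VV]
  | succ m ih =>
    unfold VV at *
    rw [show 2 * (m + 1) = 2 * m + 1 + 1 by ring, sum_range_succ, sum_range_succ, ih, sum_range_succ,
      sg_two_mul, sg_two_mul_add]
    push_cast
    rw [show (2 * (m : ℝ) + 1) * x = m * (2 * x) + x by ring, show 2 * (m : ℝ) * x = m * (2 * x) by ring,
      ee_add]
    ring

lemma norm_VV_half (M : ℕ) (x : ℝ) : ‖VV M x‖ ≤ ph x * ‖VV (M / 2) (2 * x)‖ + 1 := by
  rcases Nat.even_or_odd' M with ⟨m, rfl | rfl⟩
  · rw [VV_two_mul, norm_mul, norm_one_sub_ee, Nat.mul_div_cancel_left _ two_pos]; linarith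
  · rw [show (2 * m + 1) / 2 = m by omega, VV, sum_range_succ, ← VV, VV_two_mul]
    refine (norm_add_le _ _).trans ?_
    rw [norm_mul, norm_mul, norm_one_sub_ee, norm_sg, norm_ee, mul_one]

lemma P_succ' (j : ℕ) (x : ℝ) : P (j + 1) x = ph x * P j (2 * x) := by
  rw [add_comm, P_add]; simp [P]

lemma norm_VV_le (L : ℕ) {M : ℕ} (h : M < 2 ^ L) (x : ℝ) : ‖VV M x‖ ≤ ∑ j ∈ range L, P j x := by
  induction L generalizing M x with
  | zero =>
    have : M = 0 := by simpa using h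
    simp [this, VV]
  | succ L ih =>
    refine (norm_VV_half M x).trans ?_
    rw [sum_range_succ', P_zero]
    simp only [P_succ', ← mul_sum]
    gcongr
    · exact ph_nonneg _
    · exact ih (by rw [pow_succ] at h; omega) _

lemma norm_VV_pow (L : ℕ) (x : ℝ) : ‖VV (2 ^ L) x‖ = P L x := by
  induction L generalizing x with
  | zero => simp [VV, sg_zero]
  | succ L ih => rw [pow_succ', VV_two_mul, norm_mul, norm_one_sub_ee, ih, P_succ']

open Classical in
/-- Number of terms of the sequence below `M`. -/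
noncomputable def cntE (M : ℕ) : ℕ := Nat.count EvenDigitSum M

lemma sum_seq (M : ℕ) (hM : 0 < M) (F : ℕ → ℂ) :
    ∑ k ∈ range (cntE M), F (seq k) =
      (∑ n ∈ range M, F n + ∑ n ∈ range M, (sg n : ℂ) * F n) / 2 - F 0 := by
  classical
  induction M, hM using Nat.le_induction with
  | base => simp [cntE, Nat.count_succ, EvenDigitSum, sg_zero]
  | succ M hM ih =>
    unfold cntE at *
    rw [Nat.count_succ, sum_range_succ, sum_range_succ]
    by_cases h : EvenDigitSum M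
    · have : sg M = 1 := h.2.neg_one_pow
      rw [if_pos h, sum_range_succ, ih, seq, Nat.nth_count h, this]; push_cast; ring
    · have : sg M = -1 := (Nat.not_even_iff_odd.1 fun c => h ⟨hM, c⟩).neg_one_pow
      rw [if_neg h, add_zero, ih, this]; push_cast; ring

lemma ph_zero : ph 0 = 0 := by simp [ph]

lemma cntE_eq (M : ℕ) (hM : 0 < M) : (cntE M : ℂ) = (M + VV M 0) / 2 - 1 := by
  have := sum_seq M hM fun _ => 1
  simpa [VV] using this

lemma cntE_ge (M : ℕ) : M ≤ 2 * cntE M + 3 := by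
  rcases Nat.eq_zero_or_pos M with rfl | hM
  · omega
  have h := congrArg Complex.re (cntE_eq M hM)
  have h2 := norm_VV_half M 0
  rw [ph_zero, zero_mul, zero_add] at h2
  have h3 := (abs_le.1 ((Complex.abs_re_le_norm _).trans h2)).1
  simp at h
  have : (M : ℝ) ≤ 2 * cntE M + 3 := by linarith
  exact_mod_cast this

lemma cntE_pow (L : ℕ) : cntE (2 ^ (L + 1)) + 1 = 2 ^ L := by
  have h := cntE_eq (2 ^ (L + 1)) (by positivity)
  have h2 := norm_VV_pow (L + 1) 0
  rw [P_succ', ph_zero, zero_mul, norm_eq_zero] at h2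
  rw [h2] at h
  have : ((cntE (2 ^ (L + 1)) + 1 : ℕ) : ℂ) = ((2 ^ L : ℕ) : ℂ) := by
    push_cast at h ⊢; rw [h]; ring
  exact_mod_cast this

lemma infinite_EDS : (setOf EvenDigitSum).Infinite := by
  classical
  intro hf
  have h1 := cntE_ge (2 * hf.toFinset.card + 4)
  have h2 : cntE (2 * hf.toFinset.card + 4) ≤ hf.toFinset.card := Nat.count_le_card hf _
  omega

lemma cntE_seq (N : ℕ) : cntE (seq N) = N := by
  classical
  exact Nat.count_nth_of_infinite infinite_EDS N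

lemma seq_pos (N : ℕ) : 0 < seq N := (Nat.nth_mem_of_infinite infinite_EDS N).1

/-- Exponential sum along the sequence. -/
noncomputable def SS (N : ℕ) (x : ℝ) : ℂ := ∑ k ∈ range N, ee (seq k * x)

noncomputable def KK (M : ℕ) (x : ℝ) : ℂ := ∑ n ∈ range M, ee (n * x)

lemma SS_cnt (M : ℕ) (hM : 0 < M) (x : ℝ) : SS (cntE M) x = (KK M x + VV M x) / 2 - 1 := by
  have := sum_seq M hM fun n => ee (n * x)
  simpa [SS, KK, VV] using this

lemma norm_KK_le (M : ℕ) (x : ℝ) : ‖KK M x‖ ≤ M := by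
  refine (norm_sum_le _ _).trans ?_; simp

/-- Majorant for geometric sums of length below `2 ^ L`. -/
noncomputable def kr (L : ℕ) (x : ℝ) : ℝ := 2 + ∑ r ∈ range L, 2 ^ (r + 2) * ind (ph x < 1 / 2 ^ r)

lemma kr_nonneg (L : ℕ) (x : ℝ) : 0 ≤ kr L x :=
  add_nonneg (by norm_num) (sum_nonneg fun _ _ => mul_nonneg (by positivity) (ind_nonneg _))

lemma norm_KK_le_kr (L : ℕ) {M : ℕ} (h : M ≤ 2 ^ L) (x : ℝ) : ‖KK M x‖ ≤ kr L x := by
  have g : ‖KK M x‖ * ph x ≤ 2 := geom_ee x M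
  have key : ∀ l : ℕ, min (2 ^ (l + 1)) ‖KK M x‖ ≤ kr l x := fun l => by
    induction l with
    | zero => simp [kr]
    | succ l ih =>
      have e : kr (l + 1) x = kr l x + 2 ^ (l + 2) * ind (ph x < 1 / 2 ^ l) := by
        simp only [kr, sum_range_succ]; ring
      rw [e]
      by_cases c : ph x < 1 / 2 ^ l
      · rw [ind_pos c, mul_one]
        linarith [min_le_left ((2 : ℝ) ^ (l + 1 + 1)) ‖KK M x‖, kr_nonneg l x]
      · rw [ind_neg c, mul_zero, add_zero]
        refine le_trans ?_ ih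
        refine le_min ((min_le_right _ _).trans ?_) (min_le_right _ _)
        have := mul_le_mul_of_nonneg_left (not_lt.1 c) (norm_nonneg (KK M x))
        rw [mul_one_div, div_le_iff₀ (by positivity)] at this
        rw [pow_succ]
        nlinarith [pow_pos (by norm_num : (0 : ℝ) < 2) l]
  refine le_trans (le_min ?_ le_rfl) (key L)
  have : (M : ℝ) ≤ 2 ^ L := by exact_mod_cast h
  rw [pow_succ]
  linarith [norm_KK_le M x, pow_pos (by norm_num : (0 : ℝ) < 2) L]

lemma BM_ind_ph (δ : ℝ) : BM fun x => ind (ph x < δ) :=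
  BM.ind (measurableSet_lt continuous_ph.measurable measurable_const)

lemma BM_kr (L : ℕ) : BM (kr L) := (BM.const 2).add (BM.sum _ fun _ _ => (BM_ind_ph _).smul _)

lemma kr_per (L : ℕ) : Per (kr L) := fun x => by unfold kr; rw [ph_per]

lemma Ex_ind_lt {a : ℝ} (h0 : 0 ≤ a) (h1 : a ≤ 1) : Ex (fun x => ind (x < a)) = a := by
  have b : BM fun x => ind (x < a) := BM.ind measurableSet_Iio
  have e1 : ∫ x in (0 : ℝ)..a, ind (x < a) = a := by
    rw [intervalIntegral.integral_of_le h0, integral_Ioc_eq_integral_Ioo,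
      setIntegral_congr_fun measurableSet_Ioo (g := fun _ => (1 : ℝ)) fun x hx => ind_pos hx.2]
    simp [h0]
  have e2 : ∫ x in a..1, ind (x < a) = 0 := by
    rw [intervalIntegral.integral_of_le h1,
      setIntegral_congr_fun measurableSet_Ioc (g := fun _ => (0 : ℝ)) fun x hx =>
        ind_neg (not_lt.2 hx.1.le)]
    simp
  unfold Ex
  rw [← intervalIntegral.integral_add_adjacent_intervals (b.ii 0 a) (b.ii a 1), e1, e2, add_zero]

lemma Ex_ind_ph {δ : ℝ} (h0 : 0 ≤ δ) (h1 : δ ≤ 1) : Ex (fun x => ind (ph x < δ)) ≤ δ := by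
  have p : Per fun x => ind (ph x < δ) := fun x => by simp only; rw [ph_per]
  rw [← Ex_shift p (-(δ / 4))]
  refine le_trans (Ex_mono01 ((BM_ind_ph δ).shift _) (BM.ind (p := fun x => x < δ / 2)
    measurableSet_Iio) fun x x0 x1 => ind_le_of (ind_nonneg _) fun h => (ind_pos ?_).ge) ?_
  · by_contra c
    rcases le_total (x + -(δ / 4)) (1 / 2) with d | d
    · have := ph_ge_abs (x := x + -(δ / 4)) (by rwa [abs_of_nonneg (by linarith)])
      rw [abs_of_nonneg (by linarith)] at this; linarith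
    · have := ph_ge_abs (x := x + -(δ / 4) - 1)
        (by rw [abs_sub_comm, abs_of_nonneg (by linarith)]; linarith)
      rw [← ph_per, sub_add_cancel, abs_sub_comm, abs_of_nonneg (by linarith)] at this
      linarith
  · rw [Ex_ind_lt (by linarith) (by linarith)]; linarith

lemma Ex_kr (L : ℕ) : Ex (kr L) ≤ 2 + 4 * L := by
  unfold kr
  rw [Ex_addB (BM.const 2) (BM.sum _ fun _ _ => (BM_ind_ph _).smul _), Ex_const,
    Ex_sumB _ fun _ _ => (BM_ind_ph _).smul _]
  gcongr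
  refine (sum_le_card_nsmul _ _ 4 fun r _ => ?_).trans (by simp [mul_comm])
  rw [Ex_smul]
  have := Ex_ind_ph (δ := 1 / 2 ^ r) (by positivity)
    (by rw [div_le_one (by positivity)]; exact one_le_pow₀ (by norm_num))
  calc _ ≤ (2 : ℝ) ^ (r + 2) * (1 / 2 ^ r) := by gcongr
    _ = 4 := by field_simp; ring

/-- Upper bound for the discrepancy. -/
theorem disc_upper (α : ℝ) {N L : ℕ} (hN : 0 < N) (h : 2 * N + 3 < 2 ^ L) :
    N * disc α N ≤ ∑ h ∈ Icc (1 : ℕ) (4 ^ L), (kr L (h * α) + ∑ j ∈ range L, P j (h * α) + 2) / h + 4 := by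
  have et := erdos_turan (fun k => (seq k : ℝ) * α) hN (H := 4 ^ L) (by positivity)
    (η := 1 / 2 ^ L) (by positivity) (by
      push_cast; rw [div_pow, ← pow_mul, mul_comm L 2, pow_mul]; norm_num)
  rw [disc_eq]
  refine et.trans (add_le_add ?_ ?_)
  · rw [mul_sum]
    refine sum_le_sum fun h _ => ?_
    rw [← mul_div_assoc]
    gcongr
    have hM := cntE_ge (seq N)
    rw [cntE_seq] at hM
    have e := SS_cnt (seq N) (seq_pos N) (h * α)
    rw [cntE_seq] at e
    have e2 : ∑ k ∈ range N, ee (h * (seq k * α)) = SS N (h * α) :=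
      sum_congr rfl fun k _ => by congr 1; ring
    rw [e2, e]
    have a := norm_KK_le_kr L (M := seq N) (by omega) (h * α)
    have b := norm_VV_le L (M := seq N) (by omega) (h * α)
    have c := norm_sub_le ((KK (seq N) (h * α) + VV (seq N) (h * α)) / 2) 1
    have d := norm_add_le (KK (seq N) (h * α)) (VV (seq N) (h * α))
    rw [norm_div, norm_one, Complex.norm_ofNat] at c
    linarith
  · have : ((2 * N + 3 : ℕ) : ℝ) ≤ ((2 ^ L : ℕ) : ℝ) := by exact_mod_cast h.le
    push_cast at this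
    rw [mul_one_div, div_le_iff₀ (by positivity)]
    linarith

lemma P_le_small (L r : ℕ) (x : ℝ) (h : r ≤ L) : P L x ≤ 2 ^ L * (2 ^ r * ph x) ^ r := by
  obtain ⟨M, rfl⟩ := Nat.exists_eq_add_of_le h
  have a : ∀ j, ph (2 ^ j * x) ≤ 2 ^ j * ph x := fun j => by
    induction j with
    | zero => simp
    | succ j ih =>
      have := ph_ge_double (2 ^ j * x)
      rw [show 2 ^ (j + 1) * x = 2 * (2 ^ j * x) by ring, pow_succ]; linarith
  have b : P r x ≤ (2 ^ r * ph x) ^ r := by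
    calc P r x ≤ ∏ _j ∈ range r, 2 ^ r * ph x := prod_le_prod (fun _ _ => ph_nonneg _) fun j hj =>
          (a j).trans (mul_le_mul_of_nonneg_right
            (pow_le_pow_right₀ (by norm_num) (mem_range.1 hj).le) (ph_nonneg _))
      _ = _ := by simp
  rw [P_add, mul_comm]
  refine mul_le_mul ((P_le _ _).trans (pow_le_pow_right₀ (by norm_num) (by omega))) b (P_nonneg _ _)
    (by positivity)

/-- Lower bound for the discrepancy. -/
theorem disc_lower : ∃ L0 : ℕ, ∀ L, L0 ≤ L → ∀ (α : ℝ) (h : ℕ), 0 < h → rho ^ (L + 1) ≤ P (L + 1) (h * α) →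
    P (L + 1) (h * α) ≤ 64 * h * (((2 ^ L - 1 : ℕ) : ℝ) * disc α (2 ^ L - 1)) := by
  obtain ⟨L0, hL0⟩ := pow_unbounded_of_one_lt ((2 ^ 8 * 4 : ℝ) ^ 8) (by norm_num : (1 : ℝ) < 2)
  refine ⟨max L0 12, fun L hL α h h0 hP => ?_⟩
  have l1 : L0 ≤ L + 1 := by omega
  have l2 : 12 ≤ L := by omega
  have hN : cntE (2 ^ (L + 1)) = 2 ^ L - 1 := by have := cntE_pow L; omega
  have N0 : 0 < 2 ^ L - 1 := by
    have : 2 ^ 1 ≤ 2 ^ L := Nat.pow_le_pow_right (by norm_num) (by omega)
    omega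
  have k := koksma (fun k => (seq k : ℝ) * α) N0 h0
  rw [← disc_eq] at k
  have e := SS_cnt (2 ^ (L + 1)) (by positivity) (h * α)
  rw [hN] at e
  have e2 : ∑ k ∈ range (2 ^ L - 1), ee (h * (seq k * α)) = SS (2 ^ L - 1) (h * α) :=
    sum_congr rfl fun k _ => by congr 1; ring
  rw [e2] at k
  set x := h * α
  have r8 : (8 : ℝ) ≤ rho ^ (L + 1) :=
    le_trans (by norm_num) ((pow_le_pow_left₀ (by norm_num) rho_ge 13).trans
      (pow_le_pow_right₀ one_le_rho (by omega)))
  have g : ‖KK (2 ^ (L + 1)) x‖ * ph x ≤ 2 := geom_ee x _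
  have kk : ‖KK (2 ^ (L + 1)) x‖ ≤ P (L + 1) x / 2 := by
    by_contra c
    have c := not_le.1 c
    have p0 := ph_nonneg x
    have p1 : ph x * rho ^ (L + 1) ≤ 4 := by nlinarith
    have p2 := P_le_small (L + 1) 8 x (by omega)
    have p3 : (4 : ℝ) ^ (L + 1) ≤ (rho ^ (L + 1)) ^ 8 := by
      rw [← pow_mul, mul_comm, pow_mul]
      exact pow_le_pow_left₀ (by norm_num)
        (le_trans (by norm_num) (pow_le_pow_left₀ (by norm_num) rho_ge 8)) _
    have p4 : (2 ^ 8 * ph x) ^ 8 * 4 ^ (L + 1) ≤ (2 ^ 8 * 4) ^ 8 := by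
      calc _ ≤ (2 ^ 8 * ph x) ^ 8 * (rho ^ (L + 1)) ^ 8 := by gcongr
        _ = (2 ^ 8 * (ph x * rho ^ (L + 1))) ^ 8 := by ring
        _ ≤ _ := by gcongr
    have p5 : (2 ^ 8 * 4 : ℝ) ^ 8 ≤ 2 ^ (L + 1) := hL0.le.trans (pow_le_pow_right₀ (by norm_num) l1)
    have p6 : (4 : ℝ) ^ (L + 1) = 2 ^ (L + 1) * 2 ^ (L + 1) := by rw [← mul_pow]; norm_num
    have p7 : (0 : ℝ) < 2 ^ (L + 1) := by positivity
    rw [p6, ← mul_assoc] at p4
    have p8 := le_of_mul_le_mul_right ((p4.trans p5).trans_eq (one_mul _).symm) p7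
    linarith
  have v := norm_VV_pow (L + 1) x
  have e3 : VV (2 ^ (L + 1)) x = 2 * SS (2 ^ L - 1) x + 2 - KK (2 ^ (L + 1)) x := by rw [e]; ring
  have n1 := norm_sub_le (2 * SS (2 ^ L - 1) x + 2) (KK (2 ^ (L + 1)) x)
  have n2 := norm_add_le (2 * SS (2 ^ L - 1) x) 2
  rw [← e3, v] at n1
  rw [norm_mul, Complex.norm_ofNat] at n2
  have d0 : 0 ≤ (h : ℝ) * (((2 ^ L - 1 : ℕ) : ℝ) * disc α (2 ^ L - 1)) :=
    mul_nonneg (Nat.cast_nonneg _) (mul_nonneg (Nat.cast_nonneg _) (dsc_nonneg _ _))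
  nlinarith [pi_le_four]

end Pool.Agent.MP_d431d3_nt
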