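import Pool.Agent.Lib.MP_d431d3_nt.Sums

/-! Tail bounds for the Erdős–Turán majorant. -/

namespace Pool.Agent.MP_d431d3_nt

open Real Finset MeasureTheory Filter Topology

/-- Number of odd `h ≤ H` whose dilate lies in the window at scale `s h`. -/
noncomputable def NW (L H : ℕ) (s x : ℝ) : ℝ := ∑ h ∈ Od 1 H, win L (s * h) (h * x)

lemma BM_NW (L H : ℕ) (s : ℝ) : BM (NW L H s) := BM.sum _ fun _ _ => (BM_win _ _).dil _

lemma NW_nonneg (L H : ℕ) (s x : ℝ) : 0 ≤ NW L H s x := sum_nonneg fun _ _ => win_nonneg _ _ _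

lemma BM_nP (L : ℕ) : BM (nP L) := BM.of_per (continuous_nP L) (nP_per L)

lemma BM_lt {f : ℝ → ℝ} (hf : BM f) (a : ℝ) : BM fun x => ind (a < f x) :=
  BM.ind (measurableSet_lt measurable_const hf.1)

lemma sum_ind_le {y s : ℝ} (hy : 0 ≤ y) (hs : 0 < s) (S : Finset ℕ) (hS : ∀ h ∈ S, 0 < h) :
    ∑ h ∈ S, ind (s * h < y) ≤ y / s := by
  classical
  calc _ = ∑ h ∈ S.filter (fun h : ℕ => s * h < y), (1 : ℝ) := by
        rw [sum_filter]; exact sum_congr rfl fun _ _ => by unfold ind; congr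
    _ ≤ ∑ _h ∈ Icc 1 ⌊y / s⌋₊, (1 : ℝ) := sum_le_sum_of_subset_of_nonneg (fun h hh => by
        obtain ⟨a, b⟩ := mem_filter.1 hh
        exact mem_Icc.2 ⟨hS h a, Nat.le_floor (by rw [le_div_iff₀ hs]; linarith)⟩) fun _ _ _ => zero_le_one
    _ ≤ _ := by simpa using Nat.floor_le (div_nonneg hy hs.le)

lemma big_sum (L H : ℕ) {s : ℝ} (hs : 0 < s) :
    ∑ h ∈ Od 1 H, Ex (fun x => ind (s * h < nP L (h * x))) ≤ 2 / s := by
  calc _ = ∑ h ∈ Od 1 H, Ex (fun x => ind (s * h < nP L x)) := sum_congr rfl fun h hh =>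
        Ex_dilB (f := fun x => ind (s * h < nP L x)) (fun x => by simp only; rw [nP_per])
          (BM_lt (BM_nP L) _) (mem_Od.1 hh).2.pos.ne'
    _ ≤ Ex (fun x => 1 / s * nP L x) := by
        rw [← Ex_sumB _ fun h _ => BM_lt (BM_nP L) _]
        refine Ex_monoB (BM.sum _ fun h _ => BM_lt (BM_nP L) _) ((BM_nP L).smul _) fun x => ?_
        rw [one_div_mul_eq_div]
        exact sum_ind_le (nP_nonneg _ _) hs _ fun h hh => (mem_Od.1 hh).2.pos
    _ ≤ _ := by rw [Ex_smul, one_div_mul_eq_div]; gcongr; exact Ex_nP L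

lemma win_le_ind (L : ℕ) (s x : ℝ) : win L s x ≤ ind (s < nP L x) :=
  ind_le_of (ind_nonneg _) fun h => (ind_pos h.1).ge

lemma Ex_sum_mul {ι : Type*} (S T : Finset ι) {f g : ι → ℝ → ℝ} (hf : ∀ i ∈ S, BM (f i))
    (hg : ∀ i ∈ T, BM (g i)) : Ex (fun x => (∑ i ∈ S, f i x) * ∑ i ∈ T, g i x) =
    ∑ p ∈ S ×ˢ T, Ex (fun x => f p.1 x * g p.2 x) := by
  rw [← Ex_sumB _ fun p hp => (hf _ (mem_product.1 hp).1).mul (hg _ (mem_product.1 hp).2)]
  congr 1; funext x
  rw [sum_mul_sum, sum_product]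

lemma pair_all : ∃ (C : ℝ) (L0 : ℕ), 0 < C ∧ ∀ L H : ℕ, L0 ≤ L → H ≤ 2 ^ (4 * L) → ∀ s s' : ℝ,
    0 < s → 0 < s' → Ex (fun x => NW L H s x * NW L H s' x) ≤
      C * √(log (L + 1)) / (s * s') + C / (√s * √s') := by
  classical
  obtain ⟨C, L0, C0, hC⟩ := pair_bound
  refine ⟨C + 2, L0, by linarith, fun L H h0 hH s s' hs hs' => ?_⟩
  have ss : 0 < √s * √s' := mul_pos (sqrt_pos.2 hs) (sqrt_pos.2 hs')
  have h1 := hC L L L H h0 le_rfl (by omega) le_rfl (by omega) hH s s' hs hs'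
  have h2 : ∀ t : ℝ, 0 < t → (∀ (h : ℕ) x, win L (s * h) x * win L (s' * h) x ≤ win L (t * h) x) →
      ∑ p ∈ (Od 1 H ×ˢ Od 1 H).filter (fun p => ¬p.1 ≠ p.2),
      Ex (fun x => win L (s * p.1) (p.1 * x) * win L (s' * p.2) (p.2 * x)) ≤ 2 / t := fun t ht e => by
    refine le_trans (sum_le_inj (fun p => p.1) (fun p hp => (mem_product.1 (mem_filter.1 hp).1).1)
      (fun p hp r hr e => ?_) (fun p hp => ?_) fun _ _ => Ex_nonneg fun _ => ind_nonneg _)
      (big_sum L H ht)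
    · have a := not_not.1 (mem_filter.1 hp).2
      have b := not_not.1 (mem_filter.1 hr).2
      exact Prod.ext e (a.symm.trans (e.trans b))
    · rw [← not_not.1 (mem_filter.1 hp).2]
      exact Ex_monoB (((BM_win _ _).dil _).mul ((BM_win _ _).dil _)) (BM_lt ((BM_nP L).dil _) _)
        fun x => (e _ _).trans (win_le_ind _ _ _)
  have h3 := h2 s hs fun h x => mul_le_of_le_one_right (win_nonneg _ _ _) (win_le _ _ _)
  have h4 := h2 s' hs' fun h x => mul_le_of_le_one_left (win_nonneg _ _ _) (win_le _ _ _)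
  have h5 : min (2 / s) (2 / s') ≤ 2 / (√s * √s') := by
    rcases le_total s s' with h | h
    · refine (min_le_right _ _).trans ?_
      nth_rw 1 [← mul_self_sqrt hs'.le]; gcongr
    · refine (min_le_left _ _).trans ?_
      nth_rw 1 [← mul_self_sqrt hs.le]; gcongr
  unfold NW
  rw [Ex_sum_mul _ _ (fun _ _ => (BM_win _ _).dil _) fun _ _ => (BM_win _ _).dil _,
    ← sum_filter_add_sum_filter_not _ (fun p => p.1 ≠ p.2)]
  have h6 : C / (L + 1) / (√s * √s') ≤ C / (√s * √s') := by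
    gcongr; exact div_le_self C0.le (by linarith [Nat.cast_nonneg (α := ℝ) L])
  have h7 : C * √(log (L + 1)) / (s * s') ≤ (C + 2) * √(log (L + 1)) / (s * s') := by gcongr; linarith
  rw [add_div C 2]
  linarith [le_min h3 h4]

lemma Ex_var {f : ℝ → ℝ} (hf : BM f) : Ex (fun x => (f x - Ex f) ^ 2) = Ex (fun x => f x * f x) - Ex f * Ex f := by
  have : (fun x => (f x - Ex f) ^ 2) = fun x => f x * f x + ((-2 * Ex f) * f x + Ex f * Ex f) := by
    funext x; ring
  rw [this, Ex_addB (hf.mul hf) ((hf.smul _).add (BM.const _)), Ex_addB (hf.smul _) (BM.const _), Ex_smul,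
    Ex_const]
  ring

lemma small_tail : ∃ (C : ℝ) (k L0 : ℕ), 0 < C ∧ ∀ L H : ℕ, L0 ≤ L → H ≤ 2 ^ (4 * L) → ∀ s : ℝ,
    0 < s → Ex (fun x => ind (C < s * NW L H s x)) ≤ C * ((L : ℝ) + 1) ^ k * s := by
  obtain ⟨Cd, k, L0, d0, hd⟩ := div_bound
  obtain ⟨c, c0, hc⟩ := maj_family
  obtain ⟨Cm, m, m0, hm⟩ := hc 0
  obtain ⟨W, ω, A, B, η, M, -, -, -⟩ := hm 3 le_rfl
  have A0 := M.A_nonneg
  have B0 := M.B_nonneg
  have g0 := Cg_nonneg
  refine ⟨(2 * A + 1) / c + 36 * B ^ 2 * Cd * Cg ^ 2, k + 1, L0, by positivity,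
    fun L H h0 hH s hs => ?_⟩
  have pos : ∀ h ∈ Od 1 H, 0 < s * (h : ℝ) := fun h hh =>
    mul_pos hs (by exact_mod_cast (mem_Od.1 hh).1.1)
  have bm : ∀ h ∈ Od 1 H, BM fun x => FW W L (s * h) (h * x) := fun h hh => (M.BM_FW L (pos h hh)).dil _
  set G : ℝ → ℝ := fun x => ∑ h ∈ Od 1 H, FW W L (s * h) (h * x) with hG
  have bG : BM G := BM.sum _ bm
  have e1 : Ex G = ∑ h ∈ Od 1 H, Ex (FW W L (s * h)) := by
    rw [hG, Ex_sumB _ bm]
    exact sum_congr rfl fun h hh => Ex_dilB (FW_per _ _ _) (M.BM_FW L (pos h hh)) (mem_Od.1 hh).2.pos.ne'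
  have hQ : ∀ S : Finset ℤ, 0 ∉ S → √(Qs (Phi ω L) (Od 1 H) S) ≤ 3 * B * √(Cd * (L + 1) ^ k) * Cg :=
    fun S hS => M.Q_le' L _ S (by positivity) fun t =>
      hd L h0 t H _ S hH (fun a ha => ⟨(mem_Od.1 ha).2, (mem_Od.1 ha).1.2⟩) hS
  have cv := cov_bound M M L L hs hs H 1 (Od 1 H ×ˢ Od 1 H) (fun p hp => by
    obtain ⟨a, b⟩ := mem_product.1 hp
    have b1 := (mem_Od.1 b).2.pos
    exact ⟨a, b, Nat.div_pos (Nat.gcd_le_right _ b1) (Nat.gcd_pos_of_pos_right _ b1)⟩) hQ hQ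
  have e2 : Ex (fun x => (G x - Ex G) ^ 2) ≤ 36 * B ^ 2 * Cd * Cg ^ 2 * (L + 1) ^ (k + 1) / s := by
    rw [Ex_var bG, e1, hG, Ex_sum_mul _ _ bm bm, sum_mul_sum, ← sum_product', ← sum_sub_distrib]
    refine (sum_le_sum fun p _ => le_abs_self _).trans (cv.trans ?_)
    rw [mul_self_sqrt hs.le]
    refine div_le_div_of_nonneg_right ?_ hs.le
    have hH' : Hm H ≤ 4 * (L + 1) := (Hm_le hH).trans (by push_cast; linarith)
    calc _ = Hm H * (9 * B ^ 2 * Cg ^ 2 * (√(Cd * (L + 1) ^ k) * √(Cd * (L + 1) ^ k))) := by ring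
      _ ≤ 4 * (L + 1) * (9 * B ^ 2 * Cg ^ 2 * (Cd * (L + 1) ^ k)) := by
        rw [mul_self_sqrt (by positivity)]; gcongr
      _ = _ := by ring
  have bV : BM fun x => (G x - Ex G) ^ 2 := by
    simpa only [sub_eq_add_neg] using (bG.add (BM.const _)).sq
  calc _ ≤ Ex (fun x => s ^ 2 * (G x - Ex G) ^ 2) := by
        refine Ex_monoB (BM_lt ((BM_NW _ _ _).smul _) _) (bV.smul _) fun x =>
          ind_le_of (by positivity) fun h => ?_
        have a : NW L H s x ≤ G x / c := by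
          rw [hG, NW, sum_div]
          exact sum_le_sum fun h hh => M.win_le c0 L (pos h hh) _
        have b := M.sum_Ex L hs H
        rw [← e1, le_div_iff₀ hs] at b
        have d : (2 * A + 1) / c ≤ s * G x / c := by
          have := mul_le_mul_of_nonneg_left a hs.le
          have : 0 ≤ 36 * B ^ 2 * Cd * Cg ^ 2 := by positivity
          rw [mul_div_assoc]; linarith
        rw [div_le_div_iff_of_pos_right c0] at d
        rw [← mul_pow]
        exact one_le_pow₀ (by linarith)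
    _ ≤ s ^ 2 * (36 * B ^ 2 * Cd * Cg ^ 2 * (L + 1) ^ (k + 1) / s) := by rw [Ex_smul]; gcongr
    _ = 36 * B ^ 2 * Cd * Cg ^ 2 * (L + 1) ^ (k + 1) * s := by field_simp
    _ ≤ _ := by gcongr; exact le_add_of_nonneg_left (by positivity)

lemma sum_sqrt_geom {b : ℝ} (hb : 0 ≤ b) (m : ℕ) : ∑ i ∈ range m, √(b * 2 ^ i) ≤ 3 * √(b * 2 ^ m) := by
  induction m with
  | zero => simp
  | succ m ih =>
    rw [sum_range_succ, pow_succ, ← mul_assoc, sqrt_mul' _ (by norm_num : (0 : ℝ) ≤ 2)]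
    have : (4 / 3 : ℝ) ≤ √2 := le_sqrt_of_sq_le (by norm_num)
    nlinarith [sqrt_nonneg (b * 2 ^ m)]

lemma medium : ∃ (C : ℝ) (L0 : ℕ), 0 < C ∧ ∀ L H : ℕ, L0 ≤ L → H ≤ 2 ^ (4 * L) → ∀ b : ℝ, 0 < b →
    ∀ m : ℕ, Ex (fun x => (∑ i ∈ range m, 2 * (b * 2 ^ i) * NW L H (b * 2 ^ i) x) ^ 2) ≤
      C * (m ^ 2 * √(log (L + 1)) + b * 2 ^ m) := by
  obtain ⟨C, L0, C0, hC⟩ := pair_all
  refine ⟨36 * C, L0, by positivity, fun L H h0 hH b hb m => ?_⟩
  simp only [sq]
  rw [Ex_sum_mul _ _ (fun _ _ => (BM_NW _ _ _).smul _) fun _ _ => (BM_NW _ _ _).smul _]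
  calc _ ≤ ∑ p ∈ range m ×ˢ range m, (4 * C * √(log (L + 1)) + 4 * C * (√(b * 2 ^ p.1) * √(b * 2 ^ p.2))) := by
        refine sum_le_sum fun p _ => ?_
        have a1 : 0 < b * 2 ^ p.1 := by positivity
        have a2 : 0 < b * 2 ^ p.2 := by positivity
        have := hC L H h0 hH _ _ a1 a2
        generalize b * 2 ^ p.1 = s at *
        generalize b * 2 ^ p.2 = t at *
        have e : (fun x => 2 * s * NW L H s x * (2 * t * NW L H t x))
            = fun x => 4 * (s * t) * (NW L H s x * NW L H t x) := by funext x; ring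
        rw [e, Ex_smul]
        refine (mul_le_mul_of_nonneg_left this (by positivity)).trans (le_of_eq ?_)
        have e2 : s * t = (√s * √t) ^ 2 := by rw [mul_pow, sq_sqrt a1.le, sq_sqrt a2.le]
        have := mul_pos (sqrt_pos.2 a1) (sqrt_pos.2 a2)
        rw [e2]
        generalize √s * √t = u at *
        field_simp
    _ = 4 * C * √(log (L + 1)) * (m * m) + 4 * C * (∑ i ∈ range m, √(b * 2 ^ i)) ^ 2 := by
        rw [sum_add_distrib, sum_const, ← mul_sum, sq, sum_mul_sum, sum_product]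
        simp [mul_comm]
    _ ≤ 36 * C * √(log (L + 1)) * (m * m) + 4 * C * (3 * √(b * 2 ^ m)) ^ 2 := by
        gcongr
        · norm_num
        · exact sum_sqrt_geom hb.le m
    _ = _ := by rw [mul_pow, sq_sqrt (by positivity)]; ring

lemma dyad {y a b : ℝ} (ha : 0 < a) (hb : 0 < b) (n : ℕ) (h : y ≤ a * 2 ^ n * b) :
    y / b ≤ a + ∑ r ∈ range n, 2 * (a * 2 ^ r) * ind (a * 2 ^ r * b < y ∧ y ≤ 2 * (a * 2 ^ r * b)) := by
  induction n with
  | zero => simpa [div_le_iff₀ hb] using h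
  | succ n ih =>
    rw [sum_range_succ]
    by_cases c : y ≤ a * 2 ^ n * b
    · have := ind_nonneg (a * 2 ^ n * b < y ∧ y ≤ 2 * (a * 2 ^ n * b))
      have : 0 ≤ 2 * (a * 2 ^ n) * ind (a * 2 ^ n * b < y ∧ y ≤ 2 * (a * 2 ^ n * b)) := by positivity
      linarith [ih c]
    · rw [pow_succ] at h
      rw [ind_pos ⟨not_le.1 c, by linarith⟩]
      have : 0 ≤ ∑ r ∈ range n, 2 * (a * 2 ^ r) * ind (a * 2 ^ r * b < y ∧ y ≤ 2 * (a * 2 ^ r * b)) :=
        sum_nonneg fun _ _ => mul_nonneg (by positivity) (ind_nonneg _)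
      have : y / b ≤ 2 * (a * 2 ^ n) := by rw [div_le_iff₀ hb]; linarith
      linarith

noncomputable def XO (L H : ℕ) (x : ℝ) : ℝ := ∑ h ∈ Od 1 H, nP L (h * x) / h

lemma BM.div {f : ℝ → ℝ} (hf : BM f) (a : ℝ) : BM fun x => f x / a := by
  simpa only [div_eq_mul_inv] using hf.mul (BM.const _)

lemma BM_XO (L H : ℕ) : BM (XO L H) := BM.sum _ fun _ _ => ((BM_nP L).dil _).div _

lemma XO_per (L H : ℕ) : Per (XO L H) := fun x => sum_congr rfl fun h _ => by rw [(nP_per L).dil']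

lemma lt_one_of_sum {ι : Type*} {S : Finset ι} {p : ι → Prop} (h : ∑ i ∈ S, ind (p i) < 1) :
    ∀ i ∈ S, ¬p i := fun i hi c => by
  have := single_le_sum (f := fun i => ind (p i)) (fun _ _ => ind_nonneg _) hi
  rw [ind_pos c] at this; linarith

lemma XO_tail : ∃ (C : ℝ) (L0 : ℕ), 0 < C ∧ ∀ L H : ℕ, L0 ≤ L → H ≤ 2 ^ (4 * L) → ∀ s : ℝ,
    (L : ℝ) + 1 ≤ s → Ex (fun x => ind (C * s < XO L H x)) ≤ C / s := by
  obtain ⟨C1, k, L1, c1, h1⟩ := small_tail
  obtain ⟨C2, L2, c2, h2⟩ := medium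
  obtain ⟨C3, c3, h3⟩ := poly_le_exp 3 (η := 2) (by norm_num)
  refine ⟨8 * C1 + 2 * C2 * ((k + 2) ^ 2 * C3 + 1) + 2, max L1 L2, by positivity,
    fun L H h0 hH s hs => ?_⟩
  have L0 : (0 : ℝ) ≤ L := Nat.cast_nonneg L
  have s0 : 0 < s := by linarith
  obtain ⟨l, l1, l2⟩ : ∃ l : ℕ, s ≤ 2 ^ l ∧ 2 ^ l ≤ 2 * s := by
    obtain ⟨n, a, b⟩ := exists_nat_pow_near (x := s) (y := 2) (by linarith) (by norm_num)
    exact ⟨n + 1, b.le, by rw [pow_succ]; linarith⟩
  set b : ℝ := 1 / 2 ^ ((k + 1) * l) with hb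
  have b0 : 0 < b := by positivity
  have b1 : b ≤ 1 / s ^ (k + 1) := by rw [hb, mul_comm, pow_mul]; gcongr
  have b2 : b ≤ 1 := by rw [hb, div_le_one (by positivity)]; exact one_le_pow₀ (by norm_num)
  set m := (k + 2) * l with hm
  have b3 : b * 2 ^ m = 2 ^ l := by rw [hb, hm]; field_simp; ring
  set a : ℝ := b / 2 ^ (4 * L) with ha
  have a0 : 0 < a := by positivity
  have a1 : ∀ i, a * 2 ^ (4 * L + i) = b * 2 ^ i := fun i => by rw [ha, pow_add]; field_simp
  set Z : ℝ → ℝ := fun x => ∑ i ∈ range m, 2 * (b * 2 ^ i) * NW L H (b * 2 ^ i) x with hZ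
  have bZ : BM Z := BM.sum _ fun _ _ => (BM_NW _ _ _).smul _
  have t1 : ∀ r ∈ range (4 * L), BM fun x => ind (C1 < a * 2 ^ r * NW L H (a * 2 ^ r) x) :=
    fun _ _ => BM_lt ((BM_NW _ _ _).smul _) _
  have t2 : ∀ h ∈ Od 1 H, BM fun x => ind (s * h < nP L (h * x)) :=
    fun _ _ => BM_lt ((BM_nP L).dil _) _
  calc _ ≤ Ex (fun x => ∑ r ∈ range (4 * L), ind (C1 < a * 2 ^ r * NW L H (a * 2 ^ r) x)
        + (1 / s ^ 2 * Z x ^ 2 + ∑ h ∈ Od 1 H, ind (s * h < nP L (h * x)))) := by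
        refine Ex_monoB (BM_lt (BM_XO _ _) _) ((BM.sum _ t1).add ((bZ.sq.smul _).add (BM.sum _ t2)))
          fun x => ?_
        have u1 : 0 ≤ ∑ r ∈ range (4 * L), ind (C1 < a * 2 ^ r * NW L H (a * 2 ^ r) x) :=
          sum_nonneg fun _ _ => ind_nonneg _
        have u2 : 0 ≤ ∑ h ∈ Od 1 H, ind (s * h < nP L (h * x)) := sum_nonneg fun _ _ => ind_nonneg _
        have u3 : 0 ≤ 1 / s ^ 2 * Z x ^ 2 := by positivity
        refine ind_le_of (by positivity) fun h => ?_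
        by_contra c
        have c := not_le.1 c
        have v1 := lt_one_of_sum (by linarith :
          ∑ r ∈ range (4 * L), ind (C1 < a * 2 ^ r * NW L H (a * 2 ^ r) x) < 1)
        have v2 := lt_one_of_sum (by linarith : ∑ h ∈ Od 1 H, ind (s * h < nP L (h * x)) < 1)
        have v3 : Z x ≤ s := by
          refine le_of_sq s0.le ?_
          have : 1 / s ^ 2 * Z x ^ 2 ≤ 1 := by linarith
          rwa [one_div_mul_eq_div, div_le_one (by positivity)] at this
        have v4 : XO L H x ≤ ∑ h ∈ Od 1 H, (a + ∑ r ∈ range (4 * L + m),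
            2 * (a * 2 ^ r) * win L (a * 2 ^ r * h) (h * x)) := sum_le_sum fun h hh => by
          have h' : (0 : ℝ) < h := by exact_mod_cast (mem_Od.1 hh).1.1
          refine dyad a0 h' _ ((not_lt.1 (v2 h hh)).trans ?_)
          rw [a1, b3]; gcongr
        rw [sum_add_distrib, sum_comm, sum_range_add] at v4
        simp only [← mul_sum, a1] at v4
        have v5 : ∑ _h ∈ Od 1 H, a ≤ 1 := by
          have : (Od 1 H).card ≤ 2 ^ (4 * L) :=
            (card_filter_le _ _).trans (by simpa using hH)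
          have : ((Od 1 H).card : ℝ) ≤ 2 ^ (4 * L) := by exact_mod_cast this
          rw [sum_const, nsmul_eq_mul, ha, mul_div_assoc', div_le_one (by positivity)]
          exact (mul_le_of_le_one_right (Nat.cast_nonneg _) b2).trans this
        have v6 : ∑ r ∈ range (4 * L), 2 * (a * 2 ^ r) * NW L H (a * 2 ^ r) x ≤ 4 * L * (2 * C1) := by
          refine (sum_le_card_nsmul _ _ (2 * C1) fun r hr => ?_).trans (by simp)
          linarith [not_lt.1 (v1 r hr)]
        have v7 : 0 ≤ 2 * C2 * ((k + 2) ^ 2 * C3 + 1) * s := by positivity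
        change _ ≤ _ + (∑ r ∈ range (4 * L), 2 * (a * 2 ^ r) * NW L H (a * 2 ^ r) x + Z x) at v4
        nlinarith
    _ ≤ C1 / s + (2 * C2 * ((k + 2) ^ 2 * C3 + 1) / s + 2 / s) := by
        rw [Ex_addB (BM.sum _ t1) ((bZ.sq.smul _).add (BM.sum _ t2)), Ex_addB (bZ.sq.smul _) (BM.sum _ t2),
          Ex_sumB _ t1, Ex_sumB _ t2, Ex_smul]
        refine add_le_add ?_ (add_le_add ?_ (big_sum L H s0))
        · refine (sum_le_sum fun r _ => h1 L H (by omega) hH _ (by positivity)).trans ?_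
          rw [← mul_sum, ← mul_sum]
          have : ∑ r ∈ range (4 * L), (2 : ℝ) ^ r ≤ 2 ^ (4 * L) := by
            rw [geom_sum_eq (by norm_num)]; norm_num
          calc _ ≤ C1 * s ^ k * (a * 2 ^ (4 * L)) := by gcongr
            _ ≤ C1 * s ^ k * (1 / s ^ (k + 1)) := by
              rw [ha, div_mul_cancel₀ _ (by positivity)]; gcongr
            _ = _ := by field_simp; ring
        · have w := h2 L H (by omega) hH b b0 m
          rw [b3] at w
          have w1 : √(log (L + 1)) ≤ l + 1 := by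
            have : log (L + 1) ≤ l := by
              refine (log_le_log (by linarith) (hs.trans l1)).trans ?_
              rw [log_pow]
              exact mul_le_of_le_one_right (Nat.cast_nonneg _) (by linarith [log_two_lt_d9])
            rw [sqrt_le_left (by positivity)]
            nlinarith [Nat.cast_nonneg (α := ℝ) l]
          have w2 : (m : ℝ) ^ 2 * √(log (L + 1)) ≤ (k + 2) ^ 2 * C3 * 2 ^ l := by
            calc _ ≤ ((k + 2) * (l + 1)) ^ 2 * (l + 1 : ℝ) := by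
                  rw [hm]; push_cast; gcongr; linarith
              _ = (k + 2) ^ 2 * ((l : ℝ) + 1) ^ 3 := by ring
              _ ≤ _ := by rw [mul_assoc]; gcongr; exact h3 l
          calc _ ≤ 1 / s ^ 2 * (C2 * ((k + 2) ^ 2 * C3 * (2 * s) + 2 * s)) := by
                refine mul_le_mul_of_nonneg_left (w.trans ?_) (by positivity)
                exact mul_le_mul_of_nonneg_left (add_le_add (w2.trans (by gcongr)) l2) c2.le
            _ = _ := by field_simp
    _ ≤ _ := by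
        rw [← add_div, ← add_div]; exact div_le_div_of_nonneg_right (by linarith) s0.le

lemma union_tail {ι : Type*} (S : Finset ι) {f : ℝ → ℝ} {g : ι → ℝ → ℝ} {w t : ι → ℝ} {T : ℝ}
    (hf : BM f) (hg : ∀ i ∈ S, BM (g i)) (hw : ∀ i ∈ S, 0 ≤ w i) (h : ∀ x, f x ≤ ∑ i ∈ S, w i * g i x)
    (hT : ∑ i ∈ S, w i * t i ≤ T) :
    Ex (fun x => ind (T < f x)) ≤ ∑ i ∈ S, Ex (fun x => ind (t i < g i x)) := by
  rw [← Ex_sumB _ fun i hi => BM_lt (hg i hi) _]
  refine Ex_monoB (BM_lt hf _) (BM.sum _ fun i hi => BM_lt (hg i hi) _) fun x =>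
    ind_le_of (sum_nonneg fun _ _ => ind_nonneg _) fun c => ?_
  by_contra d
  have := lt_one_of_sum (not_le.1 d)
  have : ∑ i ∈ S, w i * g i x ≤ ∑ i ∈ S, w i * t i :=
    sum_le_sum fun i hi => mul_le_mul_of_nonneg_left (not_lt.1 (this i hi)) (hw i hi)
  linarith [h x]

lemma markov {f : ℝ → ℝ} (hf : BM f) (h0 : ∀ x, 0 ≤ f x) {T : ℝ} (hT : 0 < T) :
    Ex (fun x => ind (T < f x)) ≤ Ex f / T := by
  rw [← one_div_mul_eq_div, ← Ex_smul]
  refine Ex_monoB (BM_lt hf _) (hf.smul _) fun x => ind_le_of (by have := h0 x; positivity) fun c => ?_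
  rw [one_div_mul_eq_div, le_div_iff₀ hT]; linarith

lemma geom_le {r : ℝ} (h0 : 0 ≤ r) (h1 : r < 1) (n : ℕ) : ∑ i ∈ range n, r ^ i ≤ (1 - r)⁻¹ := by
  rw [← tsum_geometric_of_lt_one h0 h1]
  exact (summable_geometric_of_lt_one h0 h1).sum_le_tsum _ fun _ _ => by positivity

noncomputable def XA (L H : ℕ) (x : ℝ) : ℝ := ∑ h ∈ Icc 1 H, nP L (h * x) / h

lemma BM_XA (L H : ℕ) : BM (XA L H) := BM.sum _ fun _ _ => ((BM_nP L).dil _).div _

lemma XA_nonneg (L H : ℕ) (x : ℝ) : 0 ≤ XA L H x :=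
  sum_nonneg fun _ _ => div_nonneg (nP_nonneg _ _) (Nat.cast_nonneg _)

lemma Ex_sum_dil {f : ℝ → ℝ} (hf : BM f) (hp : Per f) (H : ℕ) :
    Ex (fun x => ∑ h ∈ Icc 1 H, f (h * x) / h) = Ex f * Hm H := by
  rw [Ex_sumB _ fun _ _ => (hf.dil _).div _, Hm, mul_sum]
  refine sum_congr rfl fun h hh => ?_
  rw [Ex, intervalIntegral.integral_div, mul_one_div]
  congr 1
  exact Ex_dilB hp hf (by have := (mem_Icc.1 hh).1; omega)

lemma XA_le (L H : ℕ) (x : ℝ) : XA L H x ≤ ∑ v ∈ range (H + 1), 1 / 2 ^ v * XO L H (2 ^ v * x) := by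
  have : ∀ h : ℕ, ∃ v m : ℕ, h ≠ 0 → Odd m ∧ h = 2 ^ v * m := fun h => by
    by_cases c : h = 0
    · exact ⟨0, 0, fun d => absurd c d⟩
    · obtain ⟨v, m, a⟩ := Nat.exists_eq_two_pow_mul_odd c
      exact ⟨v, m, fun _ => a⟩
  choose v m hv using this
  simp only [XO, mul_sum]
  rw [← sum_product']
  refine sum_le_inj (fun h => (v h, m h)) (fun h hh => ?_) (fun h hh k hk e => ?_) (fun h hh => ?_)
    fun p _ => by have := nP_nonneg L (p.2 * (2 ^ p.1 * x)); positivity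
  · obtain ⟨a, b⟩ := mem_Icc.1 hh
    obtain ⟨c, d⟩ := hv h (by omega)
    have e1 : v h < 2 ^ v h := Nat.lt_two_pow_self
    have e2 := c.pos
    exact mem_product.2 ⟨mem_range.2 (by simp only; nlinarith), mem_Od.2 ⟨⟨e2, by simp only; nlinarith⟩, c⟩⟩
  · simp only [Prod.mk.injEq] at e
    have a := (mem_Icc.1 (mem_coe.1 hh)).1
    have b := (mem_Icc.1 (mem_coe.1 hk)).1
    rw [(hv h (by omega)).2, (hv k (by omega)).2, e.1, e.2]
  · obtain ⟨a, b⟩ := mem_Icc.1 hh
    have d : (h : ℝ) = 2 ^ v h * m h := by exact_mod_cast (hv h (by omega)).2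
    simp only
    rw [d, show 2 ^ v h * m h * x = m h * (2 ^ v h * x) by ring]
    exact le_of_eq (by ring)

lemma XA_tail : ∃ (C : ℝ) (L0 : ℕ), 0 < C ∧ ∀ L H : ℕ, L0 ≤ L → H ≤ 2 ^ (4 * L) → ∀ s : ℝ,
    (L : ℝ) + 1 ≤ s → Ex (fun x => ind (C * s < XA L H x)) ≤ C / s := by
  obtain ⟨C, L0, c0, hC⟩ := XO_tail
  refine ⟨4 * C, L0, by positivity, fun L H h0 hH s hs => ?_⟩
  have s0 : 0 < s := by linarith [Nat.cast_nonneg (α := ℝ) L]
  refine (union_tail _ (t := fun v => C * ((4 / 3) ^ v * s)) (BM_XA _ _) (fun _ _ => (BM_XO _ _).dil _)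
    (fun _ _ => by positivity) (XA_le L H) ?_).trans ?_
  · calc _ = C * s * ∑ v ∈ range (H + 1), (2 / 3 : ℝ) ^ v := by
          rw [mul_sum]; refine sum_congr rfl fun v _ => ?_
          rw [show (4 / 3 : ℝ) = 2 * (2 / 3) by norm_num, mul_pow]; field_simp
      _ ≤ C * s * (1 - 2 / 3)⁻¹ := by gcongr; exact geom_le (by norm_num) (by norm_num) _
      _ ≤ _ := by nlinarith [mul_pos c0 s0]
  · calc _ ≤ ∑ v ∈ range (H + 1), C / s * (3 / 4 : ℝ) ^ v := sum_le_sum fun v _ => by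
          have := Ex_dilB (f := fun x => ind (C * ((4 / 3) ^ v * s) < XO L H x))
            (fun x => by simp only; rw [XO_per]) (BM_lt (BM_XO _ _) _) (a := 2 ^ v) (by positivity)
          push_cast at this
          rw [this]
          refine (hC L H h0 hH _ (hs.trans (le_mul_of_one_le_left s0.le
            (one_le_pow₀ (by norm_num))))).trans (le_of_eq ?_)
          rw [div_pow, div_pow]; field_simp
      _ ≤ C / s * (1 - 3 / 4)⁻¹ := by rw [← mul_sum]; gcongr; exact geom_le (by norm_num) (by norm_num) _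
      _ = _ := by ring

/-- The Erdős–Turán majorant. -/
noncomputable def UU (L : ℕ) (x : ℝ) : ℝ :=
  ∑ h ∈ Icc (1 : ℕ) (4 ^ L), (kr L (h * x) + ∑ j ∈ range L, P j (h * x) + 2) / h + 4

lemma UU_per (L : ℕ) : Per (UU L) := fun x => by
  unfold UU; simp only [(kr_per L).dil', (P_per _).dil']

lemma BM_UU (L : ℕ) : BM (UU L) := (BM.sum _ fun _ _ => ((((BM_kr L).dil _).add (BM.sum _ fun j _ =>
  (BM.of_per (continuous_P j) (P_per j)).dil _)).add (BM.const _)).div _).add (BM.const _)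

theorem UU_tail : ∃ (C : ℝ) (L0 : ℕ), 0 < C ∧ ∀ L : ℕ, L0 ≤ L → ∀ s : ℝ,
    (L : ℝ) + 1 ≤ s → Ex (fun x => ind (C * (rho ^ L * s) < UU L x)) ≤ C / s := by
  obtain ⟨C, L0, c0, hC⟩ := XA_tail
  obtain ⟨C1, c1, h1⟩ := poly_le_exp 1 (η := 21 / 20) (by norm_num)
  obtain ⟨C2, c2, h2⟩ := poly_le_exp 2 (η := rho) (by linarith [rho_ge])
  refine ⟨21 * C1 * (C + 8 / C) + 12 * C2, 2 * L0, by positivity, fun L h0 s hs => ?_⟩
  have l0 := Nat.cast_nonneg (α := ℝ) L
  have s0 : 0 < s := by linarith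
  have r0 := pow_pos rho_pos L
  have hH : Hm (4 ^ L) ≤ 2 * L + 1 := by
    have := Hm_le (X := 4 ^ L) (n := 2 * L) (by rw [pow_mul]; norm_num)
    exact_mod_cast this
  have a1 : ∀ j ∈ range L, ∀ t : ℝ, (L : ℝ) + 1 ≤ t → Ex (fun x => ind (C * t < XA j (4 ^ L) x)) ≤
      (C + 8 / C) * ((L - 1 - j : ℕ) + 1) / t := fun j hj t ht => by
    have t0 : 0 < t := by linarith
    have j1 := mem_range.1 hj
    have i0 := Nat.cast_nonneg (α := ℝ) (L - 1 - j)
    have p : 0 < 8 / C := by positivity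
    rcases le_or_gt L (2 * j) with c | c
    · refine (hC j _ (by omega) (by
        rw [show 4 = 2 ^ 2 by norm_num, ← pow_mul]; exact Nat.pow_le_pow_right (by norm_num) (by omega)) t
        (le_trans (by gcongr) ht)).trans (div_le_div_of_nonneg_right (by nlinarith) t0.le)
    · refine (markov (BM_XA _ _) (XA_nonneg _ _) (by positivity)).trans ?_
      rw [← div_div]
      refine div_le_div_of_nonneg_right ?_ t0.le
      have e := Ex_sum_dil (BM_nP j) (nP_per j) (4 ^ L)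
      have : (L : ℝ) ≤ 2 * (L - 1 - j : ℕ) + 1 := by exact_mod_cast (by omega)
      have : Ex (XA j (4 ^ L)) ≤ 8 * ((L - 1 - j : ℕ) + 1) :=
        (e.trans_le (mul_le_mul (Ex_nP j) hH (Hm_nonneg _) (by norm_num))).trans (by linarith)
      calc _ ≤ 8 * (((L - 1 - j : ℕ) : ℝ) + 1) / C := by gcongr
        _ = (0 + 8 / C) * ((L - 1 - j : ℕ) + 1) := by ring
        _ ≤ _ := by gcongr
  set K : ℝ → ℝ := fun x => ∑ h ∈ Icc (1 : ℕ) (4 ^ L), (kr L (h * x) + 2) / h + 4 with hK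
  have bK : BM fun x => kr L x + 2 := (BM_kr L).add (BM.const _)
  have bK1 : BM fun x => ∑ h ∈ Icc (1 : ℕ) (4 ^ L), (kr L (h * x) + 2) / h :=
    BM.sum _ fun _ _ => (bK.dil _).div _
  set V : ℝ → ℝ := fun x => ∑ j ∈ range L, rho ^ j * XA j (4 ^ L) x with hV
  have bV : BM V := BM.sum _ fun _ _ => (BM_XA _ _).smul _
  have e : ∀ x, UU L x = K x + V x := fun x => by
    simp only [UU, hK, hV, XA, mul_sum]
    rw [sum_comm, add_right_comm, ← sum_add_distrib]
    congr 1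
    refine sum_congr rfl fun h _ => ?_
    rw [add_right_comm, add_div, sum_div]
    congr 1
    refine sum_congr rfl fun j _ => ?_
    have := pow_pos rho_pos j
    unfold nP; field_simp
  have t1 : Ex (fun x => ind (rho ^ L * s < K x)) ≤ 12 * C2 / s := by
    refine (markov (bK1.add (BM.const _)) (fun x => add_nonneg (sum_nonneg fun h _ => by
      have := kr_nonneg L (h * x); positivity) (by norm_num)) (by positivity)).trans ?_
    rw [← div_div]
    refine div_le_div_of_nonneg_right ?_ s0.le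
    rw [div_le_iff₀ r0, Ex_addB bK1 (BM.const _), Ex_const,
      Ex_sum_dil bK (fun x => congrArg (· + 2) (kr_per L x)), Ex_addB (BM_kr L) (BM.const _), Ex_const]
    have := mul_le_mul (add_le_add_left (Ex_kr L) 2) hH (Hm_nonneg _) (by positivity)
    nlinarith [h2 L]
  have t2 : Ex (fun x => ind (13 * C * (rho ^ L * s) < V x)) ≤ 21 * C1 * (C + 8 / C) / s := by
    refine (union_tail _ (t := fun j => C * (((21 / 20) ^ 2) ^ (L - 1 - j) * s)) bV
      (fun _ _ => BM_XA _ _) (fun _ _ => (pow_pos rho_pos _).le) (fun _ => le_rfl) ?_).trans ?_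
    · calc _ ≤ ∑ j ∈ range L, C * (rho ^ L * s) * (12 / 13 : ℝ) ^ (L - 1 - j) := sum_le_sum fun j hj => by
            have j1 := mem_range.1 hj
            have r1 := rho_pos
            calc _ ≤ rho ^ j * (C * ((rho * (12 / 13)) ^ (L - 1 - j) * s)) := by
                  gcongr; linarith [rho_ge]
              _ = C * (rho ^ (j + (L - 1 - j)) * s) * (12 / 13 : ℝ) ^ (L - 1 - j) := by
                  rw [mul_pow, pow_add]; ring
              _ ≤ _ := by gcongr; exacts [one_le_rho, by omega]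
        _ ≤ C * (rho ^ L * s) * (1 - 12 / 13)⁻¹ := by
            rw [← mul_sum, sum_range_reflect (fun i => (12 / 13 : ℝ) ^ i)]
            gcongr; exact geom_le (by norm_num) (by norm_num) _
        _ = _ := by ring
    · calc _ ≤ ∑ j ∈ range L, C1 * (C + 8 / C) / s * (20 / 21 : ℝ) ^ (L - 1 - j) := sum_le_sum fun j hj => by
            refine (a1 j hj _ (hs.trans (le_mul_of_one_le_left s0.le
              (one_le_pow₀ (by norm_num))))).trans ?_
            have := h1 (L - 1 - j)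
            rw [pow_one] at this
            refine (div_le_div_of_nonneg_right (mul_le_mul_of_nonneg_left this (by positivity))
              (by positivity)).trans (le_of_eq ?_)
            rw [sq, mul_pow, div_pow, div_pow]; field_simp
        _ ≤ C1 * (C + 8 / C) / s * (1 - 20 / 21)⁻¹ := by
            rw [← mul_sum, sum_range_reflect (fun i => (20 / 21 : ℝ) ^ i)]
            gcongr; exact geom_le (by norm_num) (by norm_num) _
        _ = _ := by ring
  rw [add_div _ (12 * C2), add_comm (_ / s)]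
  refine le_trans ?_ (add_le_add t1 t2)
  rw [← Ex_addB (BM_lt (bK1.add (BM.const _)) _) (BM_lt bV _)]
  refine Ex_monoB (BM_lt (BM_UU L) _) ((BM_lt (bK1.add (BM.const _)) _).add (BM_lt bV _)) fun x =>
    ind_le_of (add_nonneg (ind_nonneg _) (ind_nonneg _)) fun c => ?_
  have p : 0 < 8 / C := by positivity
  have : 13 * C + 1 ≤ 21 * C1 * (C + 8 / C) + 12 * C2 := by nlinarith
  have := mul_le_mul_of_nonneg_right this (mul_pos r0 s0).le
  by_cases d : rho ^ L * s < K x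
  · rw [ind_pos d]; linarith [ind_nonneg (13 * C * (rho ^ L * s) < V x)]
  · rw [ind_neg d, ind_pos (by linarith [e x])]; norm_num

/-- Lebesgue measure on one period. -/
noncomputable abbrev mu : Measure ℝ := volume.restrict (Set.Ioc (0 : ℝ) 1)

lemma ae_of_per {p : ℝ → Prop} (hp : Per p) (h : ∀ᵐ x ∂mu, p x) : ∀ᵐ x, p x := by
  rw [ae_restrict_iff' measurableSet_Ioc] at h
  have : ∀ n : ℤ, ∀ᵐ x : ℝ, x - n ∈ Set.Ioc (0 : ℝ) 1 → p (x - n) := fun n =>
    (measurePreserving_sub_right volume (n : ℝ)).quasiMeasurePreserving.ae h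
  filter_upwards [ae_all_iff.2 this] with x hx
  have := hx (⌈x⌉ - 1) ⟨by push_cast; linarith [Int.ceil_lt_add_one x], by
    push_cast; linarith [Int.le_ceil x]⟩
  rwa [← hp.int (⌈x⌉ - 1), sub_add_cancel] at this

lemma Ex_ind_eq {p : ℝ → Prop} (hp : MeasurableSet {x | p x}) :
    Ex (fun x => ind (p x)) = mu.real {x | p x} := by
  rw [Ex, intervalIntegral.integral_of_le zero_le_one, ← integral_indicator_one hp]
  congr 1

lemma bc {p : ℕ → ℝ → Prop} (hp : ∀ n, MeasurableSet {x | p n x}) {u : ℕ → ℝ} (hu : Summable u) (n0 : ℕ)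
    (h : ∀ n, n0 ≤ n → Ex (fun x => ind (p n x)) ≤ u n) : ∀ᵐ x ∂mu, ∀ᶠ n in atTop, ¬p n x := by
  have h1 : ∑' n, mu {x | p (n + n0) x} ≠ ⊤ := by
    refine ne_top_of_le_ne_top ((summable_nat_add_iff n0).2 hu).tsum_ofReal_ne_top
      (ENNReal.tsum_le_tsum fun n => ?_)
    rw [← ofReal_measureReal, ← Ex_ind_eq (hp _)]
    exact ENNReal.ofReal_le_ofReal (h _ (by omega))
  filter_upwards [ae_eventually_notMem h1] with x hx
  obtain ⟨a, ha⟩ := eventually_atTop.1 hx
  exact eventually_atTop.2 ⟨a + n0, fun n hn => by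
    have := ha (n - n0) (by omega)
    rwa [Nat.sub_add_cancel (by omega)] at this⟩

lemma log2_bounds {N : ℕ} (hN : 0 < N) : (Nat.log 2 N : ℝ) ≤ 3 / 2 * log N ∧ log N ≤ Nat.log 2 N + 1 := by
  have a : ((2 ^ Nat.log 2 N : ℕ) : ℝ) ≤ N := by exact_mod_cast Nat.pow_log_le_self 2 hN.ne'
  have b : (N : ℝ) ≤ ((2 ^ (Nat.log 2 N + 1) : ℕ) : ℝ) := by
    exact_mod_cast (Nat.lt_pow_succ_log_self (by norm_num) N).le
  have a1 := log_le_log (by positivity) a
  have b1 := log_le_log (by exact_mod_cast hN) b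
  push_cast at a1 b1
  rw [log_pow] at a1 b1
  push_cast at b1
  have := Nat.cast_nonneg (α := ℝ) (Nat.log 2 N)
  constructor <;> nlinarith [log_two_gt_d9, log_two_lt_d9]

theorem upper {κ : ℝ} (κ0 : 0 ≤ κ) (hκ : (2 : ℝ) ^ κ = rho) {φ : ℝ → ℝ} (hm : Monotone φ)
    (hp : ∀ x, 0 < φ x) (hs : Summable fun n : ℕ => 1 / φ n) :
    ∀ᵐ α : ℝ, (fun N : ℕ => (N : ℝ) * disc α N) =O[atTop]
      fun N : ℕ => (N : ℝ) ^ κ * log N * φ (log (log N)) := by
  obtain ⟨C, L0, c0, hC⟩ := UU_tail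
  set ψ : ℕ → ℝ := fun L => (L + 1) * (φ (Nat.log 4 (L / 2) : ℕ) / φ 0) with hψ
  have p0 := hp 0
  have ψ1 : ∀ L : ℕ, (L : ℝ) + 1 ≤ ψ L := fun L => le_mul_of_one_le_right (by positivity)
    ((one_le_div p0).2 (hm (Nat.cast_nonneg _)))
  have ψ0 : ∀ L, 0 < ψ L := fun L => lt_of_lt_of_le (by positivity) (ψ1 L)
  have ψ2 : Summable fun L => C / ψ L := by
    refine (summable_condensed_iff_of_nonneg (fun L => (div_pos c0 (ψ0 L)).le) fun m n _ h => ?_).1 ?_
    · refine div_le_div_of_nonneg_left c0.le (ψ0 m) ?_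
      have := hp (Nat.log 4 (m / 2) : ℕ)
      simp only [hψ]
      gcongr
      exact hm (by exact_mod_cast Nat.log_mono_right (Nat.div_le_div_right h))
    · have s1 : Summable fun k : ℕ => C * φ 0 * (1 / φ (k / 2 : ℕ)) := by
        refine Summable.mul_left _ (Summable.even_add_odd ?_ ?_)
        · simpa using hs
        · simpa [show ∀ k : ℕ, (2 * k + 1) / 2 = k from fun k => by omega] using hs
      rw [← summable_nat_add_iff 1]
      refine s1.of_nonneg_of_le (fun k => by have := ψ0 (2 ^ (k + 1)); positivity) fun k => ?_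
      have a : φ (k / 2 : ℕ) ≤ φ (Nat.log 4 (2 ^ (k + 1) / 2) : ℕ) := hm (by
        rw [pow_succ, Nat.mul_div_cancel _ two_pos, Nat.cast_le]
        refine Nat.le_log_of_pow_le (by norm_num) ?_
        rw [show 4 = 2 ^ 2 by norm_num, ← pow_mul]
        exact Nat.pow_le_pow_right (by norm_num) (by omega))
      have b := hp (k / 2 : ℕ)
      calc _ ≤ (2 : ℝ) ^ (k + 1) * (C / (2 ^ (k + 1) * (φ (k / 2 : ℕ) / φ 0))) := by
            simp only [hψ]; push_cast; gcongr; linarith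
        _ = _ := by field_simp
  have key := ae_of_per (p := fun x => ∀ᶠ L in atTop, ¬C * (rho ^ L * ψ L) < UU L x)
    (fun x => by simp only [UU_per _ x])
    (bc (fun L => measurableSet_lt measurable_const (BM_UU L).1) ψ2 L0 fun L hL => hC L hL _ (ψ1 L))
  filter_upwards [key] with α hα
  refine Asymptotics.IsBigO.of_bound (C * 8 * 3 / φ 0) ?_
  have t1 : Tendsto (fun N => Nat.log 2 N + 3) atTop atTop :=
    tendsto_atTop_mono (fun N => Nat.le_add_right _ _) (tendsto_atTop.2 fun b =>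
      (eventually_ge_atTop (2 ^ b)).mono fun N hN => Nat.le_log_of_pow_le (by norm_num) hN)
  have t2 : Tendsto (fun N : ℕ => log N) atTop atTop := tendsto_log_atTop.comp tendsto_natCast_atTop_atTop
  filter_upwards [t1.eventually hα, t2.eventually_ge_atTop 6, eventually_gt_atTop 0] with N h1 h2 h3
  have N0 : (0 : ℝ) < N := by exact_mod_cast h3
  set L := Nat.log 2 N + 3 with hL
  have d := disc_upper α h3 (L := L) (by
    have := Nat.lt_pow_succ_log_self (b := 2) (by norm_num) N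
    rw [hL, pow_add]; rw [pow_succ] at this; omega)
  have b := (log2_bounds h3).1
  have q := hp (log (log N))
  rw [norm_eq_abs, norm_eq_abs, abs_of_nonneg (mul_nonneg N0.le (by rw [disc_eq]; exact dsc_nonneg _ _)),
    abs_of_nonneg (by positivity)]
  refine (d.trans (not_lt.1 h1)).trans ?_
  have e1 : rho ^ L ≤ 8 * (N : ℝ) ^ κ := by
    rw [hL, pow_add, mul_comm]
    refine mul_le_mul ((pow_le_pow_left₀ rho_pos.le rho_le_two 3).trans (by norm_num)) ?_
      (pow_pos rho_pos _).le (by norm_num)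
    rw [← hκ, ← rpow_natCast, ← rpow_mul (by norm_num), mul_comm, rpow_mul (by norm_num), rpow_natCast]
    exact rpow_le_rpow (by positivity) (by exact_mod_cast Nat.pow_log_le_self 2 h3.ne') κ0
  have e2 : (L : ℝ) ≤ 2 * log N := by rw [hL]; push_cast; linarith
  have e3 : ((Nat.log 4 (L / 2) : ℕ) : ℝ) ≤ log (log N) := by
    rw [le_log_iff_exp_le (by linarith), ← exp_one_pow]
    have f1 : ((4 ^ Nat.log 4 (L / 2) : ℕ) : ℝ) ≤ (L / 2 : ℕ) := by
      exact_mod_cast Nat.pow_log_le_self 4 (by omega)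
    have f2 : ((L / 2 : ℕ) : ℝ) ≤ L / 2 := Nat.cast_div_le
    push_cast at f1
    refine (pow_le_pow_left₀ (exp_pos _).le (by linarith [exp_one_lt_d9] : exp 1 ≤ 4) _).trans ?_
    linarith
  calc _ ≤ C * (8 * (N : ℝ) ^ κ * (3 * log N * (φ (log (log N)) / φ 0))) := by
        have := hp (Nat.log 4 (L / 2) : ℕ)
        simp only [hψ]
        gcongr
        · linarith
        · exact hm e3
    _ = _ := by ring

end Pool.Agent.MP_d431d3_nt
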